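import Mathlib

set_option autoImplicit false

/-!
The Maker-Breaker clique game on the complete graph with vertex set `ℕ`.
-/

namespace Pool.Agent.Helper679.CliqueGame

/-- The board: the edge set of the complete graph on the vertex set `ℕ`. -/
def board : Set (Sym2 ℕ) := (⊤ : SimpleGraph ℕ).edgeSet

/-- A strategy (for either player): it looks at the list of all edges claimed so far (last move
first) and claims an edge of the board that is not claimed yet. -/
structure Strategy where
  /-- The edge to claim after the given history. -/
  move : List (Sym2 ℕ) → Sym2 ℕ
  /-- The claimed edge belongs to the board. -/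
  mem_board : ∀ h, move h ∈ board
  /-- The claimed edge was not claimed before. -/
  not_mem : ∀ h, move h ∉ h

/-- The history (last move first) after `n` rounds when Maker plays `μ` and Breaker plays `β`; in
every round Maker claims one edge and then Breaker claims one edge. -/
def hist (μ β : Strategy) : ℕ → List (Sym2 ℕ)
  | 0 => []
  | n + 1 => β.move (μ.move (hist μ β n) :: hist μ β n) :: μ.move (hist μ β n) :: hist μ β n

/-- The set of the edges claimed by Maker in his first `m` moves. -/
def makerEdges (μ β : Strategy) (m : ℕ) : Set (Sym2 ℕ) :=
  {e | ∃ i < m, e = μ.move (hist μ β i)}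

/-- The graph of the edges claimed by Maker in his first `m` moves. -/
def makerGraph (μ β : Strategy) (m : ℕ) : SimpleGraph ℕ :=
  SimpleGraph.fromEdgeSet (makerEdges μ β m)

/-- Maker has a strategy that, against every Breaker strategy, produces a copy of `K_q` within
Maker's first `m` moves. -/
def MakerWinsWithin (q m : ℕ) : Prop :=
  ∃ μ : Strategy, ∀ β : Strategy, ¬ (makerGraph μ β m).CliqueFree q

/-- Breaker has a strategy that, against every Maker strategy, prevents a copy of `K_q` during
Maker's first `m` moves. -/
def BreakerPrevents (q m : ℕ) : Prop :=
  ∃ β : Strategy, ∀ μ : Strategy, (makerGraph μ β m).CliqueFree q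

/-- The move number `M(q)`: the least `m` with `MakerWinsWithin q m` (`⊤` if there is none). -/
noncomputable def moveNumber (q : ℕ) : ℕ∞ := ⨅ m : {m : ℕ // MakerWinsWithin q m}, ((m : ℕ) : ℕ∞)

end Pool.Agent.Helper679.CliqueGame
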