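import Mathlib
import Pool.Agent.Helper679.CGDefs

set_option autoImplicit false

namespace Pool.Agent.Helper679.CliqueGame

open Finset

/-! ### Weights -/

/-- The factor of a pair. -/
noncomputable def phi (M B : Finset (Sym2 ℕ)) (g : Sym2 ℕ) : ℝ :=
  if g.IsDiag then 1 else if g ∈ M then 1 else if g ∈ B then 0 else 1 / 2

/-- The weight of a vertex set. -/
noncomputable def wt (M B : Finset (Sym2 ℕ)) (W : Finset ℕ) : ℝ := ∏ g ∈ W.sym2, phi M B g

lemma phi_nonneg (M B : Finset (Sym2 ℕ)) (g : Sym2 ℕ) : 0 ≤ phi M B g := by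
  unfold phi; split_ifs <;> norm_num

lemma phi_le_one (M B : Finset (Sym2 ℕ)) (g : Sym2 ℕ) : phi M B g ≤ 1 := by
  unfold phi; split_ifs <;> norm_num

lemma wt_nonneg (M B : Finset (Sym2 ℕ)) (W : Finset ℕ) : 0 ≤ wt M B W :=
  Finset.prod_nonneg fun _ _ => phi_nonneg _ _ _

/-- Adding one vertex. -/
lemma wt_insert (M B : Finset (Sym2 ℕ)) (W : Finset ℕ) (x : ℕ) (hx : x ∉ W) :
    wt M B (insert x W) = (∏ w ∈ W, phi M B s(x, w)) * wt M B W := by
  unfold wt
  have h1 : (insert x W).sym2 = ((insert x W).image fun b => s(x, b)) ∪ W.sym2 := by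
    rw [Finset.sym2_insert]
  have hd : Disjoint ((insert x W).image fun b => s(x, b)) W.sym2 := by
    rw [Finset.disjoint_left]
    intro g hg hg2
    obtain ⟨b, -, rfl⟩ := Finset.mem_image.1 hg
    rw [Finset.mk_mem_sym2_iff] at hg2
    exact hx hg2.1
  rw [h1, Finset.prod_union hd, Finset.prod_image]
  · rw [Finset.prod_insert hx]
    have : phi M B s(x, x) = 1 := by simp [phi]
    rw [this, one_mul]
  · intro a _ b _ hab
    have hab' : s(x, a) = s(x, b) := hab
    rw [Sym2.eq_iff] at hab'
    rcases hab' with ⟨-, h⟩ | ⟨h1, h2⟩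
    · exact h
    · rw [h2, h1]

/-- The product of the factors of the pairs at one new vertex. -/
lemma prod_phi_le (M B : Finset (Sym2 ℕ)) (W : Finset ℕ) (x : ℕ) (hx : x ∉ W) :
    ∏ w ∈ W, phi M B s(x, w) ≤ (1 / 2 : ℝ) ^ ((W.filter fun w => s(x, w) ∉ M).card) := by
  rw [← Finset.prod_filter_mul_prod_filter_not W (fun w => s(x, w) ∉ M)]
  have h1 : ∏ w ∈ W.filter (fun w => s(x, w) ∉ M), phi M B s(x, w) ≤
      ∏ w ∈ W.filter (fun w => s(x, w) ∉ M), (1 / 2 : ℝ) := by
    refine Finset.prod_le_prod (fun _ _ => phi_nonneg _ _ _) fun w hw => ?_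
    rw [Finset.mem_filter] at hw
    have hxw : x ≠ w := fun h => hx (h ▸ hw.1)
    unfold phi
    rw [if_neg (by simpa using hxw), if_neg hw.2]
    split_ifs <;> norm_num
  rw [Finset.prod_const] at h1
  refine le_trans (mul_le_of_le_one_right (Finset.prod_nonneg fun _ _ => phi_nonneg _ _ _)
    (Finset.prod_le_one (fun _ _ => phi_nonneg _ _ _) fun _ _ => phi_le_one _ _ _)) h1

/-- The effect of the pair of moves `f` (Breaker), `e` (Maker). -/
lemma wt_step (M B : Finset (Sym2 ℕ)) (W : Finset ℕ) (e f : Sym2 ℕ)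
    (he : ¬ e.IsDiag) (hf : ¬ f.IsDiag) (heM : e ∉ M) (hfM : f ∉ M) (heB : e ∉ B)
    (hef : e ≠ f) :
    wt (insert e M) (insert f B) W ≤ wt M B W + (if e ∈ W.sym2 then wt M B W else 0) -
      (if f ∈ W.sym2 then wt M B W else 0) := by
  have hw := wt_nonneg M B W
  by_cases hfW : f ∈ W.sym2
  · have h0 : wt (insert e M) (insert f B) W = 0 := by
      refine Finset.prod_eq_zero hfW ?_
      unfold phi
      rw [if_neg hf, if_neg (by simp [Ne.symm hef, hfM]), if_pos (by simp)]
    rw [h0, if_pos hfW]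
    split_ifs <;> linarith
  · rw [if_neg hfW]
    by_cases heW : e ∈ W.sym2
    · rw [if_pos heW]
      have h1 : wt (insert e M) (insert f B) W = 2 * wt M B W := by
        unfold wt
        rw [← Finset.mul_prod_erase _ _ heW, ← Finset.mul_prod_erase _ _ heW]
        have h2 : phi (insert e M) (insert f B) e = 1 := by
          unfold phi; rw [if_neg he, if_pos (by simp)]
        have h3 : phi M B e = 1 / 2 := by
          unfold phi; rw [if_neg he, if_neg heM, if_neg heB]
        rw [h2, h3]
        have h4 : ∏ g ∈ W.sym2.erase e, phi (insert e M) (insert f B) g =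
            ∏ g ∈ W.sym2.erase e, phi M B g := by
          refine Finset.prod_congr rfl fun g hg => ?_
          rw [Finset.mem_erase] at hg
          have hgf : g ≠ f := fun h => hfW (h ▸ hg.2)
          unfold phi
          simp [hg.1, hgf]
        rw [h4]; ring
      rw [h1]; linarith
    · rw [if_neg heW]
      have h1 : wt (insert e M) (insert f B) W = wt M B W := by
        unfold wt
        refine Finset.prod_congr rfl fun g hg => ?_
        have hgf : g ≠ f := fun h => hfW (h ▸ hg)
        have hge : g ≠ e := fun h => heW (h ▸ hg)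
        unfold phi
        simp [hge, hgf]
      rw [h1]; linarith

/-! ### Structures -/

/-- The vertices touched by a list of edges. -/
def tch : List (Sym2 ℕ) → Finset ℕ
  | [] => ∅
  | e :: ms => e.toFinset ∪ tch ms

/-- The number of the edges of `ms` between `e` and `W`. -/
def cross (ms : List (Sym2 ℕ)) (e : Sym2 ℕ) (W : Finset ℕ) : ℕ :=
  ((e.toFinset ×ˢ W).filter fun p => s(p.1, p.2) ∈ ms).card

/-- The new structures obtained by adding `e` as a matching edge. -/
def extE (e : Sym2 ℕ) (S : Finset ℕ × ℕ × ℕ) : Finset ℕ × ℕ × ℕ :=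
  (S.1 ∪ e.toFinset, S.2.1, S.2.2 + 1)

/-- The new structures obtained by adding a set of single vertices. -/
def extV (b : Finset ℕ) (S : Finset ℕ × ℕ × ℕ) : Finset ℕ × ℕ × ℕ :=
  (S.1 ∪ b, S.2.1 + b.card, S.2.2)

/-- The active structures `(W, a, j)`. -/
def act : List (Sym2 ℕ) → Multiset (Finset ℕ × ℕ × ℕ)
  | [] => {(∅, 0, 0)}
  | e :: ms => act ms +
      ((act ms).filter fun S => Disjoint e.toFinset S.1 ∧ cross (e :: ms) e S.1 ≤ 2 * S.2.2).map
        (extE e) +
      (((e.toFinset \ tch ms).powerset.erase ∅).val.bind fun b => (act ms).map (extV b))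

/-- The coefficient of a structure. -/
noncomputable def lam (x y : ℝ) (a j : ℕ) : ℝ :=
  x ^ a * y ^ j * 2 ^ (a.choose 2 + 2 * a * j + 2 * j.choose 2)

lemma lam_nonneg {x y : ℝ} (hx : 0 ≤ x) (hy : 0 ≤ y) (a j : ℕ) : 0 ≤ lam x y a j := by
  unfold lam; positivity

lemma lam_E (x y : ℝ) (a j : ℕ) :
    lam x y a (j + 1) = y * 2 ^ (2 * a + 2 * j) * lam x y a j := by
  unfold lam
  have h : a.choose 2 + 2 * a * (j + 1) + 2 * (j + 1).choose 2 =
      (2 * a + 2 * j) + (a.choose 2 + 2 * a * j + 2 * j.choose 2) := by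
    rw [Nat.choose_succ_succ' j 1]; simp; ring
  rw [h, pow_add]; ring

lemma lam_V (x y : ℝ) (a j : ℕ) :
    lam x y (a + 1) j = x * 2 ^ (a + 2 * j) * lam x y a j := by
  unfold lam
  have h : (a + 1).choose 2 + 2 * (a + 1) * j + 2 * j.choose 2 =
      (a + 2 * j) + (a.choose 2 + 2 * a * j + 2 * j.choose 2) := by
    rw [Nat.choose_succ_succ' a 1]; simp; ring
  rw [h, pow_add]; ring

/-- The value of a structure. -/
noncomputable def val (x y : ℝ) (M B : Finset (Sym2 ℕ)) (S : Finset ℕ × ℕ × ℕ) : ℝ :=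
  lam x y S.2.1 S.2.2 * wt M B S.1

/-- The potential. -/
noncomputable def pot (x y : ℝ) (ms : List (Sym2 ℕ)) (B : Finset (Sym2 ℕ)) : ℝ :=
  ((act ms).map (val x y ms.toFinset B)).sum

/-- The danger of a pair. -/
noncomputable def dgr (x y : ℝ) (ms : List (Sym2 ℕ)) (B : Finset (Sym2 ℕ)) (g : Sym2 ℕ) : ℝ :=
  ((act ms).map fun S => if g ∈ S.1.sym2 then val x y ms.toFinset B S else 0).sum

lemma val_nonneg {x y : ℝ} (hx : 0 ≤ x) (hy : 0 ≤ y) (M B : Finset (Sym2 ℕ))
    (S : Finset ℕ × ℕ × ℕ) : 0 ≤ val x y M B S :=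
  mul_nonneg (lam_nonneg hx hy _ _) (wt_nonneg _ _ _)

/-- Every active structure lives on touched vertices and has the right size. -/
lemma act_inv (ms : List (Sym2 ℕ)) (hms : ∀ e ∈ ms, ¬ e.IsDiag) :
    ∀ S ∈ act ms, S.1 ⊆ tch ms ∧ S.1.card = S.2.1 + 2 * S.2.2 := by
  induction ms with
  | nil =>
    intro S hS
    simp only [act, Multiset.mem_singleton] at hS
    subst hS
    simp
  | cons e ms ih =>
    have ih' := ih fun g hg => hms g (List.mem_cons_of_mem _ hg)
    intro S hS
    simp only [act, Multiset.mem_add, Multiset.mem_map, Multiset.mem_filter, Multiset.mem_bind]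
      at hS
    rcases hS with (hS | ⟨T, ⟨hT, hT2⟩, rfl⟩) | ⟨b, hb, T, hT, rfl⟩
    · obtain ⟨h1, h2⟩ := ih' S hS
      exact ⟨h1.trans Finset.subset_union_right, h2⟩
    · obtain ⟨h1, h2⟩ := ih' T hT
      constructor
      · simp only [extE, tch]
        exact Finset.union_subset (h1.trans Finset.subset_union_right) Finset.subset_union_left
      · simp only [extE]
        rw [Finset.card_union_of_disjoint hT2.1.symm, h2,
          Sym2.card_toFinset_of_not_isDiag _ (hms e (by simp))]
        ring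
    · obtain ⟨h1, h2⟩ := ih' T hT
      have hb' : b ⊆ e.toFinset \ tch ms := by
        have : b ∈ (e.toFinset \ tch ms).powerset.erase ∅ := hb
        rw [Finset.mem_erase, Finset.mem_powerset] at this
        exact this.2
      constructor
      · simp only [extV, tch]
        exact Finset.union_subset (h1.trans Finset.subset_union_right)
          ((hb'.trans Finset.sdiff_subset).trans Finset.subset_union_left)
      · simp only [extV]
        have hd : Disjoint T.1 b := by
          rw [Finset.disjoint_left]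
          intro v hv hvb
          exact (Finset.mem_sdiff.1 (hb' hvb)).2 (h1 hv)
        rw [Finset.card_union_of_disjoint hd, h2]
        ring

/-! ### The growth of the potential -/

lemma cross_eq (ms : List (Sym2 ℕ)) (u v : ℕ) (huv : u ≠ v) (W : Finset ℕ) :
    cross ms s(u, v) W = (W.filter fun w => s(u, w) ∈ ms).card +
      (W.filter fun w => s(v, w) ∈ ms).card := by
  unfold cross
  have h1 : (s(u, v) : Sym2 ℕ).toFinset = {u, v} := by
    ext z; simp
  rw [h1]
  have h2 : ((({u, v} : Finset ℕ) ×ˢ W).filter fun p => s(p.1, p.2) ∈ ms) =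
      ((W.filter fun w => s(u, w) ∈ ms).image fun w => (u, w)) ∪
        ((W.filter fun w => s(v, w) ∈ ms).image fun w => (v, w)) := by
    ext ⟨a, b⟩
    simp only [Finset.mem_filter, Finset.mem_product, Finset.mem_insert, Finset.mem_singleton,
      Finset.mem_union, Finset.mem_image, Prod.mk.injEq]
    constructor
    · rintro ⟨⟨rfl | rfl, hb⟩, h⟩
      · exact Or.inl ⟨b, ⟨hb, h⟩, rfl, rfl⟩
      · exact Or.inr ⟨b, ⟨hb, h⟩, rfl, rfl⟩
    · rintro (⟨c, ⟨hc, h⟩, rfl, rfl⟩ | ⟨c, ⟨hc, h⟩, rfl, rfl⟩)
      · exact ⟨⟨Or.inl rfl, hc⟩, h⟩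
      · exact ⟨⟨Or.inr rfl, hc⟩, h⟩
  rw [h2, Finset.card_union_of_disjoint, Finset.card_image_of_injective,
    Finset.card_image_of_injective]
  · intro a b h; simpa using h
  · intro a b h; simpa using h
  · rw [Finset.disjoint_left]
    intro p hp hq
    obtain ⟨c, -, rfl⟩ := Finset.mem_image.1 hp
    obtain ⟨d, -, h⟩ := Finset.mem_image.1 hq
    exact huv (congrArg Prod.fst h).symm

lemma wt_two (M B : Finset (Sym2 ℕ)) (W : Finset ℕ) (u v : ℕ) (huv : u ≠ v) (hu : u ∉ W)
    (hv : v ∉ W) (huvM : s(u, v) ∈ M) :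
    wt M B (insert u (insert v W)) ≤
      (1 / 2 : ℝ) ^ ((W.filter fun w => s(u, w) ∉ M).card + (W.filter fun w => s(v, w) ∉ M).card) *
        wt M B W := by
  have hu' : u ∉ insert v W := by simp [huv, hu]
  rw [wt_insert M B _ u hu', wt_insert M B _ v hv, pow_add]
  have h1 := prod_phi_le M B (insert v W) u hu'
  have h2 := prod_phi_le M B W v hv
  have h3 : (insert v W).filter (fun w => s(u, w) ∉ M) = W.filter (fun w => s(u, w) ∉ M) := by
    rw [Finset.filter_insert, if_neg (by simpa using huvM)]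
  rw [h3] at h1
  have h4 := wt_nonneg M B W
  have h5 : 0 ≤ ∏ w ∈ W, phi M B s(v, w) := Finset.prod_nonneg fun _ _ => phi_nonneg _ _ _
  calc (∏ w ∈ insert v W, phi M B s(u, w)) * ((∏ w ∈ W, phi M B s(v, w)) * wt M B W)
      ≤ (1 / 2 : ℝ) ^ ((W.filter fun w => s(u, w) ∉ M).card) *
        ((1 / 2 : ℝ) ^ ((W.filter fun w => s(v, w) ∉ M).card) * wt M B W) := by
        apply mul_le_mul h1 (mul_le_mul_of_nonneg_right h2 h4) (mul_nonneg h5 h4) (by positivity)
    _ = _ := by ring

lemma tch_mem {ms : List (Sym2 ℕ)} {g : Sym2 ℕ} (hg : g ∈ ms) {z : ℕ} (hz : z ∈ g) :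
    z ∈ tch ms := by
  induction ms with
  | nil => simp at hg
  | cons e ms ih =>
    rcases List.mem_cons.1 hg with rfl | h
    · simp [tch, hz]
    · simp [tch, ih h]

lemma val_E {x y : ℝ} (hx : 0 ≤ x) (hy : 0 ≤ y) (ms : List (Sym2 ℕ)) (e : Sym2 ℕ)
    (B : Finset (Sym2 ℕ)) (hms : ∀ g ∈ ms, ¬ g.IsDiag) (he : ¬ e.IsDiag)
    (S : Finset ℕ × ℕ × ℕ) (hS : S ∈ act ms) (hd : Disjoint e.toFinset S.1)
    (hc : cross (e :: ms) e S.1 ≤ 2 * S.2.2) :
    val x y (e :: ms).toFinset B (extE e S) ≤ y * val x y (e :: ms).toFinset B S := by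
  obtain ⟨W, a, j⟩ := S
  obtain ⟨hW, hcard⟩ := act_inv ms hms _ hS
  simp only at hd hc hW hcard
  induction e using Sym2.ind with
  | _ u v =>
  have huv : u ≠ v := by simpa using he
  have h1 : (s(u, v) : Sym2 ℕ).toFinset = {u, v} := by ext z; simp
  rw [h1] at hd
  have hu : u ∉ W := Finset.disjoint_left.1 hd (by simp)
  have hv : v ∉ W := Finset.disjoint_left.1 hd (by simp)
  rw [cross_eq _ u v huv] at hc
  set M := (s(u, v) :: ms).toFinset with hM
  have hmem : ∀ g, g ∈ (s(u, v) :: ms) ↔ g ∈ M := fun g => by rw [hM, List.mem_toFinset]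
  simp only [hmem] at hc
  have hE : W ∪ (s(u, v) : Sym2 ℕ).toFinset = insert u (insert v W) := by
    rw [h1]; ext z; simp
  simp only [val, extE, hE]
  have h2 := wt_two M B W u v huv hu hv (by simp [hM])
  have h3 := Finset.card_filter_add_card_filter_not (s := W) (fun w => s(u, w) ∈ M)
  have h4 := Finset.card_filter_add_card_filter_not (s := W) (fun w => s(v, w) ∈ M)
  have h5 : 2 * a + 2 * j ≤ (W.filter fun w => s(u, w) ∉ M).card +
      (W.filter fun w => s(v, w) ∉ M).card := by omega
  have h6 : wt M B (insert u (insert v W)) ≤ (1 / 2 : ℝ) ^ (2 * a + 2 * j) * wt M B W :=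
    le_trans h2 (mul_le_mul_of_nonneg_right
      (pow_le_pow_of_le_one (by norm_num) (by norm_num) h5) (wt_nonneg _ _ _))
  rw [lam_E]
  calc y * 2 ^ (2 * a + 2 * j) * lam x y a j * wt M B (insert u (insert v W))
      ≤ y * 2 ^ (2 * a + 2 * j) * lam x y a j * ((1 / 2 : ℝ) ^ (2 * a + 2 * j) * wt M B W) :=
        mul_le_mul_of_nonneg_left h6 (mul_nonneg (by positivity) (lam_nonneg hx hy _ _))
    _ = y * (lam x y a j * wt M B W) * (2 ^ (2 * a + 2 * j) * (1 / 2 : ℝ) ^ (2 * a + 2 * j)) := by
        ring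
    _ = y * (lam x y a j * wt M B W) := by
        rw [← mul_pow]; norm_num

lemma val_V {x y : ℝ} (hx : 0 ≤ x) (hx1 : x ≤ 1) (hy : 0 ≤ y) (ms : List (Sym2 ℕ)) (e : Sym2 ℕ)
    (B : Finset (Sym2 ℕ)) (hms : ∀ g ∈ ms, ¬ g.IsDiag) (he : ¬ e.IsDiag)
    (S : Finset ℕ × ℕ × ℕ) (hS : S ∈ act ms) (b : Finset ℕ)
    (hb : b ∈ (e.toFinset \ tch ms).powerset.erase ∅) :
    val x y (e :: ms).toFinset B (extV b S) ≤ 2 * x * val x y (e :: ms).toFinset B S := by
  obtain ⟨W, a, j⟩ := S
  obtain ⟨hW, hcard⟩ := act_inv ms hms _ hS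
  simp only at hW hcard
  rw [Finset.mem_erase, Finset.mem_powerset] at hb
  obtain ⟨hb0, hb⟩ := hb
  set M := (e :: ms).toFinset with hM
  have hmem : ∀ g, g ∈ M ↔ g = e ∨ g ∈ ms := fun g => by rw [hM, List.mem_toFinset, List.mem_cons]
  have hwt := wt_nonneg M B W
  have hlam := lam_nonneg hx hy a j
  -- a fresh vertex lies on no edge of `ms`
  have hfr : ∀ z ∈ b, z ∈ e ∧ z ∉ tch ms := fun z hz => by
    have := hb hz
    rw [Finset.mem_sdiff, Sym2.mem_toFinset] at this
    exact this
  have hfrM : ∀ z ∈ b, ∀ w, s(z, w) ∈ M → s(z, w) = e := by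
    intro z hz w h
    rcases (hmem _).1 h with h | h
    · exact h
    · exact absurd (tch_mem h (Sym2.mem_mk_left z w)) (hfr z hz).2
  have hcard2 : b.card ≤ 2 := by
    have h1 := Finset.card_le_card (hb.trans Finset.sdiff_subset)
    rwa [Sym2.card_toFinset_of_not_isDiag _ he] at h1
  have hcard1 : 1 ≤ b.card := Finset.card_pos.2 (Finset.nonempty_iff_ne_empty.2 hb0)
  simp only [val, extV]
  rcases (by omega : b.card = 1 ∨ b.card = 2) with h1 | h2
  · obtain ⟨z, rfl⟩ := Finset.card_eq_one.1 h1
    have hz : z ∉ W := fun h => (hfr z (by simp)).2 (hW h)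
    have hU : W ∪ {z} = insert z W := by ext t; simp
    rw [hU, h1, lam_V, wt_insert M B W z hz]
    have h3 := prod_phi_le M B W z hz
    have h4 : (W.filter fun w => s(z, w) ∈ M).card ≤ 1 := by
      rw [Finset.card_le_one]
      intro p hp q hq
      rw [Finset.mem_filter] at hp hq
      have h5 := hfrM z (by simp) p hp.2
      have h6 := hfrM z (by simp) q hq.2
      have h7 : s(z, p) = s(z, q) := h5.trans h6.symm
      rw [Sym2.eq_iff] at h7
      rcases h7 with ⟨-, h⟩ | ⟨h1, h2⟩
      · exact h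
      · rw [h2, h1]
    have h5 := Finset.card_filter_add_card_filter_not (s := W) (fun w => s(z, w) ∈ M)
    have h6 : (1 / 2 : ℝ) ^ ((W.filter fun w => s(z, w) ∉ M).card) ≤
        2 * (1 / 2 : ℝ) ^ (a + 2 * j) := by
      have h7 : a + 2 * j ≤ (W.filter fun w => s(z, w) ∉ M).card + 1 := by omega
      calc (1 / 2 : ℝ) ^ ((W.filter fun w => s(z, w) ∉ M).card)
          = 2 * (1 / 2 : ℝ) ^ ((W.filter fun w => s(z, w) ∉ M).card + 1) := by
            rw [pow_succ]; ring
        _ ≤ 2 * (1 / 2 : ℝ) ^ (a + 2 * j) := by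
            gcongr 2 * ?_
            exact pow_le_pow_of_le_one (by norm_num) (by norm_num) h7
    have h8 : (∏ w ∈ W, phi M B s(z, w)) * wt M B W ≤ 2 * (1 / 2 : ℝ) ^ (a + 2 * j) * wt M B W :=
      mul_le_mul_of_nonneg_right (h3.trans h6) hwt
    calc x * 2 ^ (a + 2 * j) * lam x y a j * ((∏ w ∈ W, phi M B s(z, w)) * wt M B W)
        ≤ x * 2 ^ (a + 2 * j) * lam x y a j * (2 * (1 / 2 : ℝ) ^ (a + 2 * j) * wt M B W) :=
          mul_le_mul_of_nonneg_left h8 (by positivity)
      _ = 2 * x * (lam x y a j * wt M B W) * (2 ^ (a + 2 * j) * (1 / 2 : ℝ) ^ (a + 2 * j)) := by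
          ring
      _ = 2 * x * (lam x y a j * wt M B W) := by
          rw [← mul_pow]; norm_num
  · obtain ⟨u, v, huv, rfl⟩ := Finset.card_eq_two.1 h2
    have hu : u ∉ W := fun h => (hfr u (by simp)).2 (hW h)
    have hv : v ∉ W := fun h => (hfr v (by simp)).2 (hW h)
    have he' : s(u, v) = e := by
      have h3 := (hfr u (by simp)).1
      have h4 := (hfr v (by simp)).1
      exact ((Sym2.mem_and_mem_iff huv).1 ⟨h3, h4⟩).symm
    have hU : W ∪ {u, v} = insert u (insert v W) := by ext t; simp
    rw [hU, h2]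
    have h3 := wt_two M B W u v huv hu hv (by rw [hmem]; exact Or.inl he')
    have h4 : (W.filter fun w => s(u, w) ∉ M) = W := by
      rw [Finset.filter_true_of_mem]
      intro w hw h
      have h5 := hfrM u (by simp) w h
      rw [← he'] at h5
      rw [Sym2.eq_iff] at h5
      rcases h5 with ⟨-, h⟩ | ⟨h, -⟩
      · exact hv (h ▸ hw)
      · exact huv h
    have h5 : (W.filter fun w => s(v, w) ∉ M) = W := by
      rw [Finset.filter_true_of_mem]
      intro w hw h
      have h5 := hfrM v (by simp) w h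
      rw [← he'] at h5
      rw [Sym2.eq_iff] at h5
      rcases h5 with ⟨h, -⟩ | ⟨-, h⟩
      · exact huv h.symm
      · exact hu (h ▸ hw)
    rw [h4, h5, hcard] at h3
    rw [show a + 2 = (a + 1) + 1 from rfl, lam_V, lam_V]
    calc x * 2 ^ (a + 1 + 2 * j) * (x * 2 ^ (a + 2 * j) * lam x y a j) *
          wt M B (insert u (insert v W))
        ≤ x * 2 ^ (a + 1 + 2 * j) * (x * 2 ^ (a + 2 * j) * lam x y a j) *
          ((1 / 2 : ℝ) ^ (a + 2 * j + (a + 2 * j)) * wt M B W) :=
          mul_le_mul_of_nonneg_left h3 (by positivity)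
      _ = 2 * x * x * (lam x y a j * wt M B W) *
          ((2 ^ (a + 2 * j) * (1 / 2 : ℝ) ^ (a + 2 * j)) *
            (2 ^ (a + 2 * j) * (1 / 2 : ℝ) ^ (a + 2 * j))) := by
          rw [show a + 1 + 2 * j = (a + 2 * j) + 1 by ring, pow_succ, pow_add]; ring
      _ = 2 * x * x * (lam x y a j * wt M B W) := by
          rw [← mul_pow]; norm_num
      _ ≤ 2 * x * 1 * (lam x y a j * wt M B W) := by
          have : 0 ≤ lam x y a j * wt M B W := mul_nonneg hlam hwt
          gcongr
      _ = 2 * x * (lam x y a j * wt M B W) := by ring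

lemma sum_filter_map_le {α : Type*} (s : Multiset α) (p : α → Prop) [DecidablePred p]
    (f g : α → ℝ) (h : ∀ a ∈ s, p a → f a ≤ g a) (hg : ∀ a ∈ s, 0 ≤ g a) :
    ((s.filter p).map f).sum ≤ (s.map g).sum := by
  induction s using Multiset.induction_on with
  | empty => simp
  | cons a s ih =>
    have ih' := ih (fun b hb => h b (Multiset.mem_cons_of_mem hb))
      fun b hb => hg b (Multiset.mem_cons_of_mem hb)
    have ha := hg a (Multiset.mem_cons_self a s)
    by_cases hp : p a
    · rw [Multiset.filter_cons_of_pos _ hp, Multiset.map_cons, Multiset.sum_cons,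
        Multiset.map_cons, Multiset.sum_cons]
      exact add_le_add (h a (Multiset.mem_cons_self a s) hp) ih'
    · rw [Multiset.filter_cons_of_neg _ hp, Multiset.map_cons, Multiset.sum_cons]
      linarith

/-- The new structures add at most a factor `1 + y + 6 x`. -/
lemma pot_cons {x y : ℝ} (hx : 0 ≤ x) (hx1 : x ≤ 1) (hy : 0 ≤ y) (ms : List (Sym2 ℕ)) (e : Sym2 ℕ)
    (B : Finset (Sym2 ℕ)) (hms : ∀ g ∈ ms, ¬ g.IsDiag) (he : ¬ e.IsDiag) :
    pot x y (e :: ms) B ≤
      (1 + y + 6 * x) * ((act ms).map (val x y (e :: ms).toFinset B)).sum := by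
  unfold pot
  set V := val x y (e :: ms).toFinset B with hV
  set T0 := ((act ms).map V).sum with hT0
  have hV0 : ∀ S, 0 ≤ V S := fun S => val_nonneg hx hy _ _ S
  have hT00 : 0 ≤ T0 := Multiset.sum_nonneg fun z hz => by
    obtain ⟨S, -, rfl⟩ := Multiset.mem_map.1 hz
    exact hV0 S
  simp only [act, Multiset.map_add, Multiset.sum_add, Multiset.map_map]
  have h1 : (((act ms).filter fun S => Disjoint e.toFinset S.1 ∧
      cross (e :: ms) e S.1 ≤ 2 * S.2.2).map (V ∘ extE e)).sum ≤ y * T0 := by
    rw [hT0, ← Multiset.sum_map_mul_left]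
    refine sum_filter_map_le _ _ _ _ (fun S hS hp => ?_) fun S _ => mul_nonneg hy (hV0 S)
    exact val_E hx hy ms e B hms he S hS hp.1 hp.2
  have h2 : (((((e.toFinset \ tch ms).powerset.erase ∅).val.bind fun b =>
      (act ms).map (extV b))).map V).sum ≤ 6 * x * T0 := by
    rw [Multiset.map_bind, Multiset.sum_bind]
    have h3 : ((((e.toFinset \ tch ms).powerset.erase ∅).val.map fun b =>
        (((act ms).map (extV b)).map V).sum)).sum ≤
        ((((e.toFinset \ tch ms).powerset.erase ∅).val.map fun _ => 2 * x * T0)).sum := by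
      refine Multiset.sum_map_le_sum_map _ _ fun b hb => ?_
      rw [Multiset.map_map, hT0, ← Multiset.sum_map_mul_left]
      refine Multiset.sum_map_le_sum_map _ _ fun S hS => ?_
      exact val_V hx hx1 hy ms e B hms he S hS b hb
    refine le_trans h3 ?_
    rw [Multiset.map_const', Multiset.sum_replicate, nsmul_eq_mul]
    have h4 : Multiset.card ((e.toFinset \ tch ms).powerset.erase ∅).val ≤ 3 := by
      have h5 : ((e.toFinset \ tch ms).powerset.erase ∅).card + 1 ≤ 4 := by
        rw [Finset.card_erase_add_one (by simp), Finset.card_powerset]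
        have h6 : (e.toFinset \ tch ms).card ≤ 2 := by
          have := Finset.card_le_card (Finset.sdiff_subset (s := e.toFinset) (t := tch ms))
          rwa [Sym2.card_toFinset_of_not_isDiag _ he] at this
        calc 2 ^ (e.toFinset \ tch ms).card ≤ 2 ^ 2 := Nat.pow_le_pow_right (by norm_num) h6
          _ = 4 := by norm_num
      have h7 : Multiset.card ((e.toFinset \ tch ms).powerset.erase ∅).val =
          ((e.toFinset \ tch ms).powerset.erase ∅).card := rfl
      omega
    have h5 : ((Multiset.card ((e.toFinset \ tch ms).powerset.erase ∅).val : ℕ) : ℝ) ≤ 3 := by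
      exact_mod_cast h4
    have h6 : 0 ≤ 2 * x * T0 := by positivity
    nlinarith
  linarith

/-! ### Breaker's strategy -/

/-- Maker's edges (last first) in a history that ends with a move of Maker. -/
def makerOf : List (Sym2 ℕ) → List (Sym2 ℕ)
  | [] => []
  | [e] => [e]
  | e :: _ :: h => e :: makerOf h

/-- Breaker's edges (last first) in a history that ends with a move of Maker. -/
def breakerOf : List (Sym2 ℕ) → List (Sym2 ℕ)
  | [] => []
  | [_] => []
  | _ :: f :: h => f :: breakerOf h

lemma mem_board_iff (e : Sym2 ℕ) : e ∈ board ↔ ¬ e.IsDiag := by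
  unfold board
  rw [SimpleGraph.edgeSet_top]
  simp

lemma exists_free (h : List (Sym2 ℕ)) : ∃ f, f ∈ board ∧ f ∉ h := by
  have hinj : Function.Injective fun n : ℕ => (s(n, n + 1) : Sym2 ℕ) := by
    intro a b hab
    have hab' : s(a, a + 1) = s(b, b + 1) := hab
    rw [Sym2.eq_iff] at hab'
    omega
  obtain ⟨g, ⟨n, rfl⟩, hn⟩ := (Set.infinite_range_of_injective hinj).exists_notMem_finset h.toFinset
  refine ⟨s(n, n + 1), ?_, by simpa using hn⟩
  rw [mem_board_iff]
  simp

lemma dgr_eq_zero {x y : ℝ} {ms : List (Sym2 ℕ)} (hms : ∀ g ∈ ms, ¬ g.IsDiag)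
    (B : Finset (Sym2 ℕ)) (g : Sym2 ℕ) (hg : g ∉ (tch ms).sym2) : dgr x y ms B g = 0 := by
  unfold dgr
  refine Multiset.sum_eq_zero fun z hz => ?_
  obtain ⟨S, hS, rfl⟩ := Multiset.mem_map.1 hz
  rw [if_neg]
  intro h
  exact hg (Finset.sym2_mono (act_inv ms hms S hS).1 h)

lemma dgr_nonneg {x y : ℝ} (hx : 0 ≤ x) (hy : 0 ≤ y) (ms : List (Sym2 ℕ))
    (B : Finset (Sym2 ℕ)) (g : Sym2 ℕ) : 0 ≤ dgr x y ms B g := by
  unfold dgr
  refine Multiset.sum_nonneg fun z hz => ?_
  obtain ⟨S, -, rfl⟩ := Multiset.mem_map.1 hz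
  split_ifs
  · exact val_nonneg hx hy _ _ _
  · exact le_rfl

/-- There is a most dangerous free pair. -/
lemma exists_best {x y : ℝ} (hx : 0 ≤ x) (hy : 0 ≤ y) (h : List (Sym2 ℕ)) :
    ∃ f, f ∈ board ∧ f ∉ h ∧ ((∀ g ∈ makerOf h, ¬ g.IsDiag) →
      ∀ e, e ∈ board → e ∉ h →
        dgr x y (makerOf h) (breakerOf h).toFinset e ≤
          dgr x y (makerOf h) (breakerOf h).toFinset f) := by
  classical
  obtain ⟨f₀, hf₀, hf₀'⟩ := exists_free h
  set D := dgr x y (makerOf h) (breakerOf h).toFinset with hD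
  set s : Finset (Sym2 ℕ) := insert f₀ ((tch (makerOf h)).sym2.filter fun g => g ∈ board ∧ g ∉ h)
    with hs
  obtain ⟨f, hf, hmax⟩ := s.exists_max_image D ⟨f₀, by simp [hs]⟩
  have hf' : f ∈ board ∧ f ∉ h := by
    rw [hs, Finset.mem_insert, Finset.mem_filter] at hf
    rcases hf with rfl | hf
    · exact ⟨hf₀, hf₀'⟩
    · exact hf.2
  refine ⟨f, hf'.1, hf'.2, fun hms e he heh => ?_⟩
  by_cases hes : e ∈ s
  · exact hmax e hes
  · have : e ∉ (tch (makerOf h)).sym2 := by
      intro hc
      apply hes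
      rw [hs, Finset.mem_insert, Finset.mem_filter]
      exact Or.inr ⟨hc, he, heh⟩
    have h0 : D e = 0 := dgr_eq_zero hms _ _ this
    rw [h0]
    exact dgr_nonneg hx hy _ _ _

/-- The potential strategy. -/
noncomputable def brk (x y : ℝ) (hx : 0 ≤ x) (hy : 0 ≤ y) : Strategy where
  move h := (exists_best hx hy h).choose
  mem_board h := (exists_best hx hy h).choose_spec.1
  not_mem h := (exists_best hx hy h).choose_spec.2.1

lemma brk_spec (x y : ℝ) (hx : 0 ≤ x) (hy : 0 ≤ y) (h : List (Sym2 ℕ))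
    (hms : ∀ g ∈ makerOf h, ¬ g.IsDiag) (e : Sym2 ℕ) (he : e ∈ board) (heh : e ∉ h) :
    dgr x y (makerOf h) (breakerOf h).toFinset e ≤
      dgr x y (makerOf h) (breakerOf h).toFinset ((brk x y hx hy).move h) :=
  (exists_best hx hy h).choose_spec.2.2 hms e he heh

/-- The pairing step. -/
lemma pot_pair {x y : ℝ} (hx : 0 ≤ x) (hy : 0 ≤ y) (ms : List (Sym2 ℕ))
    (B : Finset (Sym2 ℕ)) (e f : Sym2 ℕ)
    (he : ¬ e.IsDiag) (hf : ¬ f.IsDiag) (heM : e ∉ ms) (hfM : f ∉ ms) (heB : e ∉ B)
    (hef : e ≠ f) (hD : dgr x y ms B e ≤ dgr x y ms B f) :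
    ((act ms).map (val x y (e :: ms).toFinset (insert f B))).sum ≤ pot x y ms B := by
  have h1 : ((act ms).map (val x y (e :: ms).toFinset (insert f B))).sum ≤
      ((act ms).map fun S => val x y ms.toFinset B S +
        ((if e ∈ S.1.sym2 then val x y ms.toFinset B S else 0) -
          (if f ∈ S.1.sym2 then val x y ms.toFinset B S else 0))).sum := by
    refine Multiset.sum_map_le_sum_map _ _ fun S _ => ?_
    have h2 := wt_step ms.toFinset B S.1 e f he hf (by simpa using heM) (by simpa using hfM) heB hef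
    have h3 := mul_le_mul_of_nonneg_left h2 (lam_nonneg hx hy S.2.1 S.2.2)
    rw [List.toFinset_cons]
    unfold val
    refine le_trans h3 (le_of_eq ?_)
    split_ifs <;> ring
  rw [Multiset.sum_map_add, Multiset.sum_map_sub] at h1
  unfold dgr at hD
  unfold pot
  linarith

/-- The potential along a play. -/
lemma pot_play {x y : ℝ} (hx : 0 ≤ x) (hx1 : x ≤ 1) (hy : 0 ≤ y) (μ : Strategy) (n : ℕ) :
    (∀ g ∈ makerOf (μ.move (hist μ (brk x y hx hy) n) :: hist μ (brk x y hx hy) n),
      g ∈ board) ∧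
    (∀ g, g ∈ makerOf (μ.move (hist μ (brk x y hx hy) n) :: hist μ (brk x y hx hy) n) ∨
      g ∈ breakerOf (μ.move (hist μ (brk x y hx hy) n) :: hist μ (brk x y hx hy) n) ↔
      g ∈ μ.move (hist μ (brk x y hx hy) n) :: hist μ (brk x y hx hy) n) ∧
    (makerOf (μ.move (hist μ (brk x y hx hy) n) :: hist μ (brk x y hx hy) n)).Nodup ∧
    (∀ g, g ∈ makerOf (μ.move (hist μ (brk x y hx hy) n) :: hist μ (brk x y hx hy) n) ↔
      g ∈ makerEdges μ (brk x y hx hy) (n + 1)) ∧
    pot x y (makerOf (μ.move (hist μ (brk x y hx hy) n) :: hist μ (brk x y hx hy) n))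
      (breakerOf (μ.move (hist μ (brk x y hx hy) n) :: hist μ (brk x y hx hy) n)).toFinset ≤
      (1 + y + 6 * x) ^ (n + 1) := by
  induction n with
  | zero =>
    simp only [hist]
    set e := μ.move [] with he
    have heb : e ∈ board := μ.mem_board []
    refine ⟨by simp [makerOf, heb], by simp [makerOf, breakerOf], by simp [makerOf], ?_, ?_⟩
    · intro g
      simp [makerOf, makerEdges, hist, he]
    · simp only [makerOf, breakerOf]
      have h1 := pot_cons hx hx1 hy [] e (List.toFinset []) (by simp) ((mem_board_iff e).1 heb)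
      refine le_trans h1 ?_
      simp [act, val, lam, wt]
  | succ n ih =>
    obtain ⟨ih1, ih2, ih3, ih4, ih5⟩ := ih
    set β := brk x y hx hy with hβ
    set h := μ.move (hist μ β n) :: hist μ β n with hh
    set f := β.move h with hf
    have hhist : hist μ β (n + 1) = f :: h := rfl
    set e := μ.move (f :: h) with he
    rw [hhist]
    have heb : e ∈ board := μ.mem_board _
    have hfb : f ∈ board := β.mem_board _
    have heh : e ∉ f :: h := μ.not_mem _
    have hfh : f ∉ h := β.not_mem _
    have hef : e ≠ f := fun hc => heh (by rw [hc]; simp)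
    have heh' : e ∉ h := fun hc => heh (List.mem_cons_of_mem _ hc)
    have hm : makerOf (e :: f :: h) = e :: makerOf h := rfl
    have hb : breakerOf (e :: f :: h) = f :: breakerOf h := rfl
    have heM : e ∉ makerOf h := fun hc => heh' ((ih2 e).1 (Or.inl hc))
    have hfM : f ∉ makerOf h := fun hc => hfh ((ih2 f).1 (Or.inl hc))
    have heB : e ∉ breakerOf h := fun hc => heh' ((ih2 e).1 (Or.inr hc))
    have hdiag : ∀ g ∈ makerOf h, ¬ g.IsDiag := fun g hg => (mem_board_iff g).1 (ih1 g hg)
    rw [hm, hb]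
    refine ⟨?_, ?_, List.nodup_cons.2 ⟨heM, ih3⟩, ?_, ?_⟩
    · intro g hg
      rcases List.mem_cons.1 hg with rfl | hg
      · exact heb
      · exact ih1 g hg
    · intro g
      have := ih2 g
      simp only [List.mem_cons]
      tauto
    · intro g
      rw [List.mem_cons, ih4 g]
      simp only [makerEdges, Set.mem_ofPred_eq]
      constructor
      · rintro (rfl | ⟨i, hi, rfl⟩)
        · exact ⟨n + 1, by omega, by rw [hhist]⟩
        · exact ⟨i, by omega, rfl⟩
      · rintro ⟨i, hi, rfl⟩
        rcases Nat.lt_succ_iff_lt_or_eq.1 hi with hi | rfl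
        · exact Or.inr ⟨i, hi, rfl⟩
        · exact Or.inl (by rw [hhist])
    · have h1 := pot_cons hx hx1 hy (makerOf h) e (f :: breakerOf h).toFinset hdiag
        ((mem_board_iff e).1 heb)
      have h2 := pot_pair hx hy (makerOf h) (breakerOf h).toFinset e f ((mem_board_iff e).1 heb)
        ((mem_board_iff f).1 hfb) heM hfM (by simpa using heB) hef
        (brk_spec x y hx hy h hdiag e heb heh')
      rw [← List.toFinset_cons] at h2
      calc _ ≤ _ := h1
        _ ≤ (1 + y + 6 * x) * pot x y (makerOf h) (breakerOf h).toFinset :=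
          mul_le_mul_of_nonneg_left h2 (by positivity)
        _ ≤ (1 + y + 6 * x) * (1 + y + 6 * x) ^ (n + 1) :=
          mul_le_mul_of_nonneg_left ih5 (by positivity)
        _ = (1 + y + 6 * x) ^ (n + 1 + 1) := by ring

/-! ### Which structures are active -/

lemma act_complete (F : Finset (Sym2 ℕ)) (R : Finset ℕ)
    (hFd : ∀ e ∈ F, ∀ g ∈ F, e ≠ g → Disjoint e.toFinset g.toFinset)
    (hFR : ∀ e ∈ F, Disjoint e.toFinset R) (ms : List (Sym2 ℕ)) (hnd : ms.Nodup)
    (h1 : ∀ e ms', e :: ms' <:+ ms → e ∈ F → ∀ u ∈ e, ∀ r ∈ R, s(u, r) ∉ ms')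
    (h2 : ∀ e ms', e :: ms' <:+ ms → e ∈ F → ∀ g ∈ F, g ∈ ms' →
      cross (e :: ms') e g.toFinset ≤ 2) :
    ((R ∩ tch ms) ∪ (F ∩ ms.toFinset).biUnion Sym2.toFinset, (R ∩ tch ms).card,
      (F ∩ ms.toFinset).card) ∈ act ms := by
  induction ms with
  | nil => simp [act, tch]
  | cons e ms ih =>
    obtain ⟨hem, hnd'⟩ := List.nodup_cons.1 hnd
    have ih' := ih hnd' (fun e' ms' hs => h1 e' ms' (hs.trans (List.suffix_cons _ _)))
      (fun e' ms' hs => h2 e' ms' (hs.trans (List.suffix_cons _ _)))
    by_cases heF : e ∈ F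
    · -- a matching edge
      have hR : R ∩ tch (e :: ms) = R ∩ tch ms := by
        ext v
        simp only [tch, Finset.mem_inter, Finset.mem_union]
        constructor
        · rintro ⟨hv, hv' | hv'⟩
          · exact absurd hv (Finset.disjoint_left.1 (hFR e heF) hv')
          · exact ⟨hv, hv'⟩
        · rintro ⟨hv, hv'⟩
          exact ⟨hv, Or.inr hv'⟩
      have hF : F ∩ (e :: ms).toFinset = insert e (F ∩ ms.toFinset) := by
        ext g
        simp only [Finset.mem_inter, List.mem_toFinset, List.mem_cons, Finset.mem_insert]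
        constructor
        · rintro ⟨hg, rfl | hg'⟩
          · exact Or.inl rfl
          · exact Or.inr ⟨hg, hg'⟩
        · rintro (rfl | ⟨hg, hg'⟩)
          · exact ⟨heF, Or.inl rfl⟩
          · exact ⟨hg, Or.inr hg'⟩
      have heFm : e ∉ F ∩ ms.toFinset := by
        rw [Finset.mem_inter, List.mem_toFinset]
        exact fun h => hem h.2
      rw [hR, hF, Finset.card_insert_of_notMem heFm, Finset.biUnion_insert]
      simp only [act, Multiset.mem_add, Multiset.mem_map, Multiset.mem_filter]
      refine Or.inl (Or.inr ⟨_, ⟨ih', ?_, ?_⟩, ?_⟩)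
      · rw [Finset.disjoint_union_right]
        refine ⟨(hFR e heF).mono_right Finset.inter_subset_left, ?_⟩
        rw [Finset.disjoint_biUnion_right]
        intro g hg
        exact hFd e heF g (Finset.mem_inter.1 hg).1 fun h => heFm (h ▸ hg)
      · simp only
        unfold cross
        have hsub : ((e.toFinset ×ˢ ((R ∩ tch ms) ∪ (F ∩ ms.toFinset).biUnion
            Sym2.toFinset)).filter fun p => s(p.1, p.2) ∈ e :: ms) ⊆
            (F ∩ ms.toFinset).biUnion fun g =>
              (e.toFinset ×ˢ g.toFinset).filter fun p => s(p.1, p.2) ∈ e :: ms := by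
          rintro ⟨u, w⟩ hp
          rw [Finset.mem_filter, Finset.mem_product, Finset.mem_union] at hp
          obtain ⟨⟨hu, hw⟩, hp⟩ := hp
          simp only at hu hw hp
          rcases hw with hw | hw
          · exfalso
            have hwR := (Finset.mem_inter.1 hw).1
            rcases List.mem_cons.1 hp with hp | hp
            · have : w ∈ e.toFinset := by
                rw [Sym2.mem_toFinset, ← hp]; exact Sym2.mem_mk_right u w
              exact Finset.disjoint_left.1 (hFR e heF) this hwR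
            · exact h1 e ms List.suffix_rfl heF u (by simpa using hu) w hwR hp
          · rw [Finset.mem_biUnion] at hw ⊢
            obtain ⟨g, hg, hwg⟩ := hw
            exact ⟨g, hg, by rw [Finset.mem_filter, Finset.mem_product]; exact ⟨⟨hu, hwg⟩, hp⟩⟩
        refine le_trans (Finset.card_le_card hsub) ?_
        rw [mul_comm]
        refine Finset.card_biUnion_le_card_mul _ _ _ fun g hg => ?_
        rw [Finset.mem_inter, List.mem_toFinset] at hg
        exact h2 e ms List.suffix_rfl heF g hg.1 hg.2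
      · simp only [extE]
        rw [Finset.union_assoc, Finset.union_comm (Finset.biUnion _ _)]
    · -- not a matching edge
      have hF : F ∩ (e :: ms).toFinset = F ∩ ms.toFinset := by
        ext g
        simp only [Finset.mem_inter, List.mem_toFinset, List.mem_cons]
        constructor
        · rintro ⟨hg, rfl | hg'⟩
          · exact absurd hg heF
          · exact ⟨hg, hg'⟩
        · rintro ⟨hg, hg'⟩
          exact ⟨hg, Or.inr hg'⟩
      set b : Finset ℕ := R ∩ (e.toFinset \ tch ms) with hb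
      have hR : R ∩ tch (e :: ms) = (R ∩ tch ms) ∪ b := by
        ext v
        simp only [tch, hb, Finset.mem_inter, Finset.mem_union, Finset.mem_sdiff]
        tauto
      have hd : Disjoint (R ∩ tch ms) b := by
        rw [Finset.disjoint_left]
        intro v hv hv'
        simp only [hb, Finset.mem_inter, Finset.mem_sdiff] at hv hv'
        exact hv'.2.2 hv.2
      rw [hR, hF, Finset.card_union_of_disjoint hd]
      simp only [act, Multiset.mem_add]
      by_cases hb0 : b = ∅
      · rw [hb0, Finset.union_empty, Finset.card_empty, add_zero]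
        exact Or.inl (Or.inl ih')
      · refine Or.inr ?_
        rw [Multiset.mem_bind]
        refine ⟨b, ?_, ?_⟩
        · have : b ∈ (e.toFinset \ tch ms).powerset.erase ∅ := by
            rw [Finset.mem_erase, Finset.mem_powerset]
            exact ⟨hb0, Finset.inter_subset_right⟩
          exact this
        · rw [Multiset.mem_map]
          refine ⟨_, ih', ?_⟩
          simp only [extV]
          rw [Finset.union_assoc, Finset.union_assoc, Finset.union_comm b]

/-! ### The exchange argument -/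

/-- A matching with `c` edges inside `K`. -/
def IsM (K : Finset ℕ) (c : ℕ) (F : Finset (Sym2 ℕ)) : Prop :=
  (∀ e ∈ F, ¬ e.IsDiag ∧ ∀ v ∈ e, v ∈ K) ∧
    (∀ e ∈ F, ∀ g ∈ F, e ≠ g → Disjoint e.toFinset g.toFinset) ∧ F.card = c

lemma IsM.card_biUnion {K : Finset ℕ} {c : ℕ} {F : Finset (Sym2 ℕ)} (h : IsM K c F) :
    (F.biUnion Sym2.toFinset).card = 2 * c := by
  rw [Finset.card_biUnion fun e he g hg heg => h.2.1 e he g hg heg]
  rw [Finset.sum_congr rfl fun e he => Sym2.card_toFinset_of_not_isDiag e (h.1 e he).1]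
  rw [Finset.sum_const, h.2.2, smul_eq_mul, mul_comm]

lemma IsM.biUnion_subset {K : Finset ℕ} {c : ℕ} {F : Finset (Sym2 ℕ)} (h : IsM K c F) :
    F.biUnion Sym2.toFinset ⊆ K := by
  intro v hv
  obtain ⟨e, he, hv⟩ := Finset.mem_biUnion.1 hv
  exact (h.1 e he).2 v (by simpa using hv)

lemma not_disj (a b : ℕ) :
    ¬ Disjoint (s(a, b) : Sym2 ℕ).toFinset (s(a, b) : Sym2 ℕ).toFinset := by
  rw [Finset.disjoint_self_iff_empty]
  intro h
  have : a ∈ (s(a, b) : Sym2 ℕ).toFinset := by simp
  rw [h] at this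
  simp at this

lemma exists_isM (K : Finset ℕ) (c : ℕ) (hc : 2 * c ≤ K.card) : ∃ F, IsM K c F := by
  induction c with
  | zero => exact ⟨∅, by simp, by simp, by simp⟩
  | succ c ih =>
    obtain ⟨F, hF⟩ := ih (by omega)
    have h1 : 1 < (K \ F.biUnion Sym2.toFinset).card := by
      rw [Finset.card_sdiff_of_subset hF.biUnion_subset, hF.card_biUnion]
      omega
    obtain ⟨a, ha, b, hb, hab⟩ := Finset.one_lt_card.1 h1
    rw [Finset.mem_sdiff] at ha hb
    have hfree : ∀ g ∈ F, Disjoint (s(a, b) : Sym2 ℕ).toFinset g.toFinset := by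
      intro g hg
      rw [Finset.disjoint_left]
      intro v hv hvg
      rw [Sym2.mem_toFinset, Sym2.mem_iff] at hv
      rcases hv with rfl | rfl
      · exact ha.2 (Finset.mem_biUnion.2 ⟨g, hg, hvg⟩)
      · exact hb.2 (Finset.mem_biUnion.2 ⟨g, hg, hvg⟩)
    have hnot : s(a, b) ∉ F := fun h => not_disj a b (hfree _ h)
    refine ⟨insert s(a, b) F, ?_, ?_, ?_⟩
    · intro e he
      rcases Finset.mem_insert.1 he with rfl | he
      · refine ⟨by simpa using hab, fun v hv => ?_⟩
        rw [Sym2.mem_iff] at hv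
        rcases hv with rfl | rfl
        · exact ha.1
        · exact hb.1
      · exact hF.1 e he
    · intro e he g hg heg
      rcases Finset.mem_insert.1 he with rfl | he <;> rcases Finset.mem_insert.1 hg with rfl | hg
      · exact absurd rfl heg
      · exact hfree g hg
      · exact (hfree e he).symm
      · exact hF.2.1 e he g hg heg
    · rw [Finset.card_insert_of_notMem hnot, hF.2.2]

/-- The time of an edge. -/
def tm (ms : List (Sym2 ℕ)) (g : Sym2 ℕ) : ℕ := ms.reverse.idxOf g

lemma tm_lt {ms ms' : List (Sym2 ℕ)} {e g : Sym2 ℕ} (hnd : ms.Nodup) (hs : e :: ms' <:+ ms)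
    (hg : g ∈ ms') : tm ms g < tm ms e := by
  obtain ⟨pre, rfl⟩ := hs
  have he : e ∉ ms' := by
    have := (List.nodup_append.1 hnd).2.1
    exact (List.nodup_cons.1 this).1
  unfold tm
  have hrev : (pre ++ e :: ms').reverse = ms'.reverse ++ (e :: pre.reverse) := by simp
  rw [hrev, List.idxOf_append_of_mem (by simpa using hg),
    List.idxOf_append_of_notMem (by simpa using he)]
  have h1 : ms'.reverse.idxOf g < ms'.reverse.length := List.idxOf_lt_length_of_mem (by simpa using hg)
  omega

/-- If Maker owns a clique, then the corresponding structure is active. -/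
lemma exists_active (ms : List (Sym2 ℕ)) (hnd : ms.Nodup) (K : Finset ℕ)
    (hK : ∀ u ∈ K, ∀ v ∈ K, u ≠ v → s(u, v) ∈ ms) (hK2 : 2 ≤ K.card) (c : ℕ)
    (hc : 2 * c ≤ K.card) : (K, K.card - 2 * c, c) ∈ act ms := by
  classical
  -- choose the matching
  set 𝓕 : Finset (Finset (Sym2 ℕ)) := (K.sym2.powerset).filter fun F => IsM K c F with h𝓕
  have hmem : ∀ F, IsM K c F → F ∈ 𝓕 := by
    intro F hF
    rw [h𝓕, Finset.mem_filter, Finset.mem_powerset]
    refine ⟨fun e he => ?_, hF⟩
    rw [Finset.mem_sym2_iff]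
    exact (hF.1 e he).2
  obtain ⟨F₀, hF₀⟩ := exists_isM K c hc
  obtain ⟨F, hFm, hmin⟩ := 𝓕.exists_min_image (fun F => ∑ g ∈ F, 2 ^ tm ms g) ⟨F₀, hmem _ hF₀⟩
  have hF : IsM K c F := (Finset.mem_filter.1 hFm).2
  have hmin' : ∀ F', IsM K c F' → ∑ g ∈ F, 2 ^ tm ms g ≤ ∑ g ∈ F', 2 ^ tm ms g :=
    fun F' hF' => hmin F' (hmem F' hF')
  set R : Finset ℕ := K \ F.biUnion Sym2.toFinset with hR
  have hRc : R.card = K.card - 2 * c := by
    rw [hR, Finset.card_sdiff_of_subset hF.biUnion_subset, hF.card_biUnion]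
  have hFR : ∀ e ∈ F, Disjoint e.toFinset R := by
    intro e he
    rw [Finset.disjoint_left]
    intro v hv hvR
    rw [hR, Finset.mem_sdiff] at hvR
    exact hvR.2 (Finset.mem_biUnion.2 ⟨e, he, hv⟩)
  have h1 : ∀ e ms', e :: ms' <:+ ms → e ∈ F → ∀ u ∈ e, ∀ r ∈ R, s(u, r) ∉ ms' := by
    intro e ms' hs he u hu r hr hmem'
    have hlt := tm_lt hnd hs hmem'
    have huK := (hF.1 e he).2 u hu
    have hrK : r ∈ K := (Finset.mem_sdiff.1 hr).1
    have hur : u ≠ r := by
      rintro rfl
      exact Finset.disjoint_left.1 (hFR e he) (by simpa using hu) hr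
    have hfree : ∀ g ∈ F.erase e, Disjoint (s(u, r) : Sym2 ℕ).toFinset g.toFinset := by
      intro g hg
      obtain ⟨hge, hg⟩ := Finset.mem_erase.1 hg
      rw [Finset.disjoint_left]
      intro v hv hvg
      rw [Sym2.mem_toFinset, Sym2.mem_iff] at hv
      rcases hv with rfl | rfl
      · exact Finset.disjoint_left.1 (hF.2.1 e he g hg (Ne.symm hge)) (by simpa using hu) hvg
      · exact Finset.disjoint_left.1 (hFR g hg) hvg hr
    have hnot : s(u, r) ∉ F.erase e := fun h => not_disj u r (hfree _ h)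
    have hM : IsM K c (insert s(u, r) (F.erase e)) := by
      refine ⟨?_, ?_, ?_⟩
      · intro g hg
        rcases Finset.mem_insert.1 hg with rfl | hg
        · refine ⟨by simpa using hur, fun v hv => ?_⟩
          rw [Sym2.mem_iff] at hv
          rcases hv with rfl | rfl
          · exact huK
          · exact hrK
        · exact hF.1 g (Finset.mem_of_mem_erase hg)
      · intro a ha b hb hab
        rcases Finset.mem_insert.1 ha with rfl | ha <;> rcases Finset.mem_insert.1 hb with rfl | hb
        · exact absurd rfl hab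
        · exact hfree b hb
        · exact (hfree a ha).symm
        · exact hF.2.1 a (Finset.mem_of_mem_erase ha) b (Finset.mem_of_mem_erase hb) hab
      · rw [Finset.card_insert_of_notMem hnot, Finset.card_erase_add_one he, hF.2.2]
    have h3 := hmin' _ hM
    rw [Finset.sum_insert hnot, ← Finset.add_sum_erase F _ he] at h3
    have h4 : 2 ^ tm ms s(u, r) < 2 ^ tm ms e := Nat.pow_lt_pow_right (by norm_num) hlt
    omega
  have h2 : ∀ e ms', e :: ms' <:+ ms → e ∈ F → ∀ g ∈ F, g ∈ ms' →
      cross (e :: ms') e g.toFinset ≤ 2 := by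
    intro e ms' hs he g hg hgm
    have heg : e ≠ g := by
      rintro rfl
      exact absurd (tm_lt hnd hs hgm) (lt_irrefl _)
    have hdis := hF.2.1 e he g hg heg
    -- replacing the pair `e`, `g` by two disjoint edges on the same four vertices
    have key : ∀ p p' r r' : ℕ, e = s(p, p') → g = s(r, r') →
        ¬ (s(p, r) ∈ e :: ms' ∧ s(p', r') ∈ e :: ms') := by
      rintro p p' r r' hep hgr ⟨ha, hb⟩
      have hpe : p ∈ e := by rw [hep]; simp
      have hpe' : p' ∈ e := by rw [hep]; simp
      have hrg : r ∈ g := by rw [hgr]; simp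
      have hrg' : r' ∈ g := by rw [hgr]; simp
      have hpp : p ≠ p' := by
        have := (hF.1 e he).1
        rw [hep] at this
        simpa using this
      have hrr : r ≠ r' := by
        have := (hF.1 g hg).1
        rw [hgr] at this
        simpa using this
      have hne : ∀ a ∈ e, ∀ b ∈ g, a ≠ b := by
        rintro a ha b hb rfl
        exact Finset.disjoint_left.1 hdis (by simpa using ha) (by simpa using hb)
      have ha' : s(p, r) ∈ ms' := by
        rcases List.mem_cons.1 ha with ha | ha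
        · exfalso
          have : r ∈ e := by rw [← ha]; simp
          exact hne r this r hrg rfl
        · exact ha
      have hb' : s(p', r') ∈ ms' := by
        rcases List.mem_cons.1 hb with hb | hb
        · exfalso
          have : r' ∈ e := by rw [← hb]; simp
          exact hne r' this r' hrg' rfl
        · exact hb
      have hta := tm_lt hnd hs ha'
      have htb := tm_lt hnd hs hb'
      set G := (F.erase e).erase g with hG
      have hGF : ∀ a ∈ G, a ∈ F ∧ a ≠ e ∧ a ≠ g := by
        intro a ha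
        rw [hG, Finset.mem_erase, Finset.mem_erase] at ha
        exact ⟨ha.2.2, ha.2.1, ha.1⟩
      have hfr : ∀ a ∈ e, ∀ b ∈ g, ∀ k ∈ G, Disjoint (s(a, b) : Sym2 ℕ).toFinset k.toFinset := by
        intro a ha b hb k hk
        obtain ⟨hkF, hke, hkg⟩ := hGF k hk
        rw [Finset.disjoint_left]
        intro v hv hvk
        rw [Sym2.mem_toFinset, Sym2.mem_iff] at hv
        rcases hv with rfl | rfl
        · exact Finset.disjoint_left.1 (hF.2.1 e he k hkF (Ne.symm hke)) (by simpa using ha) hvk
        · exact Finset.disjoint_left.1 (hF.2.1 g hg k hkF (Ne.symm hkg)) (by simpa using hb) hvk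
      have hfr1 := hfr p hpe r hrg
      have hfr2 := hfr p' hpe' r' hrg'
      have hab : Disjoint (s(p, r) : Sym2 ℕ).toFinset (s(p', r') : Sym2 ℕ).toFinset := by
        rw [Finset.disjoint_left]
        intro v hv hv'
        rw [Sym2.mem_toFinset, Sym2.mem_iff] at hv hv'
        rcases hv with rfl | rfl <;> rcases hv' with h | h
        · exact hpp h
        · exact hne _ hpe _ hrg' h
        · exact hne _ hpe' _ hrg h.symm
        · exact hrr h
      have hn2 : s(p', r') ∉ G := fun h => not_disj p' r' (hfr2 _ h)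
      have hn1 : s(p, r) ∉ insert s(p', r') G := by
        intro h
        rcases Finset.mem_insert.1 h with h | h
        · rw [h] at hab
          exact not_disj p' r' hab
        · exact not_disj p r (hfr1 _ h)
      have hgE : g ∈ F.erase e := Finset.mem_erase.2 ⟨Ne.symm heg, hg⟩
      have hM : IsM K c (insert s(p, r) (insert s(p', r') G)) := by
        refine ⟨?_, ?_, ?_⟩
        · intro k hk
          rcases Finset.mem_insert.1 hk with rfl | hk
          · refine ⟨by simpa using hne p hpe r hrg, fun v hv => ?_⟩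
            rw [Sym2.mem_iff] at hv
            rcases hv with rfl | rfl
            · exact (hF.1 e he).2 _ hpe
            · exact (hF.1 g hg).2 _ hrg
          rcases Finset.mem_insert.1 hk with rfl | hk
          · refine ⟨by simpa using hne p' hpe' r' hrg', fun v hv => ?_⟩
            rw [Sym2.mem_iff] at hv
            rcases hv with rfl | rfl
            · exact (hF.1 e he).2 _ hpe'
            · exact (hF.1 g hg).2 _ hrg'
          · exact hF.1 k (hGF k hk).1
        · intro a ha b hb hab'
          simp only [Finset.mem_insert] at ha hb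
          rcases ha with rfl | rfl | ha <;> rcases hb with rfl | rfl | hb
          · exact absurd rfl hab'
          · exact hab
          · exact hfr1 b hb
          · exact hab.symm
          · exact absurd rfl hab'
          · exact hfr2 b hb
          · exact (hfr1 a ha).symm
          · exact (hfr2 a ha).symm
          · exact hF.2.1 a (hGF a ha).1 b (hGF b hb).1 hab'
        · rw [Finset.card_insert_of_notMem hn1, Finset.card_insert_of_notMem hn2,
            Finset.card_erase_add_one hgE, Finset.card_erase_add_one he, hF.2.2]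
      have h3 := hmin' _ hM
      rw [Finset.sum_insert hn1, Finset.sum_insert hn2, ← Finset.add_sum_erase F _ he,
        ← Finset.add_sum_erase (F.erase e) _ hgE, ← hG] at h3
      have h4 : 2 * 2 ^ tm ms s(p, r) ≤ 2 ^ tm ms e := by
        rw [← pow_succ']
        exact Nat.pow_le_pow_right (by norm_num) hta
      have h5 : 2 * 2 ^ tm ms s(p', r') ≤ 2 ^ tm ms e := by
        rw [← pow_succ']
        exact Nat.pow_le_pow_right (by norm_num) htb
      have h6 : 0 < 2 ^ tm ms g := by positivity
      omega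
    clear_value R
    induction e using Sym2.ind with
    | _ u v =>
    induction g using Sym2.ind with
    | _ u' v' =>
    have huv : u ≠ v := by simpa using (hF.1 _ he).1
    have huv' : u' ≠ v' := by simpa using (hF.1 _ hg).1
    have k1 := key u v u' v' rfl rfl
    have k2 := key u v v' u' rfl Sym2.eq_swap
    rw [cross_eq _ u v huv]
    have hg2 : (s(u', v') : Sym2 ℕ).toFinset = {u', v'} := by ext z; simp
    rw [hg2, Finset.card_filter, Finset.card_filter, Finset.sum_pair huv', Finset.sum_pair huv']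
    clear key h1 hmin' hmin
    split_ifs <;> first | omega | exact absurd ⟨by assumption, by assumption⟩ k1 |
      exact absurd ⟨by assumption, by assumption⟩ k2
  have hact := act_complete F R hF.2.1 hFR ms hnd h1 h2
  -- identify the structure
  have hFms : F ∩ ms.toFinset = F := by
    rw [Finset.inter_eq_left]
    intro e he
    rw [List.mem_toFinset]
    induction e using Sym2.ind with
    | _ u v =>
    have huv : u ≠ v := by simpa using (hF.1 _ he).1
    exact hK u ((hF.1 _ he).2 u (by simp)) v ((hF.1 _ he).2 v (by simp)) huv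
  have hRt : R ∩ tch ms = R := by
    rw [Finset.inter_eq_left]
    intro v hv
    have hvK : v ∈ K := (Finset.mem_sdiff.1 hv).1
    obtain ⟨w, hw, hwv⟩ := Finset.exists_mem_ne (by omega : 1 < K.card) v
    exact tch_mem (hK v hvK w hw (Ne.symm hwv)) (by simp)
  have hU : R ∪ F.biUnion Sym2.toFinset = K := by
    rw [hR, Finset.sdiff_union_of_subset hF.biUnion_subset]
  rw [hFms, hRt, hU, hF.2.2, hRc] at hact
  exact hact

end Pool.Agent.Helper679.CliqueGame
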