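import Mathlib

set_option autoImplicit false

namespace Pool.Agent.Helper679.Kite

open Finset

/-- Double counting with fibres of size at most two. -/
lemma fiber_sum {κ β : Type*} [DecidableEq β] (K : Finset κ) (T : Finset β) (π : κ → β)
    (hπ : ∀ k ∈ K, π k ∈ T) (hf : ∀ t ∈ T, (K.filter (fun k => π k = t)).card ≤ 2)
    (φ : β → ℝ) (M : ℝ) (hM : ∀ t ∈ T, |φ t| ≤ M) :
    |∑ k ∈ K, φ (π k) - 2 * ∑ t ∈ T, φ t| ≤ M * (2 * (T.card : ℝ) - (K.card : ℝ)) := by
  have h1 : ∑ k ∈ K, φ (π k) = ∑ t ∈ T, ((K.filter (fun k => π k = t)).card : ℝ) * φ t := by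
    rw [← Finset.sum_fiberwise_of_maps_to hπ]
    refine Finset.sum_congr rfl fun t _ => ?_
    rw [Finset.sum_congr rfl (g := fun _ => φ t)]
    · simp
    · intro k hk
      rw [(Finset.mem_filter.mp hk).2]
  have h2 : (K.card : ℝ) = ∑ t ∈ T, ((K.filter (fun k => π k = t)).card : ℝ) := by
    rw [Finset.card_eq_sum_card_fiberwise hπ]
    push_cast
    rfl
  have h3 : ∑ k ∈ K, φ (π k) - 2 * ∑ t ∈ T, φ t
      = ∑ t ∈ T, (((K.filter (fun k => π k = t)).card : ℝ) - 2) * φ t := by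
    rw [h1, Finset.mul_sum, ← Finset.sum_sub_distrib]
    refine Finset.sum_congr rfl fun t _ => ?_
    ring
  have h4 : M * (2 * (T.card : ℝ) - (K.card : ℝ))
      = ∑ t ∈ T, (2 - ((K.filter (fun k => π k = t)).card : ℝ)) * M := by
    rw [h2, ← Finset.sum_mul, Finset.sum_sub_distrib]
    simp
    ring
  rw [h3, h4]
  refine (Finset.abs_sum_le_sum_abs _ _).trans (Finset.sum_le_sum fun t ht => ?_)
  have hc : ((K.filter (fun k => π k = t)).card : ℝ) ≤ 2 := by exact_mod_cast hf t ht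
  rw [abs_mul, abs_of_nonpos (by linarith)]
  have := hM t ht
  nlinarith

lemma fiber_card_le {κ β : Type*} [DecidableEq β] (K : Finset κ) (T : Finset β) (π : κ → β)
    (hπ : ∀ k ∈ K, π k ∈ T) (hf : ∀ t ∈ T, (K.filter (fun k => π k = t)).card ≤ 2) :
    K.card ≤ 2 * T.card := by
  rw [Finset.card_eq_sum_card_fiberwise hπ]
  calc ∑ t ∈ T, (K.filter (fun k => π k = t)).card ≤ ∑ _t ∈ T, 2 := Finset.sum_le_sum hf
    _ = 2 * T.card := by simp [mul_comm]

/-- Normal form of a kite in coordinates. -/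
lemma kite_normal (ax ay bx by' px py qx qy : ℝ)
    (h1 : (px - ax) ^ 2 + (py - ay) ^ 2 = (px - bx) ^ 2 + (py - by') ^ 2)
    (h2 : (qx - ax) ^ 2 + (qy - ay) ^ 2 = (qx - bx) ^ 2 + (qy - by') ^ 2)
    (n1 : 0 < (ax - bx) ^ 2 + (ay - by') ^ 2) (n2 : 0 < (qx - px) ^ 2 + (qy - py) ^ 2) :
    ∃ ux uy lam g h : ℝ, ux ^ 2 + uy ^ 2 = 1 ∧ 0 < lam ∧ lam = Real.sqrt ((qx - px) ^ 2 + (qy - py) ^ 2) ∧
      h ≠ 0 ∧
      qx = px + lam * ux ∧ qy = py + lam * uy ∧
      ax = px + (g * ux - h * uy) / 2 ∧ ay = py + (g * uy + h * ux) / 2 ∧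
      bx = px + (g * ux + h * uy) / 2 ∧ by' = py + (g * uy - h * ux) / 2 := by
  set lam := Real.sqrt ((qx - px) ^ 2 + (qy - py) ^ 2) with hlam
  have hl : 0 < lam := Real.sqrt_pos.mpr n2
  have hl2 : lam ^ 2 = (qx - px) ^ 2 + (qy - py) ^ 2 := Real.sq_sqrt n2.le
  have hl0 : lam ≠ 0 := hl.ne'
  obtain ⟨ux, hux⟩ : ∃ ux, ux = (qx - px) / lam := ⟨_, rfl⟩
  obtain ⟨uy, huy⟩ : ∃ uy, uy = (qy - py) / lam := ⟨_, rfl⟩
  have hqx : qx - px = lam * ux := by rw [hux]; field_simp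
  have hqy : qy - py = lam * uy := by rw [huy]; field_simp
  have hu : ux ^ 2 + uy ^ 2 = 1 := by
    have : lam ^ 2 * (ux ^ 2 + uy ^ 2) = lam ^ 2 * 1 := by
      rw [mul_one]
      conv_rhs => rw [hl2, hqx, hqy]
      ring
    exact mul_left_cancel₀ (pow_ne_zero 2 hl0) this
  -- orthogonality
  have o1 : (ax - bx) * ux + (ay - by') * uy = 0 := by
    have : lam * ((ax - bx) * ux + (ay - by') * uy) = 0 := by
      have e1 : lam * ((ax - bx) * ux + (ay - by') * uy)
          = (ax - bx) * (qx - px) + (ay - by') * (qy - py) := by rw [hqx, hqy]; ring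
      rw [e1]; linear_combination (h1 - h2) / 2
    rcases mul_eq_zero.mp this with h | h
    · exact absurd h hl0
    · exact h
  have o2 : (ax + bx - 2 * px) * (ax - bx) + (ay + by' - 2 * py) * (ay - by') = 0 := by
    linear_combination h1
  -- d = h * J u
  obtain ⟨h, hh⟩ : ∃ h, h = -(ax - bx) * uy + (ay - by') * ux := ⟨_, rfl⟩
  obtain ⟨g, hg⟩ : ∃ g, g = (ax + bx - 2 * px) * ux + (ay + by' - 2 * py) * uy := ⟨_, rfl⟩
  have d1 : ax - bx = -h * uy := by
    rw [hh]; linear_combination (-(ax - bx)) * hu + ux * o1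
  have d2 : ay - by' = h * ux := by
    rw [hh]; linear_combination (-(ay - by')) * hu + uy * o1
  have hne : h ≠ 0 := by
    rintro rfl
    rw [d1, d2] at n1
    simp at n1
  have o3 : -(ax + bx - 2 * px) * uy + (ay + by' - 2 * py) * ux = 0 := by
    have : h * (-(ax + bx - 2 * px) * uy + (ay + by' - 2 * py) * ux) = 0 := by
      rw [d1, d2] at o2
      linear_combination o2
    rcases mul_eq_zero.mp this with h' | h'
    · exact absurd h' hne
    · exact h'
  have s1 : ax + bx - 2 * px = g * ux := by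
    rw [hg]; linear_combination (-(ax + bx - 2 * px)) * hu - uy * o3
  have s2 : ay + by' - 2 * py = g * uy := by
    rw [hg]; linear_combination (-(ay + by' - 2 * py)) * hu + ux * o3
  refine ⟨ux, uy, lam, g, h, hu, hl, rfl, hne, by linarith, by linarith, ?_, ?_, ?_, ?_⟩
  · linear_combination (s1 + d1) / 2
  · linear_combination (s2 + d2) / 2
  · linear_combination (s1 - d1) / 2
  · linear_combination (s2 - d2) / 2

end Pool.Agent.Helper679.Kite
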