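import Mathlib
import Pool.Agent.Helper679.Kite

set_option autoImplicit false

namespace Pool.Agent.Helper679.Kite

open Finset

set_option linter.unusedSectionVars false

variable {ι : Type*} [DecidableEq ι]

/-- dot product of the position vectors -/
def dt (X Y : ι → ℝ) (x y : ι) : ℝ := X x * X y + Y x * Y y

/-- squared distance -/
def sq (X Y : ι → ℝ) (x y : ι) : ℝ := (X x - X y) ^ 2 + (Y x - Y y) ^ 2

/-- A system of kites `(a, b, p, q)`. -/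
structure KS (s : Finset ι) (X Y : ι → ℝ) (K : Finset (ι × ι × ι × ι)) : Prop where
  mem : ∀ a b p q, (a, b, p, q) ∈ K → a ∈ s ∧ b ∈ s ∧ p ∈ s ∧ q ∈ s
  e1 : ∀ a b p q, (a, b, p, q) ∈ K → sq X Y p a = sq X Y p b
  e2 : ∀ a b p q, (a, b, p, q) ∈ K → sq X Y q a = sq X Y q b
  n1 : ∀ a b p q, (a, b, p, q) ∈ K → 0 < sq X Y a b
  n2 : ∀ a b p q, (a, b, p, q) ∈ K → 0 < sq X Y q p
  sab : ∀ a b p q, (a, b, p, q) ∈ K → (b, a, p, q) ∈ K
  spq : ∀ a b p q, (a, b, p, q) ∈ K → (a, b, q, p) ∈ K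
  fab : ∀ a b, (K.filter (fun k => k.1 = a ∧ k.2.1 = b)).card ≤ 2
  fpq : ∀ p q, (K.filter (fun k => k.2.2.1 = p ∧ k.2.2.2 = q)).card ≤ 2
  fpa : ∀ p a, (K.filter (fun k => k.2.2.1 = p ∧ k.1 = a)).card ≤ 2

/-- component of `p` along the direction from `p` to `q` -/
noncomputable def up (X Y : ι → ℝ) (p q : ι) : ℝ :=
  ((X q - X p) * X p + (Y q - Y p) * Y p) / Real.sqrt (sq X Y q p)

/-- the defect of a kite -/
noncomputable def ep (X Y : ι → ℝ) (k : ι × ι × ι × ι) : ℝ :=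
  ((X k.1 + X k.2.1 + X k.2.2.1 + X k.2.2.2) * (X k.2.2.2 - X k.2.2.1)
    + (Y k.1 + Y k.2.1 + Y k.2.2.1 + Y k.2.2.2) * (Y k.2.2.2 - Y k.2.2.1))
    / (2 * Real.sqrt (sq X Y k.2.2.2 k.2.2.1))

lemma abs_le_one_of_sq {x : ℝ} (h : x ^ 2 ≤ 1) : |x| ≤ 1 := by
  rw [← Real.sqrt_sq_eq_abs]
  exact Real.sqrt_le_one.mpr h

lemma sq_le_four (X Y : ι → ℝ) (x y : ι) (hx : dt X Y x x ≤ 1) (hy : dt X Y y y ≤ 1) :
    sq X Y x y ≤ 4 := by
  unfold dt at hx hy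
  unfold sq
  nlinarith [sq_nonneg (X x + X y), sq_nonneg (Y x + Y y)]

lemma dt_abs_le_one (X Y : ι → ℝ) (x y : ι) (hx : dt X Y x x ≤ 1) (hy : dt X Y y y ≤ 1) :
    |dt X Y x y| ≤ 1 := by
  unfold dt at *
  rw [abs_le]
  constructor
  · nlinarith [sq_nonneg (X x + X y), sq_nonneg (Y x + Y y)]
  · nlinarith [sq_nonneg (X x - X y), sq_nonneg (Y x - Y y)]

set_option maxHeartbeats 1600000 in
/-- Pointwise identities for one kite. -/
lemma kite_facts (s : Finset ι) (X Y : ι → ℝ) (K : Finset (ι × ι × ι × ι)) (hK : KS s X Y K)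
    (hbd : ∀ x ∈ s, dt X Y x x ≤ 1) (a b p q : ι) (hk : (a, b, p, q) ∈ K) :
    (dt X Y q p = 3 * dt X Y p p + 2 * (ep X Y (a, b, p, q) * up X Y p q) - 4 * up X Y p q ^ 2
        - dt X Y a p - dt X Y b p) ∧
    |sq X Y q p - (16 * up X Y p q ^ 2 + 8 * (dt X Y a p + dt X Y b p) - 16 * dt X Y p p
        + 2 * sq X Y a p + 2 * sq X Y b p - sq X Y a b)|
      ≤ 4 * ep X Y (a, b, p, q) ^ 2 + 32 * |ep X Y (a, b, p, q)| ∧
    |up X Y p q| ≤ 1 := by
  obtain ⟨ha, hb, hp, hq⟩ := hK.mem a b p q hk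
  have h1 := hK.e1 a b p q hk
  have h2 := hK.e2 a b p q hk
  have n1 := hK.n1 a b p q hk
  have n2 := hK.n2 a b p q hk
  have hap := sq_le_four X Y a p (hbd a ha) (hbd p hp)
  have hpp := hbd p hp
  unfold sq at h1 h2 n1 n2 hap
  obtain ⟨ux, uy, lam, g, h, hu, hl, hlam, hne, hqx, hqy, hax, hay, hbx, hby⟩ :=
    kite_normal (X a) (Y a) (X b) (Y b) (X p) (Y p) (X q) (Y q) h1 h2 n1 n2
  have hl0 : lam ≠ 0 := hl.ne'
  have hup : up X Y p q = X p * ux + Y p * uy := by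
    unfold up sq
    rw [← hlam, hqx, hqy]
    field_simp
    ring
  have hep : ep X Y (a, b, p, q) = 2 * (X p * ux + Y p * uy) + (g + lam) / 2 := by
    unfold ep sq
    simp only
    rw [← hlam]
    rw [div_eq_iff (by positivity)]
    rw [hqx, hqy, hax, hay, hbx, hby]
    linear_combination (lam * (g + lam)) * hu
  obtain ⟨P1, hP1⟩ : ∃ P1, P1 = X p * ux + Y p * uy := ⟨_, rfl⟩
  rw [← hP1] at hup hep
  have hqp : dt X Y q p = dt X Y p p + lam * P1 := by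
    unfold dt; rw [hqx, hqy, hP1]; ring
  have habp : dt X Y a p + dt X Y b p = 2 * dt X Y p p + g * P1 := by
    unfold dt; rw [hax, hay, hbx, hby, hP1]; ring
  have hsap : sq X Y a p = (g ^ 2 + h ^ 2) / 4 := by
    unfold sq; rw [hax, hay]; linear_combination ((g ^ 2 + h ^ 2) / 4) * hu
  have hsbp : sq X Y b p = (g ^ 2 + h ^ 2) / 4 := by
    unfold sq; rw [hbx, hby]; linear_combination ((g ^ 2 + h ^ 2) / 4) * hu
  have hsab : sq X Y a b = h ^ 2 := by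
    unfold sq; rw [hax, hay, hbx, hby]; linear_combination (h ^ 2) * hu
  have hsqp : sq X Y q p = lam ^ 2 := by
    unfold sq; rw [hqx, hqy]; linear_combination (lam ^ 2) * hu
  have hP1sq : P1 ^ 2 ≤ 1 := by
    have : P1 ^ 2 + (X p * uy - Y p * ux) ^ 2 = dt X Y p p := by
      unfold dt; rw [hP1]; linear_combination (X p ^ 2 + Y p ^ 2) * hu
    nlinarith [sq_nonneg (X p * uy - Y p * ux)]
  have hP1abs : |P1| ≤ 1 := abs_le_one_of_sq hP1sq
  refine ⟨?_, ?_, ?_⟩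
  · rw [hqp, hup, hep]
    linear_combination habp
  · rw [hsqp, hup, hep, habp, hsap, hsbp, hsab]
    have hg : |g| ≤ 4 := by
      have h4 : (g ^ 2 + h ^ 2) / 4 ≤ 4 := by
        rw [← hsap]; exact sq_le_four X Y a p (hbd a ha) (hbd p hp)
      have : g ^ 2 ≤ 16 := by linarith [sq_nonneg h]
      exact abs_le_of_sq_le_sq (by linarith) (by norm_num)
    have e0 : lam ^ 2 - (16 * P1 ^ 2 + 8 * (2 * dt X Y p p + g * P1) - 16 * dt X Y p p
          + 2 * ((g ^ 2 + h ^ 2) / 4) + 2 * ((g ^ 2 + h ^ 2) / 4) - h ^ 2)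
        = 4 * (2 * P1 + (g + lam) / 2) ^ 2 - 4 * ((2 * P1 + (g + lam) / 2) * (4 * P1 + g)) := by ring
    rw [e0]
    have e1 : |4 * P1 + g| ≤ 8 := by
      calc |4 * P1 + g| ≤ |4 * P1| + |g| := abs_add_le _ _
        _ = 4 * |P1| + |g| := by rw [abs_mul]; norm_num
        _ ≤ 8 := by linarith
    calc |4 * (2 * P1 + (g + lam) / 2) ^ 2 - 4 * ((2 * P1 + (g + lam) / 2) * (4 * P1 + g))|
        ≤ |4 * (2 * P1 + (g + lam) / 2) ^ 2| + |4 * ((2 * P1 + (g + lam) / 2) * (4 * P1 + g))| :=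
          abs_sub _ _
      _ = 4 * (2 * P1 + (g + lam) / 2) ^ 2 + 4 * (|2 * P1 + (g + lam) / 2| * |4 * P1 + g|) := by
          rw [abs_of_nonneg (by positivity), abs_mul, abs_mul]; norm_num
      _ ≤ 4 * (2 * P1 + (g + lam) / 2) ^ 2 + 32 * |2 * P1 + (g + lam) / 2| := by
          nlinarith [abs_nonneg (2 * P1 + (g + lam) / 2)]
  · rw [hup]; exact hP1abs

end Pool.Agent.Helper679.Kite
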