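import Mathlib
import Pool.Agent.Helper679.Local

set_option autoImplicit false
set_option linter.unusedSectionVars false

namespace Pool.Agent.Helper679.Kite

open Finset

variable {ι : Type*} [DecidableEq ι]

/-- kites with third vertex `p` -/
def Kp (K : Finset (ι × ι × ι × ι)) (p : ι) : Finset (ι × ι × ι × ι) :=
  K.filter (fun k => k.2.2.1 = p)

lemma mem_Kp {K : Finset (ι × ι × ι × ι)} {p : ι} {k : ι × ι × ι × ι} (h : k ∈ Kp K p) :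
    (k.1, k.2.1, p, k.2.2.2) ∈ K ∧ k = (k.1, k.2.1, p, k.2.2.2) := by
  obtain ⟨a, b, p', q⟩ := k
  unfold Kp at h
  rw [Finset.mem_filter] at h
  obtain ⟨h1, h2⟩ := h
  simp only at h2
  subst h2
  exact ⟨h1, rfl⟩

lemma Kp_fib_q {s : Finset ι} {X Y : ι → ℝ} {K : Finset (ι × ι × ι × ι)} (hK : KS s X Y K) (p q : ι) :
    ((Kp K p).filter (fun k => k.2.2.2 = q)).card ≤ 2 := by
  unfold Kp
  rw [Finset.filter_filter]
  exact hK.fpq p q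

lemma Kp_fib_a {s : Finset ι} {X Y : ι → ℝ} {K : Finset (ι × ι × ι × ι)} (hK : KS s X Y K) (p a : ι) :
    ((Kp K p).filter (fun k => k.1 = a)).card ≤ 2 := by
  unfold Kp
  rw [Finset.filter_filter]
  exact hK.fpa p a

lemma Kp_card_le {s : Finset ι} {X Y : ι → ℝ} {K : Finset (ι × ι × ι × ι)} (hK : KS s X Y K) (p : ι) :
    (Kp K p).card ≤ 2 * s.card := by
  refine fiber_card_le (Kp K p) s (fun k => k.2.2.2) ?_ ?_
  · intro k hk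
    exact (hK.mem _ _ _ _ (mem_Kp hk).1).2.2.2
  · intro t _
    exact Kp_fib_q hK p t

lemma Kp_sum_q {s : Finset ι} {X Y : ι → ℝ} {K : Finset (ι × ι × ι × ι)} (hK : KS s X Y K) (p : ι)
    (φ : ι → ℝ) (M : ℝ) (hM : ∀ t ∈ s, |φ t| ≤ M) :
    |∑ k ∈ Kp K p, φ k.2.2.2 - 2 * ∑ t ∈ s, φ t|
      ≤ M * (2 * (s.card : ℝ) - ((Kp K p).card : ℝ)) :=
  fiber_sum (Kp K p) s (fun k => k.2.2.2)
    (fun _ hk => (hK.mem _ _ _ _ (mem_Kp hk).1).2.2.2) (fun t _ => Kp_fib_q hK p t) φ M hM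

lemma Kp_sum_a {s : Finset ι} {X Y : ι → ℝ} {K : Finset (ι × ι × ι × ι)} (hK : KS s X Y K) (p : ι)
    (φ : ι → ℝ) (M : ℝ) (hM : ∀ t ∈ s, |φ t| ≤ M) :
    |∑ k ∈ Kp K p, φ k.1 - 2 * ∑ t ∈ s, φ t|
      ≤ M * (2 * (s.card : ℝ) - ((Kp K p).card : ℝ)) :=
  fiber_sum (Kp K p) s (fun k => k.1)
    (fun _ hk => (hK.mem _ _ _ _ (mem_Kp hk).1).1) (fun t _ => Kp_fib_a hK p t) φ M hM

lemma Kp_sum_swap {s : Finset ι} {X Y : ι → ℝ} {K : Finset (ι × ι × ι × ι)} (hK : KS s X Y K) (p : ι)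
    (φ : ι → ℝ) : ∑ k ∈ Kp K p, φ k.2.1 = ∑ k ∈ Kp K p, φ k.1 := by
  refine Finset.sum_nbij' (fun k => (k.2.1, k.1, k.2.2.1, k.2.2.2))
    (fun k => (k.2.1, k.1, k.2.2.1, k.2.2.2)) ?_ ?_ ?_ ?_ ?_
  · intro k hk
    obtain ⟨h1, h2⟩ := mem_Kp hk
    unfold Kp
    rw [Finset.mem_filter]
    refine ⟨?_, ?_⟩
    · rw [h2]; exact hK.sab _ _ _ _ h1
    · rw [h2]
  · intro k hk
    obtain ⟨h1, h2⟩ := mem_Kp hk
    unfold Kp
    rw [Finset.mem_filter]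
    refine ⟨?_, ?_⟩
    · rw [h2]; exact hK.sab _ _ _ _ h1
    · rw [h2]
  · intro k _; rfl
  · intro k _; rfl
  · intro k _; rfl

lemma Kp_sum_b {s : Finset ι} {X Y : ι → ℝ} {K : Finset (ι × ι × ι × ι)} (hK : KS s X Y K) (p : ι)
    (φ : ι → ℝ) (M : ℝ) (hM : ∀ t ∈ s, |φ t| ≤ M) :
    |∑ k ∈ Kp K p, φ k.2.1 - 2 * ∑ t ∈ s, φ t|
      ≤ M * (2 * (s.card : ℝ) - ((Kp K p).card : ℝ)) := by
  rw [Kp_sum_swap hK p φ]
  exact Kp_sum_a hK p φ M hM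

section sums
variable (s : Finset ι) (X Y : ι → ℝ)

lemma sum_sq (hX : ∑ x ∈ s, X x = 0) (hY : ∑ x ∈ s, Y x = 0) (p : ι) :
    ∑ x ∈ s, sq X Y x p = ∑ x ∈ s, dt X Y x x + s.card * dt X Y p p := by
  have : ∀ x ∈ s, sq X Y x p = dt X Y x x + dt X Y p p - 2 * X p * X x - 2 * Y p * Y x := by
    intro x _; unfold sq dt; ring
  rw [Finset.sum_congr rfl this]
  rw [Finset.sum_sub_distrib, Finset.sum_sub_distrib, Finset.sum_add_distrib, ← Finset.mul_sum,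
    ← Finset.mul_sum, hX, hY]
  simp

lemma sum_dt (hX : ∑ x ∈ s, X x = 0) (hY : ∑ x ∈ s, Y x = 0) (p : ι) :
    ∑ x ∈ s, dt X Y x p = 0 := by
  unfold dt
  rw [Finset.sum_add_distrib, ← Finset.sum_mul, ← Finset.sum_mul, hX, hY]
  simp

end sums

/-- First local conclusion: the sum of `|a-b|^2` at `p`. -/
lemma local_A (s : Finset ι) (X Y : ι → ℝ) (K : Finset (ι × ι × ι × ι)) (hK : KS s X Y K)
    (hbd : ∀ x ∈ s, dt X Y x x ≤ 1) (hX : ∑ x ∈ s, X x = 0) (hY : ∑ x ∈ s, Y x = 0)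
    (p : ι) (hp : p ∈ s) (n W P Δ σ E A2 : ℝ) (hn : n = s.card) (hW : W = ∑ x ∈ s, dt X Y x x)
    (hP : P = dt X Y p p) (hΔ : Δ = 2 * n - (Kp K p).card)
    (hσ : σ = ∑ k ∈ Kp K p, |ep X Y k|) (hE : E = ∑ k ∈ Kp K p, ep X Y k ^ 2)
    (hA2 : A2 = ∑ k ∈ Kp K p, sq X Y k.1 k.2.1) :
    |A2 - 2 * (3 * W - n * P)| ≤ 52 * Δ + 40 * σ + 4 * E ∧
    ∑ k ∈ Kp K p, (sq X Y k.2.2.2 p + (8 / 3) * (dt X Y k.2.2.2 p - dt X Y p p)
        + (16 / 9) * up X Y p k.2.2.2 ^ 2) ≤ 2 * (W - n * P / 3) + 10 * Δ + σ := by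
  have hPle : P ≤ 1 := by rw [hP]; exact hbd p hp
  have hP0 : 0 ≤ P := by rw [hP]; unfold dt; nlinarith [sq_nonneg (X p), sq_nonneg (Y p)]
  have hΔ0 : 0 ≤ Δ := by
    have := Kp_card_le hK p
    have h' : ((Kp K p).card : ℝ) ≤ 2 * s.card := by exact_mod_cast this
    rw [hΔ, hn]; linarith
  have hck : ((Kp K p).card : ℝ) = 2 * n - Δ := by rw [hΔ]; ring
  have hcoef : 2 * (s.card : ℝ) - ((Kp K p).card : ℝ) = Δ := by rw [hΔ, hn]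
  have hσ0 : 0 ≤ σ := by rw [hσ]; exact Finset.sum_nonneg fun _ _ => abs_nonneg _
  -- fibre sums
  have hM4 : ∀ t ∈ s, |sq X Y t p| ≤ 4 := by
    intro t ht
    rw [abs_of_nonneg (by unfold sq; positivity)]
    exact sq_le_four X Y t p (hbd t ht) (hbd p hp)
  have hM1 : ∀ t ∈ s, |dt X Y t p| ≤ 1 := fun t ht =>
    dt_abs_le_one X Y t p (hbd t ht) (hbd p hp)
  have q1 := Kp_sum_q hK p (fun t => sq X Y t p) 4 hM4
  have a1 := Kp_sum_a hK p (fun t => sq X Y t p) 4 hM4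
  have b1 := Kp_sum_b hK p (fun t => sq X Y t p) 4 hM4
  have q2 := Kp_sum_q hK p (fun t => dt X Y t p) 1 hM1
  have a2 := Kp_sum_a hK p (fun t => dt X Y t p) 1 hM1
  have b2 := Kp_sum_b hK p (fun t => dt X Y t p) 1 hM1
  rw [hcoef] at q1 a1 b1 q2 a2 b2
  rw [sum_sq s X Y hX hY p, ← hn, ← hW, ← hP] at q1 a1 b1
  rw [sum_dt s X Y hX hY p] at q2 a2 b2
  -- pointwise identities summed
  obtain ⟨Su, hSu⟩ : ∃ Su, Su = ∑ k ∈ Kp K p, up X Y p k.2.2.2 ^ 2 := ⟨_, rfl⟩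
  obtain ⟨Sm, hSm⟩ : ∃ Sm, Sm = ∑ k ∈ Kp K p, ep X Y k * up X Y p k.2.2.2 := ⟨_, rfl⟩
  have hSmabs : |Sm| ≤ σ := by
    rw [hSm, hσ]
    refine (Finset.abs_sum_le_sum_abs _ _).trans (Finset.sum_le_sum fun k hk => ?_)
    obtain ⟨h1, h2⟩ := mem_Kp hk
    have := (kite_facts s X Y K hK hbd _ _ _ _ h1).2.2
    rw [abs_mul]
    calc |ep X Y k| * |up X Y p k.2.2.2| ≤ |ep X Y k| * 1 :=
          mul_le_mul_of_nonneg_left this (abs_nonneg _)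
      _ = |ep X Y k| := mul_one _
  have I1 : ∑ k ∈ Kp K p, dt X Y k.2.2.2 p = 3 * P * (2 * n - Δ) + 2 * Sm - 4 * Su
      - ∑ k ∈ Kp K p, dt X Y k.1 p - ∑ k ∈ Kp K p, dt X Y k.2.1 p := by
    have : ∀ k ∈ Kp K p, dt X Y k.2.2.2 p = 3 * P + 2 * (ep X Y k * up X Y p k.2.2.2)
        - 4 * up X Y p k.2.2.2 ^ 2 - dt X Y k.1 p - dt X Y k.2.1 p := by
      intro k hk
      obtain ⟨h1, h2⟩ := mem_Kp hk
      have := (kite_facts s X Y K hK hbd _ _ _ _ h1).1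
      rw [← h2] at this
      rw [this, hP]
    rw [Finset.sum_congr rfl this]
    simp only [Finset.sum_sub_distrib, Finset.sum_add_distrib, ← Finset.mul_sum]
    rw [← hSu, ← hSm, Finset.sum_const, nsmul_eq_mul, hck]
    ring
  have I2 : |∑ k ∈ Kp K p, sq X Y k.2.2.2 p - (16 * Su + 8 * (∑ k ∈ Kp K p, dt X Y k.1 p
      + ∑ k ∈ Kp K p, dt X Y k.2.1 p) - 16 * P * (2 * n - Δ) + 2 * ∑ k ∈ Kp K p, sq X Y k.1 p
      + 2 * ∑ k ∈ Kp K p, sq X Y k.2.1 p - A2)| ≤ 4 * E + 32 * σ := by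
    have e0 : ∑ k ∈ Kp K p, sq X Y k.2.2.2 p - (16 * Su + 8 * (∑ k ∈ Kp K p, dt X Y k.1 p
      + ∑ k ∈ Kp K p, dt X Y k.2.1 p) - 16 * P * (2 * n - Δ) + 2 * ∑ k ∈ Kp K p, sq X Y k.1 p
      + 2 * ∑ k ∈ Kp K p, sq X Y k.2.1 p - A2)
      = ∑ k ∈ Kp K p, (sq X Y k.2.2.2 p - (16 * up X Y p k.2.2.2 ^ 2
        + 8 * (dt X Y k.1 p + dt X Y k.2.1 p) - 16 * P
        + 2 * sq X Y k.1 p + 2 * sq X Y k.2.1 p - sq X Y k.1 k.2.1)) := by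
      simp only [Finset.sum_sub_distrib, Finset.sum_add_distrib, ← Finset.mul_sum]
      rw [← hSu, ← hA2, Finset.sum_const, nsmul_eq_mul, hck]
      ring
    rw [e0]
    calc _ ≤ ∑ k ∈ Kp K p, (4 * ep X Y k ^ 2 + 32 * |ep X Y k|) := by
          refine (Finset.abs_sum_le_sum_abs _ _).trans (Finset.sum_le_sum fun k hk => ?_)
          obtain ⟨h1, h2⟩ := mem_Kp hk
          have := (kite_facts s X Y K hK hbd _ _ _ _ h1).2.1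
          rw [← h2, ← hP] at this
          exact this
      _ = 4 * E + 32 * σ := by
          rw [Finset.sum_add_distrib, ← Finset.mul_sum, ← Finset.mul_sum, ← hE, ← hσ]
  have J : ∑ k ∈ Kp K p, (sq X Y k.2.2.2 p + (8 / 3) * (dt X Y k.2.2.2 p - dt X Y p p)
        + (16 / 9) * up X Y p k.2.2.2 ^ 2)
      = ∑ k ∈ Kp K p, sq X Y k.2.2.2 p + (8 / 3) * (∑ k ∈ Kp K p, dt X Y k.2.2.2 p
        - P * (2 * n - Δ)) + (16 / 9) * Su := by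
    simp only [Finset.sum_sub_distrib, Finset.sum_add_distrib, ← Finset.mul_sum]
    rw [← hSu, Finset.sum_const, nsmul_eq_mul, hck, ← hP]
    ring
  have hPΔ : P * Δ ≤ Δ := by nlinarith
  have hPΔ0 : 0 ≤ P * Δ := mul_nonneg hP0 hΔ0
  rw [J]
  rw [abs_le] at *
  obtain ⟨q1l, q1r⟩ := q1
  obtain ⟨a1l, a1r⟩ := a1
  obtain ⟨b1l, b1r⟩ := b1
  obtain ⟨q2l, q2r⟩ := q2
  obtain ⟨a2l, a2r⟩ := a2
  obtain ⟨b2l, b2r⟩ := b2
  obtain ⟨I2l, I2r⟩ := I2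
  obtain ⟨sml, smr⟩ := hSmabs
  refine ⟨⟨?_, ?_⟩, ?_⟩
  · linarith
  · linarith
  · linarith

end Pool.Agent.Helper679.Kite
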