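import Mathlib
import Pool.Agent.Helper679.LocalSum

set_option autoImplicit false
set_option linter.unusedSectionVars false

namespace Pool.Agent.Helper679.Kite

open Finset

variable {ι : Type*} [DecidableEq ι]

lemma fiber_sum_le {κ β : Type*} [DecidableEq β] (K : Finset κ) (T : Finset β) (π : κ → β)
    (hπ : ∀ k ∈ K, π k ∈ T) (hf : ∀ t ∈ T, (K.filter (fun k => π k = t)).card ≤ 2)
    (φ : β → ℝ) (h0 : ∀ t ∈ T, 0 ≤ φ t) :
    ∑ k ∈ K, φ (π k) ≤ 2 * ∑ t ∈ T, φ t := by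
  have h1 : ∑ k ∈ K, φ (π k) = ∑ t ∈ T, ((K.filter (fun k => π k = t)).card : ℝ) * φ t := by
    rw [← Finset.sum_fiberwise_of_maps_to hπ]
    refine Finset.sum_congr rfl fun t _ => ?_
    rw [Finset.sum_congr rfl (g := fun _ => φ t)]
    · simp
    · intro k hk
      rw [(Finset.mem_filter.mp hk).2]
  rw [h1, Finset.mul_sum]
  refine Finset.sum_le_sum fun t ht => ?_
  have hc : ((K.filter (fun k => π k = t)).card : ℝ) ≤ 2 := by exact_mod_cast hf t ht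
  exact mul_le_mul_of_nonneg_right hc (h0 t ht)

/-- the function controlling the circle through `p` -/
noncomputable def hh (X Y : ι → ℝ) (p x : ι) : ℝ :=
  sq X Y x p + (4 / 3) * (dt X Y x p - dt X Y p p)

lemma dt_sub_abs (X Y : ι → ℝ) (x p : ι) (hx : dt X Y x x ≤ 1) (hp : dt X Y p p ≤ 1) :
    |dt X Y x p - dt X Y p p| ≤ 2 := by
  have h1 := dt_abs_le_one X Y x p hx hp
  have h2 : |dt X Y p p| ≤ 1 := dt_abs_le_one X Y p p hp hp
  calc |dt X Y x p - dt X Y p p| ≤ |dt X Y x p| + |dt X Y p p| := abs_sub _ _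
    _ ≤ 2 := by linarith

/-- Second local conclusion. -/
lemma local_B (s : Finset ι) (X Y : ι → ℝ) (K : Finset (ι × ι × ι × ι)) (hK : KS s X Y K)
    (hbd : ∀ x ∈ s, dt X Y x x ≤ 1) (hX : ∑ x ∈ s, X x = 0) (hY : ∑ x ∈ s, Y x = 0)
    (p : ι) (hp : p ∈ s) (n W P Δ σ : ℝ) (hn : n = s.card) (hW : W = ∑ x ∈ s, dt X Y x x)
    (hP : P = dt X Y p p) (hΔ : Δ = 2 * n - (Kp K p).card)
    (hσ : σ = ∑ k ∈ Kp K p, |ep X Y k|) :
    2 * ∑ x ∈ s, hh X Y p x ^ 2 ≤ 8 * (W - n * P / 3) + 89 * Δ + 4 * σ := by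
  obtain ⟨E, hE⟩ : ∃ E, E = ∑ k ∈ Kp K p, ep X Y k ^ 2 := ⟨_, rfl⟩
  obtain ⟨A2, hA2⟩ : ∃ A2, A2 = ∑ k ∈ Kp K p, sq X Y k.1 k.2.1 := ⟨_, rfl⟩
  have hA := (local_A s X Y K hK hbd hX hY p hp n W P Δ σ E A2 hn hW hP hΔ hσ hE hA2).2
  have hcoef : 2 * (s.card : ℝ) - ((Kp K p).card : ℝ) = Δ := by rw [hΔ, hn]
  have hM : ∀ t ∈ s, |hh X Y p t ^ 2| ≤ 49 := by
    intro t ht
    have h1 : sq X Y t p ≤ 4 := sq_le_four X Y t p (hbd t ht) (hbd p hp)
    have h0 : 0 ≤ sq X Y t p := by unfold sq; positivity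
    have h2 := abs_le.mp (dt_sub_abs X Y t p (hbd t ht) (hbd p hp))
    have h3 : |hh X Y p t| ≤ 7 := by
      unfold hh
      rw [abs_le]
      constructor <;> linarith [h2.1, h2.2]
    rw [abs_of_nonneg (by positivity)]
    have h4 := abs_le.mp h3
    nlinarith [h4.1, h4.2]
  have q1 := Kp_sum_q hK p (fun t => hh X Y p t ^ 2) 49 hM
  rw [hcoef] at q1
  have q2 := (abs_le.mp q1).1
  have q3 : ∑ k ∈ Kp K p, hh X Y p k.2.2.2 ^ 2 ≤
      4 * ∑ k ∈ Kp K p, (sq X Y k.2.2.2 p + (8 / 3) * (dt X Y k.2.2.2 p - dt X Y p p)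
        + (16 / 9) * up X Y p k.2.2.2 ^ 2) := by
    rw [Finset.mul_sum]
    refine Finset.sum_le_sum fun k hk => ?_
    obtain ⟨h1, h2⟩ := mem_Kp hk
    have hq := (hK.mem _ _ _ _ h1).2.2.2
    have hpos := hK.n2 _ _ _ _ h1
    have h4 := sq_le_four X Y k.2.2.2 p (hbd _ hq) (hbd p hp)
    obtain ⟨L, hL⟩ : ∃ L, L = Real.sqrt (sq X Y k.2.2.2 p) := ⟨_, rfl⟩
    have hLpos : 0 < L := by rw [hL]; exact Real.sqrt_pos.mpr hpos
    have hL2 : L ^ 2 = sq X Y k.2.2.2 p := by rw [hL]; exact Real.sq_sqrt hpos.le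
    have hLup : L * up X Y p k.2.2.2 = dt X Y k.2.2.2 p - dt X Y p p := by
      unfold up dt
      rw [← hL]
      field_simp
      ring
    have e1 : hh X Y p k.2.2.2 = L * (L + (4 / 3) * up X Y p k.2.2.2) := by
      unfold hh
      rw [← hLup, ← hL2]; ring
    have e2 : sq X Y k.2.2.2 p + (8 / 3) * (dt X Y k.2.2.2 p - dt X Y p p)
        + (16 / 9) * up X Y p k.2.2.2 ^ 2 = (L + (4 / 3) * up X Y p k.2.2.2) ^ 2 := by
      rw [← hLup, ← hL2]; ring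
    rw [e1, e2, mul_pow, hL2]
    exact mul_le_mul_of_nonneg_right h4 (sq_nonneg _)
  linarith

/-- unit direction from `p` to `x`, paired with the vector `f` -/
noncomputable def ps (X Y : ι → ℝ) (p : ι) (f1 f2 : ℝ) (x : ι) : ℝ :=
  ((X x - X p) * f1 + (Y x - Y p) * f2) / Real.sqrt (sq X Y x p)

noncomputable def kap (X Y : ι → ℝ) (p : ι) (k : ι × ι × ι × ι) : ℝ :=
  ((X k.1 + X k.2.1 - 2 * X p) * (X k.2.2.2 - X p) + (Y k.1 + Y k.2.1 - 2 * Y p) * (Y k.2.2.2 - Y p))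
    / (2 * Real.sqrt (sq X Y k.1 p) * Real.sqrt (sq X Y k.2.2.2 p))

lemma ps_abs (X Y : ι → ℝ) (p x : ι) (f1 f2 : ℝ) (hf : f1 ^ 2 + f2 ^ 2 ≤ 4) :
    |ps X Y p f1 f2 x| ≤ 2 := by
  unfold ps
  by_cases h : sq X Y x p = 0
  · rw [h]; simp
  · have hpos : 0 < sq X Y x p := lt_of_le_of_ne (by unfold sq; positivity) (Ne.symm h)
    obtain ⟨L, hL⟩ : ∃ L, L = Real.sqrt (sq X Y x p) := ⟨_, rfl⟩
    have hLpos : 0 < L := by rw [hL]; exact Real.sqrt_pos.mpr hpos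
    have hL2 : L ^ 2 = sq X Y x p := by rw [hL]; exact Real.sq_sqrt hpos.le
    rw [← hL, abs_div, abs_of_pos hLpos, div_le_iff₀ hLpos]
    refine abs_le_of_sq_le_sq ?_ (by positivity)
    have : (2 * L) ^ 2 = 4 * sq X Y x p := by rw [← hL2]; ring
    rw [this]
    unfold sq
    nlinarith [sq_nonneg ((X x - X p) * f2 - (Y x - Y p) * f1),
      mul_nonneg (sub_nonneg.mpr hf) (add_nonneg (sq_nonneg (X x - X p)) (sq_nonneg (Y x - Y p)))]

set_option maxHeartbeats 1600000 in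
/-- Pointwise facts for the extreme point argument. -/
lemma extreme_facts (s : Finset ι) (X Y : ι → ℝ) (K : Finset (ι × ι × ι × ι)) (hK : KS s X Y K)
    (hbd : ∀ x ∈ s, dt X Y x x ≤ 1) (o1 o2 f1 f2 : ℝ) (a b p q : ι) (hk : (a, b, p, q) ∈ K)
    (hf1 : f1 = o1 - X p) (hf2 : f2 = o2 - Y p) :
    ps X Y p f1 f2 a + ps X Y p f1 f2 b = 2 * (kap X Y p (a, b, p, q) * ps X Y p f1 f2 q) ∧
    |kap X Y p (a, b, p, q)| ≤ 1 ∧
    ((X q - o1) ^ 2 + (Y q - o2) ^ 2 ≤ (X p - o1) ^ 2 + (Y p - o2) ^ 2 → 0 ≤ ps X Y p f1 f2 q) ∧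
    ((X q - o1) ^ 2 + (Y q - o2) ^ 2 ≤ (X p - o1) ^ 2 + (Y p - o2) ^ 2 →
     (X a - o1) ^ 2 + (Y a - o2) ^ 2 ≤ (X p - o1) ^ 2 + (Y p - o2) ^ 2 →
     (X b - o1) ^ 2 + (Y b - o2) ^ 2 ≤ (X p - o1) ^ 2 + (Y p - o2) ^ 2 →
      sq X Y a b ≤ 32 * ((1 - kap X Y p (a, b, p, q)) * ps X Y p f1 f2 q)) := by
  obtain ⟨ha, hb, hp, hq⟩ := hK.mem a b p q hk
  have h1 := hK.e1 a b p q hk
  have h2 := hK.e2 a b p q hk
  have n1 := hK.n1 a b p q hk
  have n2 := hK.n2 a b p q hk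
  have hap4 := sq_le_four X Y a p (hbd a ha) (hbd p hp)
  unfold sq at h1 h2 n1 n2
  obtain ⟨ux, uy, lam, g, h, hu, hl, hlam, hne, hqx, hqy, hax, hay, hbx, hby⟩ :=
    kite_normal (X a) (Y a) (X b) (Y b) (X p) (Y p) (X q) (Y q) h1 h2 n1 n2
  have hl0 : lam ≠ 0 := hl.ne'
  have hsap : sq X Y a p = (g ^ 2 + h ^ 2) / 4 := by
    unfold sq; rw [hax, hay]; linear_combination ((g ^ 2 + h ^ 2) / 4) * hu
  have hsbp : sq X Y b p = (g ^ 2 + h ^ 2) / 4 := by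
    unfold sq; rw [hbx, hby]; linear_combination ((g ^ 2 + h ^ 2) / 4) * hu
  have hsab : sq X Y a b = h ^ 2 := by
    unfold sq; rw [hax, hay, hbx, hby]; linear_combination (h ^ 2) * hu
  have hsqp : Real.sqrt (sq X Y q p) = lam := by rw [hlam]; rfl
  obtain ⟨r, hr⟩ : ∃ r, r = Real.sqrt ((g ^ 2 + h ^ 2) / 4) := ⟨_, rfl⟩
  have hh2 : 0 < h ^ 2 := by positivity
  have hrpos : 0 < r := by rw [hr]; exact Real.sqrt_pos.mpr (by positivity)
  have hr0 : r ≠ 0 := hrpos.ne'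
  have hr2 : r ^ 2 = (g ^ 2 + h ^ 2) / 4 := by rw [hr]; exact Real.sq_sqrt (by positivity)
  have hrle : r ≤ 2 := by
    rw [hsap, ← hr2] at hap4
    nlinarith
  have hsa : Real.sqrt (sq X Y a p) = r := by rw [hsap, hr]
  have hsb : Real.sqrt (sq X Y b p) = r := by rw [hsbp, hr]
  obtain ⟨F, hF⟩ : ∃ F, F = ux * f1 + uy * f2 := ⟨_, rfl⟩
  have hpsq : ps X Y p f1 f2 q = F := by
    unfold ps; rw [hsqp, hqx, hqy, hF]; field_simp; ring
  have hkap : kap X Y p (a, b, p, q) = g / (2 * r) := by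
    unfold kap
    simp only
    rw [hsa, hsqp, div_eq_div_iff (by positivity) (by positivity)]
    rw [hqx, hqy, hax, hay, hbx, hby]
    linear_combination (2 * r * g * lam) * hu
  have hpsab : ps X Y p f1 f2 a + ps X Y p f1 f2 b = g * F / r := by
    unfold ps
    rw [hsa, hsb, hax, hay, hbx, hby, hF]
    field_simp
    ring
  have hgr : g ^ 2 ≤ (2 * r) ^ 2 := by nlinarith
  have hgabs : |g| ≤ 2 * r := abs_le_of_sq_le_sq hgr (by positivity)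
  have eqq : (X q - o1) ^ 2 + (Y q - o2) ^ 2 = lam ^ 2 - 2 * (lam * F)
      + ((X p - o1) ^ 2 + (Y p - o2) ^ 2) := by
    rw [hqx, hqy, hF, hf1, hf2]; linear_combination (lam ^ 2) * hu
  refine ⟨?_, ?_, ?_, ?_⟩
  · rw [hpsab, hkap, hpsq]; field_simp
  · rw [hkap, abs_div, abs_of_pos (show (0:ℝ) < 2 * r by positivity), div_le_one (by positivity)]
    exact hgabs
  · intro hd
    rw [hpsq]
    rw [eqq] at hd
    have h7 : lam * (2 * F - lam) ≥ 0 := by linarith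
    have h8 : 0 ≤ 2 * F - lam := by
      by_contra hcon
      have := mul_neg_of_pos_of_neg hl (not_le.mp hcon)
      linarith
    linarith
  · intro hdq hda hdb
    have hFpos : 0 < F := by
      rw [eqq] at hdq
      have h7 : lam * (2 * F - lam) ≥ 0 := by linarith
      have h8 : 0 ≤ 2 * F - lam := by
        by_contra hcon
        have := mul_neg_of_pos_of_neg hl (not_le.mp hcon)
        linarith
      linarith
    have hrF : r ^ 2 ≤ g * F := by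
      have ea : (X a - o1) ^ 2 + (Y a - o2) ^ 2 = sq X Y a p - 2 * ((X a - X p) * f1 + (Y a - Y p) * f2)
          + ((X p - o1) ^ 2 + (Y p - o2) ^ 2) := by unfold sq; rw [hf1, hf2]; ring
      have eb : (X b - o1) ^ 2 + (Y b - o2) ^ 2 = sq X Y b p - 2 * ((X b - X p) * f1 + (Y b - Y p) * f2)
          + ((X p - o1) ^ 2 + (Y p - o2) ^ 2) := by unfold sq; rw [hf1, hf2]; ring
      have es : ((X a - X p) * f1 + (Y a - Y p) * f2) + ((X b - X p) * f1 + (Y b - Y p) * f2) = g * F := by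
        rw [hax, hay, hbx, hby, hF]; ring
      rw [ea, hsap, ← hr2] at hda
      rw [eb, hsbp, ← hr2] at hdb
      linarith
    have hg2 : g ≤ 2 * r := (abs_le.mp hgabs).2
    have hgpos : 0 < g := by
      by_contra hcon
      have hcon' : g ≤ 0 := not_lt.mp hcon
      have h10 := mul_nonneg (neg_nonneg.mpr hcon') hFpos.le
      have h11 := pow_pos hrpos 2
      linarith
    rw [hsab, hkap, hpsq]
    have e3 : 32 * ((1 - g / (2 * r)) * F) = 16 * (2 * r - g) * F / r := by field_simp; ring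
    rw [e3, le_div_iff₀ hrpos]
    have hh : h ^ 2 = (2 * r - g) * (2 * r + g) := by linear_combination (-4) * hr2
    rw [hh]
    have h5 : (2 * r + g) * r ≤ 16 * F := by
      have e5 : g * F ≤ 2 * r * F := mul_le_mul_of_nonneg_right hg2 hFpos.le
      have e6 : 2 * r * F ≤ 4 * F := mul_le_mul_of_nonneg_right (by linarith) hFpos.le
      have e7 : (2 * r + g) * r ≤ (4 * r) * r := mul_le_mul_of_nonneg_right (by linarith) hrpos.le
      have e8 : (4 * r) * r = 4 * r ^ 2 := by ring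
      linarith
    have h6 : 0 ≤ 2 * r - g := by linarith
    have h9 := mul_le_mul_of_nonneg_left h5 h6
    calc (2 * r - g) * (2 * r + g) * r = (2 * r - g) * ((2 * r + g) * r) := by ring
      _ ≤ (2 * r - g) * (16 * F) := h9
      _ = 16 * (2 * r - g) * F := by ring

/-- Third local conclusion: at a point which is nearly farthest from a centre `o`. -/
lemma local_C (s : Finset ι) (X Y : ι → ℝ) (K : Finset (ι × ι × ι × ι)) (hK : KS s X Y K)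
    (hbd : ∀ x ∈ s, dt X Y x x ≤ 1) (o1 o2 : ℝ) (p : ι) (hp : p ∈ s)
    (ho : (o1 - X p) ^ 2 + (o2 - Y p) ^ 2 ≤ 4) (n Δ A2 T : ℝ) (hn : n = s.card)
    (hΔ : Δ = 2 * n - (Kp K p).card)
    (hA2 : A2 = ∑ k ∈ Kp K p, sq X Y k.1 k.2.1)
    (hT : ((s.filter (fun x => (X p - o1) ^ 2 + (Y p - o2) ^ 2 < (X x - o1) ^ 2 + (Y x - o2) ^ 2)).card : ℝ)
      ≤ T) :
    A2 ≤ 128 * Δ + 280 * T := by
  classical
  obtain ⟨f1, hf1⟩ : ∃ f1, f1 = o1 - X p := ⟨_, rfl⟩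
  obtain ⟨f2, hf2⟩ : ∃ f2, f2 = o2 - Y p := ⟨_, rfl⟩
  rw [← hf1, ← hf2] at ho
  have hcoef : 2 * (s.card : ℝ) - ((Kp K p).card : ℝ) = Δ := by rw [hΔ, hn]
  have hM : ∀ t ∈ s, |ps X Y p f1 f2 t| ≤ 2 := fun t _ => ps_abs X Y p t f1 f2 ho
  have q1 := abs_le.mp (Kp_sum_q hK p (fun t => ps X Y p f1 f2 t) 2 hM)
  have a1 := abs_le.mp (Kp_sum_a hK p (fun t => ps X Y p f1 f2 t) 2 hM)
  have b1 := abs_le.mp (Kp_sum_b hK p (fun t => ps X Y p f1 f2 t) 2 hM)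
  rw [hcoef] at q1 a1 b1
  have S1 : ∑ k ∈ Kp K p, ps X Y p f1 f2 k.1 + ∑ k ∈ Kp K p, ps X Y p f1 f2 k.2.1
      = 2 * ∑ k ∈ Kp K p, kap X Y p k * ps X Y p f1 f2 k.2.2.2 := by
    rw [← Finset.sum_add_distrib, Finset.mul_sum]
    refine Finset.sum_congr rfl fun k hk => ?_
    obtain ⟨h1, h2⟩ := mem_Kp hk
    have := (extreme_facts s X Y K hK hbd o1 o2 f1 f2 _ _ _ _ h1 hf1 hf2).1
    rw [← h2] at this
    exact this
  have S2 : ∑ k ∈ Kp K p, (1 - kap X Y p k) * ps X Y p f1 f2 k.2.2.2 ≤ 4 * Δ := by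
    have : ∑ k ∈ Kp K p, (1 - kap X Y p k) * ps X Y p f1 f2 k.2.2.2
        = ∑ k ∈ Kp K p, ps X Y p f1 f2 k.2.2.2
          - ∑ k ∈ Kp K p, kap X Y p k * ps X Y p f1 f2 k.2.2.2 := by
      rw [← Finset.sum_sub_distrib]
      refine Finset.sum_congr rfl fun k _ => ?_
      ring
    rw [this]
    linarith [q1.1, q1.2, a1.1, a1.2, b1.1, b1.2]
  obtain ⟨B, hB⟩ : ∃ B : ι → ℝ, B = fun x =>
      if (X p - o1) ^ 2 + (Y p - o2) ^ 2 < (X x - o1) ^ 2 + (Y x - o2) ^ 2 then 1 else 0 := ⟨_, rfl⟩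
  have hB0 : ∀ t, 0 ≤ B t := by intro t; rw [hB]; dsimp only; split_ifs <;> norm_num
  have hBT : ∑ t ∈ s, B t ≤ T := by
    rw [hB]
    simp only [Finset.sum_boole]
    exact hT
  have hBq : ∑ k ∈ Kp K p, B k.2.2.2 ≤ 2 * T := by
    refine (fiber_sum_le (Kp K p) s (fun k => k.2.2.2)
      (fun _ hk => (hK.mem _ _ _ _ (mem_Kp hk).1).2.2.2) (fun t _ => Kp_fib_q hK p t) B
      (fun t _ => hB0 t)).trans (by linarith)
  have hBa : ∑ k ∈ Kp K p, B k.1 ≤ 2 * T := by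
    refine (fiber_sum_le (Kp K p) s (fun k => k.1)
      (fun _ hk => (hK.mem _ _ _ _ (mem_Kp hk).1).1) (fun t _ => Kp_fib_a hK p t) B
      (fun t _ => hB0 t)).trans (by linarith)
  have hBb : ∑ k ∈ Kp K p, B k.2.1 ≤ 2 * T := by
    rw [Kp_sum_swap hK p B]; exact hBa
  have key : A2 ≤ ∑ k ∈ Kp K p, (32 * ((1 - kap X Y p k) * ps X Y p f1 f2 k.2.2.2 + 4 * B k.2.2.2)
      + 4 * (B k.1 + B k.2.1 + B k.2.2.2)) := by
    rw [hA2]
    refine Finset.sum_le_sum fun k hk => ?_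
    obtain ⟨h1, h2⟩ := mem_Kp hk
    obtain ⟨ha, hb, _, hq⟩ := hK.mem _ _ _ _ h1
    obtain ⟨_, g2, g3, g4⟩ := extreme_facts s X Y K hK hbd o1 o2 f1 f2 _ _ _ _ h1 hf1 hf2
    rw [← h2] at g2 g4
    have h4 := sq_le_four X Y k.1 k.2.1 (hbd _ ha) (hbd _ hb)
    have gk := abs_le.mp g2
    have gp := abs_le.mp (hM _ hq)
    by_cases cq : (X p - o1) ^ 2 + (Y p - o2) ^ 2 < (X k.2.2.2 - o1) ^ 2 + (Y k.2.2.2 - o2) ^ 2
    · have e1 : B k.2.2.2 = 1 := by rw [hB]; simp only [if_pos cq]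
      rw [e1]
      have : -4 ≤ (1 - kap X Y p k) * ps X Y p f1 f2 k.2.2.2 := by nlinarith [gk.1, gk.2, gp.1, gp.2]
      linarith [hB0 k.1, hB0 k.2.1]
    · have e1 : B k.2.2.2 = 0 := by rw [hB]; simp only [if_neg cq]
      rw [e1]
      push Not at cq
      have g3' := g3 cq
      have hnn : 0 ≤ (1 - kap X Y p k) * ps X Y p f1 f2 k.2.2.2 :=
        mul_nonneg (by linarith [gk.2]) g3'
      by_cases ca : (X p - o1) ^ 2 + (Y p - o2) ^ 2 < (X k.1 - o1) ^ 2 + (Y k.1 - o2) ^ 2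
      · have e2 : B k.1 = 1 := by rw [hB]; simp only [if_pos ca]
        rw [e2]
        linarith [hB0 k.2.1]
      · have e2 : B k.1 = 0 := by rw [hB]; simp only [if_neg ca]
        rw [e2]
        push Not at ca
        by_cases cb : (X p - o1) ^ 2 + (Y p - o2) ^ 2 < (X k.2.1 - o1) ^ 2 + (Y k.2.1 - o2) ^ 2
        · have e3 : B k.2.1 = 1 := by rw [hB]; simp only [if_pos cb]
          rw [e3]
          linarith
        · have e3 : B k.2.1 = 0 := by rw [hB]; simp only [if_neg cb]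
          rw [e3]
          push Not at cb
          have := g4 cq ca cb
          linarith
  have key2 : ∑ k ∈ Kp K p, (32 * ((1 - kap X Y p k) * ps X Y p f1 f2 k.2.2.2 + 4 * B k.2.2.2)
      + 4 * (B k.1 + B k.2.1 + B k.2.2.2))
      = 32 * (∑ k ∈ Kp K p, (1 - kap X Y p k) * ps X Y p f1 f2 k.2.2.2
        + 4 * ∑ k ∈ Kp K p, B k.2.2.2) + 4 * (∑ k ∈ Kp K p, B k.1 + ∑ k ∈ Kp K p, B k.2.1
        + ∑ k ∈ Kp K p, B k.2.2.2) := by
    simp only [Finset.sum_add_distrib, ← Finset.mul_sum]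
  rw [key2] at key
  linarith

end Pool.Agent.Helper679.Kite
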