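import Mathlib
import Pool.Agent.Helper679.Extreme

set_option autoImplicit false
set_option linter.unusedSectionVars false

namespace Pool.Agent.Helper679.Kite

open Finset

variable {ι : Type*} [DecidableEq ι]

/-- offset squared minus along squared of a pair -/
noncomputable def GG (X Y : ι → ℝ) (z : ι × ι) : ℝ :=
  ((X z.1 * Y z.2 - Y z.1 * X z.2) ^ 2 - ((dt X Y z.1 z.1 - dt X Y z.2 z.2) / 2) ^ 2) / sq X Y z.1 z.2

lemma GG_abs (X Y : ι → ℝ) (z : ι × ι) (h1 : dt X Y z.1 z.1 ≤ 1) (h2 : dt X Y z.2 z.2 ≤ 1) :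
    |GG X Y z| ≤ 1 := by
  unfold GG
  by_cases h : sq X Y z.1 z.2 = 0
  · rw [h]; simp
  · have hpos : 0 < sq X Y z.1 z.2 := lt_of_le_of_ne (by unfold sq; positivity) (Ne.symm h)
    rw [abs_div, abs_of_pos hpos, div_le_one hpos]
    obtain ⟨a, b⟩ := z
    simp only at *
    have key : (X a * Y b - Y a * X b) ^ 2 + ((dt X Y a a - dt X Y b b) / 2) ^ 2
        = (((X a + X b) / 2) ^ 2 + ((Y a + Y b) / 2) ^ 2) * sq X Y a b := by
      unfold dt sq; ring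
    have hm : ((X a + X b) / 2) ^ 2 + ((Y a + Y b) / 2) ^ 2 ≤ 1 := by
      unfold dt at h1 h2
      linarith [sq_nonneg (X a - X b), sq_nonneg (Y a - Y b)]
    have hm2 : (((X a + X b) / 2) ^ 2 + ((Y a + Y b) / 2) ^ 2) * sq X Y a b ≤ sq X Y a b := by
      calc _ ≤ 1 * sq X Y a b := mul_le_mul_of_nonneg_right hm hpos.le
        _ = _ := one_mul _
    rw [abs_le]
    constructor
    · linarith [sq_nonneg (X a * Y b - Y a * X b)]
    · linarith [sq_nonneg ((dt X Y a a - dt X Y b b) / 2)]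

set_option maxHeartbeats 1600000 in
lemma ep_identity (s : Finset ι) (X Y : ι → ℝ) (K : Finset (ι × ι × ι × ι)) (hK : KS s X Y K)
    (a b p q : ι) (hk : (a, b, p, q) ∈ K) :
    ep X Y (a, b, p, q) ^ 2 = GG X Y (a, b) - GG X Y (p, q)
      + (dt X Y a p + dt X Y b p + dt X Y a q + dt X Y b q) / 2 := by
  have h1 := hK.e1 a b p q hk
  have h2 := hK.e2 a b p q hk
  have n1 := hK.n1 a b p q hk
  have n2 := hK.n2 a b p q hk
  unfold sq at h1 h2 n1 n2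
  obtain ⟨ux, uy, lam, g, h, hu, hl, hlam, hne, hqx, hqy, hax, hay, hbx, hby⟩ :=
    kite_normal (X a) (Y a) (X b) (Y b) (X p) (Y p) (X q) (Y q) h1 h2 n1 n2
  have hl0 : lam ≠ 0 := hl.ne'
  obtain ⟨P1, hP1⟩ : ∃ P1, P1 = X p * ux + Y p * uy := ⟨_, rfl⟩
  obtain ⟨P2, hP2⟩ : ∃ P2, P2 = -X p * uy + Y p * ux := ⟨_, rfl⟩
  have hpx : X p = P1 * ux - P2 * uy := by rw [hP1, hP2]; linear_combination (-X p) * hu
  have hpy : Y p = P1 * uy + P2 * ux := by rw [hP1, hP2]; linear_combination (-Y p) * hu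
  have hep : ep X Y (a, b, p, q) = 2 * P1 + (g + lam) / 2 := by
    unfold ep sq
    simp only
    rw [← hlam]
    rw [div_eq_iff (by positivity)]
    rw [hqx, hqy, hax, hay, hbx, hby, hP1]
    linear_combination (lam * (g + lam)) * hu
  have hsab : sq X Y a b = h ^ 2 := by
    unfold sq; rw [hax, hay, hbx, hby]; linear_combination (h ^ 2) * hu
  have hspq : sq X Y p q = lam ^ 2 := by
    unfold sq; rw [hqx, hqy]; linear_combination (lam ^ 2) * hu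
  have c1 : X a * Y b - Y a * X b = - (h * (P1 + g / 2)) := by
    rw [hax, hay, hbx, hby, hP1]; linear_combination (-(h * g) / 2) * hu
  have c2 : (dt X Y a a - dt X Y b b) / 2 = h * P2 := by
    unfold dt; rw [hax, hay, hbx, hby, hP2]; ring
  have c3 : X p * Y q - Y p * X q = - (lam * P2) := by
    rw [hqx, hqy, hP2]; ring
  have c4 : (dt X Y p p - dt X Y q q) / 2 = - (lam * (P1 + lam / 2)) := by
    unfold dt; rw [hqx, hqy, hP1]; linear_combination (-(lam ^ 2) / 2) * hu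
  have g1 : GG X Y (a, b) = (P1 + g / 2) ^ 2 - P2 ^ 2 := by
    unfold GG; simp only; rw [c1, c2, hsab]; field_simp
  have g2 : GG X Y (p, q) = P2 ^ 2 - (P1 + lam / 2) ^ 2 := by
    unfold GG; simp only; rw [c3, c4, hspq]; field_simp
  have d1 : dt X Y a p + dt X Y b p + dt X Y a q + dt X Y b q
      = 4 * (P1 ^ 2 + P2 ^ 2) + 2 * (g + lam) * P1 + g * lam := by
    have hpp : X p * X p + Y p * Y p = P1 ^ 2 + P2 ^ 2 := by
      rw [hP1, hP2]; linear_combination (-(X p * X p + Y p * Y p)) * hu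
    unfold dt
    rw [hqx, hqy, hax, hay, hbx, hby]
    rw [← hpp, hP1]
    linear_combination (g * lam) * hu
  rw [hep, g1, g2, d1]
  ring

lemma pair_sum (s : Finset ι) (X Y : ι → ℝ) (hX : ∑ x ∈ s, X x = 0) (hY : ∑ x ∈ s, Y x = 0) :
    ∑ z ∈ s ×ˢ s, dt X Y z.2 z.1 = 0 := by
  rw [Finset.sum_product]
  refine Finset.sum_eq_zero fun p _ => ?_
  exact sum_dt s X Y hX hY p

/-- The global bound for the sum of squared defects. -/
lemma global_ep (s : Finset ι) (X Y : ι → ℝ) (K : Finset (ι × ι × ι × ι)) (hK : KS s X Y K)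
    (hbd : ∀ x ∈ s, dt X Y x x ≤ 1) (hX : ∑ x ∈ s, X x = 0) (hY : ∑ x ∈ s, Y x = 0)
    (D : ℝ) (hD : D = 2 * (s.card : ℝ) ^ 2 - K.card) :
    ∑ k ∈ K, ep X Y k ^ 2 ≤ 4 * D := by
  have hcard : 2 * ((s ×ˢ s).card : ℝ) - (K.card : ℝ) = D := by
    rw [Finset.card_product, hD]; push_cast; ring
  have fA : ∀ t ∈ s ×ˢ s, (K.filter (fun k => (k.1, k.2.1) = t)).card ≤ 2 := by
    rintro ⟨a, b⟩ _
    have : K.filter (fun k => (k.1, k.2.1) = (a, b)) = K.filter (fun k => k.1 = a ∧ k.2.1 = b) := by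
      refine Finset.filter_congr fun k _ => ?_
      rw [Prod.mk.injEq]
    rw [this]; exact hK.fab a b
  have fQ : ∀ t ∈ s ×ˢ s, (K.filter (fun k => (k.2.2.1, k.2.2.2) = t)).card ≤ 2 := by
    rintro ⟨a, b⟩ _
    have : K.filter (fun k => (k.2.2.1, k.2.2.2) = (a, b))
        = K.filter (fun k => k.2.2.1 = a ∧ k.2.2.2 = b) := by
      refine Finset.filter_congr fun k _ => ?_
      rw [Prod.mk.injEq]
    rw [this]; exact hK.fpq a b
  have fP : ∀ t ∈ s ×ˢ s, (K.filter (fun k => (k.2.2.1, k.1) = t)).card ≤ 2 := by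
    rintro ⟨a, b⟩ _
    have : K.filter (fun k => (k.2.2.1, k.1) = (a, b))
        = K.filter (fun k => k.2.2.1 = a ∧ k.1 = b) := by
      refine Finset.filter_congr fun k _ => ?_
      rw [Prod.mk.injEq]
    rw [this]; exact hK.fpa a b
  have m : ∀ k ∈ K, k.1 ∈ s ∧ k.2.1 ∈ s ∧ k.2.2.1 ∈ s ∧ k.2.2.2 ∈ s := fun k hk =>
    hK.mem k.1 k.2.1 k.2.2.1 k.2.2.2 hk
  have A := abs_le.mp (fiber_sum K (s ×ˢ s) (fun k => (k.1, k.2.1))
    (fun k hk => Finset.mem_product.mpr ⟨(m k hk).1, (m k hk).2.1⟩) fA (GG X Y) 1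
    (fun t ht => GG_abs X Y t (hbd _ (Finset.mem_product.mp ht).1) (hbd _ (Finset.mem_product.mp ht).2)))
  have Q := abs_le.mp (fiber_sum K (s ×ˢ s) (fun k => (k.2.2.1, k.2.2.2))
    (fun k hk => Finset.mem_product.mpr ⟨(m k hk).2.2.1, (m k hk).2.2.2⟩) fQ (GG X Y) 1
    (fun t ht => GG_abs X Y t (hbd _ (Finset.mem_product.mp ht).1) (hbd _ (Finset.mem_product.mp ht).2)))
  have P := abs_le.mp (fiber_sum K (s ×ˢ s) (fun k => (k.2.2.1, k.1))
    (fun k hk => Finset.mem_product.mpr ⟨(m k hk).2.2.1, (m k hk).1⟩) fP (fun z => dt X Y z.2 z.1) 1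
    (fun t ht => dt_abs_le_one X Y t.2 t.1 (hbd _ (Finset.mem_product.mp ht).2)
      (hbd _ (Finset.mem_product.mp ht).1)))
  rw [hcard] at A Q P
  rw [pair_sum s X Y hX hY] at P
  simp only at P
  -- symmetric sums
  have sw1 : ∑ k ∈ K, dt X Y k.2.1 k.2.2.1 = ∑ k ∈ K, dt X Y k.1 k.2.2.1 := by
    refine Finset.sum_nbij' (fun k => (k.2.1, k.1, k.2.2.1, k.2.2.2))
      (fun k => (k.2.1, k.1, k.2.2.1, k.2.2.2)) ?_ ?_ (fun _ _ => rfl) (fun _ _ => rfl)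
      (fun _ _ => rfl)
    · intro k hk; exact hK.sab k.1 k.2.1 k.2.2.1 k.2.2.2 hk
    · intro k hk; exact hK.sab k.1 k.2.1 k.2.2.1 k.2.2.2 hk
  have sw2 : ∑ k ∈ K, dt X Y k.1 k.2.2.2 = ∑ k ∈ K, dt X Y k.1 k.2.2.1 := by
    refine Finset.sum_nbij' (fun k => (k.1, k.2.1, k.2.2.2, k.2.2.1))
      (fun k => (k.1, k.2.1, k.2.2.2, k.2.2.1)) ?_ ?_ (fun _ _ => rfl) (fun _ _ => rfl)
      (fun _ _ => rfl)
    · intro k hk; exact hK.spq k.1 k.2.1 k.2.2.1 k.2.2.2 hk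
    · intro k hk; exact hK.spq k.1 k.2.1 k.2.2.1 k.2.2.2 hk
  have sw3 : ∑ k ∈ K, dt X Y k.2.1 k.2.2.2 = ∑ k ∈ K, dt X Y k.2.1 k.2.2.1 := by
    refine Finset.sum_nbij' (fun k => (k.1, k.2.1, k.2.2.2, k.2.2.1))
      (fun k => (k.1, k.2.1, k.2.2.2, k.2.2.1)) ?_ ?_ (fun _ _ => rfl) (fun _ _ => rfl)
      (fun _ _ => rfl)
    · intro k hk; exact hK.spq k.1 k.2.1 k.2.2.1 k.2.2.2 hk
    · intro k hk; exact hK.spq k.1 k.2.1 k.2.2.1 k.2.2.2 hk
  have tot : ∑ k ∈ K, ep X Y k ^ 2 = ∑ k ∈ K, GG X Y (k.1, k.2.1) - ∑ k ∈ K, GG X Y (k.2.2.1, k.2.2.2)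
      + (∑ k ∈ K, dt X Y k.1 k.2.2.1 + ∑ k ∈ K, dt X Y k.2.1 k.2.2.1
        + ∑ k ∈ K, dt X Y k.1 k.2.2.2 + ∑ k ∈ K, dt X Y k.2.1 k.2.2.2) / 2 := by
    have : ∀ k ∈ K, ep X Y k ^ 2 = GG X Y (k.1, k.2.1) - GG X Y (k.2.2.1, k.2.2.2)
        + (dt X Y k.1 k.2.2.1 + dt X Y k.2.1 k.2.2.1 + dt X Y k.1 k.2.2.2 + dt X Y k.2.1 k.2.2.2) / 2 :=
      fun k hk => ep_identity s X Y K hK k.1 k.2.1 k.2.2.1 k.2.2.2 hk
    rw [Finset.sum_congr rfl this]
    simp only [Finset.sum_add_distrib, Finset.sum_sub_distrib, ← Finset.sum_div]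
  rw [tot, sw3, sw2, sw1]
  linarith [A.1, A.2, Q.1, Q.2, P.1, P.2]

/-- top quantile -/
lemma quantile (s : Finset ι) (w : ι → ℝ) (T : ℝ) (hT : T ≤ s.card) :
    T ≤ ((s.filter (fun p => ((s.filter (fun x => w p < w x)).card : ℝ) ≤ T)).card : ℝ) := by
  classical
  by_contra hcon
  have hcon' := not_le.mp hcon
  obtain ⟨P, hP⟩ : ∃ P, P = s.filter (fun p => ((s.filter (fun x => w p < w x)).card : ℝ) ≤ T) :=
    ⟨_, rfl⟩
  rw [← hP] at hcon'
  have hne : (s \ P).Nonempty := by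
    by_contra h
    rw [Finset.not_nonempty_iff_eq_empty, Finset.sdiff_eq_empty_iff_subset] at h
    have : (s.card : ℝ) ≤ P.card := by exact_mod_cast Finset.card_le_card h
    linarith
  obtain ⟨m, hm, hmax⟩ := Finset.exists_max_image (s \ P) w hne
  rw [Finset.mem_sdiff] at hm
  apply hm.2
  rw [hP, Finset.mem_filter]
  refine ⟨hm.1, ?_⟩
  have hsub : s.filter (fun x => w m < w x) ⊆ P := by
    intro x hx
    rw [Finset.mem_filter] at hx
    by_contra hxP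
    have := hmax x (Finset.mem_sdiff.mpr ⟨hx.1, hxP⟩)
    linarith [hx.2]
  have : ((s.filter (fun x => w m < w x)).card : ℝ) ≤ P.card := by
    exact_mod_cast Finset.card_le_card hsub
  linarith

lemma sum_Kp (s : Finset ι) (X Y : ι → ℝ) (K : Finset (ι × ι × ι × ι)) (hK : KS s X Y K)
    (F : ι × ι × ι × ι → ℝ) : ∑ p ∈ s, ∑ k ∈ Kp K p, F k = ∑ k ∈ K, F k := by
  unfold Kp
  exact Finset.sum_fiberwise_of_maps_to (fun k hk => (hK.mem k.1 k.2.1 k.2.2.1 k.2.2.2 hk).2.2.1) F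

/-- choice of a good point inside a given set -/
lemma pick (s : Finset ι) (X Y : ι → ℝ) (K : Finset (ι × ι × ι × ι)) (hK : KS s X Y K)
    (hbd : ∀ x ∈ s, dt X Y x x ≤ 1) (hX : ∑ x ∈ s, X x = 0) (hY : ∑ x ∈ s, Y x = 0)
    (D : ℝ) (hD : D = 2 * (s.card : ℝ) ^ 2 - K.card) (P : Finset ι) (hP : P ⊆ s) (m : ℝ) (hm : 0 < m)
    (hPm : m ≤ P.card) :
    ∃ p ∈ P, (2 * (s.card : ℝ) - (Kp K p).card) + ∑ k ∈ Kp K p, ep X Y k ^ 2 ≤ 5 * D / m := by
  have hg := global_ep s X Y K hK hbd hX hY D hD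
  have hpos : ∀ p ∈ s, 0 ≤ (2 * (s.card : ℝ) - (Kp K p).card) + ∑ k ∈ Kp K p, ep X Y k ^ 2 := by
    intro p _
    have h1 : ((Kp K p).card : ℝ) ≤ 2 * s.card := by exact_mod_cast Kp_card_le hK p
    have h2 : 0 ≤ ∑ k ∈ Kp K p, ep X Y k ^ 2 := Finset.sum_nonneg fun _ _ => sq_nonneg _
    linarith
  have hc : ∑ p ∈ s, ((Kp K p).card : ℝ) = K.card := by
    have := sum_Kp s X Y K hK (fun _ => 1)
    simpa using this
  have htot : ∑ p ∈ s, ((2 * (s.card : ℝ) - (Kp K p).card) + ∑ k ∈ Kp K p, ep X Y k ^ 2) ≤ 5 * D := by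
    rw [Finset.sum_add_distrib, Finset.sum_sub_distrib, sum_Kp s X Y K hK, hc]
    simp only [Finset.sum_const, nsmul_eq_mul]
    rw [hD] at hg ⊢
    linarith
  have hD0 : 0 ≤ D := by
    have : 0 ≤ ∑ p ∈ s, ((2 * (s.card : ℝ) - (Kp K p).card) + ∑ k ∈ Kp K p, ep X Y k ^ 2) :=
      Finset.sum_nonneg hpos
    linarith
  have hle : ∑ p ∈ P, ((2 * (s.card : ℝ) - (Kp K p).card) + ∑ k ∈ Kp K p, ep X Y k ^ 2)
      ≤ ∑ _p ∈ P, 5 * D / m := by
    calc _ ≤ ∑ p ∈ s, ((2 * (s.card : ℝ) - (Kp K p).card) + ∑ k ∈ Kp K p, ep X Y k ^ 2) :=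
          Finset.sum_le_sum_of_subset_of_nonneg hP (fun i hi _ => hpos i hi)
      _ ≤ 5 * D := htot
      _ = m * (5 * D / m) := by field_simp
      _ ≤ P.card * (5 * D / m) := mul_le_mul_of_nonneg_right hPm (by positivity)
      _ = _ := by simp
  have hne : P.Nonempty := by
    rw [← Finset.card_pos]
    have : (0 : ℝ) < P.card := lt_of_lt_of_le hm hPm
    exact_mod_cast this
  exact Finset.exists_le_of_sum_le hne hle

lemma sigma_bound (s : Finset ι) (X Y : ι → ℝ) (K : Finset (ι × ι × ι × ι)) (hK : KS s X Y K)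
    (p : ι) (η : ℝ) (hη : 0 < η) :
    ∑ k ∈ Kp K p, |ep X Y k| ≤ (∑ k ∈ Kp K p, ep X Y k ^ 2) / (2 * η) + η * s.card := by
  have h1 : ∀ k ∈ Kp K p, |ep X Y k| ≤ ep X Y k ^ 2 / (2 * η) + η / 2 := by
    intro k _
    have h2 : 2 * η * |ep X Y k| ≤ |ep X Y k| ^ 2 + η ^ 2 := by
      nlinarith [sq_nonneg (|ep X Y k| - η)]
    rw [sq_abs] at h2
    have h3 : ep X Y k ^ 2 / (2 * η) + η / 2 = (ep X Y k ^ 2 + η ^ 2) / (2 * η) := by
      field_simp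
    rw [h3, le_div_iff₀ (by positivity)]
    linarith
  have h4 : ((Kp K p).card : ℝ) ≤ 2 * s.card := by exact_mod_cast Kp_card_le hK p
  calc ∑ k ∈ Kp K p, |ep X Y k| ≤ ∑ k ∈ Kp K p, (ep X Y k ^ 2 / (2 * η) + η / 2) :=
        Finset.sum_le_sum h1
    _ = (∑ k ∈ Kp K p, ep X Y k ^ 2) / (2 * η) + (Kp K p).card * (η / 2) := by
        rw [Finset.sum_add_distrib, ← Finset.sum_div]; simp
    _ ≤ (∑ k ∈ Kp K p, ep X Y k ^ 2) / (2 * η) + (2 * s.card) * (η / 2) := by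
        have := mul_le_mul_of_nonneg_right h4 (show 0 ≤ η / 2 by positivity)
        linarith
    _ = _ := by ring

end Pool.Agent.Helper679.Kite
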