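import Mathlib
import Pool.Agent.Helper679.Core

set_option autoImplicit false
set_option linter.unusedSectionVars false

namespace Pool.Agent.Helper679.Kite

open Finset

variable {ι : Type*} [DecidableEq ι]

lemma hh_eq (X Y : ι → ℝ) (p x : ι) :
    sq X Y x p = 3 * hh X Y p x - 2 * (dt X Y x x - dt X Y p p) := by
  unfold hh sq dt; ring

set_option maxHeartbeats 1600000 in
/-- No kite system with few missing kites exists. -/
theorem core (s : Finset ι) (X Y : ι → ℝ) (K : Finset (ι × ι × ι × ι)) (hK : KS s X Y K)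
    (hbd : ∀ x ∈ s, dt X Y x x ≤ 1) (hX : ∑ x ∈ s, X x = 0) (hY : ∑ x ∈ s, Y x = 0)
    (v δ n : ℝ) (hv : 0 < v) (hn : n = s.card) (hn0 : 0 < n)
    (hV : v * n ≤ ∑ x ∈ s, dt X Y x x)
    (hD : 2 * n ^ 2 - K.card ≤ δ * n ^ 2) (hδ : δ ≤ v ^ 9 / 10 ^ 28) : False := by
  classical
  obtain ⟨D, hDd⟩ : ∃ D, D = 2 * (s.card : ℝ) ^ 2 - K.card := ⟨_, rfl⟩
  obtain ⟨W, hW⟩ : ∃ W, W = ∑ x ∈ s, dt X Y x x := ⟨_, rfl⟩
  rw [← hW] at hV
  have hWn : W ≤ n := by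
    rw [hW, hn]
    calc ∑ x ∈ s, dt X Y x x ≤ ∑ _x ∈ s, (1 : ℝ) := Finset.sum_le_sum hbd
      _ = s.card := by simp
  have hv1 : v ≤ 1 := by
    have : v * n ≤ 1 * n := by linarith
    exact le_of_mul_le_mul_right this hn0
  have hDn : D ≤ v ^ 9 / 10 ^ 28 * n ^ 2 := by
    rw [hDd, ← hn]
    exact hD.trans (mul_le_mul_of_nonneg_right hδ (by positivity))
  have v3 : 0 < v ^ 3 := by positivity
  have v3le : v ^ 3 ≤ v := by
    calc v ^ 3 = v * (v * v) := by ring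
      _ ≤ v * 1 := mul_le_mul_of_nonneg_left (by nlinarith) hv.le
      _ = v := mul_one v
  have v6le : v ^ 6 ≤ v ^ 3 := by
    calc v ^ 6 = v ^ 3 * v ^ 3 := by ring
      _ ≤ v ^ 3 * 1 := mul_le_mul_of_nonneg_left (by linarith) v3.le
      _ = v ^ 3 := mul_one _
  have v8le : v ^ 8 ≤ v ^ 2 := by
    calc v ^ 8 = v ^ 2 * v ^ 6 := by ring
      _ ≤ v ^ 2 * 1 := mul_le_mul_of_nonneg_left (by linarith) (by positivity)
      _ = v ^ 2 := mul_one _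
  have v2le : v ^ 2 ≤ v := by nlinarith
  -- first point
  obtain ⟨P0, hP0⟩ : ∃ P0, P0 = s.filter (fun p => ((s.filter (fun x =>
      (X p - 0) ^ 2 + (Y p - 0) ^ 2 < (X x - 0) ^ 2 + (Y x - 0) ^ 2)).card : ℝ) ≤ v ^ 3 / 10 ^ 9 * n) :=
    ⟨_, rfl⟩
  have hP0c : v ^ 3 / 10 ^ 9 * n ≤ P0.card := by
    rw [hP0]
    refine quantile s (fun x => (X x - 0) ^ 2 + (Y x - 0) ^ 2) (v ^ 3 / 10 ^ 9 * n) ?_
    rw [← hn]
    nlinarith
  obtain ⟨p, hpP, hp1⟩ := pick s X Y K hK hbd hX hY D hDd P0 (by rw [hP0]; exact Finset.filter_subset _ _)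
    (v ^ 3 / 10 ^ 9 * n) (by positivity) hP0c
  rw [hP0, Finset.mem_filter] at hpP
  obtain ⟨hps, hpT⟩ := hpP
  obtain ⟨Δ, hΔ⟩ : ∃ Δ, Δ = 2 * n - (Kp K p).card := ⟨_, rfl⟩
  obtain ⟨E, hE⟩ : ∃ E, E = ∑ k ∈ Kp K p, ep X Y k ^ 2 := ⟨_, rfl⟩
  obtain ⟨σ, hσ⟩ : ∃ σ, σ = ∑ k ∈ Kp K p, |ep X Y k| := ⟨_, rfl⟩
  obtain ⟨A2, hA2⟩ : ∃ A2, A2 = ∑ k ∈ Kp K p, sq X Y k.1 k.2.1 := ⟨_, rfl⟩
  obtain ⟨P, hP⟩ : ∃ P, P = dt X Y p p := ⟨_, rfl⟩
  rw [← hn, ← hΔ, ← hE] at hp1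
  have hΔ0 : 0 ≤ Δ := by
    have h1 : ((Kp K p).card : ℝ) ≤ 2 * s.card := by exact_mod_cast Kp_card_le hK p
    rw [hΔ, hn]; linarith
  have hE0 : 0 ≤ E := by rw [hE]; exact Finset.sum_nonneg fun _ _ => sq_nonneg _
  have hΔE : Δ + E ≤ 5 * v ^ 6 / 10 ^ 19 * n := by
    refine hp1.trans ?_
    rw [div_le_iff₀ (by positivity)]
    have : 5 * v ^ 6 / 10 ^ 19 * n * (v ^ 3 / 10 ^ 9 * n) = 5 * (v ^ 9 / 10 ^ 28 * n ^ 2) := by ring
    rw [this]; linarith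
  have hσb : σ ≤ 2 * v ^ 3 / 10 ^ 9 * n := by
    have h1 := sigma_bound s X Y K hK p (v ^ 3 / 10 ^ 9) (by positivity)
    rw [← hσ, ← hE, ← hn] at h1
    have h2 : E / (2 * (v ^ 3 / 10 ^ 9)) ≤ v ^ 3 / 10 ^ 9 * n := by
      rw [div_le_iff₀ (by positivity)]
      have : v ^ 3 / 10 ^ 9 * n * (2 * (v ^ 3 / 10 ^ 9)) = 2 * v ^ 6 / 10 ^ 18 * n := by ring
      rw [this]
      have : 5 * v ^ 6 / 10 ^ 19 * n ≤ 2 * v ^ 6 / 10 ^ 18 * n := by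
        apply mul_le_mul_of_nonneg_right _ hn0.le
        have : 0 ≤ v ^ 6 := by positivity
        linarith
      linarith
    have h3 : v ^ 3 / 10 ^ 9 * n + v ^ 3 / 10 ^ 9 * n = 2 * v ^ 3 / 10 ^ 9 * n := by ring
    linarith
  have LA := (local_A s X Y K hK hbd hX hY p hps n W P Δ σ E A2 hn hW hP hΔ hσ hE hA2).1
  have LB := local_B s X Y K hK hbd hX hY p hps n W P Δ σ hn hW hP hΔ hσ
  have LC := local_C s X Y K hK hbd 0 0 p hps (by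
    have := hbd p hps
    unfold dt at this
    nlinarith) n Δ A2 (v ^ 3 / 10 ^ 9 * n) hn hΔ hA2 hpT
  have LA' := abs_le.mp LA
  have hA20 : 0 ≤ A2 := by
    rw [hA2]; exact Finset.sum_nonneg fun _ _ => by unfold sq; positivity
  -- numerical consequences at p
  obtain ⟨N3, hN3⟩ : ∃ N3, N3 = v ^ 3 * n := ⟨_, rfl⟩
  have hN3pos : 0 < N3 := by rw [hN3]; positivity
  have hΔE' : Δ + E ≤ N3 / 10 ^ 18 := by
    have h1 : 5 * v ^ 6 / 10 ^ 19 * n ≤ v ^ 3 * n / 10 ^ 18 := by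
      have : v ^ 6 * n ≤ v ^ 3 * n := mul_le_mul_of_nonneg_right v6le hn0.le
      have h2 : 0 ≤ v ^ 3 * n := by positivity
      linarith
    rw [hN3]; linarith
  have hσb' : σ ≤ 2 * N3 / 10 ^ 9 := by
    rw [hN3]
    have : 2 * v ^ 3 / 10 ^ 9 * n = 2 * (v ^ 3 * n) / 10 ^ 9 := by ring
    linarith
  have hT' : v ^ 3 / 10 ^ 9 * n = N3 / 10 ^ 9 := by rw [hN3]; ring
  rw [hT'] at LC
  have low : 3 * W - n * P ≤ 2 * N3 / 10 ^ 7 := by linarith [LA'.1, LA'.2]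
  have upp : n * P ≤ 3 * W + 5 * N3 / 10 ^ 8 := by linarith [LA'.1, LA'.2]
  have hsum : ∑ x ∈ s, hh X Y p x ^ 2 ≤ 3 * N3 / 10 ^ 7 := by linarith
  -- second point
  obtain ⟨P1, hP1⟩ : ∃ P1, P1 = s.filter (fun x' => ((s.filter (fun x =>
      (X x' - X p) ^ 2 + (Y x' - Y p) ^ 2 < (X x - X p) ^ 2 + (Y x - Y p) ^ 2)).card : ℝ)
        ≤ v / 2000 * n) := ⟨_, rfl⟩
  have hP1c : v / 2000 * n ≤ P1.card := by
    rw [hP1]
    refine quantile s (fun x => (X x - X p) ^ 2 + (Y x - Y p) ^ 2) (v / 2000 * n) ?_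
    rw [← hn]
    nlinarith
  obtain ⟨H, hH⟩ : ∃ H, H = s.filter (fun x => v / 20 < hh X Y p x) := ⟨_, rfl⟩
  have hHc : (H.card : ℝ) ≤ 2 * v * n / 10 ^ 4 := by
    have h1 : (H.card : ℝ) * (v / 20) ^ 2 ≤ ∑ x ∈ s, hh X Y p x ^ 2 := by
      calc (H.card : ℝ) * (v / 20) ^ 2 = ∑ _x ∈ H, (v / 20) ^ 2 := by simp
        _ ≤ ∑ x ∈ H, hh X Y p x ^ 2 := by
            refine Finset.sum_le_sum fun x hx => ?_
            rw [hH, Finset.mem_filter] at hx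
            have h2 : 0 < v / 20 := by positivity
            exact pow_le_pow_left₀ h2.le hx.2.le 2
        _ ≤ ∑ x ∈ s, hh X Y p x ^ 2 :=
            Finset.sum_le_sum_of_subset_of_nonneg (by rw [hH]; exact Finset.filter_subset _ _)
              (fun _ _ _ => sq_nonneg _)
    have h2 : (H.card : ℝ) * v ^ 2 ≤ (2 * v * n / 10 ^ 4) * v ^ 2 := by
      have : (2 * v * n / 10 ^ 4) * v ^ 2 = 2 * N3 / 10 ^ 4 := by rw [hN3]; ring
      rw [this]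
      have : (H.card : ℝ) * (v / 20) ^ 2 = (H.card : ℝ) * v ^ 2 / 400 := by ring
      linarith
    exact le_of_mul_le_mul_right h2 (by positivity)
  have hP1H : 3 * v * n / 10 ^ 4 ≤ ((P1 \ H).card : ℝ) := by
    have h1 : P1.card ≤ (P1 \ H).card + H.card := by
      have := Finset.card_le_card_sdiff_add_card (s := P1) (t := H)
      exact this
    have h2 : (P1.card : ℝ) ≤ (P1 \ H).card + H.card := by exact_mod_cast h1
    have h3 : v / 2000 * n = 5 * v * n / 10 ^ 4 := by ring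
    rw [h3] at hP1c
    have h4 : 5 * v * n / 10 ^ 4 = 3 * v * n / 10 ^ 4 + 2 * v * n / 10 ^ 4 := by ring
    linarith
  obtain ⟨x, hxP, hx1⟩ := pick s X Y K hK hbd hX hY D hDd (P1 \ H)
    (by rw [hP1]; exact Finset.sdiff_subset.trans (Finset.filter_subset _ _))
    (3 * v * n / 10 ^ 4) (by positivity) hP1H
  rw [Finset.mem_sdiff, hP1, hH, Finset.mem_filter, Finset.mem_filter] at hxP
  obtain ⟨⟨hxs, hxT⟩, hxH⟩ := hxP
  have hxh : hh X Y p x ≤ v / 20 := by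
    by_contra hcon
    exact hxH ⟨hxs, not_le.mp hcon⟩
  obtain ⟨Δ', hΔ'⟩ : ∃ Δ', Δ' = 2 * n - (Kp K x).card := ⟨_, rfl⟩
  obtain ⟨E', hE'⟩ : ∃ E', E' = ∑ k ∈ Kp K x, ep X Y k ^ 2 := ⟨_, rfl⟩
  obtain ⟨σ', hσ'⟩ : ∃ σ', σ' = ∑ k ∈ Kp K x, |ep X Y k| := ⟨_, rfl⟩
  obtain ⟨A2', hA2'⟩ : ∃ A2', A2' = ∑ k ∈ Kp K x, sq X Y k.1 k.2.1 := ⟨_, rfl⟩
  obtain ⟨Q, hQ⟩ : ∃ Q, Q = dt X Y x x := ⟨_, rfl⟩
  rw [← hn, ← hΔ', ← hE'] at hx1
  have hΔ'0 : 0 ≤ Δ' := by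
    have h1 : ((Kp K x).card : ℝ) ≤ 2 * s.card := by exact_mod_cast Kp_card_le hK x
    rw [hΔ', hn]; linarith
  have hE'0 : 0 ≤ E' := by rw [hE']; exact Finset.sum_nonneg fun _ _ => sq_nonneg _
  obtain ⟨N1, hN1⟩ : ∃ N1, N1 = v * n := ⟨_, rfl⟩
  have hN1pos : 0 < N1 := by rw [hN1]; positivity
  have hΔE2 : Δ' + E' ≤ v ^ 8 * n / 10 ^ 20 := by
    refine hx1.trans ?_
    rw [div_le_iff₀ (by positivity)]
    have h1 : v ^ 8 * n / 10 ^ 20 * (3 * v * n / 10 ^ 4) = 3 / 10 ^ 24 * (v ^ 9 * n ^ 2) := by ring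
    rw [h1]
    have h2 : v ^ 9 / 10 ^ 28 * n ^ 2 = (v ^ 9 * n ^ 2) / 10 ^ 28 := by ring
    rw [h2] at hDn
    have h3 : 0 ≤ v ^ 9 * n ^ 2 := by positivity
    linarith
  have hσb2 : σ' ≤ 2 * N1 / 10 ^ 4 := by
    have h1 := sigma_bound s X Y K hK x (v / 10 ^ 4) (by positivity)
    rw [← hσ', ← hE', ← hn] at h1
    have h2 : E' / (2 * (v / 10 ^ 4)) ≤ v / 10 ^ 4 * n := by
      rw [div_le_iff₀ (by positivity)]
      have e1 : v / 10 ^ 4 * n * (2 * (v / 10 ^ 4)) = 2 / 10 ^ 8 * (v ^ 2 * n) := by ring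
      rw [e1]
      have e2 : v ^ 8 * n ≤ v ^ 2 * n := mul_le_mul_of_nonneg_right v8le hn0.le
      have e3 : 0 ≤ v ^ 2 * n := by positivity
      linarith
    have h3 : v / 10 ^ 4 * n + v / 10 ^ 4 * n = 2 * N1 / 10 ^ 4 := by rw [hN1]; ring
    linarith
  have hΔE2' : Δ' + E' ≤ N1 / 10 ^ 20 := by
    have e2 : v ^ 8 * n ≤ v ^ 2 * n := mul_le_mul_of_nonneg_right v8le hn0.le
    have e3 : v ^ 2 * n ≤ v * n := mul_le_mul_of_nonneg_right v2le hn0.le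
    rw [hN1]; linarith
  have LA2 := abs_le.mp (local_A s X Y K hK hbd hX hY x hxs n W Q Δ' σ' E' A2' hn hW hQ hΔ' hσ' hE' hA2').1
  have LC2 := local_C s X Y K hK hbd (X p) (Y p) x hxs (by
    have := sq_le_four X Y p x (hbd p hps) (hbd x hxs)
    unfold sq at this
    exact this) n Δ' A2' (v / 2000 * n) hn hΔ' hA2' hxT
  have hT2 : v / 2000 * n = N1 / 2000 := by rw [hN1]; ring
  rw [hT2] at LC2 hxT
  have low2 : 3 * W - n * Q ≤ 8 * N1 / 100 := by linarith [LA2.1, LA2.2]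
  -- distance between x and p
  have hN31 : N3 ≤ N1 := by
    rw [hN3, hN1]; exact mul_le_mul_of_nonneg_right v3le hn0.le
  have hdist : n * sq X Y x p ≤ 32 * N1 / 100 := by
    rw [hh_eq X Y p x, ← hQ, ← hP]
    have h1 : n * hh X Y p x ≤ N1 / 20 := by
      rw [hN1]
      calc n * hh X Y p x ≤ n * (v / 20) := mul_le_mul_of_nonneg_left hxh hn0.le
        _ = v * n / 20 := by ring
    have h2 : n * (3 * hh X Y p x - 2 * (Q - P)) = 3 * (n * hh X Y p x) - 2 * (n * Q) + 2 * (n * P) := by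
      ring
    rw [h2]
    linarith
  -- variance
  have hvar : ∑ y ∈ s, sq X Y y p ≤ n * sq X Y x p + 4 * (N1 / 2000) := by
    have h1 : ∀ y ∈ s, sq X Y y p ≤ sq X Y x p + 4 * (if (X x - X p) ^ 2 + (Y x - Y p) ^ 2
        < (X y - X p) ^ 2 + (Y y - Y p) ^ 2 then 1 else 0) := by
      intro y hy
      split_ifs with hc
      · have := sq_le_four X Y y p (hbd y hy) (hbd p hps)
        have h0 : 0 ≤ sq X Y x p := by unfold sq; positivity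
        linarith
      · unfold sq
        linarith [not_lt.mp hc]
    calc ∑ y ∈ s, sq X Y y p ≤ ∑ y ∈ s, (sq X Y x p + 4 * (if (X x - X p) ^ 2 + (Y x - Y p) ^ 2
        < (X y - X p) ^ 2 + (Y y - Y p) ^ 2 then 1 else 0)) := Finset.sum_le_sum h1
      _ = n * sq X Y x p + 4 * ((s.filter (fun y => (X x - X p) ^ 2 + (Y x - Y p) ^ 2
        < (X y - X p) ^ 2 + (Y y - Y p) ^ 2)).card : ℝ) := by
          rw [Finset.sum_add_distrib, ← Finset.mul_sum, Finset.sum_boole]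
          simp [hn]
      _ ≤ _ := by linarith
  rw [sum_sq s X Y hX hY p, ← hW, ← hn, ← hP] at hvar
  have hP0' : 0 ≤ n * P := by
    rw [hP]; unfold dt; nlinarith [sq_nonneg (X p), sq_nonneg (Y p)]
  rw [← hN1] at hV
  linarith

end Pool.Agent.Helper679.Kite
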