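import Mathlib
import Pool.Agent.Helper679.Final

set_option autoImplicit false
set_option linter.unusedSectionVars false

namespace Pool.Agent.Helper679.Kite

open Finset

section transfer
variable {ι : Type*} [DecidableEq ι]

lemma KS.affine {s : Finset ι} {X Y : ι → ℝ} {K : Finset (ι × ι × ι × ι)} (hK : KS s X Y K)
    (z0 z1 ρ : ℝ) (hρ : 0 < ρ) :
    KS s (fun x => (X x - z0) / ρ) (fun x => (Y x - z1) / ρ) K := by
  have e : ∀ x y, sq (fun x => (X x - z0) / ρ) (fun x => (Y x - z1) / ρ) x y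
      = sq X Y x y / ρ ^ 2 := by
    intro x y; unfold sq; field_simp; ring
  refine ⟨hK.mem, ?_, ?_, ?_, ?_, hK.sab, hK.spq, hK.fab, hK.fpq, hK.fpa⟩
  · intro a b p q h; rw [e, e, hK.e1 a b p q h]
  · intro a b p q h; rw [e, e, hK.e2 a b p q h]
  · intro a b p q h; rw [e]; exact div_pos (hK.n1 a b p q h) (by positivity)
  · intro a b p q h; rw [e]; exact div_pos (hK.n2 a b p q h) (by positivity)

/-- restriction of a family of kites to a subset -/
def res (s' : Finset ι) (K : Finset (ι × ι × ι × ι)) : Finset (ι × ι × ι × ι) :=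
  K.filter (fun k => k.1 ∈ s' ∧ k.2.1 ∈ s' ∧ k.2.2.1 ∈ s' ∧ k.2.2.2 ∈ s')

lemma res_sub (s' : Finset ι) (K : Finset (ι × ι × ι × ι)) : res s' K ⊆ K := Finset.filter_subset _ _

lemma KS.sub {s : Finset ι} {X Y : ι → ℝ} {K : Finset (ι × ι × ι × ι)} (hK : KS s X Y K)
    (s' : Finset ι) : KS s' X Y (res s' K) := by
  have sub : ∀ (P : ι × ι × ι × ι → Prop) [DecidablePred P],
      ((res s' K).filter P).card ≤ (K.filter P).card := fun P _ =>
    Finset.card_le_card (Finset.filter_subset_filter _ (res_sub s' K))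
  refine ⟨?_, ?_, ?_, ?_, ?_, ?_, ?_, ?_, ?_, ?_⟩
  · intro a b p q h
    unfold res at h
    rw [Finset.mem_filter] at h
    exact h.2
  · intro a b p q h; exact hK.e1 a b p q (res_sub s' K h)
  · intro a b p q h; exact hK.e2 a b p q (res_sub s' K h)
  · intro a b p q h; exact hK.n1 a b p q (res_sub s' K h)
  · intro a b p q h; exact hK.n2 a b p q (res_sub s' K h)
  · intro a b p q h
    unfold res at h ⊢
    rw [Finset.mem_filter] at h ⊢
    exact ⟨hK.sab a b p q h.1, h.2.2.1, h.2.1, h.2.2.2.1, h.2.2.2.2⟩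
  · intro a b p q h
    unfold res at h ⊢
    rw [Finset.mem_filter] at h ⊢
    exact ⟨hK.spq a b p q h.1, h.2.1, h.2.2.1, h.2.2.2.2, h.2.2.2.1⟩
  · intro a b; exact (sub _).trans (hK.fab a b)
  · intro a b; exact (sub _).trans (hK.fpq a b)
  · intro a b; exact (sub _).trans (hK.fpa a b)

lemma pair_fib_ab {s : Finset ι} {X Y : ι → ℝ} {K : Finset (ι × ι × ι × ι)} (hK : KS s X Y K)
    (t : ι × ι) : (K.filter (fun k => (k.1, k.2.1) = t)).card ≤ 2 := by
  obtain ⟨a, b⟩ := t
  have : K.filter (fun k => (k.1, k.2.1) = (a, b)) = K.filter (fun k => k.1 = a ∧ k.2.1 = b) := by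
    refine Finset.filter_congr fun k _ => ?_
    rw [Prod.mk.injEq]
  rw [this]; exact hK.fab a b

lemma pair_fib_pq {s : Finset ι} {X Y : ι → ℝ} {K : Finset (ι × ι × ι × ι)} (hK : KS s X Y K)
    (t : ι × ι) : (K.filter (fun k => (k.2.2.1, k.2.2.2) = t)).card ≤ 2 := by
  obtain ⟨a, b⟩ := t
  have : K.filter (fun k => (k.2.2.1, k.2.2.2) = (a, b))
      = K.filter (fun k => k.2.2.1 = a ∧ k.2.2.2 = b) := by
    refine Finset.filter_congr fun k _ => ?_
    rw [Prod.mk.injEq]
  rw [this]; exact hK.fpq a b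

/-- few kites are lost when few points are removed -/
lemma res_card {s : Finset ι} {X Y : ι → ℝ} {K : Finset (ι × ι × ι × ι)} (hK : KS s X Y K)
    (s' : Finset ι) :
    K.card ≤ (res s' K).card + 8 * ((s \ s').card * s.card) := by
  have m : ∀ k ∈ K, k.1 ∈ s ∧ k.2.1 ∈ s ∧ k.2.2.1 ∈ s ∧ k.2.2.2 ∈ s := fun k hk =>
    hK.mem k.1 k.2.1 k.2.2.1 k.2.2.2 hk
  have c1 : (K.filter (fun k => k.1 ∈ s \ s')).card ≤ 2 * ((s \ s').card * s.card) := by
    rw [← Finset.card_product]
    refine fiber_card_le _ _ (fun k => (k.1, k.2.1)) ?_ ?_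
    · intro k hk; rw [Finset.mem_filter] at hk
      exact Finset.mem_product.mpr ⟨hk.2, (m k hk.1).2.1⟩
    · intro t _
      rw [Finset.filter_filter]
      refine (Finset.card_le_card ?_).trans (pair_fib_ab hK t)
      intro k hk; rw [Finset.mem_filter] at hk ⊢; exact ⟨hk.1, hk.2.2⟩
  have c2 : (K.filter (fun k => k.2.1 ∈ s \ s')).card ≤ 2 * ((s \ s').card * s.card) := by
    rw [mul_comm (s \ s').card, ← Finset.card_product]
    refine fiber_card_le _ _ (fun k => (k.1, k.2.1)) ?_ ?_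
    · intro k hk; rw [Finset.mem_filter] at hk
      exact Finset.mem_product.mpr ⟨(m k hk.1).1, hk.2⟩
    · intro t _
      rw [Finset.filter_filter]
      refine (Finset.card_le_card ?_).trans (pair_fib_ab hK t)
      intro k hk; rw [Finset.mem_filter] at hk ⊢; exact ⟨hk.1, hk.2.2⟩
  have c3 : (K.filter (fun k => k.2.2.1 ∈ s \ s')).card ≤ 2 * ((s \ s').card * s.card) := by
    rw [← Finset.card_product]
    refine fiber_card_le _ _ (fun k => (k.2.2.1, k.2.2.2)) ?_ ?_
    · intro k hk; rw [Finset.mem_filter] at hk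
      exact Finset.mem_product.mpr ⟨hk.2, (m k hk.1).2.2.2⟩
    · intro t _
      rw [Finset.filter_filter]
      refine (Finset.card_le_card ?_).trans (pair_fib_pq hK t)
      intro k hk; rw [Finset.mem_filter] at hk ⊢; exact ⟨hk.1, hk.2.2⟩
  have c4 : (K.filter (fun k => k.2.2.2 ∈ s \ s')).card ≤ 2 * ((s \ s').card * s.card) := by
    rw [mul_comm (s \ s').card, ← Finset.card_product]
    refine fiber_card_le _ _ (fun k => (k.2.2.1, k.2.2.2)) ?_ ?_
    · intro k hk; rw [Finset.mem_filter] at hk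
      exact Finset.mem_product.mpr ⟨(m k hk.1).2.2.1, hk.2⟩
    · intro t _
      rw [Finset.filter_filter]
      refine (Finset.card_le_card ?_).trans (pair_fib_pq hK t)
      intro k hk; rw [Finset.mem_filter] at hk ⊢; exact ⟨hk.1, hk.2.2⟩
  have hcov : K ⊆ res s' K ∪ (K.filter (fun k => k.1 ∈ s \ s') ∪ (K.filter (fun k => k.2.1 ∈ s \ s')
      ∪ (K.filter (fun k => k.2.2.1 ∈ s \ s') ∪ K.filter (fun k => k.2.2.2 ∈ s \ s')))) := by
    intro k hk
    obtain ⟨m1, m2, m3, m4⟩ := m k hk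
    simp only [Finset.mem_union, Finset.mem_filter, Finset.mem_sdiff, res, hk, true_and, m1, m2, m3, m4]
    tauto
  have := Finset.card_le_card hcov
  have u1 := Finset.card_union_le (res s' K) (K.filter (fun k => k.1 ∈ s \ s') ∪
    (K.filter (fun k => k.2.1 ∈ s \ s')
      ∪ (K.filter (fun k => k.2.2.1 ∈ s \ s') ∪ K.filter (fun k => k.2.2.2 ∈ s \ s'))))
  have u2 := Finset.card_union_le (K.filter (fun k => k.1 ∈ s \ s'))
    (K.filter (fun k => k.2.1 ∈ s \ s')
      ∪ (K.filter (fun k => k.2.2.1 ∈ s \ s') ∪ K.filter (fun k => k.2.2.2 ∈ s \ s')))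
  have u3 := Finset.card_union_le (K.filter (fun k => k.2.1 ∈ s \ s'))
      (K.filter (fun k => k.2.2.1 ∈ s \ s') ∪ K.filter (fun k => k.2.2.2 ∈ s \ s'))
  have u4 := Finset.card_union_le (K.filter (fun k => k.2.2.1 ∈ s \ s'))
      (K.filter (fun k => k.2.2.2 ∈ s \ s'))
  omega

end transfer

/-- The plane. -/
abbrev Pl := EuclideanSpace ℝ (Fin 2)

noncomputable instance : DecidableEq Pl := Classical.decEq _

noncomputable def cX (x : Pl) : ℝ := x 0
noncomputable def cY (x : Pl) : ℝ := x 1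

lemma sq_eq_dist (x y : Pl) : sq cX cY x y = dist x y ^ 2 := by
  unfold sq cX cY
  rw [EuclideanSpace.dist_eq, Real.sq_sqrt (by positivity), Fin.sum_univ_two]
  simp only [Real.dist_eq, sq_abs]

/-- the number of points of `S` far from `o` -/
noncomputable def far (S : Finset Pl) (o : Pl) (R : ℝ) : Finset Pl := S.filter (fun x => R < dist x o)

lemma tail_step (S : Finset Pl) (K : Finset (Pl × Pl × Pl × Pl)) (hK : KS S cX cY K) (o : Pl)
    (r : ℝ) (hr : 0 < r) (hB : (S.card : ℝ) ≤ 2 * ((S.filter (fun x => dist x o ≤ r)).card : ℝ))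
    (D : ℝ) (hD : D = 2 * (S.card : ℝ) ^ 2 - K.card) (R : ℝ) (hR : r ≤ R) :
    (S.card : ℝ) * ((far S o (2 * R + r)).card : ℝ) ≤ ((far S o R).card : ℝ) ^ 2 + D / 2 := by
  obtain ⟨B, hBd⟩ : ∃ B, B = S.filter (fun x => dist x o ≤ r) := ⟨_, rfl⟩
  obtain ⟨F', hF'⟩ : ∃ F', F' = far S o (2 * R + r) := ⟨_, rfl⟩
  obtain ⟨F, hF⟩ : ∃ F, F = far S o R := ⟨_, rfl⟩
  rw [← hBd] at hB
  rw [← hF', ← hF]
  have hBS : B ⊆ S := by rw [hBd]; exact Finset.filter_subset _ _
  have hF'S : F' ⊆ S := by rw [hF']; exact Finset.filter_subset _ _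
  have hcard : 2 * ((S ×ˢ S).card : ℝ) - (K.card : ℝ) = D := by
    rw [Finset.card_product, hD]; push_cast; ring
  have m : ∀ k ∈ K, k.1 ∈ S ∧ k.2.1 ∈ S ∧ k.2.2.1 ∈ S ∧ k.2.2.2 ∈ S := fun k hk =>
    hK.mem k.1 k.2.1 k.2.2.1 k.2.2.2 hk
  obtain ⟨P, hP⟩ : ∃ P, P = B ×ˢ F' ∪ F' ×ˢ B := ⟨_, rfl⟩
  have hdisj : Disjoint (B ×ˢ F') (F' ×ˢ B) := by
    rw [Finset.disjoint_left]
    rintro ⟨a, b⟩ h1 h2
    rw [Finset.mem_product] at h1 h2
    have e1 := h1.1
    have e2 := h2.1
    rw [hBd, Finset.mem_filter] at e1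
    rw [hF'] at e2
    unfold far at e2
    rw [Finset.mem_filter] at e2
    simp only at e1 e2
    linarith [e1.2, e2.2]
  have hPS : P ⊆ S ×ˢ S := by
    rw [hP]
    exact Finset.union_subset (Finset.product_subset_product hBS hF'S)
      (Finset.product_subset_product hF'S hBS)
  have hPc : (P.card : ℝ) = 2 * (B.card * F'.card) := by
    rw [hP, Finset.card_union_of_disjoint hdisj, Finset.card_product, Finset.card_product]
    push_cast; ring
  have A := (abs_le.mp (fiber_sum K (S ×ˢ S) (fun k => (k.1, k.2.1))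
    (fun k hk => Finset.mem_product.mpr ⟨(m k hk).1, (m k hk).2.1⟩) (fun t _ => pair_fib_ab hK t)
    (fun t => if t ∈ P then 1 else 0) 1
    (fun t _ => by split_ifs <;> simp))).1
  rw [hcard] at A
  have hs1 : ∑ t ∈ S ×ˢ S, (if t ∈ P then (1 : ℝ) else 0) = P.card := by
    rw [Finset.sum_boole, Finset.filter_mem_eq_inter, Finset.inter_eq_right.mpr hPS]
  rw [hs1, hPc] at A
  have Bd : ∑ k ∈ K, (if (k.1, k.2.1) ∈ P then (1 : ℝ) else 0)
      ≤ ∑ k ∈ K, (if (k.2.2.1, k.2.2.2) ∈ F ×ˢ F then (1 : ℝ) else 0) := by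
    refine Finset.sum_le_sum fun k hk => ?_
    by_cases hkP : (k.1, k.2.1) ∈ P
    · have : (k.2.2.1, k.2.2.2) ∈ F ×ˢ F := by
        have e1 := hK.e1 k.1 k.2.1 k.2.2.1 k.2.2.2 hk
        have e2 := hK.e2 k.1 k.2.1 k.2.2.1 k.2.2.2 hk
        rw [sq_eq_dist, sq_eq_dist] at e1 e2
        have e1' : dist k.2.2.1 k.1 = dist k.2.2.1 k.2.1 :=
          (sq_eq_sq₀ dist_nonneg dist_nonneg).mp e1
        have e2' : dist k.2.2.2 k.1 = dist k.2.2.2 k.2.1 :=
          (sq_eq_sq₀ dist_nonneg dist_nonneg).mp e2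
        have geo : ∀ a b z : Pl, dist a o ≤ r → 2 * R + r < dist b o → dist z a = dist z b →
            R < dist z o := by
          intro a b z h1 h2 h3
          have t1 : dist b o ≤ dist b z + dist z o := dist_triangle _ _ _
          have t2 : dist z a ≤ dist z o + dist o a := dist_triangle _ _ _
          rw [dist_comm b z, ← h3] at t1
          rw [dist_comm o a] at t2
          linarith
        rw [hP, Finset.mem_union, Finset.mem_product, Finset.mem_product] at hkP
        rw [hBd, hF'] at hkP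
        unfold far at hkP
        simp only [Finset.mem_filter] at hkP
        rw [Finset.mem_product, hF]
        unfold far
        simp only [Finset.mem_filter]
        rcases hkP with ⟨⟨_, g1⟩, ⟨_, g2⟩⟩ | ⟨⟨_, g1⟩, ⟨_, g2⟩⟩
        · exact ⟨⟨(m k hk).2.2.1, geo _ _ _ g1 g2 e1'⟩, ⟨(m k hk).2.2.2, geo _ _ _ g1 g2 e2'⟩⟩
        · exact ⟨⟨(m k hk).2.2.1, geo _ _ _ g2 g1 e1'.symm⟩, ⟨(m k hk).2.2.2, geo _ _ _ g2 g1 e2'.symm⟩⟩
      rw [if_pos hkP, if_pos this]
    · rw [if_neg hkP]; split_ifs <;> norm_num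
  have C : ∑ k ∈ K, (if (k.2.2.1, k.2.2.2) ∈ F ×ˢ F then (1 : ℝ) else 0) ≤ 2 * (F.card : ℝ) ^ 2 := by
    have hFS : F ×ˢ F ⊆ S ×ˢ S := by
      have : F ⊆ S := by rw [hF]; exact Finset.filter_subset _ _
      exact Finset.product_subset_product this this
    have h1 := fiber_sum_le K (S ×ˢ S) (fun k => (k.2.2.1, k.2.2.2))
      (fun k hk => Finset.mem_product.mpr ⟨(m k hk).2.2.1, (m k hk).2.2.2⟩)
      (fun t _ => pair_fib_pq hK t) (fun t => if t ∈ F ×ˢ F then (1 : ℝ) else 0)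
      (fun t _ => by split_ifs <;> norm_num)
    have hs2 : ∑ t ∈ S ×ˢ S, (if t ∈ F ×ˢ F then (1 : ℝ) else 0) = (F.card : ℝ) ^ 2 := by
      rw [Finset.sum_boole, Finset.filter_mem_eq_inter, Finset.inter_eq_right.mpr hFS,
        Finset.card_product]
      push_cast; ring
    rw [hs2] at h1
    exact h1
  have hFn : (0 : ℝ) ≤ F'.card := by positivity
  have h5 : (S.card : ℝ) * F'.card ≤ 2 * B.card * F'.card := mul_le_mul_of_nonneg_right hB hFn
  linarith

/-- choice of the scale -/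
lemma scale_choice (S : Finset Pl) (hS : 3 ≤ S.card) :
    ∃ o : Pl, ∃ r : ℝ, 0 < r ∧ (S.card : ℝ) ≤ 2 * ((S.filter (fun x => dist x o ≤ r)).card : ℝ) ∧
      ∀ z : Pl, 2 * ((S.filter (fun x => dist x z < r / 2)).card : ℝ) < S.card := by
  obtain ⟨P, hP⟩ : ∃ P, P = (S ×ˢ S).filter (fun t => (S.card : ℝ)
      ≤ 2 * ((S.filter (fun z => dist z t.1 ≤ dist t.1 t.2)).card : ℝ)) := ⟨_, rfl⟩
  have hSne : S.Nonempty := by rw [← Finset.card_pos]; omega
  have hn0 : (0 : ℝ) < S.card := by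
    have : 0 < S.card := by omega
    exact_mod_cast this
  have hPne : P.Nonempty := by
    obtain ⟨x, hx⟩ := hSne
    obtain ⟨y, hy, hmax⟩ := Finset.exists_max_image S (fun y => dist x y) ⟨x, hx⟩
    refine ⟨(x, y), ?_⟩
    rw [hP, Finset.mem_filter]
    refine ⟨Finset.mem_product.mpr ⟨hx, hy⟩, ?_⟩
    have : S.filter (fun z => dist z x ≤ dist x y) = S := by
      rw [Finset.filter_eq_self]
      intro z hz
      rw [dist_comm z x]
      exact hmax z hz
    simp only
    rw [this]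
    linarith
  obtain ⟨t, ht, hmin⟩ := Finset.exists_min_image P (fun t => dist t.1 t.2) hPne
  rw [hP, Finset.mem_filter, Finset.mem_product] at ht
  obtain ⟨⟨ht1, ht2⟩, htc⟩ := ht
  refine ⟨t.1, dist t.1 t.2, ?_, htc, ?_⟩
  · by_contra hcon
    have h0 : dist t.1 t.2 = 0 := le_antisymm (not_lt.mp hcon) dist_nonneg
    rw [h0] at htc
    have : S.filter (fun z => dist z t.1 ≤ 0) ⊆ {t.1} := by
      intro z hz
      rw [Finset.mem_filter] at hz
      rw [Finset.mem_singleton]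
      exact dist_le_zero.mp hz.2
    have hc := Finset.card_le_card this
    rw [Finset.card_singleton] at hc
    have hc' : ((S.filter (fun z => dist z t.1 ≤ 0)).card : ℝ) ≤ 1 := by exact_mod_cast hc
    have h3 : (3 : ℝ) ≤ S.card := by exact_mod_cast hS
    linarith
  · intro z
    by_contra hcon
    have hcon' := not_lt.mp hcon
    obtain ⟨C, hC⟩ : ∃ C, C = S.filter (fun x => dist x z < dist t.1 t.2 / 2) := ⟨_, rfl⟩
    rw [← hC] at hcon'
    have hCne : C.Nonempty := by
      rw [← Finset.card_pos]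
      by_contra h
      have : C.card = 0 := by omega
      rw [this] at hcon'
      simp at hcon'
      rw [hcon'] at hSne
      exact Finset.not_nonempty_empty hSne
    obtain ⟨x', hx'⟩ := hCne
    obtain ⟨y', hy', hmax⟩ := Finset.exists_max_image C (fun y => dist x' y) ⟨x', hx'⟩
    have hx2 := hx'
    have hy2 := hy'
    rw [hC, Finset.mem_filter] at hx2 hy2
    have hmem : (x', y') ∈ P := by
      rw [hP, Finset.mem_filter]
      refine ⟨Finset.mem_product.mpr ⟨hx2.1, hy2.1⟩, ?_⟩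
      have hsub : C ⊆ S.filter (fun z' => dist z' x' ≤ dist x' y') := by
        intro w hw
        have hw2 := hw
        rw [hC, Finset.mem_filter] at hw2
        rw [Finset.mem_filter]
        refine ⟨hw2.1, ?_⟩
        rw [dist_comm w x']
        exact hmax w hw
      have : (C.card : ℝ) ≤ ((S.filter (fun z' => dist z' x' ≤ dist x' y')).card : ℝ) := by
        exact_mod_cast Finset.card_le_card hsub
      simp only
      linarith
    have h1 := hmin (x', y') hmem
    simp only at h1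
    have h2 : dist x' y' ≤ dist x' z + dist z y' := dist_triangle _ _ _
    rw [dist_comm z y'] at h2
    linarith [hx2.2, hy2.2]

end Pool.Agent.Helper679.Kite
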