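import Mathlib
import Pool.Agent.Helper679.Trunc

set_option autoImplicit false
set_option linter.unusedSectionVars false

namespace Pool.Agent.Helper679.Kite

open Finset

lemma centroid_dist (S : Finset Pl) (hS : 0 < S.card) (o : Pl) (R : ℝ)
    (h : ∀ x ∈ S, dist x o ≤ R) :
    dist (((S.card : ℝ)⁻¹) • ∑ x ∈ S, x) o ≤ R := by
  have hn : (0 : ℝ) < S.card := by exact_mod_cast hS
  rw [dist_eq_norm]
  have e : ((S.card : ℝ)⁻¹) • ∑ x ∈ S, x - o = ((S.card : ℝ)⁻¹) • ∑ x ∈ S, (x - o) := by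
    rw [Finset.sum_sub_distrib, smul_sub]
    congr 1
    rw [Finset.sum_const, ← Nat.cast_smul_eq_nsmul ℝ, smul_smul, inv_mul_cancel₀ hn.ne', one_smul]
  rw [e, norm_smul, Real.norm_of_nonneg (by positivity)]
  have h1 : ‖∑ x ∈ S, (x - o)‖ ≤ S.card * R := by
    calc ‖∑ x ∈ S, (x - o)‖ ≤ ∑ x ∈ S, ‖x - o‖ := norm_sum_le _ _
      _ ≤ ∑ _x ∈ S, R := Finset.sum_le_sum fun x hx => by rw [← dist_eq_norm]; exact h x hx
      _ = S.card * R := by simp
  calc (S.card : ℝ)⁻¹ * ‖∑ x ∈ S, (x - o)‖ ≤ (S.card : ℝ)⁻¹ * (S.card * R) :=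
        mul_le_mul_of_nonneg_left h1 (by positivity)
    _ = R := by field_simp

lemma ratio_step (n f g D β β' : ℝ) (hn : 0 < n) (hg : n * g ≤ f ^ 2 + D / 2) (hf0 : 0 ≤ f)
    (hf : f ≤ β * n) (hD : D ≤ 1 / 10 ^ 99 * n ^ 2) (hβ : β ^ 2 + 1 / 10 ^ 99 / 2 ≤ β') :
    g ≤ β' * n := by
  have h1 : f ^ 2 ≤ (β * n) ^ 2 := pow_le_pow_left₀ hf0 hf 2
  have h2 : n * g ≤ n * (β' * n) := by
    calc n * g ≤ f ^ 2 + D / 2 := hg
      _ ≤ (β ^ 2 + 1 / 10 ^ 99 / 2) * n ^ 2 := by
          have : (β * n) ^ 2 = β ^ 2 * n ^ 2 := by ring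
          rw [this] at h1
          have e : (β ^ 2 + 1 / 10 ^ 99 / 2) * n ^ 2 = β ^ 2 * n ^ 2 + (1 / 10 ^ 99 * n ^ 2) / 2 := by ring
          rw [e]; linarith
      _ ≤ β' * n ^ 2 := mul_le_mul_of_nonneg_right hβ (by positivity)
      _ = n * (β' * n) := by ring
  exact le_of_mul_le_mul_left h2 hn

theorem no_kites (S : Finset Pl) (K : Finset (Pl × Pl × Pl × Pl)) (hK : KS S cX cY K)
    (hS : 3 ≤ S.card) (hD : 2 * (S.card : ℝ) ^ 2 - K.card ≤ 1 / 10 ^ 99 * (S.card : ℝ) ^ 2) :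
    False := by
  obtain ⟨o, r, hr, hB, hmin⟩ := scale_choice S hS
  obtain ⟨n, hn⟩ : ∃ n : ℝ, n = S.card := ⟨_, rfl⟩
  obtain ⟨D, hDd⟩ : ∃ D : ℝ, D = 2 * (S.card : ℝ) ^ 2 - K.card := ⟨_, rfl⟩
  have hn3 : (3 : ℝ) ≤ n := by rw [hn]; exact_mod_cast hS
  have hn0 : 0 < n := by linarith
  rw [← hDd, ← hn] at hD
  have step := fun R hR => tail_step S K hK o r hr hB D hDd R hR
  rw [← hn] at step hB
  have hpos : ∀ R, (0 : ℝ) ≤ ((far S o R).card : ℝ) := fun R => by positivity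
  -- initial bound
  have f0 : ((far S o r).card : ℝ) ≤ 1 / 2 * n := by
    have h1 : (S.filter (fun x => dist x o ≤ r)).card + (far S o r).card = S.card := by
      unfold far
      have := Finset.card_filter_add_card_filter_not (s := S) (fun x => dist x o ≤ r)
      simpa only [not_le] using this
    have h2 : ((S.filter (fun x => dist x o ≤ r)).card : ℝ) + (far S o r).card = n := by
      rw [hn]; exact_mod_cast h1
    linarith
  have f1 : ((far S o (3 * r)).card : ℝ) ≤ 26 / 100 * n := by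
    have := step r le_rfl
    rw [show 2 * r + r = 3 * r by ring] at this
    exact ratio_step n _ _ D _ _ hn0 this (hpos _) f0 hD (by norm_num)
  have f2 : ((far S o (7 * r)).card : ℝ) ≤ 7 / 100 * n := by
    have := step (3 * r) (by linarith)
    rw [show 2 * (3 * r) + r = 7 * r by ring] at this
    exact ratio_step n _ _ D _ _ hn0 this (hpos _) f1 hD (by norm_num)
  have f3 : ((far S o (15 * r)).card : ℝ) ≤ 5 / 1000 * n := by
    have := step (7 * r) (by linarith)
    rw [show 2 * (7 * r) + r = 15 * r by ring] at this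
    exact ratio_step n _ _ D _ _ hn0 this (hpos _) f2 hD (by norm_num)
  have f4 : ((far S o (31 * r)).card : ℝ) ≤ 3 / 10 ^ 5 * n := by
    have := step (15 * r) (by linarith)
    rw [show 2 * (15 * r) + r = 31 * r by ring] at this
    exact ratio_step n _ _ D _ _ hn0 this (hpos _) f3 hD (by norm_num)
  have f5 : ((far S o (63 * r)).card : ℝ) ≤ 1 / 10 ^ 9 * n := by
    have := step (31 * r) (by linarith)
    rw [show 2 * (31 * r) + r = 63 * r by ring] at this
    exact ratio_step n _ _ D _ _ hn0 this (hpos _) f4 hD (by norm_num)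
  have f6 : ((far S o (127 * r)).card : ℝ) ≤ 11 / 10 ^ 19 * n := by
    have := step (63 * r) (by linarith)
    rw [show 2 * (63 * r) + r = 127 * r by ring] at this
    exact ratio_step n _ _ D _ _ hn0 this (hpos _) f5 hD (by norm_num)
  have f7 : ((far S o (255 * r)).card : ℝ) ≤ 13 / 10 ^ 37 * n := by
    have := step (127 * r) (by linarith)
    rw [show 2 * (127 * r) + r = 255 * r by ring] at this
    exact ratio_step n _ _ D _ _ hn0 this (hpos _) f6 hD (by norm_num)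
  have f8 : ((far S o (511 * r)).card : ℝ) ≤ 2 / 10 ^ 72 * n := by
    have := step (255 * r) (by linarith)
    rw [show 2 * (255 * r) + r = 511 * r by ring] at this
    exact ratio_step n _ _ D _ _ hn0 this (hpos _) f7 hD (by norm_num)
  have f9 : ((far S o (1023 * r)).card : ℝ) ≤ 1 / 10 ^ 99 * n := by
    have := step (511 * r) (by linarith)
    rw [show 2 * (511 * r) + r = 1023 * r by ring] at this
    exact ratio_step n _ _ D _ _ hn0 this (hpos _) f8 hD (by norm_num)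
  -- truncation
  obtain ⟨S', hS'⟩ : ∃ S', S' = S.filter (fun x => dist x o ≤ 1023 * r) := ⟨_, rfl⟩
  have hSS : S' ⊆ S := by rw [hS']; exact Finset.filter_subset _ _
  have hdiff : S \ S' = far S o (1023 * r) := by
    ext x
    rw [Finset.mem_sdiff, hS', Finset.mem_filter]
    unfold far
    rw [Finset.mem_filter]
    constructor
    · rintro ⟨h1, h2⟩
      refine ⟨h1, ?_⟩
      by_contra h3
      exact h2 ⟨h1, not_lt.mp h3⟩
    · rintro ⟨h1, h2⟩
      exact ⟨h1, fun h3 => absurd h3.2 (not_le.mpr h2)⟩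
  obtain ⟨n', hn'⟩ : ∃ n' : ℝ, n' = S'.card := ⟨_, rfl⟩
  have hcount : n' + ((far S o (1023 * r)).card : ℝ) = n := by
    rw [hn', hn, ← hdiff]
    have := Finset.card_sdiff_add_card_eq_card hSS
    have h2 : ((S \ S').card : ℝ) + S'.card = S.card := by exact_mod_cast this
    linarith
  have hn'n : n' ≤ n := by linarith [hpos (1023 * r)]
  have hn'big : 99 / 100 * n ≤ n' := by
    have : 1 / 10 ^ 99 * n ≤ 1 / 100 * n := mul_le_mul_of_nonneg_right (by norm_num) hn0.le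
    linarith
  have hn'0 : 0 < n' := by linarith
  have hS'c : 0 < S'.card := by
    have : (0 : ℝ) < S'.card := by rw [← hn']; exact hn'0
    exact_mod_cast this
  obtain ⟨K', hK'd⟩ : ∃ K', K' = res S' K := ⟨_, rfl⟩
  have hK' : KS S' cX cY K' := by rw [hK'd]; exact hK.sub S'
  have hKc : (K.card : ℝ) ≤ K'.card + 8 * ((far S o (1023 * r)).card * n) := by
    have := res_card hK S'
    rw [hdiff, ← hK'd] at this
    rw [hn]
    exact_mod_cast this
  -- centre and scale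
  obtain ⟨z, hz⟩ : ∃ z : Pl, z = ((S'.card : ℝ)⁻¹) • ∑ x ∈ S', x := ⟨_, rfl⟩
  have hzo : dist z o ≤ 1023 * r := by
    rw [hz]
    refine centroid_dist S' hS'c o _ fun x hx => ?_
    rw [hS', Finset.mem_filter] at hx
    exact hx.2
  obtain ⟨ρ, hρ⟩ : ∃ ρ, ρ = 2046 * r := ⟨_, rfl⟩
  have hρ0 : 0 < ρ := by rw [hρ]; positivity
  have hdz : ∀ x ∈ S', dist x z ≤ ρ := by
    intro x hx
    rw [hS', Finset.mem_filter] at hx
    have := dist_triangle x o z
    rw [dist_comm o z] at this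
    rw [hρ]; linarith [hx.2]
  have hKK := hK'.affine (z 0) (z 1) ρ hρ0
  have hdt : ∀ x, dt (fun x => (cX x - z 0) / ρ) (fun x => (cY x - z 1) / ρ) x x = dist x z ^ 2 / ρ ^ 2 := by
    intro x
    have h1 := sq_eq_dist x z
    rw [← h1]
    unfold dt sq cX cY
    field_simp
  have hbd : ∀ x ∈ S', dt (fun x => (cX x - z 0) / ρ) (fun x => (cY x - z 1) / ρ) x x ≤ 1 := by
    intro x hx
    rw [hdt, div_le_one (by positivity)]
    exact pow_le_pow_left₀ dist_nonneg (hdz x hx) 2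
  have hz0 : z 0 = (S'.card : ℝ)⁻¹ * ∑ x ∈ S', x 0 := by
    rw [hz]; simp
  have hz1 : z 1 = (S'.card : ℝ)⁻¹ * ∑ x ∈ S', x 1 := by
    rw [hz]; simp
  have hcne : (S'.card : ℝ) ≠ 0 := by rw [← hn']; exact hn'0.ne'
  have hX : ∑ x ∈ S', (cX x - z 0) / ρ = 0 := by
    rw [← Finset.sum_div, Finset.sum_sub_distrib, Finset.sum_const, nsmul_eq_mul, hz0]
    unfold cX
    rw [mul_inv_cancel_left₀ hcne, sub_self, zero_div]
  have hY : ∑ x ∈ S', (cY x - z 1) / ρ = 0 := by
    rw [← Finset.sum_div, Finset.sum_sub_distrib, Finset.sum_const, nsmul_eq_mul, hz1]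
    unfold cY
    rw [mul_inv_cancel_left₀ hcne, sub_self, zero_div]
  refine core S' (fun x => (cX x - z 0) / ρ) (fun x => (cY x - z 1) / ρ) K' hKK hbd hX hY
    (1 / (5 * 10 ^ 7)) (1 / 10 ^ 98) n' (by norm_num) hn' hn'0 ?_ ?_ (by norm_num)
  · -- variance
    obtain ⟨C, hC⟩ : ∃ C, C = S.filter (fun x => dist x z < r / 2) := ⟨_, rfl⟩
    have hC1 := hmin z
    rw [← hC, ← hn] at hC1
    have h1 : (S' \ C).card + C.card ≥ S'.card := Finset.card_le_card_sdiff_add_card
    have h2 : n' ≤ ((S' \ C).card : ℝ) + C.card := by rw [hn']; exact_mod_cast h1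
    have h3 : 4 / 10 * n' ≤ ((S' \ C).card : ℝ) := by linarith
    have h4 : ((S' \ C).card : ℝ) * ((r / 2) ^ 2 / ρ ^ 2)
        ≤ ∑ x ∈ S', dt (fun x => (cX x - z 0) / ρ) (fun x => (cY x - z 1) / ρ) x x := by
      calc ((S' \ C).card : ℝ) * ((r / 2) ^ 2 / ρ ^ 2) = ∑ _x ∈ S' \ C, (r / 2) ^ 2 / ρ ^ 2 := by simp
        _ ≤ ∑ x ∈ S' \ C, dt (fun x => (cX x - z 0) / ρ) (fun x => (cY x - z 1) / ρ) x x := by
            refine Finset.sum_le_sum fun x hx => ?_
            rw [Finset.mem_sdiff] at hx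
            rw [hdt]
            have hxr : r / 2 ≤ dist x z := by
              by_contra hcon
              apply hx.2
              rw [hC, Finset.mem_filter]
              exact ⟨hSS hx.1, not_le.mp hcon⟩
            have := pow_le_pow_left₀ (by positivity) hxr 2
            exact div_le_div_of_nonneg_right this (by positivity)
        _ ≤ _ := Finset.sum_le_sum_of_subset_of_nonneg Finset.sdiff_subset
              (fun x _ _ => by rw [hdt]; positivity)
    have h5 : (r / 2) ^ 2 / ρ ^ 2 = 1 / (4 * 2046 ^ 2) := by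
      rw [hρ]; field_simp; norm_num
    rw [h5] at h4
    have h6 : 4 / 10 * n' * (1 / (4 * 2046 ^ 2)) ≤ ((S' \ C).card : ℝ) * (1 / (4 * 2046 ^ 2)) :=
      mul_le_mul_of_nonneg_right h3 (by norm_num)
    have h7 : 1 / (5 * 10 ^ 7) * n' ≤ 4 / 10 * n' * (1 / (4 * 2046 ^ 2)) := by
      have : 4 / 10 * n' * (1 / (4 * 2046 ^ 2)) = (4 / 10 * (1 / (4 * 2046 ^ 2))) * n' := by ring
      rw [this]
      exact mul_le_mul_of_nonneg_right (by norm_num) hn'0.le
    linarith
  · -- deficit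
    have hDD : D = 2 * n ^ 2 - K.card := by rw [hDd, hn]
    have h1 : 2 * n' ^ 2 ≤ 2 * n ^ 2 := by
      have := pow_le_pow_left₀ hn'0.le hn'n 2
      linarith
    have h2 : ((far S o (1023 * r)).card : ℝ) * n ≤ 1 / 10 ^ 99 * n * n :=
      mul_le_mul_of_nonneg_right f9 hn0.le
    have h3 : 2 * n' ^ 2 - K'.card ≤ 9 / 10 ^ 99 * n ^ 2 := by
      have e : (9 : ℝ) / 10 ^ 99 * n ^ 2 = 1 / 10 ^ 99 * n ^ 2 + 8 * (1 / 10 ^ 99 * n * n) := by ring
      rw [e]; linarith
    have h4 : 9 / 10 ^ 99 * n ^ 2 ≤ 1 / 10 ^ 98 * n' ^ 2 := by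
      have h5 : (99 / 100 * n) ^ 2 ≤ n' ^ 2 := pow_le_pow_left₀ (by positivity) hn'big 2
      have h6 : 0 ≤ n ^ 2 := by positivity
      nlinarith
    linarith

end Pool.Agent.Helper679.Kite
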