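import Mathlib
import Pool.Agent.Helper679.NoKites

set_option autoImplicit false
set_option linter.unusedSectionVars false

namespace Pool.Agent.Helper679.Kite

open Finset

lemma pl_ext {x y : Pl} (h0 : x 0 = y 0) (h1 : x 1 = y 1) : x = y := by
  ext i
  fin_cases i
  · exact h0
  · exact h1

/-- pairs of `S` that are equidistant from `p` and from `q` -/
noncomputable def Wp (S : Finset Pl) (p q : Pl) : Finset (Pl × Pl) :=
  S.offDiag.filter (fun t => dist p t.1 = dist p t.2 ∧ dist q t.1 = dist q t.2)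

/-- points of `S` equidistant from `a` and `b` -/
noncomputable def Ap (S : Finset Pl) (a b : Pl) : Finset Pl :=
  S.filter (fun x => dist x a = dist x b)

/-- frame along a line -/
lemma frame (p q : Pl) (hpq : p ≠ q) : ∃ ux uy : ℝ, ux ^ 2 + uy ^ 2 = 1 ∧
    ∀ a b : Pl, a ≠ b → dist p a = dist p b → dist q a = dist q b →
      ∃ g h : ℝ, h ≠ 0 ∧ a 0 = p 0 + (g * ux - h * uy) / 2 ∧ a 1 = p 1 + (g * uy + h * ux) / 2 ∧
        b 0 = p 0 + (g * ux + h * uy) / 2 ∧ b 1 = p 1 + (g * uy - h * ux) / 2 := by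
  have n2 : 0 < sq cX cY q p := by
    rw [sq_eq_dist]
    have : 0 < dist q p := dist_pos.mpr hpq.symm
    positivity
  have n2' := n2
  unfold sq cX cY at n2'
  obtain ⟨lam, hlam⟩ : ∃ lam, lam = Real.sqrt ((q 0 - p 0) ^ 2 + (q 1 - p 1) ^ 2) := ⟨_, rfl⟩
  have hl : 0 < lam := by rw [hlam]; exact Real.sqrt_pos.mpr n2'
  have hl2 : lam ^ 2 = (q 0 - p 0) ^ 2 + (q 1 - p 1) ^ 2 := by rw [hlam]; exact Real.sq_sqrt n2'.le
  refine ⟨(q 0 - p 0) / lam, (q 1 - p 1) / lam, ?_, ?_⟩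
  · rw [div_pow, div_pow, ← add_div, hl2, div_self]
    exact n2'.ne'
  · intro a b hab h1 h2
    have e1 : sq cX cY p a = sq cX cY p b := by rw [sq_eq_dist, sq_eq_dist, h1]
    have e2 : sq cX cY q a = sq cX cY q b := by rw [sq_eq_dist, sq_eq_dist, h2]
    have n1 : 0 < sq cX cY a b := by
      rw [sq_eq_dist]
      have : 0 < dist a b := dist_pos.mpr hab
      positivity
    unfold sq cX cY at e1 e2 n1
    obtain ⟨ux, uy, lam', g, h, hu, hl', hlam', hne, hqx, hqy, hax, hay, hbx, hby⟩ :=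
      kite_normal (a 0) (a 1) (b 0) (b 1) (p 0) (p 1) (q 0) (q 1) e1 e2 n1 n2'
    rw [← hlam] at hlam'
    subst hlam'
    have hux : (q 0 - p 0) / lam' = ux := by rw [hqx]; field_simp; ring
    have huy : (q 1 - p 1) / lam' = uy := by rw [hqy]; field_simp; ring
    rw [hux, huy]
    exact ⟨g, h, hne, hax, hay, hbx, hby⟩

/-- Under the no-four-concyclic condition all pairs symmetric about a line lie on one line. -/
lemma same_foot (S : Finset Pl) (hC : ∀ z : Pl, ∀ r : ℝ, (S.filter (fun p => dist p z = r)).card ≤ 3)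
    (p0 p1 ux uy g h g' h' : ℝ) (hu : ux ^ 2 + uy ^ 2 = 1) (hh : h ≠ 0) (hh' : h' ≠ 0)
    (a b a' b' : Pl) (ha : a ∈ S) (hb : b ∈ S) (ha' : a' ∈ S) (hb' : b' ∈ S)
    (a0 : a 0 = p0 + (g * ux - h * uy) / 2) (a1 : a 1 = p1 + (g * uy + h * ux) / 2)
    (b0 : b 0 = p0 + (g * ux + h * uy) / 2) (b1 : b 1 = p1 + (g * uy - h * ux) / 2)
    (a0' : a' 0 = p0 + (g' * ux - h' * uy) / 2) (a1' : a' 1 = p1 + (g' * uy + h' * ux) / 2)
    (b0' : b' 0 = p0 + (g' * ux + h' * uy) / 2) (b1' : b' 1 = p1 + (g' * uy - h' * ux) / 2) :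
    g = g' := by
  by_contra hne
  have hgg : g' - g ≠ 0 := fun h => hne (by linarith)
  -- the four points are distinct
  have comp : ∀ x y : Pl, x = y → (x 0 - p0) * ux + (x 1 - p1) * uy = (y 0 - p0) * ux + (y 1 - p1) * uy ∧
      -(x 0 - p0) * uy + (x 1 - p1) * ux = -(y 0 - p0) * uy + (y 1 - p1) * ux := by
    rintro x y rfl; exact ⟨rfl, rfl⟩
  have ca : (a 0 - p0) * ux + (a 1 - p1) * uy = g / 2 := by
    rw [a0, a1]; linear_combination (g / 2) * hu
  have cb : (b 0 - p0) * ux + (b 1 - p1) * uy = g / 2 := by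
    rw [b0, b1]; linear_combination (g / 2) * hu
  have ca' : (a' 0 - p0) * ux + (a' 1 - p1) * uy = g' / 2 := by
    rw [a0', a1']; linear_combination (g' / 2) * hu
  have cb' : (b' 0 - p0) * ux + (b' 1 - p1) * uy = g' / 2 := by
    rw [b0', b1']; linear_combination (g' / 2) * hu
  have da : -(a 0 - p0) * uy + (a 1 - p1) * ux = h / 2 := by
    rw [a0, a1]; linear_combination (h / 2) * hu
  have db : -(b 0 - p0) * uy + (b 1 - p1) * ux = -h / 2 := by
    rw [b0, b1]; linear_combination (-h / 2) * hu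
  have da' : -(a' 0 - p0) * uy + (a' 1 - p1) * ux = h' / 2 := by
    rw [a0', a1']; linear_combination (h' / 2) * hu
  have db' : -(b' 0 - p0) * uy + (b' 1 - p1) * ux = -h' / 2 := by
    rw [b0', b1']; linear_combination (-h' / 2) * hu
  have n1 : a ≠ b := fun e => hh (by have := (comp a b e).2; rw [da, db] at this; linarith)
  have n2 : a' ≠ b' := fun e => hh' (by have := (comp a' b' e).2; rw [da', db'] at this; linarith)
  have n3 : a ≠ a' := fun e => hgg (by have := (comp a a' e).1; rw [ca, ca'] at this; linarith)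
  have n4 : a ≠ b' := fun e => hgg (by have := (comp a b' e).1; rw [ca, cb'] at this; linarith)
  have n5 : b ≠ a' := fun e => hgg (by have := (comp b a' e).1; rw [cb, ca'] at this; linarith)
  have n6 : b ≠ b' := fun e => hgg (by have := (comp b b' e).1; rw [cb, cb'] at this; linarith)
  obtain ⟨τ, hτ⟩ : ∃ τ, τ = ((g' ^ 2 - g ^ 2) + (h' ^ 2 - h ^ 2)) / (4 * (g' - g)) := ⟨_, rfl⟩
  have hτ' : 4 * (g' - g) * τ = (g' ^ 2 - g ^ 2) + (h' ^ 2 - h ^ 2) := by
    rw [hτ]; field_simp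
  obtain ⟨z, hz⟩ : ∃ z : Pl, z = !₂[p0 + τ * ux, p1 + τ * uy] := ⟨_, rfl⟩
  have z0 : z 0 = p0 + τ * ux := by rw [hz]; rfl
  have z1 : z 1 = p1 + τ * uy := by rw [hz]; rfl
  have dd : ∀ x : Pl, dist x z ^ 2 = (x 0 - z 0) ^ 2 + (x 1 - z 1) ^ 2 := by
    intro x; rw [← sq_eq_dist]; rfl
  obtain ⟨r2, hr2⟩ : ∃ r2, r2 = (τ - g / 2) ^ 2 + h ^ 2 / 4 := ⟨_, rfl⟩
  have ea : dist a z ^ 2 = r2 := by
    rw [dd, z0, z1, a0, a1, hr2]; linear_combination ((τ - g / 2) ^ 2 + h ^ 2 / 4) * hu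
  have eb : dist b z ^ 2 = r2 := by
    rw [dd, z0, z1, b0, b1, hr2]; linear_combination ((τ - g / 2) ^ 2 + h ^ 2 / 4) * hu
  have ea' : dist a' z ^ 2 = r2 := by
    rw [dd, z0, z1, a0', a1', hr2]
    linear_combination ((τ - g' / 2) ^ 2 + h' ^ 2 / 4) * hu - (1 / 4) * hτ'
  have eb' : dist b' z ^ 2 = r2 := by
    rw [dd, z0, z1, b0', b1', hr2]
    linear_combination ((τ - g' / 2) ^ 2 + h' ^ 2 / 4) * hu - (1 / 4) * hτ'
  have rt : ∀ x : Pl, dist x z ^ 2 = r2 → dist x z = Real.sqrt r2 := by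
    intro x hx; rw [← hx, Real.sqrt_sq dist_nonneg]
  have hsub : ({a, b, a', b'} : Finset Pl) ⊆ S.filter (fun p => dist p z = Real.sqrt r2) := by
    intro x hx
    simp only [Finset.mem_insert, Finset.mem_singleton] at hx
    rw [Finset.mem_filter]
    rcases hx with rfl | rfl | rfl | rfl
    · exact ⟨ha, rt _ ea⟩
    · exact ⟨hb, rt _ eb⟩
    · exact ⟨ha', rt _ ea'⟩
    · exact ⟨hb', rt _ eb'⟩
  have hcard : ({a, b, a', b'} : Finset Pl).card = 4 := by
    rw [Finset.card_insert_of_notMem, Finset.card_insert_of_notMem, Finset.card_insert_of_notMem,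
      Finset.card_singleton]
    · simpa using n2
    · simp only [Finset.mem_insert, Finset.mem_singleton, not_or]; exact ⟨n5, n6⟩
    · simp only [Finset.mem_insert, Finset.mem_singleton, not_or]; exact ⟨n1, n3, n4⟩
  have := (Finset.card_le_card hsub).trans (hC z (Real.sqrt r2))
  omega

end Pool.Agent.Helper679.Kite
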