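import Mathlib
import Pool.Agent.Helper679.Comb

set_option autoImplicit false
set_option linter.unusedSectionVars false

namespace Pool.Agent.Helper679.Kite

open Finset

open Classical in
/-- ordered pairs with the same midpoint as `t`, on the same line as `t` -/
noncomputable def cls (S : Finset Pl) (t : Pl × Pl) : Finset (Pl × Pl) :=
  S.offDiag.filter (fun t' => t'.1 + t'.2 = t.1 + t.2 ∧ Collinear ℝ ({t.1, t.2, t'.1, t'.2} : Set Pl))

lemma mem_cls (S : Finset Pl) (t t' : Pl × Pl) : t' ∈ cls S t ↔ t' ∈ S.offDiag ∧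
    (t'.1 + t'.2 = t.1 + t.2 ∧ Collinear ℝ ({t.1, t.2, t'.1, t'.2} : Set Pl)) := by
  simp only [cls, Finset.mem_filter]

lemma cls_of_Wp (S : Finset Pl)
    (hC : ∀ z : Pl, ∀ r : ℝ, (S.filter (fun p => dist p z = r)).card ≤ 3)
    (p q : Pl) (hpq : p ≠ q) (t t' : Pl × Pl) (ht : t ∈ Wp S p q) (ht' : t' ∈ Wp S p q) :
    t' ∈ cls S t := by
  obtain ⟨a, b⟩ := t
  obtain ⟨a', b'⟩ := t'
  simp only [Wp, Finset.mem_filter, Finset.mem_offDiag] at ht ht'
  obtain ⟨⟨haS, hbS, hab⟩, h1, h2⟩ := ht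
  obtain ⟨⟨haS', hbS', hab'⟩, h1', h2'⟩ := ht'
  obtain ⟨ux, uy, hu, hfr⟩ := frame p q hpq
  obtain ⟨g, h, hne, a0, a1, b0, b1⟩ := hfr a b hab h1 h2
  obtain ⟨g', h', hne', a0', a1', b0', b1'⟩ := hfr a' b' hab' h1' h2'
  have hgg : g = g' := same_foot S hC (p 0) (p 1) ux uy g h g' h' hu hne hne' a b a' b'
    haS hbS haS' hbS' a0 a1 b0 b1 a0' a1' b0' b1'
  subst hgg
  simp only [cls, Finset.mem_filter, Finset.mem_offDiag]
  refine ⟨⟨haS', hbS', hab'⟩, ?_, ?_⟩
  · apply pl_ext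
    · show a' 0 + b' 0 = a 0 + b 0
      rw [a0', b0', a0, b0]; ring
    · show a' 1 + b' 1 = a 1 + b 1
      rw [a1', b1', a1, b1]; ring
  · rw [collinear_iff_exists_forall_eq_smul_vadd]
    obtain ⟨m, hm⟩ : ∃ m : Pl, m = !₂[p 0 + g * ux / 2, p 1 + g * uy / 2] := ⟨_, rfl⟩
    obtain ⟨v, hv⟩ : ∃ v : Pl, v = !₂[-uy, ux] := ⟨_, rfl⟩
    have m0 : m 0 = p 0 + g * ux / 2 := by rw [hm]; rfl
    have m1 : m 1 = p 1 + g * uy / 2 := by rw [hm]; rfl
    have v0 : v 0 = -uy := by rw [hv]; rfl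
    have v1 : v 1 = ux := by rw [hv]; rfl
    refine ⟨m, v, ?_⟩
    have key : ∀ (r : ℝ) (x : Pl), x 0 = r * v 0 + m 0 → x 1 = r * v 1 + m 1 → x = r • v +ᵥ m := by
      intro r x h0 h1
      apply pl_ext
      · show x 0 = r * v 0 + m 0
        exact h0
      · show x 1 = r * v 1 + m 1
        exact h1
    intro x hx
    simp only [Set.mem_insert_iff, Set.mem_singleton_iff] at hx
    rcases hx with rfl | rfl | rfl | rfl
    · refine ⟨h / 2, key _ _ ?_ ?_⟩
      · rw [a0, v0, m0]; ring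
      · rw [a1, v1, m1]; ring
    · refine ⟨-h / 2, key _ _ ?_ ?_⟩
      · rw [b0, v0, m0]; ring
      · rw [b1, v1, m1]; ring
    · refine ⟨h' / 2, key _ _ ?_ ?_⟩
      · rw [a0', v0, m0]; ring
      · rw [a1', v1, m1]; ring
    · refine ⟨-h' / 2, key _ _ ?_ ?_⟩
      · rw [b0', v0, m0]; ring
      · rw [b1', v1, m1]; ring

lemma self_mem_cls (S : Finset Pl) (t : Pl × Pl) (ht : t ∈ S.offDiag) : t ∈ cls S t := by
  rw [mem_cls]
  refine ⟨ht, rfl, ?_⟩
  have : ({t.1, t.2, t.1, t.2} : Set Pl) = {t.1, t.2} := by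
    ext x
    simp only [Set.mem_insert_iff, Set.mem_singleton_iff]
    tauto
  rw [this]
  exact collinear_pair ℝ _ _

lemma swap_mem_cls (S : Finset Pl) (t : Pl × Pl) (ht : t ∈ S.offDiag) : t.swap ∈ cls S t := by
  simp only [cls, Finset.mem_filter]
  rw [Finset.mem_offDiag] at ht ⊢
  refine ⟨⟨ht.2.1, ht.1, fun e => ht.2.2 e.symm⟩, ?_, ?_⟩
  · simp only [Prod.fst_swap, Prod.snd_swap]
    exact add_comm _ _
  · have : ({t.1, t.2, t.swap.1, t.swap.2} : Set Pl) = {t.1, t.2} := by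
      ext x
      simp only [Prod.fst_swap, Prod.snd_swap, Set.mem_insert_iff, Set.mem_singleton_iff]
      tauto
    rw [this]
    exact collinear_pair ℝ _ _

lemma two_le_cls (S : Finset Pl) (t : Pl × Pl) (ht : t ∈ S.offDiag) : 2 ≤ (cls S t).card := by
  have hne : t ≠ t.swap := by
    intro e
    rw [Finset.mem_offDiag] at ht
    exact ht.2.2 (congrArg Prod.fst e)
  have hsub : ({t, t.swap} : Finset (Pl × Pl)) ⊆ cls S t := by
    intro x hx
    simp only [Finset.mem_insert, Finset.mem_singleton] at hx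
    rcases hx with rfl | rfl
    · exact self_mem_cls S _ ht
    · exact swap_mem_cls S _ ht
  have := Finset.card_le_card hsub
  rwa [Finset.card_pair hne] at this

/-- the kites of `S` -/
noncomputable def KK (S : Finset Pl) : Finset (Pl × Pl × Pl × Pl) :=
  (S ×ˢ S ×ˢ S ×ˢ S).filter (fun k => k.1 ≠ k.2.1 ∧ k.2.2.1 ≠ k.2.2.2 ∧
    dist k.2.2.1 k.1 = dist k.2.2.1 k.2.1 ∧ dist k.2.2.2 k.1 = dist k.2.2.2 k.2.1 ∧
    (Ap S k.1 k.2.1).card = 2 ∧ (cls S (k.1, k.2.1)).card ≤ 2)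

lemma mem_KK (S : Finset Pl) (a b p q : Pl) : (a, b, p, q) ∈ KK S ↔
    (a ∈ S ∧ b ∈ S ∧ p ∈ S ∧ q ∈ S) ∧ a ≠ b ∧ p ≠ q ∧ dist p a = dist p b ∧ dist q a = dist q b ∧
    (Ap S a b).card = 2 ∧ (cls S (a, b)).card ≤ 2 := by
  simp only [KK, Finset.mem_filter, Finset.mem_product]

lemma Ap_swap (S : Finset Pl) (a b : Pl) : Ap S b a = Ap S a b := by
  unfold Ap
  apply Finset.filter_congr
  intro x _
  exact eq_comm

lemma cls_swap (S : Finset Pl) (a b : Pl) : cls S (b, a) = cls S (a, b) := by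
  ext x
  rw [mem_cls, mem_cls]
  simp only
  rw [add_comm b a, Set.insert_comm b a]

lemma two_of_card (S : Finset Pl) (a b p q : Pl) (hp : p ∈ S) (hq : q ∈ S) (hpq : p ≠ q)
    (h1 : dist p a = dist p b) (h2 : dist q a = dist q b) (h : (Ap S a b).card = 2) :
    Ap S a b = {p, q} := by
  symm
  apply Finset.eq_of_subset_of_card_le
  · intro x hx
    simp only [Finset.mem_insert, Finset.mem_singleton] at hx
    simp only [Ap, Finset.mem_filter]
    rcases hx with rfl | rfl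
    · exact ⟨hp, h1⟩
    · exact ⟨hq, h2⟩
  · rw [h, Finset.card_pair hpq]

lemma KK_KS (S : Finset Pl)
    (hC : ∀ z : Pl, ∀ r : ℝ, (S.filter (fun p => dist p z = r)).card ≤ 3) :
    KS S cX cY (KK S) where
  mem := by
    intro a b p q hk
    rw [mem_KK] at hk
    exact hk.1
  e1 := by
    intro a b p q hk
    rw [mem_KK] at hk
    rw [sq_eq_dist, sq_eq_dist, hk.2.2.2.1]
  e2 := by
    intro a b p q hk
    rw [mem_KK] at hk
    rw [sq_eq_dist, sq_eq_dist, hk.2.2.2.2.1]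
  n1 := by
    intro a b p q hk
    rw [mem_KK] at hk
    rw [sq_eq_dist]
    have : 0 < dist a b := dist_pos.mpr hk.2.1
    positivity
  n2 := by
    intro a b p q hk
    rw [mem_KK] at hk
    rw [sq_eq_dist]
    have : 0 < dist q p := dist_pos.mpr hk.2.2.1.symm
    positivity
  sab := by
    intro a b p q hk
    rw [mem_KK] at hk ⊢
    obtain ⟨⟨ha, hb, hp, hq⟩, hab, hpq, h1, h2, hA, hc⟩ := hk
    exact ⟨⟨hb, ha, hp, hq⟩, hab.symm, hpq, h1.symm, h2.symm, by rw [Ap_swap]; exact hA,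
      by rw [cls_swap]; exact hc⟩
  spq := by
    intro a b p q hk
    rw [mem_KK] at hk ⊢
    obtain ⟨⟨ha, hb, hp, hq⟩, hab, hpq, h1, h2, hA, hc⟩ := hk
    exact ⟨⟨ha, hb, hq, hp⟩, hab, hpq.symm, h2, h1, hA, hc⟩
  fab := by
    intro a b
    rcases Finset.eq_empty_or_nonempty ((KK S).filter (fun k => k.1 = a ∧ k.2.1 = b)) with h | h
    · rw [h]; simp
    · obtain ⟨⟨a1, b1, p, q⟩, hk⟩ := h
      simp only [Finset.mem_filter] at hk
      obtain ⟨hk, rfl, rfl⟩ := hk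
      rw [mem_KK] at hk
      obtain ⟨⟨ha, hb, hp, hq⟩, hab, hpq, h1, h2, hA, hc⟩ := hk
      have hsub : ((KK S).filter (fun k => k.1 = a1 ∧ k.2.1 = b1)) ⊆
          ((Ap S a1 b1).offDiag).image (fun u => (a1, b1, u.1, u.2)) := by
        rintro ⟨a2, b2, p2, q2⟩ hk2
        simp only [Finset.mem_filter] at hk2
        obtain ⟨hk2, rfl, rfl⟩ := hk2
        rw [mem_KK] at hk2
        obtain ⟨⟨ha', hb', hp', hq'⟩, hab', hpq', h1', h2', hA', hc'⟩ := hk2
        rw [Finset.mem_image]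
        refine ⟨(p2, q2), ?_, rfl⟩
        rw [Finset.mem_offDiag]
        simp only [Ap, Finset.mem_filter]
        exact ⟨⟨hp', h1'⟩, ⟨hq', h2'⟩, hpq'⟩
      refine (Finset.card_le_card hsub).trans (Finset.card_image_le.trans ?_)
      rw [Finset.offDiag_card, hA]
  fpq := by
    intro p q
    rcases Finset.eq_empty_or_nonempty ((KK S).filter (fun k => k.2.2.1 = p ∧ k.2.2.2 = q)) with h | h
    · rw [h]; simp
    · obtain ⟨⟨a, b, p1, q1⟩, hk⟩ := h
      simp only [Finset.mem_filter] at hk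
      obtain ⟨hk, rfl, rfl⟩ := hk
      rw [mem_KK] at hk
      obtain ⟨⟨ha, hb, hp, hq⟩, hab, hpq, h1, h2, hA, hc⟩ := hk
      have hW : (a, b) ∈ Wp S p1 q1 := by
        simp only [Wp, Finset.mem_filter, Finset.mem_offDiag]
        exact ⟨⟨ha, hb, hab⟩, h1, h2⟩
      have hsub : ((KK S).filter (fun k => k.2.2.1 = p1 ∧ k.2.2.2 = q1)) ⊆
          (cls S (a, b)).image (fun t => (t.1, t.2, p1, q1)) := by
        rintro ⟨a2, b2, p2, q2⟩ hk2
        simp only [Finset.mem_filter] at hk2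
        obtain ⟨hk2, rfl, rfl⟩ := hk2
        rw [mem_KK] at hk2
        obtain ⟨⟨ha', hb', hp', hq'⟩, hab', hpq', h1', h2', hA', hc'⟩ := hk2
        rw [Finset.mem_image]
        refine ⟨(a2, b2), ?_, rfl⟩
        refine cls_of_Wp S hC _ _ hpq' (a, b) (a2, b2) hW ?_
        simp only [Wp, Finset.mem_filter, Finset.mem_offDiag]
        exact ⟨⟨ha', hb', hab'⟩, h1', h2'⟩
      exact (Finset.card_le_card hsub).trans (Finset.card_image_le.trans hc)
  fpa := by
    intro p a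
    have hsub : ((KK S).filter (fun k => k.2.2.1 = p ∧ k.1 = a)).image (fun k => k.2.1) ⊆
        (S.filter (fun x => dist x p = dist a p)).erase a := by
      intro b hb
      rw [Finset.mem_image] at hb
      obtain ⟨⟨a2, b2, p2, q2⟩, hk, hb'⟩ := hb
      simp only at hb'
      subst hb'
      simp only [Finset.mem_filter] at hk
      obtain ⟨hk, rfl, rfl⟩ := hk
      rw [mem_KK] at hk
      obtain ⟨⟨ha', hb', hp', hq'⟩, hab', hpq', h1', h2', hA', hc'⟩ := hk
      rw [Finset.mem_erase, Finset.mem_filter]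
      exact ⟨hab'.symm, hb', by rw [dist_comm b2, dist_comm a2]; exact h1'.symm⟩
    have hinj : Set.InjOn (fun k : Pl × Pl × Pl × Pl => k.2.1)
        ((KK S).filter (fun k => k.2.2.1 = p ∧ k.1 = a) : Finset (Pl × Pl × Pl × Pl)) := by
      rintro ⟨a1, b1, p1, q1⟩ hk1 ⟨a2, b2, p2, q2⟩ hk2 he
      simp only [Finset.coe_filter, Set.mem_ofPred_eq] at hk1 hk2 he
      obtain ⟨hk1, rfl, rfl⟩ := hk1
      obtain ⟨hk2, rfl, rfl⟩ := hk2
      subst he
      rw [mem_KK] at hk1 hk2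
      obtain ⟨⟨ha, hb, hp, hq⟩, hab, hpq, h1, h2, hA, hc⟩ := hk1
      obtain ⟨⟨ha', hb', hp', hq'⟩, hab', hpq', h1', h2', hA', hc'⟩ := hk2
      have e1 := two_of_card S a2 b1 p2 q1 hp hq hpq h1 h2 hA
      have : q2 ∈ Ap S a2 b1 := by
        simp only [Ap, Finset.mem_filter]
        exact ⟨hq', h2'⟩
      rw [e1] at this
      simp only [Finset.mem_insert, Finset.mem_singleton] at this
      rcases this with h | h
      · exact absurd h.symm hpq'
      · rw [h]
    by_cases haS : a ∈ S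
    · rw [← Finset.card_image_of_injOn hinj]
      refine (Finset.card_le_card hsub).trans ?_
      rw [Finset.card_erase_of_mem (by rw [Finset.mem_filter]; exact ⟨haS, rfl⟩)]
      have := hC p (dist a p)
      omega
    · have : ((KK S).filter (fun k => k.2.2.1 = p ∧ k.1 = a)) = ∅ := by
        rw [Finset.filter_eq_empty_iff]
        rintro ⟨a2, b2, p2, q2⟩ hk ⟨h1, h2⟩
        rw [mem_KK] at hk
        simp only at h2
        exact haS (h2 ▸ hk.1.1)
      rw [this]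
      simp

end Pool.Agent.Helper679.Kite
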