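import Mathlib
import Pool.Agent.Helper679.Comb2

set_option autoImplicit false
set_option linter.unusedSectionVars false

namespace Pool.Agent.Helper679.Kite

open Finset

/-- pairs of `S` equidistant from `x` -/
noncomputable def Ip (S : Finset Pl) (x : Pl) : Finset (Pl × Pl) :=
  S.offDiag.filter (fun t => dist x t.1 = dist x t.2)

/-- the number of distinct distances from `x` -/
noncomputable def DD (S : Finset Pl) (x : Pl) : ℕ :=
  ((S.erase x).image (fun y => dist x y)).card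

lemma Ip_lower (S : Finset Pl) (x : Pl) (hx : x ∈ S) :
    4 * ((S.card : ℝ) - 1) - 6 * (DD S x : ℝ) ≤ ((Ip S x).card : ℝ) := by
  obtain ⟨s, hs⟩ : ∃ s, s = S.erase x := ⟨_, rfl⟩
  have hsc : (s.card : ℝ) = (S.card : ℝ) - 1 := by
    have : s.card + 1 = S.card := by rw [hs]; exact Finset.card_erase_add_one hx
    rw [← this]; push_cast; ring
  obtain ⟨P, hP⟩ : ∃ P, P = s.offDiag.filter (fun t => dist x t.1 = dist x t.2) := ⟨_, rfl⟩
  have hPsub : P ⊆ Ip S x := by
    intro t ht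
    rw [hP, Finset.mem_filter, Finset.mem_offDiag, hs] at ht
    unfold Ip
    rw [Finset.mem_filter, Finset.mem_offDiag]
    exact ⟨⟨Finset.mem_of_mem_erase ht.1.1, Finset.mem_of_mem_erase ht.1.2.1, ht.1.2.2⟩, ht.2⟩
  have hPc : (P.card : ℝ) ≤ ((Ip S x).card : ℝ) := by exact_mod_cast Finset.card_le_card hPsub
  have e1 : P.card = ∑ d ∈ s.image (fun y => dist x y), (P.filter (fun t => dist x t.1 = d)).card := by
    apply Finset.card_eq_sum_card_fiberwise
    intro t ht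
    rw [hP] at ht
    simp only [Finset.coe_filter, Finset.mem_offDiag, Set.mem_ofPred_eq] at ht
    simp only [Finset.coe_image, Set.mem_image, Finset.mem_coe]
    exact ⟨t.1, ht.1.1, rfl⟩
  have e2 : s.card = ∑ d ∈ s.image (fun y => dist x y), (s.filter (fun y => dist x y = d)).card :=
    Finset.card_eq_sum_card_image _ _
  have e3 : ∀ d ∈ s.image (fun y => dist x y),
      4 * ((s.filter (fun y => dist x y = d)).card : ℝ) - 6
        ≤ ((P.filter (fun t => dist x t.1 = d)).card : ℝ) := by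
    intro d _
    have : P.filter (fun t => dist x t.1 = d) = (s.filter (fun y => dist x y = d)).offDiag := by
      ext t
      rw [hP]
      simp only [Finset.mem_filter, Finset.mem_offDiag]
      constructor
      · rintro ⟨⟨⟨h1, h2, h3⟩, h4⟩, h5⟩
        exact ⟨⟨h1, h5⟩, ⟨h2, h4 ▸ h5⟩, h3⟩
      · rintro ⟨⟨h1, h5⟩, ⟨h2, h6⟩, h3⟩
        exact ⟨⟨⟨h1, h2, h3⟩, h5.trans h6.symm⟩, h5⟩
    rw [this]
    obtain ⟨m, hm⟩ : ∃ m, m = (s.filter (fun y => dist x y = d)).card := ⟨_, rfl⟩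
    have h1 : (s.filter (fun y => dist x y = d)).offDiag.card + m = m * m := by
      rw [Finset.offDiag_card, ← hm]
      have : m ≤ m * m := Nat.le_mul_self m
      omega
    have h2 : ((s.filter (fun y => dist x y = d)).offDiag.card : ℝ) = (m : ℝ) * m - m := by
      have : (((s.filter (fun y => dist x y = d)).offDiag.card + m : ℕ) : ℝ) = ((m * m : ℕ) : ℝ) := by
        rw [h1]
      push_cast at this
      linarith
    rw [h2, ← hm]
    have h3 : (0 : ℤ) ≤ ((m : ℤ) - 2) * ((m : ℤ) - 3) := by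
      rcases le_or_gt (m : ℤ) 2 with h | h
      · nlinarith
      · have : (3 : ℤ) ≤ m := by omega
        nlinarith
    have h4 : (0 : ℝ) ≤ ((m : ℝ) - 2) * ((m : ℝ) - 3) := by exact_mod_cast h3
    nlinarith
  have e4 : 4 * (s.card : ℝ) - 6 * (DD S x : ℝ) ≤ (P.card : ℝ) := by
    have h1 : (P.card : ℝ) = ∑ d ∈ s.image (fun y => dist x y),
        ((P.filter (fun t => dist x t.1 = d)).card : ℝ) := by
      exact_mod_cast e1
    have h2 : (s.card : ℝ) = ∑ d ∈ s.image (fun y => dist x y),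
        ((s.filter (fun y => dist x y = d)).card : ℝ) := by
      exact_mod_cast e2
    have h3 : (DD S x : ℝ) = ∑ d ∈ s.image (fun y => dist x y), (1 : ℝ) := by
      unfold DD
      rw [Finset.sum_const, nsmul_eq_mul, mul_one, hs]
    rw [h1, h2, h3, Finset.mul_sum, Finset.mul_sum, ← Finset.sum_sub_distrib]
    apply Finset.sum_le_sum
    intro d hd
    have := e3 d hd
    linarith
  rw [hsc] at e4
  linarith

lemma sum_Ap (S : Finset Pl) : ∑ t ∈ S.offDiag, ((Ap S t.1 t.2).card : ℝ) =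
    ∑ x ∈ S, ((Ip S x).card : ℝ) := by
  have h1 : ∀ t ∈ S.offDiag, ((Ap S t.1 t.2).card : ℝ) =
      ∑ x ∈ S, if dist x t.1 = dist x t.2 then (1 : ℝ) else 0 := by
    intro t _
    unfold Ap
    rw [Finset.sum_boole]
  have h2 : ∀ x ∈ S, ((Ip S x).card : ℝ) =
      ∑ t ∈ S.offDiag, if dist x t.1 = dist x t.2 then (1 : ℝ) else 0 := by
    intro x _
    unfold Ip
    rw [Finset.sum_boole]
  rw [Finset.sum_congr rfl h1, Finset.sum_congr rfl h2, Finset.sum_comm]

lemma sum_ratio (S : Finset Pl)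
    (hC : ∀ z : Pl, ∀ r : ℝ, (S.filter (fun p => dist p z = r)).card ≤ 3) :
    ∑ t ∈ S.offDiag, (((Ap S t.1 t.2).offDiag.card : ℝ) / ((cls S t).card : ℝ)) ≤
      (S.offDiag.card : ℝ) := by
  have h1 : ∀ t ∈ S.offDiag, (((Ap S t.1 t.2).offDiag.card : ℝ) / ((cls S t).card : ℝ)) =
      ∑ u ∈ S.offDiag, if (dist u.1 t.1 = dist u.1 t.2 ∧ dist u.2 t.1 = dist u.2 t.2)
        then (1 : ℝ) / ((cls S t).card : ℝ) else 0 := by
    intro t _
    have : (Ap S t.1 t.2).offDiag = S.offDiag.filter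
        (fun u => dist u.1 t.1 = dist u.1 t.2 ∧ dist u.2 t.1 = dist u.2 t.2) := by
      ext u
      unfold Ap
      simp only [Finset.mem_filter, Finset.mem_offDiag]
      tauto
    rw [this, ← Finset.sum_filter, Finset.sum_const, nsmul_eq_mul]
    ring
  rw [Finset.sum_congr rfl h1, Finset.sum_comm]
  have h2 : ∀ u ∈ S.offDiag, (∑ t ∈ S.offDiag,
      if (dist u.1 t.1 = dist u.1 t.2 ∧ dist u.2 t.1 = dist u.2 t.2)
        then (1 : ℝ) / ((cls S t).card : ℝ) else 0) ≤ 1 := by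
    intro u hu
    rw [Finset.mem_offDiag] at hu
    have e : ∑ t ∈ S.offDiag, (if (dist u.1 t.1 = dist u.1 t.2 ∧ dist u.2 t.1 = dist u.2 t.2)
        then (1 : ℝ) / ((cls S t).card : ℝ) else 0) =
        ∑ t ∈ Wp S u.1 u.2, (1 : ℝ) / ((cls S t).card : ℝ) := by
      unfold Wp
      rw [← Finset.sum_filter]
    rw [e]
    rcases Finset.eq_empty_or_nonempty (Wp S u.1 u.2) with h | h
    · rw [h]; simp
    · have hW : (0 : ℝ) < ((Wp S u.1 u.2).card : ℝ) := by
        exact_mod_cast Finset.card_pos.mpr h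
      have h3 : ∀ t ∈ Wp S u.1 u.2, (1 : ℝ) / ((cls S t).card : ℝ) ≤
          1 / ((Wp S u.1 u.2).card : ℝ) := by
        intro t ht
        apply one_div_le_one_div_of_le hW
        have hsub : Wp S u.1 u.2 ⊆ cls S t := fun t' ht' =>
          cls_of_Wp S hC u.1 u.2 hu.2.2 t t' ht ht'
        exact_mod_cast Finset.card_le_card hsub
      refine (Finset.sum_le_sum h3).trans ?_
      rw [Finset.sum_const, nsmul_eq_mul, mul_one_div, div_self hW.ne']
  refine (Finset.sum_le_sum h2).trans ?_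
  rw [Finset.sum_const, nsmul_eq_mul, mul_one]

lemma pointwise (k W : ℕ) (hW : 2 ≤ W) :
    6 * ((k : ℝ) - 1) - 4 * (((k : ℝ) * k - k) / W) - 5 * ((W : ℝ) - 2) ≤
      (if (k = 2 ∧ W ≤ 2) then (2 : ℝ) else 0) := by
  rcases Nat.eq_or_lt_of_le hW with h | h
  · subst h
    by_cases hk : k = 2
    · subst hk
      norm_num
    · rw [if_neg (fun h => hk h.1)]
      have h3 : (0 : ℤ) ≤ ((k : ℤ) - 1) * ((k : ℤ) - 3) := by
        rcases Nat.lt_or_ge k 2 with h | h
        · have : (k : ℤ) ≤ 1 := by omega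
          nlinarith
        · have : (3 : ℤ) ≤ k := by omega
          nlinarith
      have h4 : (0 : ℝ) ≤ ((k : ℝ) - 1) * ((k : ℝ) - 3) := by exact_mod_cast h3
      push_cast
      nlinarith
  · have hW3 : (3 : ℝ) ≤ W := by exact_mod_cast h
    have hpos : (0 : ℝ) < W := by linarith
    have hif : (0 : ℝ) ≤ (if (k = 2 ∧ W ≤ 2) then (2 : ℝ) else 0) := by
      split_ifs <;> norm_num
    refine le_trans ?_ hif
    have key : 6 * ((k : ℝ) - 1) * W - 4 * ((k : ℝ) * k - k) - 5 * ((W : ℝ) - 2) * W ≤ 0 := by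
      nlinarith [sq_nonneg (4 * (k : ℝ) - (2 + 3 * W)), mul_nonneg (sub_nonneg.mpr hW3) (sub_nonneg.mpr hW3)]
    have : 6 * ((k : ℝ) - 1) - 4 * (((k : ℝ) * k - k) / W) - 5 * ((W : ℝ) - 2) =
        (6 * ((k : ℝ) - 1) * W - 4 * ((k : ℝ) * k - k) - 5 * ((W : ℝ) - 2) * W) / W := by
      field_simp
    rw [this]
    exact div_nonpos_of_nonpos_of_nonneg key hpos.le

lemma card_KK (S : Finset Pl) :
    ∑ t ∈ S.offDiag, (if ((Ap S t.1 t.2).card = 2 ∧ (cls S t).card ≤ 2) then (2 : ℝ) else 0) ≤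
      ((KK S).card : ℝ) := by
  have e1 : (KK S).card = ∑ t ∈ S.offDiag, ((KK S).filter (fun k => (k.1, k.2.1) = t)).card := by
    apply Finset.card_eq_sum_card_fiberwise
    rintro ⟨a, b, p, q⟩ hk
    rw [Finset.mem_coe, mem_KK] at hk
    simp only [Finset.mem_coe, Finset.mem_offDiag]
    exact ⟨hk.1.1, hk.1.2.1, hk.2.1⟩
  have e2 : ((KK S).card : ℝ) =
      ∑ t ∈ S.offDiag, (((KK S).filter (fun k => (k.1, k.2.1) = t)).card : ℝ) := by
    exact_mod_cast e1
  rw [e2]
  apply Finset.sum_le_sum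
  intro t ht
  split_ifs with h
  · obtain ⟨a, b⟩ := t
    simp only at h
    rw [Finset.mem_offDiag] at ht
    have hsub : ((Ap S a b).offDiag).image (fun u => (a, b, u.1, u.2)) ⊆
        (KK S).filter (fun k => (k.1, k.2.1) = (a, b)) := by
      rintro ⟨a1, b1, p, q⟩ hk
      rw [Finset.mem_image] at hk
      obtain ⟨⟨p', q'⟩, hu, he⟩ := hk
      simp only [Prod.mk.injEq] at he
      obtain ⟨rfl, rfl, rfl, rfl⟩ := he
      rw [Finset.mem_offDiag] at hu
      simp only [Ap, Finset.mem_filter] at hu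
      rw [Finset.mem_filter, mem_KK]
      exact ⟨⟨⟨ht.1, ht.2.1, hu.1.1, hu.2.1.1⟩, ht.2.2, hu.2.2, hu.1.2, hu.2.1.2, h.1, h.2⟩, rfl⟩
    have hc := Finset.card_le_card hsub
    rw [Finset.card_image_of_injective] at hc
    · rw [Finset.offDiag_card, h.1] at hc
      exact_mod_cast hc
    · rintro ⟨p1, q1⟩ ⟨p2, q2⟩ he
      simp only [Prod.mk.injEq] at he
      rw [he.2.2.1, he.2.2.2]
  · positivity

/-- the number of degenerate quadruples -/
noncomputable def Nq (S : Finset Pl) : ℝ := ∑ t ∈ S.offDiag, (((cls S t).card : ℝ) - 2)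

lemma KK_lower (S : Finset Pl)
    (hC : ∀ z : Pl, ∀ r : ℝ, (S.filter (fun p => dist p z = r)).card ≤ 3) (A : ℝ)
    (hA : ∀ x ∈ S, (DD S x : ℝ) ≤ A) :
    24 * (S.card : ℝ) * ((S.card : ℝ) - 1) - 36 * (S.card : ℝ) * A
      - 10 * (S.card : ℝ) * ((S.card : ℝ) - 1) - 5 * Nq S ≤ ((KK S).card : ℝ) := by
  have h1 := card_KK S
  have h2 : ∑ t ∈ S.offDiag, (6 * (((Ap S t.1 t.2).card : ℝ) - 1)
      - 4 * (((Ap S t.1 t.2).offDiag.card : ℝ) / ((cls S t).card : ℝ))
      - 5 * (((cls S t).card : ℝ) - 2)) ≤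
      ∑ t ∈ S.offDiag, (if ((Ap S t.1 t.2).card = 2 ∧ (cls S t).card ≤ 2) then (2 : ℝ) else 0) := by
    apply Finset.sum_le_sum
    intro t ht
    have h := pointwise (Ap S t.1 t.2).card (cls S t).card (two_le_cls S t ht)
    have h' : ((Ap S t.1 t.2).offDiag.card : ℝ) =
        ((Ap S t.1 t.2).card : ℝ) * ((Ap S t.1 t.2).card : ℝ) - ((Ap S t.1 t.2).card : ℝ) := by
      rw [Finset.offDiag_card, Nat.cast_sub (Nat.le_mul_self _)]
      push_cast
      ring
    rw [h']
    exact h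
  rw [Finset.sum_sub_distrib, Finset.sum_sub_distrib, ← Finset.mul_sum, ← Finset.mul_sum,
    ← Finset.mul_sum, Finset.sum_sub_distrib, sum_Ap] at h2
  have h3 := sum_ratio S hC
  have h4 : ∑ x ∈ S, (4 * ((S.card : ℝ) - 1) - 6 * A) ≤ ∑ x ∈ S, ((Ip S x).card : ℝ) := by
    apply Finset.sum_le_sum
    intro x hx
    have := Ip_lower S x hx
    have := hA x hx
    linarith
  rw [Finset.sum_const, nsmul_eq_mul] at h4
  have h5 : (S.offDiag.card : ℝ) = (S.card : ℝ) * (S.card : ℝ) - (S.card : ℝ) := by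
    rw [Finset.offDiag_card, Nat.cast_sub (Nat.le_mul_self _)]
    push_cast
    ring
  have h6 : ∑ t ∈ S.offDiag, (1 : ℝ) = (S.card : ℝ) * (S.card : ℝ) - (S.card : ℝ) := by
    rw [Finset.sum_const, nsmul_eq_mul, mul_one, h5]
  rw [h6] at h2
  rw [h5] at h3
  unfold Nq
  nlinarith

end Pool.Agent.Helper679.Kite
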