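import Mathlib

set_option autoImplicit false

open Real Set

namespace Pool.Agent.Helper679.Curve

/-- unit vector of direction `t` -/
noncomputable def uv (t : ℝ) : EuclideanSpace ℝ (Fin 2) := !₂[Real.cos t, Real.sin t]

/-- support function in the direction `t` -/
noncomputable def supp (K : Set (EuclideanSpace ℝ (Fin 2))) (t : ℝ) : ℝ :=
  sSup ((fun k => inner ℝ k (uv t)) '' K)

/-- the pocket property of a closed polygon: in every supporting hyperplane the polygon
touches along one arc -/
def Pocket {E : Type*} [NormedAddCommGroup E] [InnerProductSpace ℝ E] {n : ℕ}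
    (q : Fin (n + 1) → E) : Prop :=
  ∀ (u : E) (t : ℝ), (∀ i, inner ℝ (q i) u ≤ t) → ∀ a b : Fin (n + 1), a < b →
    inner ℝ (q a) u = t → inner ℝ (q b) u = t →
    (∀ i, a < i → i < b → inner ℝ (q i) u = t) ∨ (∀ i, i < a ∨ b < i → inner ℝ (q i) u = t)

end Pool.Agent.Helper679.Curve
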