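import Pool.Agent.Helper679.CurveBasic

set_option autoImplicit false

open MeasureTheory intervalIntegral Real Set

namespace Pool.Agent.Helper679.Curve.J1129

theorem lm_gap (V : Set ℝ) (hVc : IsClosed V) 
    (hA : ∀ t, t ∉ V → ∃ a b, a ∈ V ∧ b ∈ V ∧ a < t ∧ t < b ∧ b - a < π) (s : ℝ) (hs : 0 < s)
    (t0 : ℝ) (ht : s < Metric.infDist t0 V) :
    ∃ α β, α ∈ V ∧ β ∈ V ∧ α < t0 ∧ t0 < β ∧ (∀ t, α < t → t < β → t ∉ V) ∧ β - α < π ∧
      2 * s < β - α := by
  have ht0 : t0 ∉ V := by
    intro h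
    rw [Metric.infDist_zero_of_mem h] at ht
    linarith
  obtain ⟨a, b, haV, hbV, hat, htb, hab⟩ := hA t0 ht0
  have hcl1 : IsClosed (V ∩ Iic t0) := hVc.inter isClosed_Iic
  have hcl2 : IsClosed (V ∩ Ici t0) := hVc.inter isClosed_Ici
  have hne1 : (V ∩ Iic t0).Nonempty := ⟨a, haV, hat.le⟩
  have hne2 : (V ∩ Ici t0).Nonempty := ⟨b, hbV, htb.le⟩
  have hbd1 : BddAbove (V ∩ Iic t0) := ⟨t0, fun x hx => hx.2⟩
  have hbd2 : BddBelow (V ∩ Ici t0) := ⟨t0, fun x hx => hx.2⟩
  have hα := hcl1.csSup_mem hne1 hbd1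
  have hβ := hcl2.csInf_mem hne2 hbd2
  set α := sSup (V ∩ Iic t0) with hαd
  set β := sInf (V ∩ Ici t0) with hβd
  have h1 : α < t0 := lt_of_le_of_ne hα.2 (fun h => ht0 (h ▸ hα.1))
  have h2 : t0 < β := lt_of_le_of_ne hβ.2 (fun h => ht0 (h ▸ hβ.1))
  have h3 : a ≤ α := le_csSup hbd1 ⟨haV, hat.le⟩
  have h4 : β ≤ b := csInf_le hbd2 ⟨hbV, htb.le⟩
  have h5 : s < t0 - α := by
    refine lt_of_lt_of_le ht ?_
    have := Metric.infDist_le_dist_of_mem (x := t0) hα.1
    rwa [Real.dist_eq, abs_of_pos (by linarith)] at this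
  have h6 : s < β - t0 := by
    refine lt_of_lt_of_le ht ?_
    have := Metric.infDist_le_dist_of_mem (x := t0) hβ.1
    rwa [Real.dist_eq, abs_sub_comm, abs_of_pos (by linarith)] at this
  refine ⟨α, β, hα.1, hβ.1, h1, h2, ?_, by linarith, by linarith⟩
  intro t hta htb' htV
  rcases le_or_gt t t0 with h | h
  · have := le_csSup hbd1 (⟨htV, h⟩ : t ∈ V ∩ Iic t0)
    linarith
  · have := csInf_le hbd2 (⟨htV, h.le⟩ : t ∈ V ∩ Ici t0)
    linarith

theorem lm_int (V : Set ℝ) (ρ : ℝ → ℝ) (hρ : Measurable ρ)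
    (h0 : ∀ t, 0 ≤ ρ t) (h1 : ∀ t, ρ t ≤ 1) (s : ℝ) (a b : ℝ) :
    IntervalIntegrable (fun t => if Metric.infDist t V ≤ s then ρ t else 0) volume a b := by
  have hm : Measurable (fun t => if Metric.infDist t V ≤ s then ρ t else 0) := by
    refine Measurable.ite ?_ hρ measurable_const
    exact measurableSet_le (Metric.continuous_infDist_pt V).measurable measurable_const
  refine IntervalIntegrable.mono_fun (f := fun _ => (1 : ℝ)) intervalIntegrable_const
    hm.aestronglyMeasurable ?_
  refine Filter.Eventually.of_forall fun t => ?_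
  show ‖(if Metric.infDist t V ≤ s then ρ t else 0)‖ ≤ ‖(1 : ℝ)‖
  split_ifs
  · rw [Real.norm_eq_abs, abs_of_nonneg (h0 t), norm_one]
    exact h1 t
  · simp

theorem lm_gap_int (V : Set ℝ) (ρ : ℝ → ℝ) (hρ : Measurable ρ)
    (h0 : ∀ t, 0 ≤ ρ t) (h1 : ∀ t, ρ t ≤ 1) (hA1 : ∀ t, t ∉ V → ρ t = 1) (s : ℝ) (hs : 0 < s)
    (α β : ℝ) (hα : α ∈ V) (hβ : β ∈ V) (hV : ∀ t, α < t → t < β → t ∉ V)
    (h2 : 2 * s < β - α) :
    2 * s ≤ ∫ t in α..β, (if Metric.infDist t V ≤ s then ρ t else 0) := by
  have hI := lm_int V ρ hρ h0 h1 s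
  set g : ℝ → ℝ := fun t => if Metric.infDist t V ≤ s then ρ t else 0 with hg
  have hg0 : ∀ t, 0 ≤ g t := by
    intro t
    rw [hg]
    dsimp only
    split_ifs
    · exact h0 t
    · exact le_rfl
  have e1 : ∫ t in α..β, g t = (∫ t in α..(α + s), g t) + (∫ t in (α + s)..(β - s), g t) +
      ∫ t in (β - s)..β, g t := by
    rw [intervalIntegral.integral_add_adjacent_intervals (hI _ _) (hI _ _),
      intervalIntegral.integral_add_adjacent_intervals (hI _ _) (hI _ _)]
  have e2 : s ≤ ∫ t in α..(α + s), g t := by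
    have : s = ∫ t in α..(α + s), (1 : ℝ) := by
      rw [intervalIntegral.integral_const]; simp
    refine le_trans this.le ?_
    refine intervalIntegral.integral_mono_on_of_le_Ioo (by linarith) intervalIntegrable_const
      (hI _ _) ?_
    intro t ht
    have hd : Metric.infDist t V ≤ s := by
      refine le_trans (Metric.infDist_le_dist_of_mem hα) ?_
      rw [Real.dist_eq, abs_of_pos (by linarith [ht.1])]
      linarith [ht.2]
    rw [hg]
    dsimp only
    rw [if_pos hd, hA1 t (hV t ht.1 (by linarith [ht.2]))]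
  have e3 : s ≤ ∫ t in (β - s)..β, g t := by
    have : s = ∫ t in (β - s)..β, (1 : ℝ) := by
      rw [intervalIntegral.integral_const]; simp
    refine le_trans this.le ?_
    refine intervalIntegral.integral_mono_on_of_le_Ioo (by linarith) intervalIntegrable_const
      (hI _ _) ?_
    intro t ht
    have hd : Metric.infDist t V ≤ s := by
      refine le_trans (Metric.infDist_le_dist_of_mem hβ) ?_
      rw [Real.dist_eq, abs_sub_comm, abs_of_pos (by linarith [ht.2])]
      linarith [ht.1]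
    rw [hg]
    dsimp only
    rw [if_pos hd, hA1 t (hV t (by linarith [ht.1]) ht.2)]
  have e4 : 0 ≤ ∫ t in (α + s)..(β - s), g t :=
    intervalIntegral.integral_nonneg (by linarith) fun t _ => hg0 t
  rw [e1]
  linarith

/-- mass near `V` -/
theorem level_mass (V : Set ℝ) (hVc : IsClosed V) (hVp : ∀ t, t ∈ V ↔ t + 2 * π ∈ V)
    (hA : ∀ t, t ∉ V → ∃ a b, a ∈ V ∧ b ∈ V ∧ a < t ∧ t < b ∧ b - a < π)
    (ρ : ℝ → ℝ) (hρ : Measurable ρ) (hρp : Function.Periodic ρ (2 * π))
    (h0 : ∀ t, 0 ≤ ρ t) (h1 : ∀ t, ρ t ≤ 1) (hA1 : ∀ t, t ∉ V → ρ t = 1)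
    (M : ℝ) (hM0 : 0 < M) (hM : ∫ t in (0:ℝ)..(2 * π), ρ t = π + M / 2) :
    M ≤ ∫ t in (0:ℝ)..(2 * π), (if Metric.infDist t V ≤ M / 4 then ρ t else 0) := by
  have hI := lm_int V ρ hρ h0 h1 (M / 4)
  have hs : 0 < M / 4 := by linarith
  have hρI : ∀ a b, IntervalIntegrable ρ volume a b := by
    intro a b
    refine IntervalIntegrable.mono_fun (f := fun _ => (1 : ℝ)) intervalIntegrable_const
      hρ.aestronglyMeasurable ?_
    refine Filter.Eventually.of_forall fun t => ?_
    show ‖ρ t‖ ≤ ‖(1 : ℝ)‖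
    rw [Real.norm_eq_abs, abs_of_nonneg (h0 t), norm_one]
    exact h1 t
  have hρle : ∀ a b, a ≤ b → ∫ t in a..b, ρ t ≤ b - a := by
    intro a b hab
    have : ∫ t in a..b, (1 : ℝ) = b - a := by
      rw [intervalIntegral.integral_const]; simp
    rw [← this]
    exact intervalIntegral.integral_mono_on hab (hρI a b) intervalIntegrable_const
      fun t _ => h1 t
  set g : ℝ → ℝ := fun t => if Metric.infDist t V ≤ M / 4 then ρ t else 0 with hg
  have hg0 : ∀ t, 0 ≤ g t := by
    intro t
    rw [hg]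
    dsimp only
    split_ifs
    · exact h0 t
    · exact le_rfl
  by_cases hN : ∀ t, Metric.infDist t V ≤ M / 4
  · have e1 : g = ρ := by
      funext t
      rw [hg]
      dsimp only
      rw [if_pos (hN t)]
    rw [e1, hM]
    have := hρle 0 (2 * π) (by positivity)
    rw [hM] at this
    linarith
  · push Not at hN
    obtain ⟨t0, ht0⟩ := hN
    obtain ⟨α, β, hαV, hβV, h3, h4, h5, h6, h7⟩ := lm_gap V hVc hA (M / 4) hs t0 ht0
    -- periodicity of g
    have hdp : ∀ t, Metric.infDist (t + 2 * π) V = Metric.infDist t V := by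
      intro t
      have him : (fun x : ℝ => x + 2 * π) '' V = V := by
        ext x
        constructor
        · rintro ⟨y, hy, rfl⟩
          exact (hVp y).mp hy
        · intro hx
          refine ⟨x - 2 * π, ?_, by ring⟩
          rw [hVp]
          simpa using hx
      have hiso : Isometry (fun x : ℝ => x + 2 * π) := isometry_add_right (2 * π)
      have := Metric.infDist_image hiso (x := t) (t := V)
      rw [him] at this
      exact this
    have hgp : Function.Periodic g (2 * π) := by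
      intro t
      show (if Metric.infDist (t + 2 * π) V ≤ M / 4 then ρ (t + 2 * π) else 0) =
        if Metric.infDist t V ≤ M / 4 then ρ t else 0
      rw [hdp, hρp]
    have hper : ∫ t in (0:ℝ)..(2 * π), g t = ∫ t in α..(α + 2 * π), g t := by
      have := hgp.intervalIntegral_add_eq 0 α
      rwa [zero_add] at this
    have hperρ : ∫ t in (0:ℝ)..(2 * π), ρ t = ∫ t in α..(α + 2 * π), ρ t := by
      have := hρp.intervalIntegral_add_eq 0 α
      rwa [zero_add] at this
    have hgap := lm_gap_int V ρ hρ h0 h1 hA1 (M / 4) hs α β hαV hβV h5 h7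
    have hsplit : ∫ t in α..(α + 2 * π), g t = (∫ t in α..β, g t) + ∫ t in β..(α + 2 * π), g t := by
      rw [intervalIntegral.integral_add_adjacent_intervals (hI _ _) (hI _ _)]
    have hpi := Real.pi_pos
    rw [hper, hsplit]
    by_cases hN2 : ∀ t, β ≤ t → t ≤ α + 2 * π → Metric.infDist t V ≤ M / 4
    · have e1 : ∫ t in β..(α + 2 * π), g t = ∫ t in β..(α + 2 * π), ρ t := by
        refine intervalIntegral.integral_congr ?_
        intro t ht
        rw [uIcc_of_le (by linarith)] at ht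
        show (if Metric.infDist t V ≤ M / 4 then ρ t else 0) = ρ t
        rw [if_pos (hN2 t ht.1 ht.2)]
      have e2 : (∫ t in α..β, ρ t) + ∫ t in β..(α + 2 * π), ρ t = π + M / 2 := by
        rw [intervalIntegral.integral_add_adjacent_intervals (hρI _ _) (hρI _ _), ← hperρ, hM]
      have e3 := hρle α β (by linarith)
      rw [e1]
      have hgap' : 2 * (M / 4) ≤ ∫ t in α..β, g t := hgap
      linarith
    · push Not at hN2
      obtain ⟨t1, ht1, ht1', ht1d⟩ := hN2
      obtain ⟨α1, β1, hα1V, hβ1V, k3, k4, k5, k6, k7⟩ := lm_gap V hVc hA (M / 4) hs t1 ht1d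
      have hα2 : α + 2 * π ∈ V := (hVp α).mp hαV
      have c1 : β ≤ α1 := by
        by_contra hc
        push Not at hc
        have hlt : β < t1 := by
          rcases lt_or_eq_of_le ht1 with h | h
          · exact h
          · exfalso
            rw [← h, Metric.infDist_zero_of_mem hβV] at ht1d
            linarith
        exact k5 β hc (lt_trans hlt k4) hβV
      have c2 : β1 ≤ α + 2 * π := by
        by_contra hc
        push Not at hc
        have hlt : t1 < α + 2 * π := by
          rcases lt_or_eq_of_le ht1' with h | h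
          · exact h
          · exfalso
            rw [h, Metric.infDist_zero_of_mem hα2] at ht1d
            linarith
        exact k5 (α + 2 * π) (lt_trans k3 hlt) hc hα2
      have hgap1 := lm_gap_int V ρ hρ h0 h1 hA1 (M / 4) hs α1 β1 hα1V hβ1V k5 k7
      have e1 : ∫ t in β..(α + 2 * π), g t = (∫ t in β..α1, g t) + (∫ t in α1..β1, g t) +
          ∫ t in β1..(α + 2 * π), g t := by
        rw [intervalIntegral.integral_add_adjacent_intervals (hI _ _) (hI _ _),
          intervalIntegral.integral_add_adjacent_intervals (hI _ _) (hI _ _)]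
      have e2 : 0 ≤ ∫ t in β..α1, g t := intervalIntegral.integral_nonneg c1 fun t _ => hg0 t
      have e3 : 0 ≤ ∫ t in β1..(α + 2 * π), g t :=
        intervalIntegral.integral_nonneg c2 fun t _ => hg0 t
      rw [e1]
      have hgap' : 2 * (M / 4) ≤ ∫ t in α..β, g t := hgap
      have hgap1' : 2 * (M / 4) ≤ ∫ t in α1..β1, g t := hgap1
      linarith

end Pool.Agent.Helper679.Curve.J1129
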