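import Pool.Agent.Helper679.CurveBasic

set_option autoImplicit false

open MeasureTheory intervalIntegral Real Set

namespace Pool.Agent.Helper679.Curve.J1130

theorem infDist_periodic_aux (V : Set ℝ) (hVp : ∀ t, t ∈ V ↔ t + 2 * π ∈ V) (t : ℝ) :
    Metric.infDist (t + 2 * π) V = Metric.infDist t V := by
  have himg : (fun x : ℝ => x + 2 * π) '' V = V := by
    ext x
    constructor
    · rintro ⟨y, hy, rfl⟩
      exact (hVp y).1 hy
    · intro hx
      refine ⟨x - 2 * π, ?_, by ring⟩
      rw [hVp]
      have : x - 2 * π + 2 * π = x := by ring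
      rw [this]
      exact hx
  have hiso : Isometry (fun x : ℝ => x + 2 * π) := isometry_add_right _
  conv_lhs => rw [← himg]
  exact Metric.infDist_image hiso

/-- nearest point is at `t - d` or `t + d` -/
theorem nearest_aux (V : Set ℝ) (hVc : IsClosed V) (hVn : V.Nonempty) (t : ℝ) :
    t - Metric.infDist t V ∈ V ∨ t + Metric.infDist t V ∈ V := by
  obtain ⟨v, hv, hd⟩ := hVc.exists_infDist_eq_dist hVn t
  rw [hd, Real.dist_eq]
  rcases le_total v t with h | h
  · left
    rw [abs_of_nonneg (by linarith)]
    have : t - (t - v) = v := by ring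
    rw [this]
    exact hv
  · right
    rw [abs_of_nonpos (by linarith)]
    have : t + -(t - v) = v := by ring
    rw [this]
    exact hv

theorem infDist_lip_aux (V : Set ℝ) (s t : ℝ) :
    Metric.infDist s V ≤ Metric.infDist t V + |s - t| := by
  have := Metric.infDist_le_infDist_add_dist (s := V) (x := s) (y := t)
  rwa [Real.dist_eq] at this

theorem infDist_le_aux (V : Set ℝ) {s v : ℝ} (hv : v ∈ V) : Metric.infDist s V ≤ |s - v| := by
  have := Metric.infDist_le_dist_of_mem (x := s) hv
  rwa [Real.dist_eq] at this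

theorem intInd_aux {S : Set ℝ} (hS : MeasurableSet S) (a b : ℝ) :
    IntervalIntegrable (S.indicator (fun _ => (1 : ℝ))) volume a b := by
  refine IntervalIntegrable.mono_fun (g := S.indicator (fun _ => (1 : ℝ)))
    (f := fun _ => (1 : ℝ)) intervalIntegrable_const ?_ ?_
  · exact (measurable_const.indicator hS).aestronglyMeasurable
  · refine Filter.Eventually.of_forall fun x => ?_
    by_cases hx : x ∈ S <;> simp [hx]

/-- the bins are nonincreasing: translate every point towards its nearest point of `V` -/
theorem bins_mono (V : Set ℝ) (hVc : IsClosed V) (hVn : V.Nonempty)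
    (hVp : ∀ t, t ∈ V ↔ t + 2 * π ∈ V) (a ε : ℝ) (ha : 0 ≤ a) (hε : 0 < ε) :
    ∫ t in (0:ℝ)..(2 * π), (if a + ε < Metric.infDist t V ∧ Metric.infDist t V ≤ a + ε + ε
        then (1:ℝ) else 0) ≤
      ∫ t in (0:ℝ)..(2 * π), (if a < Metric.infDist t V ∧ Metric.infDist t V ≤ a + ε
        then (1:ℝ) else 0) := by
  classical
  have hdc : Continuous (fun t : ℝ => Metric.infDist t V) := Metric.continuous_infDist_pt V
  set O : Set ℝ := {t | a + ε < Metric.infDist t V ∧ Metric.infDist t V ≤ a + ε + ε} with hO
  set I : Set ℝ := {t | a < Metric.infDist t V ∧ Metric.infDist t V ≤ a + ε} with hI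
  set L : Set ℝ := {t | t - Metric.infDist t V ∈ V} with hL
  have hOm : MeasurableSet O :=
    (measurableSet_lt measurable_const hdc.measurable).inter
      (measurableSet_le hdc.measurable measurable_const)
  have hIm : MeasurableSet I :=
    (measurableSet_lt measurable_const hdc.measurable).inter
      (measurableSet_le hdc.measurable measurable_const)
  have hLm : MeasurableSet L := (hVc.preimage (continuous_id.sub hdc)).measurableSet
  have e1 : (fun t : ℝ => (if a + ε < Metric.infDist t V ∧ Metric.infDist t V ≤ a + ε + ε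
        then (1:ℝ) else 0)) = O.indicator (fun _ => (1 : ℝ)) := by
    ext t
    simp only [Set.indicator_apply, hO, Set.mem_ofPred_eq]
  have e2 : (fun t : ℝ => (if a < Metric.infDist t V ∧ Metric.infDist t V ≤ a + ε
        then (1:ℝ) else 0)) = I.indicator (fun _ => (1 : ℝ)) := by
    ext t
    simp only [Set.indicator_apply, hI, Set.mem_ofPred_eq]
  rw [e1, e2]
  have hdp := infDist_periodic_aux V hVp
  have hIp : ∀ t, t + 2 * π ∈ I ↔ t ∈ I := by
    intro t
    simp only [hI, Set.mem_ofPred_eq, hdp]
  have hLp : ∀ t, t + 2 * π ∈ L ↔ t ∈ L := by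
    intro t
    simp only [hL, Set.mem_ofPred_eq, hdp]
    have : t + 2 * π - Metric.infDist t V = (t - Metric.infDist t V) + 2 * π := by ring
    rw [this, ← hVp]
  have hpt : ∀ t, O.indicator (fun _ => (1 : ℝ)) t ≤
      (I ∩ L).indicator (fun _ => (1 : ℝ)) (t - ε) + (I ∩ Lᶜ).indicator (fun _ => (1 : ℝ)) (t + ε) := by
    intro t
    have hn1 : 0 ≤ (I ∩ L).indicator (fun _ => (1 : ℝ)) (t - ε) :=
      Set.indicator_nonneg (fun _ _ => zero_le_one) _
    have hn2 : 0 ≤ (I ∩ Lᶜ).indicator (fun _ => (1 : ℝ)) (t + ε) :=
      Set.indicator_nonneg (fun _ _ => zero_le_one) _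
    by_cases hOt : t ∈ O
    · rw [Set.indicator_of_mem hOt]
      have hO1 : a + ε < Metric.infDist t V := hOt.1
      have hO2 : Metric.infDist t V ≤ a + ε + ε := hOt.2
      by_cases hLt : t ∈ L
      · have hLt' : t - Metric.infDist t V ∈ V := hLt
        have h1 : Metric.infDist (t - ε) V ≤ Metric.infDist t V - ε := by
          have := infDist_le_aux V (s := t - ε) hLt'
          rw [abs_of_nonneg (by linarith)] at this
          linarith
        have h2 : Metric.infDist t V ≤ Metric.infDist (t - ε) V + ε := by
          have := infDist_lip_aux V t (t - ε)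
          rw [abs_of_nonneg (by linarith)] at this
          linarith
        have h3 : Metric.infDist (t - ε) V = Metric.infDist t V - ε := le_antisymm h1 (by linarith)
        have hmem : t - ε ∈ I ∩ L := by
          refine ⟨⟨by rw [h3]; linarith, by rw [h3]; linarith⟩, ?_⟩
          show t - ε - Metric.infDist (t - ε) V ∈ V
          rw [h3]
          have : t - ε - (Metric.infDist t V - ε) = t - Metric.infDist t V := by ring
          rw [this]
          exact hLt'
        rw [Set.indicator_of_mem hmem]
        linarith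
      · have hR : t + Metric.infDist t V ∈ V := (nearest_aux V hVc hVn t).resolve_left hLt
        have h1 : Metric.infDist (t + ε) V ≤ Metric.infDist t V - ε := by
          have := infDist_le_aux V (s := t + ε) hR
          rw [abs_of_nonpos (by linarith)] at this
          linarith
        have h2 : Metric.infDist t V ≤ Metric.infDist (t + ε) V + ε := by
          have := infDist_lip_aux V t (t + ε)
          rw [abs_of_nonpos (by linarith)] at this
          linarith
        have h3 : Metric.infDist (t + ε) V = Metric.infDist t V - ε := le_antisymm h1 (by linarith)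
        have hmem : t + ε ∈ I ∩ Lᶜ := by
          refine ⟨⟨by rw [h3]; linarith, by rw [h3]; linarith⟩, ?_⟩
          intro hc
          have hc' : t + ε - Metric.infDist (t + ε) V ∈ V := hc
          rw [h3] at hc'
          have h4 := infDist_le_aux V (s := t) hc'
          have h5 : |t - (t + ε - (Metric.infDist t V - ε))| < Metric.infDist t V := by
            rw [abs_lt]
            constructor <;> linarith
          linarith
        rw [Set.indicator_of_mem hmem]
        linarith
    · rw [Set.indicator_of_notMem hOt]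
      linarith
  have hpi : (0 : ℝ) ≤ 2 * π := by positivity
  have i1 : IntervalIntegrable (fun t => (I ∩ L).indicator (fun _ => (1 : ℝ)) (t - ε)) volume
      0 (2 * π) := by
    have := (intInd_aux (hIm.inter hLm) (0 - ε) (2 * π - ε)).comp_sub_right ε
    simpa using this
  have i2 : IntervalIntegrable (fun t => (I ∩ Lᶜ).indicator (fun _ => (1 : ℝ)) (t + ε)) volume
      0 (2 * π) := by
    have := (intInd_aux (hIm.inter hLm.compl) (0 + ε) (2 * π + ε)).comp_add_right ε
    simpa using this
  calc ∫ t in (0:ℝ)..(2 * π), O.indicator (fun _ => (1 : ℝ)) t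
      ≤ ∫ t in (0:ℝ)..(2 * π), ((I ∩ L).indicator (fun _ => (1 : ℝ)) (t - ε)
          + (I ∩ Lᶜ).indicator (fun _ => (1 : ℝ)) (t + ε)) := by
        refine intervalIntegral.integral_mono_on hpi (intInd_aux hOm _ _) (i1.add i2) ?_
        intro t _
        exact hpt t
    _ = (∫ t in (0:ℝ)..(2 * π), (I ∩ L).indicator (fun _ => (1 : ℝ)) (t - ε))
          + ∫ t in (0:ℝ)..(2 * π), (I ∩ Lᶜ).indicator (fun _ => (1 : ℝ)) (t + ε) :=
        intervalIntegral.integral_add i1 i2
    _ = (∫ t in (0:ℝ)..(2 * π), (I ∩ L).indicator (fun _ => (1 : ℝ)) t)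
          + ∫ t in (0:ℝ)..(2 * π), (I ∩ Lᶜ).indicator (fun _ => (1 : ℝ)) t := by
        have p1 : Function.Periodic ((I ∩ L).indicator (fun _ => (1 : ℝ))) (2 * π) := by
          intro t
          by_cases h : t ∈ I ∩ L
          · have h' : t + 2 * π ∈ I ∩ L := ⟨(hIp t).2 h.1, (hLp t).2 h.2⟩
            rw [Set.indicator_of_mem h, Set.indicator_of_mem h']
          · have h' : t + 2 * π ∉ I ∩ L := fun h' => h ⟨(hIp t).1 h'.1, (hLp t).1 h'.2⟩
            rw [Set.indicator_of_notMem h, Set.indicator_of_notMem h']
        have p2 : Function.Periodic ((I ∩ Lᶜ).indicator (fun _ => (1 : ℝ))) (2 * π) := by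
          intro t
          by_cases h : t ∈ I ∩ Lᶜ
          · have h' : t + 2 * π ∈ I ∩ Lᶜ := ⟨(hIp t).2 h.1, fun h' => h.2 ((hLp t).1 h')⟩
            rw [Set.indicator_of_mem h, Set.indicator_of_mem h']
          · have h' : t + 2 * π ∉ I ∩ Lᶜ :=
              fun h' => h ⟨(hIp t).1 h'.1, fun h'' => h'.2 ((hLp t).2 h'')⟩
            rw [Set.indicator_of_notMem h, Set.indicator_of_notMem h']
        congr 1
        · rw [intervalIntegral.integral_comp_sub_right
            (fun t => (I ∩ L).indicator (fun _ => (1 : ℝ)) t) ε]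
          have := p1.intervalIntegral_add_eq (0 - ε) 0
          rw [show 0 - ε + 2 * π = 2 * π - ε by ring, show (0 : ℝ) + 2 * π = 2 * π by ring] at this
          exact this
        · rw [intervalIntegral.integral_comp_add_right
            (fun t => (I ∩ Lᶜ).indicator (fun _ => (1 : ℝ)) t) ε]
          have := p2.intervalIntegral_add_eq (0 + ε) 0
          rw [show 0 + ε + 2 * π = 2 * π + ε by ring, show (0 : ℝ) + 2 * π = 2 * π by ring] at this
          exact this
    _ = ∫ t in (0:ℝ)..(2 * π), I.indicator (fun _ => (1 : ℝ)) t := by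
        rw [← intervalIntegral.integral_add (intInd_aux (hIm.inter hLm) _ _)
          (intInd_aux (hIm.inter hLm.compl) _ _)]
        congr 1
        ext t
        by_cases h1 : t ∈ I <;> by_cases h2 : t ∈ L <;> simp [h1, h2]

/-- average cost -/
theorem cost_bound (V : Set ℝ) (hVc : IsClosed V) (hVn : V.Nonempty)
    (hVp : ∀ t, t ∈ V ↔ t + 2 * π ∈ V)
    (ρ : ℝ → ℝ) (hρ : Measurable ρ) (hρp : Function.Periodic ρ (2 * π))
    (h0 : ∀ t, 0 ≤ ρ t) (h1 : ∀ t, ρ t ≤ 1) (hA1 : ∀ t, t ∉ V → ρ t = 1)
    (s : ℝ) (hs : 0 < s) :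
    ∫ t in (0:ℝ)..(2 * π), (if Metric.infDist t V ≤ s
        then ρ t * (1 - Real.cos (Metric.infDist t V)) else 0) ≤
      77 / 400 * s ^ 2 *
        ∫ t in (0:ℝ)..(2 * π), (if Metric.infDist t V ≤ s then ρ t else 0) := by
  classical
  have hdc : Continuous (fun t : ℝ => Metric.infDist t V) := Metric.continuous_infDist_pt V
  have hpi : (0 : ℝ) ≤ 2 * π := by positivity
  set e : ℝ := s / 10 with he
  have he0 : 0 < e := by positivity
  set B : ℕ → Set ℝ := fun i => {t | (i : ℝ) * e < Metric.infDist t V ∧
    Metric.infDist t V ≤ (i : ℝ) * e + e} with hB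
  have hBm : ∀ i, MeasurableSet (B i) := fun i =>
    (measurableSet_lt measurable_const hdc.measurable).inter
      (measurableSet_le hdc.measurable measurable_const)
  set b : ℕ → ℝ := fun i => ∫ t in (0:ℝ)..(2 * π), (B i).indicator (fun _ => (1 : ℝ)) t with hb
  have hbmono : ∀ i, b (i + 1) ≤ b i := by
    intro i
    have := bins_mono V hVc hVn hVp ((i : ℝ) * e) e (by positivity) he0
    have e1 : (fun t : ℝ => (if (i : ℝ) * e + e < Metric.infDist t V ∧
        Metric.infDist t V ≤ (i : ℝ) * e + e + e then (1:ℝ) else 0)) =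
        (B (i + 1)).indicator (fun _ => (1 : ℝ)) := by
      ext t
      simp only [Set.indicator_apply, hB, Set.mem_ofPred_eq]
      have h2 : ((i + 1 : ℕ) : ℝ) * e = (i : ℝ) * e + e := by push_cast; ring
      rw [h2]
    have e2 : (fun t : ℝ => (if (i : ℝ) * e < Metric.infDist t V ∧
        Metric.infDist t V ≤ (i : ℝ) * e + e then (1:ℝ) else 0)) =
        (B i).indicator (fun _ => (1 : ℝ)) := by
      ext t
      simp only [Set.indicator_apply, hB, Set.mem_ofPred_eq]
    rw [e1, e2] at this
    exact this
  have hb0 : ∀ i, 0 ≤ b i := fun i =>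
    intervalIntegral.integral_nonneg hpi fun t _ =>
      Set.indicator_nonneg (fun _ _ => zero_le_one) _
  -- bins are disjoint
  have hdisj : ∀ t, ∀ i j : ℕ, t ∈ B i → t ∈ B j → i = j := by
    intro t i j hi hj
    have hi1 : (i : ℝ) * e < Metric.infDist t V := hi.1
    have hi2 : Metric.infDist t V ≤ (i : ℝ) * e + e := hi.2
    have hj1 : (j : ℝ) * e < Metric.infDist t V := hj.1
    have hj2 : Metric.infDist t V ≤ (j : ℝ) * e + e := hj.2
    have k1 : (i : ℝ) < j + 1 := by
      by_contra h
      push Not at h
      have := mul_le_mul_of_nonneg_right h he0.le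
      linarith
    have k2 : (j : ℝ) < i + 1 := by
      by_contra h
      push Not at h
      have := mul_le_mul_of_nonneg_right h he0.le
      linarith
    have k1' : i < j + 1 := by exact_mod_cast k1
    have k2' : j < i + 1 := by exact_mod_cast k2
    omega
  have hpt1 : ∀ t, (if Metric.infDist t V ≤ s
        then ρ t * (1 - Real.cos (Metric.infDist t V)) else 0) ≤
      ∑ i ∈ Finset.range 10, (((i : ℝ) + 1) * e) ^ 2 / 2 * (B i).indicator (fun _ => (1 : ℝ)) t := by
    intro t
    have hnn : ∀ i ∈ Finset.range 10,
        0 ≤ (((i : ℝ) + 1) * e) ^ 2 / 2 * (B i).indicator (fun _ => (1 : ℝ)) t := fun i _ =>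
      mul_nonneg (by positivity) (Set.indicator_nonneg (fun _ _ => zero_le_one) _)
    by_cases hts : Metric.infDist t V ≤ s
    · rw [if_pos hts]
      have hd0 : 0 ≤ Metric.infDist t V := Metric.infDist_nonneg
      rcases hd0.eq_or_lt with h | h
      · rw [← h]
        simp only [Real.cos_zero, sub_self, mul_zero]
        exact Finset.sum_nonneg hnn
      · -- find the bin
        obtain ⟨i, hi1, hi2⟩ : ∃ i : ℕ, (i : ℝ) < Metric.infDist t V / e ∧
            Metric.infDist t V / e ≤ i + 1 := by
          have hx : 0 < Metric.infDist t V / e := div_pos h he0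
          refine ⟨⌈Metric.infDist t V / e⌉₊ - 1, ?_, ?_⟩
          · have hc : 0 < ⌈Metric.infDist t V / e⌉₊ := Nat.ceil_pos.2 hx
            have := Nat.ceil_lt_add_one hx.le
            rw [Nat.cast_sub hc]
            push_cast
            linarith
          · have hc : 0 < ⌈Metric.infDist t V / e⌉₊ := Nat.ceil_pos.2 hx
            have := Nat.le_ceil (Metric.infDist t V / e)
            rw [Nat.cast_sub hc]
            push_cast
            linarith
        rw [lt_div_iff₀ he0] at hi1
        rw [div_le_iff₀ he0] at hi2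
        have hi10 : i < 10 := by
          by_contra hc
          push Not at hc
          have h10 : (10 : ℝ) ≤ i := by exact_mod_cast hc
          have := mul_le_mul_of_nonneg_right h10 he0.le
          have : 10 * e = s := by rw [he]; ring
          linarith
        have hmem : t ∈ B i := ⟨hi1, by linarith⟩
        have hcos := Real.one_sub_sq_div_two_le_cos (x := Metric.infDist t V)
        have hle : ρ t * (1 - Real.cos (Metric.infDist t V)) ≤ (((i : ℝ) + 1) * e) ^ 2 / 2 := by
          have h3 : 0 ≤ 1 - Real.cos (Metric.infDist t V) := by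
            linarith [Real.cos_le_one (Metric.infDist t V)]
          have h4 : 1 - Real.cos (Metric.infDist t V) ≤ (Metric.infDist t V) ^ 2 / 2 := by
            linarith
          have h5 : (Metric.infDist t V) ^ 2 ≤ (((i : ℝ) + 1) * e) ^ 2 :=
            pow_le_pow_left₀ hd0 hi2 2
          nlinarith [h1 t, h0 t]
        calc ρ t * (1 - Real.cos (Metric.infDist t V))
            ≤ (((i : ℝ) + 1) * e) ^ 2 / 2 * (B i).indicator (fun _ => (1 : ℝ)) t := by
              rw [Set.indicator_of_mem hmem, mul_one]
              exact hle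
          _ ≤ _ := Finset.single_le_sum (f := fun i : ℕ =>
              (((i : ℝ) + 1) * e) ^ 2 / 2 * (B i).indicator (fun _ => (1 : ℝ)) t) hnn
              (Finset.mem_range.2 hi10)
    · rw [if_neg hts]
      exact Finset.sum_nonneg hnn
  have hpt2 : ∀ t, ∑ i ∈ Finset.range 10, (B i).indicator (fun _ => (1 : ℝ)) t ≤
      (if Metric.infDist t V ≤ s then ρ t else 0) := by
    intro t
    by_cases hex : ∃ i ∈ Finset.range 10, t ∈ B i
    · obtain ⟨i, hi, hti⟩ := hex
      rw [Finset.sum_eq_single_of_mem i hi]
      · rw [Set.indicator_of_mem hti]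
        have hi' : (i : ℝ) ≤ 9 := by
          have := Finset.mem_range.1 hi
          exact_mod_cast Nat.le_of_lt_succ this
        have hle : Metric.infDist t V ≤ s := by
          have k1 : Metric.infDist t V ≤ (i : ℝ) * e + e := hti.2
          have k2 := mul_le_mul_of_nonneg_right hi' he0.le
          have k3 : 10 * e = s := by rw [he]; ring
          linarith
        rw [if_pos hle, hA1 t]
        intro htV
        have k1 : (i : ℝ) * e < Metric.infDist t V := hti.1
        rw [Metric.infDist_zero_of_mem htV] at k1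
        have k2 : 0 ≤ (i : ℝ) * e := by positivity
        linarith
      · intro j _ hji
        rw [Set.indicator_of_notMem]
        intro htj
        exact hji (hdisj t j i htj hti)
    · push Not at hex
      rw [Finset.sum_eq_zero fun i hi => Set.indicator_of_notMem (hex i hi) _]
      split_ifs
      · exact h0 t
      · exact le_rfl
  have hint : ∀ i, IntervalIntegrable ((B i).indicator (fun _ => (1 : ℝ))) volume 0 (2 * π) :=
    fun i => intInd_aux (hBm i) _ _
  have hSm : MeasurableSet {t : ℝ | Metric.infDist t V ≤ s} :=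
    measurableSet_le hdc.measurable measurable_const
  have hbdd : ∀ F : ℝ → ℝ, Measurable F → (∀ t, |F t| ≤ 2) →
      IntervalIntegrable F volume 0 (2 * π) := by
    intro F hF hF2
    refine IntervalIntegrable.mono_fun (f := fun _ => (2 : ℝ)) intervalIntegrable_const
      hF.aestronglyMeasurable ?_
    refine Filter.Eventually.of_forall fun x => ?_
    simpa using hF2 x
  have iL : IntervalIntegrable (fun t => (if Metric.infDist t V ≤ s
        then ρ t * (1 - Real.cos (Metric.infDist t V)) else 0)) volume 0 (2 * π) := by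
    apply hbdd
    · exact Measurable.ite hSm (hρ.mul (measurable_const.sub
        (Real.measurable_cos.comp hdc.measurable))) measurable_const
    · intro t
      split_ifs
      · have k1 := Real.cos_le_one (Metric.infDist t V)
        have k2 := Real.neg_one_le_cos (Metric.infDist t V)
        rw [abs_of_nonneg (mul_nonneg (h0 t) (by linarith))]
        nlinarith [h0 t, h1 t]
      · simp
  have iR : IntervalIntegrable (fun t => (if Metric.infDist t V ≤ s then ρ t else 0))
      volume 0 (2 * π) := by
    apply hbdd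
    · exact Measurable.ite hSm hρ measurable_const
    · intro t
      split_ifs
      · rw [abs_of_nonneg (h0 t)]
        linarith [h1 t]
      · simp
  have hL : ∫ t in (0:ℝ)..(2 * π), (if Metric.infDist t V ≤ s
        then ρ t * (1 - Real.cos (Metric.infDist t V)) else 0) ≤
      ∑ i ∈ Finset.range 10, (((i : ℝ) + 1) * e) ^ 2 / 2 * b i := by
    have hsum : ∫ t in (0:ℝ)..(2 * π), ∑ i ∈ Finset.range 10,
        (((i : ℝ) + 1) * e) ^ 2 / 2 * (B i).indicator (fun _ => (1 : ℝ)) t =
        ∑ i ∈ Finset.range 10, (((i : ℝ) + 1) * e) ^ 2 / 2 * b i := by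
      rw [intervalIntegral.integral_finsetSum fun i _ => (hint i).const_mul _]
      refine Finset.sum_congr rfl fun i _ => ?_
      rw [intervalIntegral.integral_const_mul]
    rw [← hsum]
    refine intervalIntegral.integral_mono_on hpi iL ?_ fun t _ => hpt1 t
    have hs := IntervalIntegrable.sum (Finset.range 10) (f := fun (i : ℕ) (t : ℝ) =>
      (((i : ℝ) + 1) * e) ^ 2 / 2 * (B i).indicator (fun _ => (1 : ℝ)) t)
      fun i _ => (hint i).const_mul _
    rw [Finset.sum_fn] at hs
    exact hs
  have hR : ∑ i ∈ Finset.range 10, b i ≤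
      ∫ t in (0:ℝ)..(2 * π), (if Metric.infDist t V ≤ s then ρ t else 0) := by
    have hsum : ∫ t in (0:ℝ)..(2 * π), ∑ i ∈ Finset.range 10,
        (B i).indicator (fun _ => (1 : ℝ)) t = ∑ i ∈ Finset.range 10, b i :=
      intervalIntegral.integral_finsetSum fun i _ => hint i
    rw [← hsum]
    refine intervalIntegral.integral_mono_on hpi ?_ iR fun t _ => hpt2 t
    have hs := IntervalIntegrable.sum (Finset.range 10) (f := fun (i : ℕ) (t : ℝ) =>
      (B i).indicator (fun _ => (1 : ℝ)) t) fun i _ => hint i
    rw [Finset.sum_fn] at hs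
    exact hs
  refine hL.trans ?_
  have hfin : ∑ i ∈ Finset.range 10, (((i : ℝ) + 1) * e) ^ 2 / 2 * b i ≤
      77 / 400 * s ^ 2 * ∑ i ∈ Finset.range 10, b i := by
    have hse : s = 10 * e := by rw [he]; ring
    rw [hse]
    simp only [Finset.sum_range_succ, Finset.sum_range_zero]
    have m0 := hbmono 0
    have m1 := hbmono 1
    have m2 := hbmono 2
    have m3 := hbmono 3
    have m4 := hbmono 4
    have m5 := hbmono 5
    have m6 := hbmono 6
    have m7 := hbmono 7
    have m8 := hbmono 8
    have hkey : 1 * b 0 + 4 * b 1 + 9 * b 2 + 16 * b 3 + 25 * b 4 + 36 * b 5 + 49 * b 6 +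
        64 * b 7 + 81 * b 8 + 100 * b 9 ≤
        77 / 2 * (b 0 + b 1 + b 2 + b 3 + b 4 + b 5 + b 6 + b 7 + b 8 + b 9) := by
      linarith
    have he2 : 0 ≤ e ^ 2 / 2 := by positivity
    have := mul_le_mul_of_nonneg_left hkey he2
    push_cast
    linarith
  refine hfin.trans ?_
  exact mul_le_mul_of_nonneg_left hR (by positivity)

end Pool.Agent.Helper679.Curve.J1130
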