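import Pool.Agent.Helper679.CurveJ1128
import Pool.Agent.Helper679.CurveJ1129
import Pool.Agent.Helper679.CurveJ1130

set_option autoImplicit false

open MeasureTheory intervalIntegral Real Set

namespace Pool.Agent.Helper679.Curve

open J1128 (kernel_nonpos bathtub)
open J1129 (level_mass)
open J1130 (cost_bound)

/-! integrability helpers -/

theorem ii_of_bdd {f : ℝ → ℝ} (hf : Measurable f) {C : ℝ} (hb : ∀ t, |f t| ≤ C) (a b : ℝ) :
    IntervalIntegrable f volume a b := by
  rw [intervalIntegrable_iff]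
  refine Measure.integrableOn_of_bounded (M := C) ?_ hf.aestronglyMeasurable ?_
  · simp
  · exact Filter.Eventually.of_forall (fun x => by simpa using hb x)

theorem swap_int (F : ℝ → ℝ → ℝ) (hF : Measurable (Function.uncurry F)) (C : ℝ)
    (hb : ∀ t s, |F t s| ≤ C) :
    ∫ t in (0:ℝ)..(2 * π), (∫ s in (0:ℝ)..(2 * π), F t s) =
      ∫ s in (0:ℝ)..(2 * π), (∫ t in (0:ℝ)..(2 * π), F t s) := by
  have hpi : (0:ℝ) ≤ 2 * π := by positivity
  simp only [intervalIntegral.integral_of_le hpi]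
  refine integral_integral_swap ?_
  refine Integrable.of_bound hF.aestronglyMeasurable C ?_
  exact Filter.Eventually.of_forall (fun x => by
    rw [Real.norm_eq_abs]; exact hb x.1 x.2)

theorem meas_inner {F : ℝ → ℝ → ℝ} (hF : Measurable (Function.uncurry F)) :
    Measurable (fun t => ∫ s in (0:ℝ)..(2 * π), F t s) := by
  have hpi : (0:ℝ) ≤ 2 * π := by positivity
  simp only [intervalIntegral.integral_of_le hpi]
  exact (hF.stronglyMeasurable.integral_prod_right (ν := volume.restrict (Ioc 0 (2 * π)))).measurable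

theorem int_abs_sin (s : ℝ) : ∫ t in (0:ℝ)..(2 * π), |Real.sin (t - s)| = 4 := by
  have hp : Function.Periodic (fun t => |Real.sin t|) (2 * π) := by
    intro t
    simp
  have h1 : ∫ t in (0:ℝ)..(2 * π), |Real.sin (t - s)| = ∫ t in (0:ℝ)..(2 * π), |Real.sin t| := by
    have := intervalIntegral.integral_comp_sub_right (a := 0) (b := 2 * π) (fun t => |Real.sin t|) s
    rw [this]
    have h2 := hp.intervalIntegral_add_eq (0 - s) 0
    rw [show 2 * π - s = (0 - s) + 2 * π by ring, h2]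
    simp
  rw [h1]
  have hsplit : ∫ t in (0:ℝ)..(2 * π), |Real.sin t| =
      (∫ t in (0:ℝ)..π, |Real.sin t|) + ∫ t in π..(2 * π), |Real.sin t| := by
    rw [intervalIntegral.integral_add_adjacent_intervals]
    · exact (Real.continuous_sin.abs).intervalIntegrable _ _
    · exact (Real.continuous_sin.abs).intervalIntegrable _ _
  have hA : ∫ t in (0:ℝ)..π, |Real.sin t| = 2 := by
    rw [← integral_sin_pi]
    apply intervalIntegral.integral_congr
    intro t ht
    rw [uIcc_of_le Real.pi_pos.le] at ht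
    exact abs_of_nonneg (Real.sin_nonneg_of_mem_Icc ht)
  have hB : ∫ t in π..(2 * π), |Real.sin t| = 2 := by
    have := intervalIntegral.integral_comp_add_right (a := 0) (b := π) (fun t => |Real.sin t|) π
    simp only [Real.sin_add_pi, abs_neg] at this
    rw [show (0:ℝ) + π = π by ring, show π + π = 2 * π by ring] at this
    rw [← this, hA]
  rw [hsplit, hA, hB]; norm_num
where
  integral_sin_pi : ∫ t in (0:ℝ)..π, Real.sin t = 2 := by
    rw [integral_sin]; norm_num


theorem shift_pi {f : ℝ → ℝ} (hp : Function.Periodic f (2 * π)) :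
    ∫ t in (0:ℝ)..(2 * π), f (t + π) = ∫ t in (0:ℝ)..(2 * π), f t := by
  rw [intervalIntegral.integral_comp_add_right, show 2 * π + π = (0 + π) + 2 * π by ring,
    hp.intervalIntegral_add_eq (0 + π) 0]
  simp

theorem sin_ge_cubic {x : ℝ} (hx : 0 ≤ x) : x - x ^ 3 / 6 ≤ Real.sin x := by
  have hm : MonotoneOn (fun x : ℝ => Real.sin x - (x - x ^ 3 / 6)) (Ici 0) := by
    apply monotoneOn_of_deriv_nonneg (convex_Ici 0)
    · fun_prop
    · fun_prop
    · intro y _
      have hd : HasDerivAt (fun x : ℝ => Real.sin x - (x - x ^ 3 / 6))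
          (Real.cos y - (1 - (3 * y ^ 2) / 6)) y := by
        have h3 : HasDerivAt (fun x : ℝ => x ^ 3 / 6) ((3 * y ^ 2) / 6) y := by
          simpa using (hasDerivAt_pow 3 y).div_const 6
        exact (Real.hasDerivAt_sin y).sub ((hasDerivAt_id y).sub h3)
      rw [hd.deriv]
      have := Real.one_sub_sq_div_two_le_cos (x := y)
      linarith
  have := hm (show (0:ℝ) ∈ Ici 0 by simp) (show x ∈ Ici 0 from hx) hx
  simp only [Real.sin_zero] at this
  linarith

theorem cos_le_quartic {x : ℝ} (hx : 0 ≤ x) : Real.cos x ≤ 1 - x ^ 2 / 2 + x ^ 4 / 24 := by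
  have hm : MonotoneOn (fun x : ℝ => (1 - x ^ 2 / 2 + x ^ 4 / 24) - Real.cos x) (Ici 0) := by
    apply monotoneOn_of_deriv_nonneg (convex_Ici 0)
    · fun_prop
    · fun_prop
    · intro y hy
      have hy0 : 0 ≤ y := by simpa using interior_subset hy
      have hd : HasDerivAt (fun x : ℝ => (1 - x ^ 2 / 2 + x ^ 4 / 24) - Real.cos x)
          ((0 - (2 * y) / 2 + (4 * y ^ 3) / 24) - (- Real.sin y)) y := by
        have h2 : HasDerivAt (fun x : ℝ => x ^ 2 / 2) ((2 * y) / 2) y := by
          simpa using (hasDerivAt_pow 2 y).div_const 2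
        have h4 : HasDerivAt (fun x : ℝ => x ^ 4 / 24) ((4 * y ^ 3) / 24) y := by
          simpa using (hasDerivAt_pow 4 y).div_const 24
        exact (((hasDerivAt_const y (1:ℝ)).sub h2).add h4).sub (Real.hasDerivAt_cos y)
      rw [hd.deriv]
      have := sin_ge_cubic hy0
      linarith
  have := hm (show (0:ℝ) ∈ Ici 0 by simp) (show x ∈ Ici 0 from hx) hx
  simp only [Real.cos_zero] at this
  linarith

theorem final_ineq {M : ℝ} (h0 : 0 < M) (h1 : M ≤ 2 * π) :
    77 / 400 * (M / 4) ^ 2 * M < M / 2 * (1 - Real.cos (M / 4)) := by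
  set y := M / 4 with hy
  have hy0 : 0 < y := by positivity
  have hy1 : y ≤ π / 2 := by rw [hy]; linarith
  have hpi : π < 3.15 := Real.pi_lt_d2
  have hcos : Real.cos y ≤ 1 - y ^ 2 / 2 + y ^ 4 / 24 := by
    exact cos_le_quartic hy0.le
  have hM : M = 4 * y := by rw [hy]; ring
  rw [hM]
  have hy2 : y ^ 2 < 2.6 := by nlinarith
  have : 77 / 400 * y ^ 2 < 1 / 2 * (y ^ 2 / 2 - y ^ 4 / 24) := by
    nlinarith [sq_pos_of_pos hy0]
  nlinarith


/-- the bilinear form of the kernel -/
noncomputable def KK (f : ℝ → ℝ) (t : ℝ) : ℝ := ∫ s in (0:ℝ)..(2 * π), f s * |Real.sin (t - s)|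

theorem KK_meas {f : ℝ → ℝ} (hf : Measurable f) : Measurable (KK f) := by
  apply meas_inner (F := fun t s => f s * |Real.sin (t - s)|)
  have h1 : Measurable (fun p : ℝ × ℝ => f p.2) := hf.comp measurable_snd
  have h2 : Measurable (fun p : ℝ × ℝ => |Real.sin (p.1 - p.2)|) := by fun_prop
  exact h1.mul h2

theorem mul_abs_sin_bdd {f : ℝ → ℝ} {C : ℝ} (hb : ∀ t, |f t| ≤ C) (t s : ℝ) :
    abs (f s * |Real.sin (t - s)|) ≤ C := by
  rw [abs_mul, abs_abs]
  have h1 := Real.abs_sin_le_one (t - s)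
  have h2 := hb s
  have h3 := abs_nonneg (f s)
  have h4 := abs_nonneg (Real.sin (t - s))
  nlinarith

theorem KK_int {f : ℝ → ℝ} (hf : Measurable f) {C : ℝ} (hb : ∀ t, |f t| ≤ C) (t a b : ℝ) :
    IntervalIntegrable (fun s => f s * |Real.sin (t - s)|) volume a b := by
  apply ii_of_bdd (C := C) (hf.mul (by fun_prop))
  exact fun s => mul_abs_sin_bdd hb t s

theorem KK_bdd {f : ℝ → ℝ} {C : ℝ} (hb : ∀ t, |f t| ≤ C) (t : ℝ) :
    |KK f t| ≤ C * (2 * π) := by
  have hpi : (0:ℝ) ≤ 2 * π := by positivity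
  have := intervalIntegral.norm_integral_le_of_norm_le_const (a := 0) (b := 2 * π) (C := C)
    (f := fun s => f s * |Real.sin (t - s)|) (fun s _ => by
      rw [Real.norm_eq_abs]; exact mul_abs_sin_bdd hb t s)
  rw [Real.norm_eq_abs, sub_zero, abs_of_nonneg hpi] at this
  exact this

theorem KK_sub {f h : ℝ → ℝ} (hf : Measurable f) (hh : Measurable h) {C : ℝ}
    (hb : ∀ t, |f t| ≤ C) (hb' : ∀ t, |h t| ≤ C) (t : ℝ) :
    KK (fun s => f s - h s) t = KK f t - KK h t := by
  unfold KK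
  rw [← intervalIntegral.integral_sub (KK_int hf hb t _ _) (KK_int hh hb' t _ _)]
  congr 1
  ext s
  ring

theorem KK_symm {f h : ℝ → ℝ} (hf : Measurable f) (hh : Measurable h) {C : ℝ}
    (hb : ∀ t, |f t| ≤ C) (hb' : ∀ t, |h t| ≤ C) :
    ∫ t in (0:ℝ)..(2 * π), f t * KK h t = ∫ t in (0:ℝ)..(2 * π), h t * KK f t := by
  unfold KK
  simp only [← intervalIntegral.integral_const_mul]
  have hC : 0 ≤ C := (abs_nonneg _).trans (hb 0)
  rw [swap_int (fun t s => f t * (h s * |Real.sin (t - s)|)) ?_ (C * C) ?_]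
  · congr 1
    ext s
    congr 1
    ext t
    rw [abs_sin_symm s t]
    ring
  · have h1 : Measurable (fun p : ℝ × ℝ => f p.1) := hf.comp measurable_fst
    have h2 : Measurable (fun p : ℝ × ℝ => h p.2) := hh.comp measurable_snd
    have h3 : Measurable (fun p : ℝ × ℝ => |Real.sin (p.1 - p.2)|) := by fun_prop
    exact h1.mul (h2.mul h3)
  · intro t s
    rw [abs_mul]
    exact mul_le_mul (hb t) (mul_abs_sin_bdd hb' t s) (abs_nonneg _) hC
where
  abs_sin_symm (s t : ℝ) : |Real.sin (s - t)| = |Real.sin (t - s)| := by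
    rw [← neg_sub, Real.sin_neg, abs_neg]

theorem int_KK {f : ℝ → ℝ} (hf : Measurable f) {C : ℝ} (hb : ∀ t, |f t| ≤ C) :
    ∫ t in (0:ℝ)..(2 * π), KK f t = 4 * ∫ t in (0:ℝ)..(2 * π), f t := by
  unfold KK
  rw [swap_int (fun t s => f s * |Real.sin (t - s)|) ?_ C (fun t s => mul_abs_sin_bdd hb t s)]
  · rw [← intervalIntegral.integral_const_mul]
    congr 1
    ext s
    rw [intervalIntegral.integral_const_mul, int_abs_sin]
    ring
  · have h2 : Measurable (fun p : ℝ × ℝ => f p.2) := hf.comp measurable_snd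
    have h3 : Measurable (fun p : ℝ × ℝ => |Real.sin (p.1 - p.2)|) := by fun_prop
    exact h2.mul h3

/-- negativity in the form used below -/
theorem KK_neg {f h : ℝ → ℝ} (hf : Measurable f) (hh : Measurable h)
    (hfp : Function.Periodic f (2 * π)) (hhp : Function.Periodic h (2 * π)) {C : ℝ}
    (hb : ∀ t, |f t| ≤ C) (hb' : ∀ t, |h t| ≤ C)
    (heq : ∫ t in (0:ℝ)..(2 * π), f t = ∫ t in (0:ℝ)..(2 * π), h t) :
    (∫ t in (0:ℝ)..(2 * π), f t * KK f t) + (∫ t in (0:ℝ)..(2 * π), h t * KK h t)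
      ≤ 2 * ∫ t in (0:ℝ)..(2 * π), h t * KK f t := by
  have hC : 0 ≤ C := (abs_nonneg _).trans (hb 0)
  have hfh : Measurable (fun s => f s - h s) := hf.sub hh
  have hbd : ∀ t, |f t - h t| ≤ 2 * C := fun t => by
    have := abs_sub (f t) (h t)
    linarith [hb t, hb' t]
  have h0 : ∫ t in (0:ℝ)..(2 * π), (f t - h t) = 0 := by
    rw [intervalIntegral.integral_sub (ii_of_bdd hf hb _ _) (ii_of_bdd hh hb' _ _), heq, sub_self]
  have key := kernel_nonpos (fun s => f s - h s) hfh (fun t => by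
    show f (t + 2 * π) - h (t + 2 * π) = f t - h t
    rw [hfp t, hhp t]) (2 * C) hbd h0
  have e1 : (fun t => ∫ s in (0:ℝ)..(2 * π), (f t - h t) * (f s - h s) * |Real.sin (t - s)|)
      = fun t => (f t * KK f t - f t * KK h t) - (h t * KK f t - h t * KK h t) := by
    ext t
    have : (fun s => (f t - h t) * (f s - h s) * |Real.sin (t - s)|) =
        fun s => (f t - h t) * ((f s - h s) * |Real.sin (t - s)|) := by
      ext s; ring
    rw [this, intervalIntegral.integral_const_mul]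
    have h2 : (∫ s in (0:ℝ)..(2 * π), (f s - h s) * |Real.sin (t - s)|) = KK f t - KK h t :=
      KK_sub hf hh hb hb' t
    rw [h2]
    ring
  rw [e1] at key
  have bm : ∀ {a b : ℝ → ℝ}, Measurable a → Measurable b → (∀ t, |a t| ≤ C) → (∀ t, |b t| ≤ C) →
      IntervalIntegrable (fun t => a t * KK b t) volume 0 (2 * π) := by
    intro a b ha hb1 hab hbb
    apply ii_of_bdd (C := C * (C * (2 * π))) (ha.mul (KK_meas hb1))
    intro t
    rw [Pi.mul_apply, abs_mul]
    exact mul_le_mul (hab t) (KK_bdd hbb t) (abs_nonneg _) hC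
  rw [intervalIntegral.integral_sub ((bm hf hf hb hb).sub (bm hf hh hb hb'))
    ((bm hh hf hb' hb).sub (bm hh hh hb' hb')),
    intervalIntegral.integral_sub (bm hf hf hb hb) (bm hf hh hb hb'),
    intervalIntegral.integral_sub (bm hh hf hb' hb) (bm hh hh hb' hb'),
    KK_symm hf hh hb hb'] at key
  linarith


/-- the analytic core -/
theorem core (V : Set ℝ) (hVc : IsClosed V) (hVp : ∀ t, t ∈ V ↔ t + 2 * π ∈ V)
    (hA : ∀ t, t ∉ V → ∃ a b, a ∈ V ∧ b ∈ V ∧ a < t ∧ t < b ∧ b - a < π)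
    (ρ : ℝ → ℝ) (hρ : Measurable ρ) (hρp : Function.Periodic ρ (2 * π))
    (h0 : ∀ t, 0 ≤ ρ t) (h1 : ∀ t, ρ t ≤ 1) (hA1 : ∀ t, t ∉ V → ρ t = 1)
    (g L : ℝ → ℝ) (hgc : Continuous g) (hLc : Continuous L)
    (hg : ∀ t, g t = 1 / 4 * ∫ s in (0:ℝ)..(2 * π), (ρ s + ρ (s + π) - 1) * |Real.sin (t - s)|)
    (hL0 : ∀ t, 0 ≤ L t) (hLg : ∀ t, L t ≤ g t)
    (hLV : ∀ t, ∀ v ∈ V, L t ≤ 1 - Real.cos (t - v)) :
    (∫ t in (0:ℝ)..(2 * π), L t ≤ 1 / 2 * ∫ t in (0:ℝ)..(2 * π), g t) ∧
      (∫ t in (0:ℝ)..(2 * π), L t = 1 / 2 * ∫ t in (0:ℝ)..(2 * π), g t →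
        ∫ t in (0:ℝ)..(2 * π), g t = 0) := by
  have hpi0 : (0:ℝ) < 2 * π := by positivity
  have hVn : V.Nonempty := by
    by_cases h : (0:ℝ) ∈ V
    · exact ⟨0, h⟩
    · obtain ⟨a, b, ha, _⟩ := hA 0 h
      exact ⟨a, ha⟩
  set κ : ℝ → ℝ := fun s => ρ s + ρ (s + π) - 1 with hκdef
  have hκm : Measurable κ := (hρ.add (hρ.comp (measurable_add_const π))).sub_const 1
  have hρb : ∀ t, |ρ t| ≤ 1 := fun t => by rw [abs_of_nonneg (h0 t)]; exact h1 t
  have hκb : ∀ t, |κ t| ≤ 1 := fun t => by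
    rw [abs_le]
    have a1 := h0 t
    have a2 := h1 t
    have a3 := h0 (t + π)
    have a4 := h1 (t + π)
    constructor <;> simp only [hκdef] <;> linarith
  have hκp : Function.Periodic κ (2 * π) := fun t => by
    simp only [hκdef]
    rw [hρp t, show t + 2 * π + π = (t + π) + 2 * π by ring, hρp (t + π)]
  have hgK : ∀ t, g t = 1 / 4 * KK κ t := hg
  have hg0 : ∀ t, 0 ≤ g t := fun t => (hL0 t).trans (hLg t)
  -- periodicity of g
  have hgpi : ∀ t, g (t + π) = g t := by
    intro t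
    rw [hgK, hgK]
    unfold KK
    congr 2
    ext s
    rw [show t + π - s = (t - s) + π by ring, Real.sin_add_pi, abs_neg]
  have hgp : Function.Periodic g (2 * π) := fun t => by
    rw [show t + 2 * π = (t + π) + π by ring, hgpi, hgpi]
  set M := ∫ t in (0:ℝ)..(2 * π), g t with hMdef
  have hM0 : 0 ≤ M := intervalIntegral.integral_nonneg hpi0.le (fun t _ => hg0 t)
  -- mean of κ
  have hκM : ∫ t in (0:ℝ)..(2 * π), κ t = M := by
    rw [hMdef]
    simp only [hgK]
    rw [intervalIntegral.integral_const_mul, int_KK hκm hκb]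
    ring
  have hρi : ∀ a b, IntervalIntegrable ρ volume a b := fun a b => ii_of_bdd hρ hρb a b
  have hρ' : Measurable (fun t => ρ (t + π)) := hρ.comp (measurable_add_const π)
  have hρi' : ∀ a b, IntervalIntegrable (fun t => ρ (t + π)) volume a b := fun a b =>
    ii_of_bdd hρ' (fun t => hρb (t + π)) a b
  have hρM : ∫ t in (0:ℝ)..(2 * π), ρ t = π + M / 2 := by
    have e : ∫ t in (0:ℝ)..(2 * π), κ t =
        (∫ t in (0:ℝ)..(2 * π), ρ t) + (∫ t in (0:ℝ)..(2 * π), ρ (t + π)) - 2 * π := by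
      simp only [hκdef]
      rw [intervalIntegral.integral_sub ((hρi _ _).add (hρi' _ _)) (by simp),
        intervalIntegral.integral_add (hρi _ _) (hρi' _ _)]
      simp
    rw [shift_pi hρp, hκM] at e
    linarith
  have hM2 : M ≤ 2 * π := by
    have : ∫ t in (0:ℝ)..(2 * π), ρ t ≤ ∫ t in (0:ℝ)..(2 * π), (1:ℝ) :=
      intervalIntegral.integral_mono_on hpi0.le (hρi _ _) (by simp) (fun t _ => h1 t)
    rw [hρM] at this
    simp at this
    linarith
  -- bounds on g
  obtain ⟨Cg, hCg⟩ : ∃ C, ∀ t, |g t| ≤ C := by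
    refine ⟨1 / 4 * (1 * (2 * π)), fun t => ?_⟩
    rw [hgK, abs_mul, abs_of_pos (by norm_num : (0:ℝ) < 1 / 4)]
    exact mul_le_mul_of_nonneg_left (KK_bdd hκb t) (by norm_num)
  have hCg0 : 0 ≤ Cg := (abs_nonneg _).trans (hCg 0)
  have hgm := hgc.measurable
  have hLm := hLc.measurable
  have hLb : ∀ t, |L t| ≤ Cg := fun t => by
    rw [abs_of_nonneg (hL0 t)]
    exact (hLg t).trans ((le_abs_self _).trans (hCg t))
  -- L = ρ L
  have hLρ : ∀ t, L t = ρ t * L t := by
    intro t
    by_cases ht : t ∈ V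
    · have : L t = 0 := le_antisymm (by simpa using hLV t t ht) (hL0 t)
      rw [this, mul_zero]
    · rw [hA1 t ht, one_mul]
  -- ∫ g κ
  have hgκ : ∫ t in (0:ℝ)..(2 * π), g t * κ t = 2 * (∫ t in (0:ℝ)..(2 * π), ρ t * g t) - M := by
    have e1 : (fun t => g t * κ t) = fun t => (ρ t * g t + ρ (t + π) * g (t + π)) - g t := by
      ext t
      simp only [hκdef, hgpi]
      ring
    have i1 : ∀ a b, IntervalIntegrable (fun t => ρ t * g t) volume a b := fun a b =>
      ii_of_bdd (C := Cg) (hρ.mul hgm) (fun t => by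
        rw [Pi.mul_apply, abs_mul]
        calc |ρ t| * |g t| ≤ 1 * Cg := mul_le_mul (hρb t) (hCg t) (abs_nonneg _) zero_le_one
          _ = Cg := one_mul _) a b
    have i2 : ∀ a b, IntervalIntegrable (fun t => ρ (t + π) * g (t + π)) volume a b := fun a b =>
      ii_of_bdd (C := Cg) (hρ'.mul (hgm.comp (measurable_add_const π))) (fun t => by
        rw [Pi.mul_apply, abs_mul]
        calc |ρ (t + π)| * |g (t + π)| ≤ 1 * Cg :=
              mul_le_mul (hρb _) (hCg _) (abs_nonneg _) zero_le_one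
          _ = Cg := one_mul _) a b
    rw [e1, intervalIntegral.integral_sub ((i1 _ _).add (i2 _ _)) (hgc.intervalIntegrable _ _),
      intervalIntegral.integral_add (i1 _ _) (i2 _ _)]
    have hper : Function.Periodic (fun t => ρ t * g t) (2 * π) := fun t => by
      show ρ (t + 2 * π) * g (t + 2 * π) = ρ t * g t
      rw [hρp t, hgp t]
    have h7 : ∫ t in (0:ℝ)..(2 * π), ρ (t + π) * g (t + π) =
        ∫ t in (0:ℝ)..(2 * π), ρ t * g t := shift_pi hper
    rw [h7]
    ring
  have hgκ2 : ∫ t in (0:ℝ)..(2 * π), g t * κ t =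
      1 / 4 * ∫ t in (0:ℝ)..(2 * π), κ t * KK κ t := by
    rw [← intervalIntegral.integral_const_mul]
    congr 1
    ext t
    rw [hgK]
    ring
  rcases hM0.eq_or_lt with hz | hpos
  · -- M = 0
    have hg00 : ∫ t in (0:ℝ)..(2 * π), L t ≤ ∫ t in (0:ℝ)..(2 * π), g t :=
      intervalIntegral.integral_mono_on hpi0.le (hLc.intervalIntegrable _ _)
        (hgc.intervalIntegrable _ _) (fun t _ => hLg t)
    refine ⟨?_, fun _ => hz.symm⟩
    rw [← hMdef, ← hz] at hg00
    rw [← hz]
    linarith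
  -- M > 0
  set s := M / 4 with hs
  have hs0 : 0 < s := by positivity
  set d : ℝ → ℝ := fun t => Metric.infDist t V with hd
  have hdc : Continuous d := Metric.continuous_infDist_pt V
  have hdp : Function.Periodic d (2 * π) := by
    intro t
    apply le_antisymm
    · apply le_of_forall_pos_le_add
      intro e he
      obtain ⟨v, hv, hve⟩ := (Metric.infDist_lt_iff hVn).1 (show Metric.infDist t V < d t + e by
        simp only [hd]; linarith)
      have : d (t + 2 * π) ≤ dist (t + 2 * π) (v + 2 * π) :=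
        Metric.infDist_le_dist_of_mem ((hVp v).1 hv)
      rw [dist_add_right] at this
      linarith
    · apply le_of_forall_pos_le_add
      intro e he
      obtain ⟨v, hv, hve⟩ := (Metric.infDist_lt_iff hVn).1
        (show Metric.infDist (t + 2 * π) V < d (t + 2 * π) + e by simp only [hd]; linarith)
      have hv' : v - 2 * π ∈ V := by
        rw [hVp]; simpa using hv
      have : d t ≤ dist t (v - 2 * π) := Metric.infDist_le_dist_of_mem hv'
      have h2 : dist t (v - 2 * π) = dist (t + 2 * π) v := by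
        rw [Real.dist_eq, Real.dist_eq]; congr 1; ring
      linarith
  set χ0 : ℝ → ℝ := fun t => if d t ≤ s then ρ t else 0 with hχ0
  have hset : MeasurableSet {t : ℝ | d t ≤ s} := (isClosed_le hdc continuous_const).measurableSet
  have hχ0m : Measurable χ0 := Measurable.ite hset hρ measurable_const
  have hχ00 : ∀ t, 0 ≤ χ0 t := fun t => by
    simp only [hχ0]; split_ifs
    · exact h0 t
    · exact le_rfl
  have hχ0ρ : ∀ t, χ0 t ≤ ρ t := fun t => by
    simp only [hχ0]; split_ifs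
    · exact le_rfl
    · exact h0 t
  set F := ∫ t in (0:ℝ)..(2 * π), χ0 t with hF
  have hFM : M ≤ F := level_mass V hVc hVp hA ρ hρ hρp h0 h1 hA1 M hpos hρM
  have hF0 : 0 < F := lt_of_lt_of_le hpos hFM
  set c := M / F with hc
  have hc0 : 0 ≤ c := by positivity
  have hc1 : c ≤ 1 := (div_le_one hF0).2 hFM
  set χ : ℝ → ℝ := fun t => c * χ0 t with hχ
  have hχm : Measurable χ := hχ0m.const_mul c
  have hχ0' : ∀ t, 0 ≤ χ t := fun t => mul_nonneg hc0 (hχ00 t)
  have hχρ : ∀ t, χ t ≤ ρ t := fun t => by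
    calc χ t = c * χ0 t := rfl
      _ ≤ 1 * χ0 t := mul_le_mul_of_nonneg_right hc1 (hχ00 t)
      _ = χ0 t := one_mul _
      _ ≤ ρ t := hχ0ρ t
  have hχ1 : ∀ t, χ t ≤ 1 := fun t => (hχρ t).trans (h1 t)
  have hχb : ∀ t, |χ t| ≤ 1 := fun t => by rw [abs_of_nonneg (hχ0' t)]; exact hχ1 t
  have hχp : Function.Periodic χ (2 * π) := fun t => by
    simp only [hχ, hχ0]
    rw [hdp t, hρp t]
  have hχM : ∫ t in (0:ℝ)..(2 * π), χ t = M := by
    simp only [hχ]
    rw [intervalIntegral.integral_const_mul, ← hF, hc]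
    field_simp
  -- kernel inequality
  have hneg := KK_neg hκm hχm hκp hχp hκb hχb (by rw [hκM, hχM])
  -- bathtub
  have hbath : M * (4 * (1 - Real.cos (M / 4))) ≤ ∫ t in (0:ℝ)..(2 * π), χ t * KK χ t := by
    have e : M * (4 * (1 - Real.cos (M / 4))) =
        ∫ t in (0:ℝ)..(2 * π), χ t * (4 * (1 - Real.cos (M / 4))) := by
      rw [intervalIntegral.integral_mul_const, hχM]
    rw [e]
    apply intervalIntegral.integral_mono_on hpi0.le
    · exact (ii_of_bdd hχm hχb _ _).mul_const _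
    · apply ii_of_bdd (C := 1 * (1 * (2 * π))) (hχm.mul (KK_meas hχm))
      intro t
      rw [Pi.mul_apply, abs_mul]
      exact mul_le_mul (hχb t) (KK_bdd hχb t) (abs_nonneg _) zero_le_one
    · intro t _
      exact mul_le_mul_of_nonneg_left (bathtub χ hχm hχ0' hχ1 M hχM t) (hχ0' t)
  -- cost
  set cost : ℝ → ℝ := fun t => if d t ≤ s then ρ t * (1 - Real.cos (d t)) else 0 with hcost
  have hcm : Measurable cost := by
    apply Measurable.ite hset _ measurable_const
    exact hρ.mul (measurable_const.sub (Real.measurable_cos.comp hdc.measurable))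
  have hcost_b : ∀ t, |cost t| ≤ 2 := by
    intro t
    simp only [hcost]
    split_ifs
    · rw [abs_mul]
      have a1 := Real.cos_le_one (d t)
      have a2 := Real.neg_one_le_cos (d t)
      have a3 : |1 - Real.cos (d t)| ≤ 2 := by rw [abs_le]; constructor <;> linarith
      calc |ρ t| * |1 - Real.cos (d t)| ≤ 1 * 2 :=
            mul_le_mul (hρb t) a3 (abs_nonneg _) zero_le_one
        _ = 2 := one_mul _
    · simp
  have hcb : ∫ t in (0:ℝ)..(2 * π), c * cost t ≤ 77 / 400 * s ^ 2 * M := by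
    rw [intervalIntegral.integral_const_mul]
    have := cost_bound V hVc hVn hVp ρ hρ hρp h0 h1 hA1 s hs0
    calc c * ∫ t in (0:ℝ)..(2 * π), cost t ≤ c * (77 / 400 * s ^ 2 * F) :=
          mul_le_mul_of_nonneg_left this hc0
      _ = 77 / 400 * s ^ 2 * (c * F) := by ring
      _ = 77 / 400 * s ^ 2 * M := by
          rw [hc, div_mul_cancel₀ _ hF0.ne']
  -- pointwise bound
  have hpt : ∀ t, χ t * g t - c * cost t ≤ ρ t * (g t - L t) := by
    intro t
    have hge : L t ≤ 1 - Real.cos (d t) := by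
      obtain ⟨v, hv, hvd⟩ := hVc.exists_infDist_eq_dist hVn t
      have := hLV t v hv
      have h2 : Real.cos (t - v) = Real.cos (d t) := by
        simp only [hd]
        rw [hvd, Real.dist_eq, Real.cos_abs]
      rw [h2] at this
      exact this
    have h3 : 0 ≤ g t - L t := by linarith [hLg t]
    have h4 : χ t * (g t - L t) ≤ ρ t * (g t - L t) := mul_le_mul_of_nonneg_right (hχρ t) h3
    have h5 : χ t * L t ≤ c * cost t := by
      simp only [hχ, hχ0, hcost]
      split_ifs
      · rw [mul_assoc]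
        exact mul_le_mul_of_nonneg_left (mul_le_mul_of_nonneg_left hge (h0 t)) hc0
      · simp
    nlinarith
  have hint_χg : IntervalIntegrable (fun t => χ t * g t) volume 0 (2 * π) := by
    apply ii_of_bdd (C := 1 * Cg) (hχm.mul hgm)
    intro t
    rw [Pi.mul_apply, abs_mul]
    exact mul_le_mul (hχb t) (hCg t) (abs_nonneg _) zero_le_one
  have hint_ρg : IntervalIntegrable (fun t => ρ t * g t) volume 0 (2 * π) := by
    apply ii_of_bdd (C := 1 * Cg) (hρ.mul hgm)
    intro t
    rw [Pi.mul_apply, abs_mul]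
    exact mul_le_mul (hρb t) (hCg t) (abs_nonneg _) zero_le_one
  have hint_c : IntervalIntegrable (fun t => c * cost t) volume 0 (2 * π) :=
    (ii_of_bdd hcm hcost_b _ _).const_mul c
  have hmain : (∫ t in (0:ℝ)..(2 * π), χ t * g t) - (∫ t in (0:ℝ)..(2 * π), c * cost t) ≤
      (∫ t in (0:ℝ)..(2 * π), ρ t * g t) - ∫ t in (0:ℝ)..(2 * π), L t := by
    rw [← intervalIntegral.integral_sub hint_χg hint_c,
      ← intervalIntegral.integral_sub hint_ρg (hLc.intervalIntegrable _ _)]
    apply intervalIntegral.integral_mono_on hpi0.le (hint_χg.sub hint_c)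
      (hint_ρg.sub (hLc.intervalIntegrable _ _))
    intro t _
    have := hpt t
    have h6 := hLρ t
    rw [mul_sub, ← h6] at this
    exact this
  have hχg : ∫ t in (0:ℝ)..(2 * π), χ t * g t = 1 / 4 * ∫ t in (0:ℝ)..(2 * π), χ t * KK κ t := by
    rw [← intervalIntegral.integral_const_mul]
    congr 1
    ext t
    rw [hgK]
    ring
  have hfin := final_ineq hpos hM2
  have hstrict : ∫ t in (0:ℝ)..(2 * π), L t < 1 / 2 * M := by
    have q1 : (∫ t in (0:ℝ)..(2 * π), χ t * g t) - 77 / 400 * s ^ 2 * M ≤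
      (∫ t in (0:ℝ)..(2 * π), ρ t * g t) - ∫ t in (0:ℝ)..(2 * π), L t := by linarith
    rw [hχg] at q1
    rw [hgκ2] at hgκ
    rw [hs] at q1
    linarith
  exact ⟨hstrict.le, fun h => absurd h hstrict.ne⟩

end Pool.Agent.Helper679.Curve
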