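import Pool.Agent.Helper679.CurveBasic

set_option autoImplicit false

namespace Pool.Agent.Helper679.Curve.J1132


theorem planar_isometry {W : Type*} [NormedAddCommGroup W] [InnerProductSpace ℝ W]
    [FiniteDimensional ℝ W] (h : Module.finrank ℝ W ≤ 2) :
    Nonempty (W →ₗᵢ[ℝ] EuclideanSpace ℝ (Fin 2)) := by
  let b := stdOrthonormalBasis ℝ W
  let e : Fin (Module.finrank ℝ W) → Fin 2 := Fin.castLE h
  have he : Function.Injective e := Fin.castLE_injective h
  let f : W →ₗ[ℝ] EuclideanSpace ℝ (Fin 2) :=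
    b.toBasis.constr ℝ (fun i => EuclideanSpace.basisFun (Fin 2) ℝ (e i))
  have hf : Orthonormal ℝ (f ∘ b.toBasis) := by
    have e1 : f ∘ b.toBasis = (EuclideanSpace.basisFun (Fin 2) ℝ) ∘ e := by
      funext i
      simp only [Function.comp_apply, f, Module.Basis.constr_basis]
    rw [e1]
    exact (EuclideanSpace.basisFun (Fin 2) ℝ).orthonormal.comp e he
  have hb : Orthonormal ℝ b.toBasis := by
    rw [OrthonormalBasis.coe_toBasis]
    exact b.orthonormal
  exact ⟨f.isometryOfOrthonormal hb hf⟩

theorem planar_finish {E : Type*} [NormedAddCommGroup E] [InnerProductSpace ℝ E]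
    [FiniteDimensional ℝ E] {n : ℕ} (q : Fin (n + 1) → E) (hq : Pocket q) (a : Fin (n + 1))
    (v1 v2 : E) (h : ∀ i, q i - q a ∈ Submodule.span ℝ ({v1, v2} : Set E)) :
    ∃ r : Fin (n + 1) → EuclideanSpace ℝ (Fin 2), (∀ i j, dist (r i) (r j) = dist (q i) (q j)) ∧
      Pocket r := by
  classical
  set W := Submodule.span ℝ ({v1, v2} : Set E) with hW
  have hdim : Module.finrank ℝ W ≤ 2 := by
    refine (finrank_span_le_card ({v1, v2} : Set E)).trans ?_
    rw [Set.toFinset_insert, Set.toFinset_singleton]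
    exact Finset.card_le_two
  obtain ⟨L⟩ := planar_isometry hdim
  refine ⟨fun i => L ⟨q i - q a, h i⟩, ?_, ?_⟩
  · intro i j
    rw [L.dist_map]
    show dist (q i - q a) (q j - q a) = _
    rw [dist_sub_right]
  · intro u t hle x y hxy hx hy
    set A := L.toContinuousLinearMap with hA
    set u' : E := ((ContinuousLinearMap.adjoint A u : W) : E) with hu'
    have key : ∀ i, inner ℝ (L ⟨q i - q a, h i⟩) u = inner ℝ (q i) u' - inner ℝ (q a) u' := by
      intro i
      have e1 : inner ℝ (A ⟨q i - q a, h i⟩) u =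
          inner ℝ (⟨q i - q a, h i⟩ : W) (ContinuousLinearMap.adjoint A u) :=
        (ContinuousLinearMap.adjoint_inner_right A _ _).symm
      have e2 : inner ℝ (⟨q i - q a, h i⟩ : W) (ContinuousLinearMap.adjoint A u) =
          inner ℝ (q i - q a) u' := rfl
      have e3 : A ⟨q i - q a, h i⟩ = L ⟨q i - q a, h i⟩ := rfl
      rw [← e3, e1, e2, inner_sub_left]
    simp only [key] at hle hx hy ⊢
    have := hq u' (t + inner ℝ (q a) u') (fun i => by linarith [hle i]) x y hxy (by linarith)
      (by linarith)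
    rcases this with h1 | h1
    · left
      intro i hi1 hi2
      linarith [h1 i hi1 hi2]
    · right
      intro i hi
      linarith [h1 i hi]

theorem planar_isClosed_segment {E : Type*} [NormedAddCommGroup E] [NormedSpace ℝ E] (x y : E) :
    IsClosed (segment ℝ x y) := by
  rw [segment_eq_image]
  apply IsCompact.isClosed
  apply isCompact_Icc.image
  fun_prop

theorem planar_of_pocket {E : Type*} [NormedAddCommGroup E] [InnerProductSpace ℝ E]
    [FiniteDimensional ℝ E] (hd : 2 ≤ Module.finrank ℝ E) {n : ℕ} (q : Fin (n + 1) → E)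
    (hq : Pocket q) :
    ∃ r : Fin (n + 1) → EuclideanSpace ℝ (Fin 2), (∀ i j, dist (r i) (r j) = dist (q i) (q j)) ∧
      Pocket r := by
  classical
  by_cases hall : ∀ i, q i = q 0
  · refine planar_finish q hq 0 0 0 (fun i => ?_)
    rw [hall i, sub_self]
    exact Submodule.zero_mem _
  push Not at hall
  obtain ⟨j0, hj0⟩ := hall
  obtain ⟨a, ha⟩ := Finite.exists_max (fun i => ‖q i - q 0‖)
  set u0 := q a - q 0 with hu0
  have hu0pos : 0 < ‖u0‖ := lt_of_lt_of_le (norm_pos_iff.2 (sub_ne_zero.2 hj0)) (ha j0)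
  have hkey : ∀ i, inner ℝ (q i - q a) u0 ≤ -(1 / 2) * ‖q i - q a‖ ^ 2 := by
    intro i
    have e1 : ‖q i - q a‖ ^ 2 = ‖q i - q 0‖ ^ 2 - 2 * inner ℝ (q i - q 0) u0 + ‖u0‖ ^ 2 := by
      rw [← norm_sub_sq_real]
      congr 2
      rw [hu0]
      abel
    have e2 : inner ℝ (q i - q a) u0 = inner ℝ (q i - q 0) u0 - ‖u0‖ ^ 2 := by
      rw [← real_inner_self_eq_norm_sq, ← inner_sub_left]
      congr 1
      rw [hu0]
      abel
    have e3 : ‖q i - q 0‖ ^ 2 ≤ ‖u0‖ ^ 2 := pow_le_pow_left₀ (norm_nonneg _) (ha i) 2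
    rw [e2]
    nlinarith
  set S : Finset (Fin (n + 1)) := Finset.univ.filter (fun i => q i ≠ q a) with hS
  have hmemS : ∀ i, i ∈ S ↔ q i ≠ q a := by
    intro i
    simp [hS]
  have h0S : (0 : Fin (n + 1)) ∈ S := by
    rw [hmemS]
    intro h
    rw [hu0, h, sub_self, norm_zero] at hu0pos
    exact lt_irrefl _ hu0pos
  have haS : a ∉ S := by
    rw [hmemS]
    simp
  have hneg : ∀ i ∈ S, inner ℝ (q i - q a) u0 < 0 := by
    intro i hi
    have h1 := hkey i
    have h2 : 0 < ‖q i - q a‖ ^ 2 := by
      have := norm_pos_iff.2 (sub_ne_zero.2 ((hmemS i).1 hi))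
      positivity
    linarith
  -- next and previous
  obtain ⟨r, hrS, hr1, hr2⟩ : ∃ r ∈ S, (∀ b ∈ S, a < b → a < r ∧ r ≤ b) ∧
      (∀ b ∈ S, b < a → a < r ∨ r ≤ b) := by
    by_cases hex : (S.filter (fun i => a < i)).Nonempty
    · refine ⟨(S.filter (fun i => a < i)).min' hex, ?_, ?_, ?_⟩
      · exact (Finset.mem_filter.1 (Finset.min'_mem _ hex)).1
      · intro b hb hab
        exact ⟨(Finset.mem_filter.1 (Finset.min'_mem _ hex)).2,
          Finset.min'_le _ _ (Finset.mem_filter.2 ⟨hb, hab⟩)⟩
      · intro b hb hba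
        left
        exact (Finset.mem_filter.1 (Finset.min'_mem _ hex)).2
    · refine ⟨S.min' ⟨0, h0S⟩, Finset.min'_mem _ _, ?_, ?_⟩
      · intro b hb hab
        exact absurd ⟨b, Finset.mem_filter.2 ⟨hb, hab⟩⟩ hex
      · intro b hb hba
        right
        exact Finset.min'_le _ _ hb
  obtain ⟨l, hlS, hl1, hl2⟩ : ∃ l ∈ S, (∀ b ∈ S, b < a → l < a ∧ b ≤ l) ∧
      (∀ b ∈ S, a < b → l < a ∨ b ≤ l) := by
    by_cases hex : (S.filter (fun i => i < a)).Nonempty
    · refine ⟨(S.filter (fun i => i < a)).max' hex, ?_, ?_, ?_⟩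
      · exact (Finset.mem_filter.1 (Finset.max'_mem _ hex)).1
      · intro b hb hab
        exact ⟨(Finset.mem_filter.1 (Finset.max'_mem _ hex)).2,
          Finset.le_max' _ _ (Finset.mem_filter.2 ⟨hb, hab⟩)⟩
      · intro b hb hba
        left
        exact (Finset.mem_filter.1 (Finset.max'_mem _ hex)).2
    · refine ⟨S.max' ⟨0, h0S⟩, Finset.max'_mem _ _, ?_, ?_⟩
      · intro b hb hab
        exact absurd ⟨b, Finset.mem_filter.2 ⟨hb, hab⟩⟩ hex
      · intro b hb hba
        right
        exact Finset.le_max' _ _ hb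
  set α : Fin (n + 1) → ℝ := fun i => - inner ℝ (q i - q a) u0 with hα
  have hαpos : ∀ i ∈ S, 0 < α i := fun i hi => by
    have := hneg i hi
    simp only [hα]
    linarith
  set y : Fin (n + 1) → E := fun i => (α i)⁻¹ • (q i - q a) with hy
  have hqy : ∀ i ∈ S, q i - q a = α i • y i := by
    intro i hi
    simp only [hy]
    rw [smul_smul, mul_inv_cancel₀ (hαpos i hi).ne', one_smul]
  have hyu : ∀ i ∈ S, inner ℝ (y i) u0 = -1 := by
    intro i hi
    simp only [hy]
    rw [real_inner_smul_left]
    have h1 : inner ℝ (q i - q a) u0 = - α i := by simp [hα]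
    rw [h1]
    have := (hαpos i hi).ne'
    field_simp
  have hseg : ∀ m ∈ S, y m ∈ segment ℝ (y r) (y l) := by
    intro m hm
    by_contra hcon
    obtain ⟨f, c, hf1, hf2⟩ := geometric_hahn_banach_closed_point (convex_segment (𝕜 := ℝ) (y r) (y l))
      (planar_isClosed_segment _ _) hcon
    have hfr := hf1 _ (left_mem_segment ℝ _ _)
    have hfl := hf1 _ (right_mem_segment ℝ _ _)
    obtain ⟨b, hbS, hb⟩ := Finset.exists_max_image S (fun i => f (y i)) ⟨0, h0S⟩
    set F := f (y b) with hF
    have hFr : f (y r) < F := lt_of_lt_of_le (hfr.trans hf2) (hb m hm)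
    have hFl : f (y l) < F := lt_of_lt_of_le (hfl.trans hf2) (hb m hm)
    set w : E := (InnerProductSpace.toDual ℝ E).symm f with hw
    have hfw : ∀ x, inner ℝ x w = f x := by
      intro x
      rw [real_inner_comm]
      exact InnerProductSpace.toDual_symm_apply
    set u : E := w + F • u0 with hu
    have hval : ∀ i ∈ S, inner ℝ (q i - q a) u = α i * (f (y i) - F) := by
      intro i hi
      rw [hqy i hi, real_inner_smul_left, hu, inner_add_right, real_inner_smul_right, hfw,
        hyu i hi]
      ring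
    have hval0 : ∀ i, i ∉ S → inner ℝ (q i - q a) u = 0 := by
      intro i hi
      rw [hmemS, not_not] at hi
      rw [hi, sub_self, inner_zero_left]
    have hle : ∀ i, inner ℝ (q i) u ≤ inner ℝ (q a) u := by
      intro i
      have h1 : inner ℝ (q i - q a) u ≤ 0 := by
        by_cases hi : i ∈ S
        · rw [hval i hi]
          exact mul_nonpos_of_nonneg_of_nonpos (hαpos i hi).le (sub_nonpos.2 (hb i hi))
        · rw [hval0 i hi]
      rw [inner_sub_left] at h1
      linarith
    have hbu : inner ℝ (q b) u = inner ℝ (q a) u := by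
      have h1 := hval b hbS
      rw [← hF, sub_self, mul_zero, inner_sub_left] at h1
      linarith
    have hru : inner ℝ (q r) u < inner ℝ (q a) u := by
      have h1 := hval r hrS
      have h2 : α r * (f (y r) - F) < 0 := mul_neg_of_pos_of_neg (hαpos r hrS) (by linarith)
      rw [inner_sub_left] at h1
      linarith
    have hlu : inner ℝ (q l) u < inner ℝ (q a) u := by
      have h1 := hval l hlS
      have h2 : α l * (f (y l) - F) < 0 := mul_neg_of_pos_of_neg (hαpos l hlS) (by linarith)
      rw [inner_sub_left] at h1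
      linarith
    have hrb : r ≠ b := by
      rintro rfl
      linarith
    have hlb : l ≠ b := by
      rintro rfl
      linarith
    have hab : a ≠ b := by
      rintro rfl
      exact haS hbS
    rcases lt_or_gt_of_ne hab with hab | hab
    · rcases hq u _ hle a b hab rfl hbu with h | h
      · obtain ⟨h1, h2⟩ := hr1 b hbS hab
        have := h r h1 (lt_of_le_of_ne h2 hrb)
        linarith
      · have h3 : l < a ∨ b < l := by
          rcases hl2 b hbS hab with h4 | h4
          · exact Or.inl h4
          · exact Or.inr (lt_of_le_of_ne h4 hlb.symm)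
        have := h l h3
        linarith
    · rcases hq u _ hle b a hab hbu rfl with h | h
      · obtain ⟨h1, h2⟩ := hl1 b hbS hab
        have := h l (lt_of_le_of_ne h2 hlb.symm) h1
        linarith
      · have h3 : r < b ∨ a < r := by
          rcases hr2 b hbS hab with h4 | h4
          · exact Or.inr h4
          · exact Or.inl (lt_of_le_of_ne h4 hrb)
        have := h r h3
        linarith
  refine planar_finish q hq a (y r) (y l) (fun i => ?_)
  by_cases hi : i ∈ S
  · rw [hqy i hi]
    apply Submodule.smul_mem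
    obtain ⟨s, t, -, -, -, hst⟩ := hseg i hi
    rw [← hst]
    exact Submodule.add_mem _
      (Submodule.smul_mem _ _ (Submodule.subset_span (Set.mem_insert _ _)))
      (Submodule.smul_mem _ _ (Submodule.subset_span (Set.mem_insert_of_mem _ rfl)))
  · rw [hmemS, not_not] at hi
    rw [hi, sub_self]
    exact Submodule.zero_mem _

end Pool.Agent.Helper679.Curve.J1132
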