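import Pool.Agent.Helper679.CurveBasic

set_option autoImplicit false

namespace Pool.Agent.Helper679.Curve.J1133


/-- supporting functional at a frontier point -/
theorem fnv_support {n : ℕ} (q : Fin (n + 1) → EuclideanSpace ℝ (Fin 2))
    (y : EuclideanSpace ℝ (Fin 2)) (hy : y ∈ frontier (convexHull ℝ (Set.range q))) :
    ∃ u : EuclideanSpace ℝ (Fin 2), ‖u‖ = 1 ∧ ∀ i, inner ℝ (q i) u ≤ inner ℝ y u := by
  set K := convexHull ℝ (Set.range q) with hK
  have hKc : IsClosed K := ((Set.finite_range q).isCompact_convexHull (𝕜 := ℝ)).isClosed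
  have hKx : Convex ℝ K := convex_convexHull ℝ _
  have hyc : y ∈ closure Kᶜ := by
    rw [frontier_eq_closure_inter_closure] at hy
    exact hy.2
  obtain ⟨z, hz, hzy⟩ := mem_closure_iff_seq_limit.1 hyc
  have hu : ∀ k, ∃ u : EuclideanSpace ℝ (Fin 2), ‖u‖ = 1 ∧ ∀ i, inner ℝ (q i) u ≤ inner ℝ (z k) u := by
    intro k
    obtain ⟨f, c, hf1, hf2⟩ := geometric_hahn_banach_closed_point hKx hKc (hz k)
    set v := (InnerProductSpace.toDual ℝ (EuclideanSpace ℝ (Fin 2))).symm f with hv
    have hfv : ∀ x, inner ℝ x v = f x := by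
      intro x
      rw [real_inner_comm, hv, InnerProductSpace.toDual_symm_apply]
    have hv0 : v ≠ 0 := by
      intro h0
      have h1 := hf1 (q 0) (subset_convexHull ℝ _ ⟨0, rfl⟩)
      have h2 := hfv (q 0)
      have h3 := hfv (z k)
      rw [h0, inner_zero_right] at h2 h3
      rw [← h2] at h1
      rw [← h3] at hf2
      linarith
    refine ⟨(‖v‖⁻¹ : ℝ) • v, ?_, ?_⟩
    · rw [norm_smul, norm_inv, norm_norm, inv_mul_cancel₀ (norm_ne_zero_iff.2 hv0)]
    · intro i
      rw [inner_smul_right, inner_smul_right]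
      apply mul_le_mul_of_nonneg_left _ (by positivity)
      rw [hfv, hfv]
      have h1 := hf1 (q i) (subset_convexHull ℝ _ ⟨i, rfl⟩)
      linarith
  choose u hu1 hu2 using hu
  obtain ⟨w, hw, φ, hφ, hlim⟩ := (isCompact_sphere (0 : EuclideanSpace ℝ (Fin 2)) 1).tendsto_subseq
    (x := u) (fun k => by rw [mem_sphere_zero_iff_norm]; exact hu1 k)
  refine ⟨w, by rwa [mem_sphere_zero_iff_norm] at hw, fun i => ?_⟩
  have h1 : Filter.Tendsto (fun k => inner ℝ (q i) (u (φ k))) Filter.atTop
      (nhds (inner ℝ (q i) w)) := (tendsto_const_nhds).inner hlim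
  have h2 : Filter.Tendsto (fun k => inner ℝ (z (φ k)) (u (φ k))) Filter.atTop
      (nhds (inner ℝ y w)) := (hzy.comp hφ.tendsto_atTop).inner hlim
  exact le_of_tendsto_of_tendsto' h1 h2 (fun k => hu2 (φ k) i)

/-- discrete intermediate value theorem -/
theorem fnv_ivt (g : ℕ → ℝ) (μ : ℝ) (hμ : 0 ≤ μ) (L : ℕ) (hg : ∀ k < L, |g (k + 1) - g k| ≤ μ)
    (h0 : g 0 ≤ 0) (hL : 0 ≤ g L) : ∃ k ≤ L, |g k| ≤ μ := by
  induction L with
  | zero => exact ⟨0, le_rfl, by rw [le_antisymm h0 hL, abs_zero]; exact hμ⟩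
  | succ L ih =>
    by_cases h : 0 ≤ g L
    · obtain ⟨k, hk, hk2⟩ := ih (fun k hk => hg k (by omega)) h
      exact ⟨k, by omega, hk2⟩
    · push Not at h
      have h1 := hg L (by omega)
      rw [abs_le] at h1
      refine ⟨L + 1, le_rfl, ?_⟩
      rw [abs_le]
      constructor <;> linarith

theorem fnv_ivt' (g : ℕ → ℝ) (μ : ℝ) (hμ : 0 ≤ μ) (L : ℕ) (hg : ∀ k < L, |g (k + 1) - g k| ≤ μ)
    (h0 : (g 0 ≤ 0 ∧ 0 ≤ g L) ∨ (0 ≤ g 0 ∧ g L ≤ 0)) : ∃ k ≤ L, |g k| ≤ μ := by
  rcases h0 with h | h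
  · exact fnv_ivt g μ hμ L hg h.1 h.2
  · obtain ⟨k, hk, hk2⟩ := fnv_ivt (fun k => -g k) μ hμ L (fun k hk => by
      have := hg k hk
      rw [abs_sub_comm] at this
      have e : -g (k + 1) - -g k = g k - g (k + 1) := by ring
      rw [e]; exact this) (by linarith [h.1]) (by linarith [h.2])
    exact ⟨k, hk, by rwa [abs_neg] at hk2⟩

open Fin.NatCast Fin.CommRing in
theorem frontier_near_vertex_aux {n : ℕ} (q : Fin (n + 1) → EuclideanSpace ℝ (Fin 2))
    (hq : Pocket q) (μ : ℝ) (hμ : ∀ i, dist (q i) (q (i + 1)) ≤ μ)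
    (y : EuclideanSpace ℝ (Fin 2)) (hy : y ∈ frontier (convexHull ℝ (Set.range q))) :
    ∃ i, dist y (q i) ≤ μ := by
  have hμ0 : 0 ≤ μ := dist_nonneg.trans (hμ 0)
  obtain ⟨u, hu1, hu⟩ := fnv_support q y hy
  set t := inner ℝ y u with ht
  have hyK : y ∈ convexHull ℝ (Set.range q) := by
    have hKc : IsClosed (convexHull ℝ (Set.range q)) :=
      ((Set.finite_range q).isCompact_convexHull (𝕜 := ℝ)).isClosed
    have := frontier_subset_closure hy
    rwa [hKc.closure_eq] at this
  -- the orthogonal unit vector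
  let e : EuclideanSpace ℝ (Fin 2) := !₂[-u 1, u 0]
  have hinner : ∀ z w : EuclideanSpace ℝ (Fin 2), inner ℝ z w = z 0 * w 0 + z 1 * w 1 := by
    intro z w
    rw [PiLp.inner_apply, Fin.sum_univ_two]
    simp [mul_comm]
  have hnorm : ∀ z : EuclideanSpace ℝ (Fin 2), ‖z‖ ^ 2 = z 0 ^ 2 + z 1 ^ 2 := by
    intro z
    rw [← real_inner_self_eq_norm_sq, hinner]; ring
  have hu2 : u 0 ^ 2 + u 1 ^ 2 = 1 := by rw [← hnorm, hu1]; norm_num
  have he : ∀ z : EuclideanSpace ℝ (Fin 2), inner ℝ z e = z 0 * (-u 1) + z 1 * u 0 := by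
    intro z
    rw [hinner]
    simp [e]
  have hdecomp : ∀ z : EuclideanSpace ℝ (Fin 2), ‖z‖ ^ 2 = inner ℝ z u ^ 2 + inner ℝ z e ^ 2 := by
    intro z
    rw [hnorm, he, hinner]
    linear_combination (-(z 0 ^ 2) - z 1 ^ 2) * hu2
  have hle : ∀ z : EuclideanSpace ℝ (Fin 2), |inner ℝ z e| ≤ ‖z‖ := by
    intro z
    apply abs_le_of_sq_le_sq _ (norm_nonneg _)
    rw [hdecomp]
    nlinarith [sq_nonneg (inner ℝ z u)]
  set φ : Fin (n + 1) → ℝ := fun i => inner ℝ (q i) e - inner ℝ y e with hφ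
  have hstep : ∀ i, |φ (i + 1) - φ i| ≤ μ := by
    intro i
    have h1 : φ (i + 1) - φ i = inner ℝ (q (i + 1) - q i) e := by
      rw [inner_sub_left]; simp only [hφ]; ring
    rw [h1]
    refine (hle _).trans ?_
    rw [← dist_eq_norm, dist_comm]
    exact hμ i
  have hfinal : ∀ i, inner ℝ (q i) u = t → |φ i| ≤ μ → dist y (q i) ≤ μ := by
    intro i h1 h2
    rw [dist_eq_norm]
    apply le_of_sq_le_sq _ hμ0
    rw [hdecomp, inner_sub_left, inner_sub_left, h1, ← ht, sub_self]
    have h3 : (inner ℝ y e - inner ℝ (q i) e) ^ 2 = |φ i| ^ 2 := by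
      rw [sq_abs]; simp only [hφ]; ring
    rw [h3]
    nlinarith [abs_nonneg (φ i)]
  -- convex combination
  obtain ⟨ι, _, w, z, hw0, hw1, hz, hsum⟩ := mem_convexHull_iff_exists_fintype.1 hyK
  have hz' : ∀ j, ∃ i, q i = z j := fun j => hz j
  choose c hc using hz'
  have hsu : ∑ j, w j * (t - inner ℝ (q (c j)) u) = 0 := by
    have h1 : inner ℝ y u = ∑ j, w j * inner ℝ (q (c j)) u := by
      rw [← hsum, sum_inner]
      apply Finset.sum_congr rfl
      intro j _
      rw [real_inner_smul_left, hc]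
    simp only [mul_sub]
    rw [Finset.sum_sub_distrib, ← Finset.sum_mul, hw1, one_mul, ← h1, ht, sub_self]
  have hT : ∀ j, w j ≠ 0 → inner ℝ (q (c j)) u = t := by
    intro j hj
    have h1 := (Finset.sum_eq_zero_iff_of_nonneg (fun j _ =>
      mul_nonneg (hw0 j) (sub_nonneg.2 (hu (c j))))).1 hsu j (Finset.mem_univ _)
    rcases mul_eq_zero.1 h1 with h | h
    · exact absurd h hj
    · linarith
  have hse : ∑ j, w j * φ (c j) = 0 := by
    have h1 : inner ℝ y e = ∑ j, w j * inner ℝ (q (c j)) e := by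
      rw [← hsum, sum_inner]
      apply Finset.sum_congr rfl
      intro j _
      rw [real_inner_smul_left, hc]
    simp only [hφ, mul_sub]
    rw [Finset.sum_sub_distrib, ← Finset.sum_mul, hw1, one_mul, ← h1, sub_self]
  have hexle : ∃ a, inner ℝ (q a) u = t ∧ φ a ≤ 0 := by
    by_contra hcon
    push Not at hcon
    have h1 : ∃ j, w j ≠ 0 := by
      by_contra h
      push Not at h
      simp [h] at hw1
    obtain ⟨j0, hj0⟩ := h1
    have h2 : 0 < ∑ j, w j * φ (c j) := by
      apply Finset.sum_pos'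
      · intro j _
        by_cases hj : w j = 0
        · rw [hj, zero_mul]
        · exact mul_nonneg (hw0 j) (hcon _ (hT j hj)).le
      · exact ⟨j0, Finset.mem_univ _, mul_pos (lt_of_le_of_ne (hw0 j0) (Ne.symm hj0))
          (hcon _ (hT j0 hj0))⟩
    linarith
  have hexge : ∃ b, inner ℝ (q b) u = t ∧ 0 ≤ φ b := by
    by_contra hcon
    push Not at hcon
    have h1 : ∃ j, w j ≠ 0 := by
      by_contra h
      push Not at h
      simp [h] at hw1
    obtain ⟨j0, hj0⟩ := h1
    have h2 : 0 < ∑ j, w j * (-φ (c j)) := by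
      apply Finset.sum_pos'
      · intro j _
        by_cases hj : w j = 0
        · rw [hj, zero_mul]
        · exact mul_nonneg (hw0 j) (by linarith [(hcon _ (hT j hj))])
      · exact ⟨j0, Finset.mem_univ _, mul_pos (lt_of_le_of_ne (hw0 j0) (Ne.symm hj0))
          (by linarith [(hcon _ (hT j0 hj0))])⟩
    simp only [mul_neg, Finset.sum_neg_distrib] at h2
    linarith
  obtain ⟨a, ha, ha0⟩ := hexle
  obtain ⟨b, hb, hb0⟩ := hexge
  -- walk along a cyclic chain
  have walk : ∀ (s : Fin (n + 1)) (L : ℕ),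
      (∀ k ≤ L, inner ℝ (q (s + (k : Fin (n + 1)))) u = t) →
      ((φ s ≤ 0 ∧ 0 ≤ φ (s + (L : Fin (n + 1)))) ∨ (0 ≤ φ s ∧ φ (s + (L : Fin (n + 1))) ≤ 0)) →
      ∃ i, dist y (q i) ≤ μ := by
    intro s L hall hsign
    obtain ⟨k, hk, hk2⟩ := fnv_ivt' (fun k => φ (s + (k : Fin (n + 1)))) μ hμ0 L (by
      intro k _
      have := hstep (s + (k : Fin (n + 1)))
      simp only [Nat.cast_add, Nat.cast_one, ← add_assoc]
      exact this) (by simpa using hsign)
    exact ⟨_, hfinal _ (hall k hk) hk2⟩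
  -- reduce to a < b
  have main : ∀ a b : Fin (n + 1), a < b → inner ℝ (q a) u = t → inner ℝ (q b) u = t →
      ((φ a ≤ 0 ∧ 0 ≤ φ b) ∨ (0 ≤ φ a ∧ φ b ≤ 0)) → ∃ i, dist y (q i) ≤ μ := by
    intro a b hab ha hb hs
    have hab' : a.val < b.val := hab
    rcases hq u t hu a b hab ha hb with h | h
    · have hval : ∀ k : ℕ, k ≤ b.val - a.val → (a + (k : Fin (n + 1))).val = a.val + k := by
        intro k hk
        have hb' := b.isLt
        rw [Fin.val_add, Fin.val_natCast, Nat.mod_eq_of_lt (show k < n + 1 by omega)]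
        exact Nat.mod_eq_of_lt (by omega)
      apply walk a (b.val - a.val)
      · intro k hk
        have h1 := hval k hk
        by_cases hk0 : k = 0
        · subst hk0; simpa using ha
        · by_cases hkL : k = b.val - a.val
          · have : a + (k : Fin (n + 1)) = b := by
              apply Fin.ext; rw [h1]; omega
            rw [this]; exact hb
          · apply h
            · rw [Fin.lt_def, h1]; omega
            · rw [Fin.lt_def, h1]; omega
      · have : a + ((b.val - a.val : ℕ) : Fin (n + 1)) = b := by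
          apply Fin.ext; rw [hval _ le_rfl]; omega
        rw [this]; exact hs
    · have hval1 : ∀ k : ℕ, k ≤ n - b.val → (b + (k : Fin (n + 1))).val = b.val + k := by
        intro k hk
        have hb' := b.isLt
        rw [Fin.val_add, Fin.val_natCast, Nat.mod_eq_of_lt (show k < n + 1 by omega)]
        exact Nat.mod_eq_of_lt (by omega)
      have hval2 : ∀ k : ℕ, n - b.val < k → k ≤ (n + 1 - b.val) + a.val →
          (b + (k : Fin (n + 1))).val = b.val + k - (n + 1) := by
        intro k hk hk2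
        have hb' := b.isLt
        rw [Fin.val_add, Fin.val_natCast, Nat.mod_eq_of_lt (show k < n + 1 by omega)]
        rw [Nat.mod_eq_sub_mod (by omega)]
        exact Nat.mod_eq_of_lt (by omega)
      have hb' := b.isLt
      apply walk b ((n + 1 - b.val) + a.val)
      · intro k hk
        by_cases hk1 : k ≤ n - b.val
        · have h1 := hval1 k hk1
          by_cases hk0 : k = 0
          · subst hk0; simpa using hb
          · apply h
            right
            rw [Fin.lt_def, h1]; omega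
        · push Not at hk1
          have h1 := hval2 k hk1 hk
          by_cases hkL : k = (n + 1 - b.val) + a.val
          · have : b + (k : Fin (n + 1)) = a := by
              apply Fin.ext; rw [h1]; omega
            rw [this]; exact ha
          · apply h
            left
            rw [Fin.lt_def, h1]; omega
      · have : b + (((n + 1 - b.val) + a.val : ℕ) : Fin (n + 1)) = a := by
          apply Fin.ext; rw [hval2 _ (by omega) le_rfl]; omega
        rw [this]
        rcases hs with hs | hs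
        · exact Or.inr ⟨hs.2, hs.1⟩
        · exact Or.inl ⟨hs.2, hs.1⟩
  rcases lt_trichotomy a b with hab | hab | hab
  · exact main a b hab ha hb (Or.inl ⟨ha0, hb0⟩)
  · subst hab
    exact ⟨a, hfinal a ha (by rw [le_antisymm ha0 hb0, abs_zero]; exact hμ0)⟩
  · exact main b a hab hb ha (Or.inr ⟨hb0, ha0⟩)

theorem frontier_near_vertex {n : ℕ} (q : Fin (n + 1) → EuclideanSpace ℝ (Fin 2))
    (hq : Pocket q) (μ : ℝ) (hμ : ∀ i, dist (q i) (q (i + 1)) ≤ μ)
    (y : EuclideanSpace ℝ (Fin 2)) (hy : y ∈ frontier (convexHull ℝ (Set.range q))) :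
    ∃ i, dist y (q i) ≤ μ :=
  frontier_near_vertex_aux q hq μ hμ y hy

end Pool.Agent.Helper679.Curve.J1133
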