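import Pool.Agent.Helper679.CurveBasic

set_option autoImplicit false

open MeasureTheory intervalIntegral Real Set

namespace Pool.Agent.Helper679.Curve.J1134



theorem inner_uv (e : EuclideanSpace ℝ (Fin 2)) (t : ℝ) :
    inner ℝ e (uv t) = e 0 * Real.cos t + e 1 * Real.sin t := by
  unfold uv
  rw [PiLp.inner_apply, Fin.sum_univ_two]
  simp [mul_comm]

theorem uv_add_pi (t : ℝ) (e : EuclideanSpace ℝ (Fin 2)) :
    inner ℝ e (uv (t + π)) = -inner ℝ e (uv t) := by
  rw [inner_uv, inner_uv, Real.cos_add_pi, Real.sin_add_pi]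
  ring

theorem uv_cont (e : EuclideanSpace ℝ (Fin 2)) : Continuous fun t => inner ℝ e (uv t) := by
  have h : (fun t => inner ℝ e (uv t)) = fun t => e 0 * Real.cos t + e 1 * Real.sin t :=
    funext fun t => inner_uv e t
  rw [h]
  fun_prop

theorem int_abs_cos : ∫ s in (-(π / 2))..(-(π / 2) + 2 * π), |Real.cos s| = 4 := by
  have hc : ∀ a b : ℝ, IntervalIntegrable (fun s => |Real.cos s|) volume a b := fun a b =>
    (Real.continuous_cos.abs).intervalIntegrable _ _
  have hπ := Real.pi_pos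
  rw [← integral_add_adjacent_intervals (hc (-(π / 2)) (π / 2)) (hc (π / 2) (-(π / 2) + 2 * π))]
  have h1 : ∫ s in (-(π / 2))..(π / 2), |Real.cos s| = 2 := by
    have : ∫ s in (-(π / 2))..(π / 2), |Real.cos s| = ∫ s in (-(π / 2))..(π / 2), Real.cos s := by
      apply integral_congr
      intro s hs
      rw [uIcc_of_le (by linarith)] at hs
      exact abs_of_nonneg (Real.cos_nonneg_of_mem_Icc hs)
    rw [this, integral_cos, Real.sin_neg, Real.sin_pi_div_two]
    norm_num
  have h2 : ∫ s in (π / 2)..(-(π / 2) + 2 * π), |Real.cos s| = 2 := by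
    have : ∫ s in (π / 2)..(-(π / 2) + 2 * π), |Real.cos s| =
        ∫ s in (π / 2)..(-(π / 2) + 2 * π), -Real.cos s := by
      apply integral_congr
      intro s hs
      rw [uIcc_of_le (by linarith)] at hs
      exact abs_of_nonpos (Real.cos_nonpos_of_pi_div_two_le_of_le hs.1 (by linarith [hs.2]))
    rw [this, intervalIntegral.integral_neg, integral_cos, Real.sin_add_two_pi, Real.sin_neg,
      Real.sin_pi_div_two]
    norm_num
  rw [h1, h2]
  norm_num

theorem int_abs_inner (e : EuclideanSpace ℝ (Fin 2)) :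
    ∫ t in (0:ℝ)..(2 * π), |inner ℝ e (uv t)| = 4 * ‖e‖ := by
  set z : ℂ := ⟨e 0, e 1⟩ with hz
  have hn : ‖z‖ = ‖e‖ := by
    rw [EuclideanSpace.norm_eq, Fin.sum_univ_two, Complex.norm_eq_sqrt_sq_add_sq]
    simp [hz]
  have h0 : e 0 = ‖e‖ * Real.cos (Complex.arg z) := by
    rw [← hn, Complex.norm_mul_cos_arg]
  have h1 : e 1 = ‖e‖ * Real.sin (Complex.arg z) := by
    rw [← hn, Complex.norm_mul_sin_arg]
  have h2 : ∀ t, |inner ℝ e (uv t)| = ‖e‖ * |Real.cos (t - Complex.arg z)| := by
    intro t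
    rw [inner_uv, h0, h1, Real.cos_sub]
    rw [show ‖e‖ * Real.cos (Complex.arg z) * Real.cos t + ‖e‖ * Real.sin (Complex.arg z) * Real.sin t =
      ‖e‖ * (Real.cos t * Real.cos (Complex.arg z) + Real.sin t * Real.sin (Complex.arg z)) by ring,
      abs_mul, abs_of_nonneg (norm_nonneg e)]
  simp only [h2]
  rw [intervalIntegral.integral_const_mul,
    intervalIntegral.integral_comp_sub_right (fun s => |Real.cos s|)]
  have hper : Function.Periodic (fun s => |Real.cos s|) (2 * π) := by
    intro s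
    show |Real.cos (s + 2 * π)| = |Real.cos s|
    rw [Real.cos_add_two_pi]
  have h3 : ∫ s in (0 - Complex.arg z)..(2 * π - Complex.arg z), |Real.cos s| = 4 := by
    have := hper.intervalIntegral_add_eq (0 - Complex.arg z) (-(π / 2))
    rw [int_abs_cos] at this
    rw [← this]
    congr 1
    ring
  rw [h3]
  ring

/-- twice the oscillation of a closed sequence is at most its total variation -/
theorem osc_le {n : ℕ} (f : Fin (n + 1) → ℝ) (i j : Fin (n + 1)) :
    2 * |f i - f j| ≤ ∑ k, |f (k + 1) - f k| := by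
  wlog hij : i ≤ j with H
  · have := H f j i (le_of_not_ge hij)
    rwa [abs_sub_comm] at this
  set g : ℕ → ℝ := fun m => f (Fin.ofNat (n + 1) m) with hg
  have hgk : ∀ k : Fin (n + 1), g k = f k := by
    intro k
    simp only [hg]
    congr 1
    apply Fin.ext
    simp [Fin.ofNat, Nat.mod_eq_of_lt k.2]
  have hgk1 : ∀ k : Fin (n + 1), g ((k : ℕ) + 1) = f (k + 1) := by
    intro k
    simp only [hg]
    congr 1
    apply Fin.ext
    simp [Fin.ofNat, Fin.val_add]
  have hlast : g (n + 1) = g 0 := by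
    simp only [hg]
    congr 1
    apply Fin.ext
    simp [Fin.ofNat]
  have h1 : ∑ k, |f (k + 1) - f k| = ∑ m ∈ Finset.range (n + 1), dist (g m) (g (m + 1)) := by
    rw [Finset.sum_range]
    refine Finset.sum_congr rfl fun k _ => ?_
    rw [hgk, hgk1, Real.dist_eq, abs_sub_comm]
  have hi : (i : ℕ) ≤ n + 1 := i.2.le
  have hj : (j : ℕ) ≤ n + 1 := j.2.le
  have e1 := dist_le_Ico_sum_dist g (Nat.zero_le (i : ℕ))
  have e2 := dist_le_Ico_sum_dist g (show (i : ℕ) ≤ j from hij)
  have e3 := dist_le_Ico_sum_dist g hj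
  have e4 : ∑ m ∈ Finset.range (n + 1), dist (g m) (g (m + 1)) =
      ∑ m ∈ Finset.Ico 0 (i : ℕ), dist (g m) (g (m + 1)) +
      ∑ m ∈ Finset.Ico (i : ℕ) (j : ℕ), dist (g m) (g (m + 1)) +
      ∑ m ∈ Finset.Ico (j : ℕ) (n + 1), dist (g m) (g (m + 1)) := by
    rw [Finset.sum_Ico_consecutive _ (Nat.zero_le _) hij, Finset.sum_Ico_consecutive _ (Nat.zero_le _) hj,
      Finset.range_eq_Ico]
  rw [h1, e4]
  rw [hlast] at e3
  have e5 : dist (g i) (g j) ≤ dist (g 0) (g i) + dist (g j) (g 0) := by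
    have := dist_triangle (g i) (g 0) (g j)
    rw [dist_comm (g i) (g 0), dist_comm (g 0) (g j)] at this
    exact this
  rw [← hgk i, ← hgk j, ← Real.dist_eq]
  linarith

/-- the maximum of the linear functional over the vertices -/
noncomputable def MM {n : ℕ} (q : Fin (n + 1) → EuclideanSpace ℝ (Fin 2)) (t : ℝ) : ℝ :=
  Finset.univ.sup' ⟨0, Finset.mem_univ _⟩ fun i => inner ℝ (q i) (uv t)

theorem supp_eq {n : ℕ} (q : Fin (n + 1) → EuclideanSpace ℝ (Fin 2)) (t : ℝ) :
    supp (convexHull ℝ (Set.range q)) t = MM q t := by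
  have hub : ∀ k ∈ convexHull ℝ (Set.range q), inner ℝ k (uv t) ≤ MM q t := by
    have hconv : Convex ℝ {k : EuclideanSpace ℝ (Fin 2) | inner ℝ k (uv t) ≤ MM q t} := by
      intro a ha b hb x y hx hy hxy
      have ha' : inner ℝ a (uv t) ≤ MM q t := ha
      have hb' : inner ℝ b (uv t) ≤ MM q t := hb
      show inner ℝ (x • a + y • b) (uv t) ≤ MM q t
      rw [inner_add_left, real_inner_smul_left, real_inner_smul_left]
      calc x * inner ℝ a (uv t) + y * inner ℝ b (uv t) ≤ x * MM q t + y * MM q t := by gcongr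
        _ = MM q t := by rw [← add_mul, hxy, one_mul]
    have hsub : Set.range q ⊆ {k : EuclideanSpace ℝ (Fin 2) | inner ℝ k (uv t) ≤ MM q t} := by
      rintro _ ⟨i, rfl⟩
      exact Finset.le_sup' (fun i => inner ℝ (q i) (uv t)) (Finset.mem_univ i)
    intro k hk
    exact convexHull_min hsub hconv hk
  apply le_antisymm
  · apply csSup_le
    · exact ⟨_, q 0, subset_convexHull ℝ _ ⟨0, rfl⟩, rfl⟩
    · rintro _ ⟨k, hk, rfl⟩
      exact hub k hk
  · unfold MM
    apply Finset.sup'_le
    intro i _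
    apply le_csSup
    · refine ⟨MM q t, ?_⟩
      rintro _ ⟨k, hk, rfl⟩
      exact hub k hk
    · exact ⟨q i, subset_convexHull ℝ _ ⟨i, rfl⟩, rfl⟩

theorem MM_cont {n : ℕ} (q : Fin (n + 1) → EuclideanSpace ℝ (Fin 2)) : Continuous (MM q) :=
  Continuous.finset_sup'_apply _ fun i _ => uv_cont (q i)

/-- a closed polygon is at least as long as the perimeter of its convex hull -/
theorem perimeter_le_length {n : ℕ} (q : Fin (n + 1) → EuclideanSpace ℝ (Fin 2)) :
    ∫ t in (0:ℝ)..(2 * π), supp (convexHull ℝ (Set.range q)) t ≤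
      ∑ i, dist (q i) (q (i + 1)) := by
  simp only [supp_eq]
  have hπ := Real.pi_pos
  have hper : Function.Periodic (MM q) (2 * π) := by
    intro t
    unfold MM
    congr 1
    funext i
    rw [inner_uv, inner_uv, Real.cos_add_two_pi, Real.sin_add_two_pi]
  have h1 : ∫ t in (0:ℝ)..(2 * π), MM q (t + π) = ∫ t in (0:ℝ)..(2 * π), MM q t := by
    rw [intervalIntegral.integral_comp_add_right (MM q)]
    have := hper.intervalIntegral_add_eq (0 + π) 0
    rw [zero_add (2 * π)] at this
    rw [← this]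
    congr 1
    ring
  have hc1 : IntervalIntegrable (MM q) volume 0 (2 * π) := (MM_cont q).intervalIntegrable _ _
  have hc2 : IntervalIntegrable (fun t => MM q (t + π)) volume 0 (2 * π) :=
    ((MM_cont q).comp (continuous_id.add continuous_const)).intervalIntegrable _ _
  have h2 : 2 * ∫ t in (0:ℝ)..(2 * π), MM q t = ∫ t in (0:ℝ)..(2 * π), (MM q t + MM q (t + π)) := by
    rw [intervalIntegral.integral_add hc1 hc2, h1]
    ring
  have hpt : ∀ t, MM q t + MM q (t + π) ≤ (1 / 2) * ∑ i, |inner ℝ (q (i + 1) - q i) (uv t)| := by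
    intro t
    obtain ⟨i, -, hi⟩ := Finset.exists_mem_eq_sup' (⟨0, Finset.mem_univ _⟩ : (Finset.univ : Finset (Fin (n + 1))).Nonempty)
      (fun i => inner ℝ (q i) (uv t))
    obtain ⟨j, -, hj⟩ := Finset.exists_mem_eq_sup' (⟨0, Finset.mem_univ _⟩ : (Finset.univ : Finset (Fin (n + 1))).Nonempty)
      (fun i => inner ℝ (q i) (uv (t + π)))
    have h3 := osc_le (fun i => inner ℝ (q i) (uv t)) i j
    have h4 : MM q t = inner ℝ (q i) (uv t) := hi
    have h5 : MM q (t + π) = -inner ℝ (q j) (uv t) := by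
      rw [← uv_add_pi]
      exact hj
    rw [h4, h5]
    simp only [← inner_sub_left] at h3 ⊢
    have h6 := le_abs_self (inner ℝ (q i - q j) (uv t))
    have h7 : inner ℝ (q i) (uv t) + -inner ℝ (q j) (uv t) = inner ℝ (q i - q j) (uv t) := by
      rw [inner_sub_left]; ring
    rw [h7]
    linarith
  have hci : ∀ i ∈ (Finset.univ : Finset (Fin (n + 1))), IntervalIntegrable
      (fun t => |inner ℝ (q (i + 1) - q i) (uv t)|) volume 0 (2 * π) := fun i _ =>
    ((uv_cont _).abs).intervalIntegrable _ _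
  have h8 : ∫ t in (0:ℝ)..(2 * π), (MM q t + MM q (t + π)) ≤
      ∫ t in (0:ℝ)..(2 * π), (1 / 2) * ∑ i, |inner ℝ (q (i + 1) - q i) (uv t)| := by
    apply intervalIntegral.integral_mono_on (by linarith) (hc1.add hc2)
    · apply IntervalIntegrable.const_mul
      exact (continuous_finsetSum _ fun i _ => (uv_cont _).abs).intervalIntegrable _ _
    · intro t _
      exact hpt t
  rw [intervalIntegral.integral_const_mul, intervalIntegral.integral_finsetSum hci] at h8
  simp only [int_abs_inner] at h8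
  have h9 : ∑ i, 4 * ‖q (i + 1) - q i‖ = 4 * ∑ i, dist (q i) (q (i + 1)) := by
    rw [Finset.mul_sum]
    refine Finset.sum_congr rfl fun i _ => ?_
    rw [dist_comm, dist_eq_norm]
  rw [h9] at h8
  linarith

end Pool.Agent.Helper679.Curve.J1134
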