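import Pool.Agent.Helper679.CurveBasic

set_option autoImplicit false

open Real Set

namespace Pool.Agent.Helper679.Curve.J1135



theorem inner_E2 (x y : EuclideanSpace ℝ (Fin 2)) : inner ℝ x y = x 0 * y 0 + x 1 * y 1 := by
  simp [PiLp.inner_apply, Fin.sum_univ_two]; ring

theorem uv_0 (t : ℝ) : uv t 0 = cos t := by simp [uv]
theorem uv_1 (t : ℝ) : uv t 1 = sin t := by simp [uv]

theorem inner_uv (s t : ℝ) : inner ℝ (uv s) (uv t) = cos (s - t) := by
  rw [inner_E2, uv_0, uv_0, uv_1, uv_1, Real.cos_sub]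

theorem norm_uv (t : ℝ) : ‖uv t‖ = 1 := by
  have h : ‖uv t‖ ^ 2 = 1 := by
    rw [← real_inner_self_eq_norm_sq, inner_uv, sub_self, cos_zero]
  have h0 := norm_nonneg (uv t)
  nlinarith [h, h0]

theorem uv_add_pi (t : ℝ) : uv (t + π) = - uv t := by
  ext i
  fin_cases i
  · simp [uv, Real.cos_add_pi]
  · simp [uv, Real.sin_add_pi]

theorem uv_add_two_pi (t : ℝ) : uv (t + 2 * π) = uv t := by
  ext i
  fin_cases i
  · simp [uv]
  · simp [uv]

theorem exists_uv (z : EuclideanSpace ℝ (Fin 2)) (hz : ‖z‖ = 1) : ∃ t, z = uv t := by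
  have h1 : z 0 ^ 2 + z 1 ^ 2 = 1 := by
    have : inner ℝ z z = (1 : ℝ) := by rw [real_inner_self_eq_norm_sq, hz]; norm_num
    rw [inner_E2] at this
    nlinarith
  have h2 : ‖(⟨z 0, z 1⟩ : ℂ)‖ = 1 := by
    rw [Complex.norm_def, Complex.normSq_mk, Real.sqrt_eq_one]
    nlinarith
  obtain ⟨θ, hθ⟩ := (Complex.norm_eq_one_iff _).mp h2
  refine ⟨θ, ?_⟩
  rw [Complex.exp_mul_I] at hθ
  ext i
  fin_cases i
  · have := congrArg Complex.re hθ
    simp [uv, ← Complex.ofReal_cos, ← Complex.ofReal_sin] at this ⊢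
    exact this.symm
  · have := congrArg Complex.im hθ
    simp [uv, ← Complex.ofReal_cos, ← Complex.ofReal_sin] at this ⊢
    exact this.symm

/-- support points of a body of constant width one -/
structure SD (K : Set (EuclideanSpace ℝ (Fin 2))) (a : ℝ → EuclideanSpace ℝ (Fin 2)) : Prop where
  mem : ∀ t, a t ∈ K
  sup : ∀ t, ∀ k ∈ K, (inner ℝ k (uv t) : ℝ) ≤ inner ℝ (a t) (uv t)
  anti : ∀ t, a t - a (t + π) = uv t
  diam : ∀ x ∈ K, ∀ y ∈ K, ‖x - y‖ ≤ 1

/-- Cauchy-Schwarz equality -/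
theorem eq_of_inner_eq_one {F : Type*} [NormedAddCommGroup F] [InnerProductSpace ℝ F] (x u : F)
    (hu : ‖u‖ = 1) (hx : ‖x‖ ≤ 1) (h : (1 : ℝ) ≤ inner ℝ x u) : x = u := by
  have e : ‖x - u‖ ^ 2 ≤ 0 := by
    rw [@norm_sub_sq_real, hu]
    nlinarith [norm_nonneg x]
  have : ‖x - u‖ = 0 := by
    have := norm_nonneg (x - u)
    nlinarith
  exact sub_eq_zero.mp (norm_eq_zero.mp this)

theorem exists_SD (K : Set (EuclideanSpace ℝ (Fin 2))) (hK : IsCompact K) (hne : K.Nonempty)
    (hw : ∀ t, supp K t + supp K (t + π) = 1) : ∃ a, SD K a := by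
  have hcont : ∀ t, Continuous (fun k : EuclideanSpace ℝ (Fin 2) => (inner ℝ k (uv t) : ℝ)) := by
    intro t; fun_prop
  have hcomp : ∀ t, IsCompact ((fun k : EuclideanSpace ℝ (Fin 2) => (inner ℝ k (uv t) : ℝ)) '' K) :=
    fun t => hK.image (hcont t)
  have hle : ∀ t, ∀ k ∈ K, (inner ℝ k (uv t) : ℝ) ≤ supp K t := fun t k hk =>
    le_csSup (hcomp t).bddAbove ⟨k, hk, rfl⟩
  have hmem : ∀ t, ∃ k ∈ K, (inner ℝ k (uv t) : ℝ) = supp K t := by
    intro t
    obtain ⟨k, hk, hk'⟩ := (hcomp t).sSup_mem (hne.image _)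
    exact ⟨k, hk, hk'⟩
  have hdiam : ∀ x ∈ K, ∀ y ∈ K, ‖x - y‖ ≤ 1 := by
    intro x hx y hy
    by_cases hxy : x - y = 0
    · rw [hxy]; simp
    · have hn : ‖x - y‖ ≠ 0 := norm_ne_zero_iff.mpr hxy
      obtain ⟨t, ht⟩ := exists_uv (‖x - y‖⁻¹ • (x - y)) (by
        rw [norm_smul, norm_inv, norm_norm, inv_mul_cancel₀ hn])
      have h1 := hle t x hx
      have h2 := hle (t + π) y hy
      have h3 := hw t
      rw [uv_add_pi, inner_neg_right] at h2
      have h4 : (inner ℝ (x - y) (uv t) : ℝ) = ‖x - y‖ := by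
        rw [← ht, inner_smul_right, real_inner_self_eq_norm_sq]
        field_simp
      rw [inner_sub_left] at h4
      linarith
  choose a ha ha' using hmem
  refine ⟨a, ha, fun t k hk => by rw [ha']; exact hle t k hk, fun t => ?_, hdiam⟩
  refine eq_of_inner_eq_one _ _ (norm_uv t) (hdiam _ (ha _) _ (ha _)) ?_
  have h1 := ha' t
  have h2 := ha' (t + π)
  have h3 := hw t
  rw [uv_add_pi, inner_neg_right] at h2
  rw [inner_sub_left]
  linarith

namespace SD

variable {K : Set (EuclideanSpace ℝ (Fin 2))} {a : ℝ → EuclideanSpace ℝ (Fin 2)}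

theorem strict (h : SD K a) (t : ℝ) {z : EuclideanSpace ℝ (Fin 2)} (hz : z ∈ K) :
    ‖z - a t‖ ^ 2 ≤ 2 * inner ℝ (a t - z) (uv t) := by
  have h1 := h.diam z hz _ (h.mem (t + π))
  have h2 : z - a (t + π) = (z - a t) + uv t := by rw [← h.anti t]; abel
  rw [h2] at h1
  have h3 : ‖(z - a t) + uv t‖ ^ 2 ≤ 1 := by
    have := norm_nonneg ((z - a t) + uv t)
    nlinarith
  rw [@norm_add_sq_real, norm_uv] at h3
  have h4 : (inner ℝ (a t - z) (uv t) : ℝ) = - inner ℝ (z - a t) (uv t) := by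
    rw [← inner_neg_left, neg_sub]
  rw [h4]
  linarith

theorem strict' (h : SD K a) (t : ℝ) {z : EuclideanSpace ℝ (Fin 2)} (hz : z ∈ K) :
    ‖z - a (t + π)‖ ^ 2 ≤ 2 * inner ℝ (z - a (t + π)) (uv t) := by
  have := h.strict (t + π) hz
  rw [uv_add_pi, inner_neg_right, ← inner_neg_left, neg_sub] at this
  exact this

theorem uniq (h : SD K a) (t : ℝ) {z : EuclideanSpace ℝ (Fin 2)} (hz : z ∈ K)
    (hz' : (inner ℝ (a t) (uv t) : ℝ) ≤ inner ℝ z (uv t)) : z = a t := by
  have h1 := h.strict t hz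
  rw [inner_sub_left] at h1
  have h2 : ‖z - a t‖ = 0 := by
    have := norm_nonneg (z - a t)
    nlinarith
  exact sub_eq_zero.mp (norm_eq_zero.mp h2)

theorem eq_of_uv (h : SD K a) {s t : ℝ} (hst : uv s = uv t) : a s = a t := by
  apply h.uniq t (h.mem s)
  rw [← hst]
  exact h.sup s _ (h.mem t)

theorem per (h : SD K a) (t : ℝ) : a (t + π + π) = a t :=
  h.eq_of_uv (by rw [uv_add_pi, uv_add_pi, neg_neg])

theorem anti' (h : SD K a) (t : ℝ) : a (t + π) ≠ a t := by
  intro h'
  have := h.anti t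
  rw [h', sub_self] at this
  have h2 := norm_uv t
  rw [← this, norm_zero] at h2
  exact zero_ne_one h2

theorem lip (h : SD K a) (s t : ℝ) : ‖a s - a t‖ ≤ ‖uv s - uv t‖ := by
  have h1 := h.strict t (h.mem s)
  have h2 := h.strict s (h.mem t)
  have h3 : ‖a t - a s‖ = ‖a s - a t‖ := norm_sub_rev _ _
  rw [h3] at h2
  have h4 : (inner ℝ (a s - a t) (uv s - uv t) : ℝ) ≤ ‖a s - a t‖ * ‖uv s - uv t‖ :=
    real_inner_le_norm _ _
  have h5 : (inner ℝ (a s - a t) (uv s - uv t) : ℝ) =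
      inner ℝ (a s - a t) (uv s) + inner ℝ (a t - a s) (uv t) := by
    rw [inner_sub_right, ← neg_sub (a s) (a t), inner_neg_left]; ring
  rcases (norm_nonneg (a s - a t)).eq_or_lt with h0 | h0
  · rw [← h0]; exact norm_nonneg _
  · by_contra hcon
    push Not at hcon
    nlinarith

theorem continuous_uv : Continuous uv := by
  unfold uv
  refine (PiLp.continuous_toLp 2 _).comp ?_
  refine continuous_pi ?_
  intro i
  fin_cases i
  · exact Real.continuous_cos
  · exact Real.continuous_sin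

theorem cont (h : SD K a) : Continuous a := by
  rw [continuous_iff_continuousAt]
  intro t
  rw [ContinuousAt, tendsto_iff_norm_sub_tendsto_zero]
  have h1 : Filter.Tendsto (fun s => ‖uv s - uv t‖) (nhds t) (nhds 0) := by
    rw [← tendsto_iff_norm_sub_tendsto_zero]
    exact continuous_uv.continuousAt
  exact squeeze_zero (fun s => norm_nonneg _) (fun s => h.lip s t) h1

theorem frontier_mem (h : SD K a) (t : ℝ) : a t ∈ frontier K := by
  rw [frontier_eq_closure_inter_closure]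
  refine ⟨subset_closure (h.mem t), ?_⟩
  rw [Metric.mem_closure_iff]
  intro ε hε
  refine ⟨a t + (ε / 2) • uv t, ?_, ?_⟩
  · intro hmem
    have := h.sup t _ hmem
    rw [inner_add_left, inner_smul_left, inner_uv, sub_self, cos_zero] at this
    simp at this
    linarith
  · rw [dist_eq_norm, sub_add_cancel_left, norm_neg, norm_smul, norm_uv, mul_one,
      Real.norm_of_nonneg (by positivity)]
    linarith

theorem frontier_eq (h : SD K a) (hK : IsCompact K) (hc : Convex ℝ K)
    {x : EuclideanSpace ℝ (Fin 2)} (hx : x ∈ frontier K) : ∃ t, x = a t := by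
  -- range is closed
  have hcl : IsClosed (range a) := by
    have : range a = a '' (Icc 0 (2 * π)) := by
      have hp : Function.Periodic a (2 * π) := fun t => by
        rw [show t + 2 * π = t + π + π by ring]; exact h.per t
      have := hp.image_Icc Real.two_pi_pos 0
      rw [zero_add] at this
      exact this.symm
    rw [this]
    exact (isCompact_Icc.image h.cont).isClosed
  suffices hx' : x ∈ closure (range a) by
    rw [hcl.closure_eq] at hx'
    obtain ⟨t, ht⟩ := hx'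
    exact ⟨t, ht.symm⟩
  rw [Metric.mem_closure_iff]
  intro ε hε
  rw [frontier_eq_closure_inter_closure] at hx
  obtain ⟨y, hy, hxy⟩ := Metric.mem_closure_iff.mp hx.2 (ε / 2) (by positivity)
  have hxK : x ∈ K := by
    have := hx.1
    rwa [hK.isClosed.closure_eq] at this
  obtain ⟨p, hp, hpy⟩ := exists_norm_eq_iInf_of_complete_convex ⟨_, h.mem 0⟩ hK.isComplete hc y
  have hin := (norm_eq_iInf_iff_real_inner_le_zero hc hp).mp hpy
  have hyp : y - p ≠ 0 := by
    intro h0
    rw [sub_eq_zero] at h0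
    rw [h0] at hy
    exact hy hp
  have hn : ‖y - p‖ ≠ 0 := norm_ne_zero_iff.mpr hyp
  obtain ⟨t, ht⟩ := exists_uv (‖y - p‖⁻¹ • (y - p)) (by
    rw [norm_smul, norm_inv, norm_norm, inv_mul_cancel₀ hn])
  have hpa : p = a t := by
    apply h.uniq t hp
    have := hin (a t) (h.mem t)
    rw [← ht, inner_smul_right, inner_smul_right]
    apply mul_le_mul_of_nonneg_left _ (by positivity)
    rw [real_inner_comm, inner_sub_left] at this
    linarith
  refine ⟨a t, ⟨t, rfl⟩, ?_⟩
  rw [← hpa]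
  have h1 : ‖y - p‖ ≤ ‖y - x‖ := by
    rw [hpy]
    exact ciInf_le ⟨0, by rintro _ ⟨w, rfl⟩; exact norm_nonneg _⟩ (⟨x, hxK⟩ : K)
  have h2 : dist x p ≤ dist x y + dist y p := dist_triangle _ _ _
  rw [dist_eq_norm y p] at h2
  rw [← dist_eq_norm y x, dist_comm y x] at h1
  linarith

theorem arc (h : SD K a) {s r t : ℝ} (hsr : s ≤ r) (hrt : r ≤ t) (hst : t - s < π)
    (ha : a s = a t) : a r = a s := by
  rcases eq_or_lt_of_le (hsr.trans hrt) with h0 | h0
  · have : r = s := le_antisymm (h0 ▸ hrt) hsr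
    rw [this]
  symm
  apply h.uniq r (h.mem s)
  have h1 := h.sup s _ (h.mem r)
  have h2 := h.sup t _ (h.mem r)
  rw [← ha] at h2
  have hsin : 0 < sin (t - s) := Real.sin_pos_of_pos_of_lt_pi (by linarith) hst
  have hs1 : 0 ≤ sin (t - r) := Real.sin_nonneg_of_nonneg_of_le_pi (by linarith) (by linarith)
  have hs2 : 0 ≤ sin (r - s) := Real.sin_nonneg_of_nonneg_of_le_pi (by linarith) (by linarith)
  have key : ∀ z : EuclideanSpace ℝ (Fin 2), sin (t - s) * inner ℝ z (uv r) =
      sin (t - r) * inner ℝ z (uv s) + sin (r - s) * inner ℝ z (uv t) := by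
    intro z
    have e1 : sin (t - s) * cos r = sin (t - r) * cos s + sin (r - s) * cos t := by
      rw [Real.sin_sub, Real.sin_sub, Real.sin_sub]; ring
    have e2 : sin (t - s) * sin r = sin (t - r) * sin s + sin (r - s) * sin t := by
      rw [Real.sin_sub, Real.sin_sub, Real.sin_sub]; ring
    rw [inner_E2, inner_E2, inner_E2]
    simp only [uv_0, uv_1]
    linear_combination z 0 * e1 + z 1 * e2
  have k1 := key (a r)
  have k2 := key (a s)
  have : sin (t - s) * inner ℝ (a r) (uv r) ≤ sin (t - s) * inner ℝ (a s) (uv r) := by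
    rw [k1, k2]
    exact add_le_add (mul_le_mul_of_nonneg_left h1 hs1) (mul_le_mul_of_nonneg_left h2 hs2)
  exact le_of_mul_le_mul_left this hsin

theorem of_dist (h : SD K a) {x y : EuclideanSpace ℝ (Fin 2)} (hx : x ∈ K) (hy : y ∈ K)
    (hxy : 1 ≤ dist x y) : ∃ t, x = a t ∧ y = a (t + π) := by
  have h1 : ‖x - y‖ = 1 := le_antisymm (h.diam x hx y hy) (by rwa [dist_eq_norm] at hxy)
  obtain ⟨t, ht⟩ := exists_uv _ h1
  have h2 := h.sup t x hx
  have h3 := h.sup (t + π) y hy
  have h4 : (inner ℝ (x - y) (uv t) : ℝ) = 1 := by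
    rw [ht, inner_uv, sub_self, cos_zero]
  have h5 : (inner ℝ (a t - a (t + π)) (uv t) : ℝ) = 1 := by
    rw [h.anti, inner_uv, sub_self, cos_zero]
  rw [uv_add_pi, inner_neg_right, inner_neg_right] at h3
  rw [inner_sub_left] at h4 h5
  refine ⟨t, h.uniq t hx (by linarith), h.uniq (t + π) hy ?_⟩
  rw [uv_add_pi, inner_neg_right, inner_neg_right]
  linarith


section map

variable {E : Type*} [NormedAddCommGroup E] [InnerProductSpace ℝ E]

/-- `a` is constant on a gap of `T` -/
theorem gap_const (h : SD K a) (T : Set ℝ) (hTper : ∀ t ∈ T, t + 2 * π ∈ T)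
    (hTper' : ∀ t ∈ T, t - 2 * π ∈ T)
    (hTall : ∀ t, ∃ s ∈ T, a s = a t) {p q : ℝ} (hpq : p ≤ q)
    (hgap : ∀ r ∈ Ioo p q, r ∉ T) {t : ℝ} (ht : t ∈ Icc p q) : a t = a p := by
  -- values
  have hval : ∀ t ∈ Icc p q, a t = a p ∨ a t = a q := by
    intro t ht
    rcases eq_or_lt_of_le ht.1 with h1 | h1
    · left; rw [h1]
    rcases eq_or_lt_of_le ht.2 with h2 | h2
    · right; rw [h2]
    obtain ⟨s, hs, hst⟩ := hTall t
    -- all translates of s
    have hk : ∀ k : ℤ, s + k * (2 * π) ∈ T ∧ a (s + k * (2 * π)) = a t := by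
      intro k
      have hper2 : ∀ x, a (x + 2 * π) = a x := fun x => by
        rw [show x + 2 * π = x + π + π by ring]; exact h.per x
      induction k with
      | zero => simpa using ⟨hs, hst⟩
      | succ k ih =>
        have e : s + ((k : ℤ) + 1 : ℤ) * (2 * π) = s + (k : ℤ) * (2 * π) + 2 * π := by
          push_cast; ring
        rw [e]
        exact ⟨hTper _ ih.1, by rw [hper2]; exact ih.2⟩
      | pred k ih =>
        have e : s + (-(k : ℤ) - 1 : ℤ) * (2 * π) = s + (-(k : ℤ) : ℤ) * (2 * π) - 2 * π := by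
          push_cast; ring
        rw [e]
        refine ⟨hTper' _ ih.1, ?_⟩
        rw [← hper2, sub_add_cancel]; exact ih.2
    -- choose k with |s + 2πk - t| ≤ π
    obtain ⟨k, hk1, hk2⟩ : ∃ k : ℤ, t - π ≤ s + k * (2 * π) ∧ s + k * (2 * π) < t + π := by
      refine ⟨⌈(t - π - s) / (2 * π)⌉, ?_, ?_⟩
      · have := Int.le_ceil ((t - π - s) / (2 * π))
        rw [div_le_iff₀ Real.two_pi_pos] at this
        linarith
      · have := Int.ceil_lt_add_one ((t - π - s) / (2 * π))
        have h3 : (⌈(t - π - s) / (2 * π)⌉ : ℝ) - 1 < (t - π - s) / (2 * π) := by linarith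
        rw [lt_div_iff₀ Real.two_pi_pos] at h3
        nlinarith [Real.pi_pos]
    obtain ⟨hT, ha⟩ := hk k
    set s' := s + k * (2 * π) with hs'
    have hne : s' ≠ t - π := by
      intro h'
      have h3 := h.anti' s'
      apply h3
      rw [ha, h']
      congr 1; ring
    have hlt : t - π < s' := lt_of_le_of_ne hk1 (Ne.symm hne)
    rcases le_or_gt s' p with h3 | h3
    · left
      rw [← ha]
      exact (h.arc h3 ht.1 (by linarith) ha).symm
    rcases le_or_gt q s' with h4 | h4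
    · right
      exact (h.arc ht.2 h4 (by linarith) ha.symm).symm
    · exact absurd hT (hgap _ ⟨h3, h4⟩)
  have hpq' : a p = a q := by
    by_contra hne
    have hcl := isPreconnected_closed_iff.mp (isPreconnected_Icc (a := p) (b := q))
      (a ⁻¹' {a p}) (a ⁻¹' {a q}) (isClosed_singleton.preimage h.cont)
      (isClosed_singleton.preimage h.cont) (fun t ht => hval t ht)
      ⟨p, ⟨le_refl _, hpq⟩, rfl⟩ ⟨q, ⟨hpq, le_refl _⟩, rfl⟩
    obtain ⟨t, _, h1, h2⟩ := hcl
    exact hne (h1.symm.trans h2)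
  rcases hval t ht with h1 | h1
  · exact h1
  · rw [h1, hpq']

variable {Φ : EuclideanSpace ℝ (Fin 2) → E}

omit [InnerProductSpace ℝ E] in
theorem T_all (h : SD K a) (hK : IsCompact K)
    (hΦ : ∀ x ∈ frontier K, ∀ y ∈ frontier K, dist (Φ x) (Φ y) ≤ dist x y)
    (hfar : ∀ x ∈ frontier K, ∃ y ∈ frontier K, 1 ≤ dist (Φ x) (Φ y)) (t : ℝ) :
    dist (Φ (a t)) (Φ (a (t + π))) = 1 := by
  have hd1 : ∀ t, dist (a t) (a (t + π)) = 1 := fun t => by
    rw [dist_eq_norm, h.anti, norm_uv]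
  have hfK : ∀ x ∈ frontier K, x ∈ K := fun x hx => by
    rw [← hK.isClosed.closure_eq]; exact frontier_subset_closure hx
  obtain ⟨T, hT⟩ : ∃ T : Set ℝ, T = {t | 1 ≤ dist (Φ (a t)) (Φ (a (t + π)))} := ⟨_, rfl⟩
  have hmemT : ∀ t, t ∈ T ↔ 1 ≤ dist (Φ (a t)) (Φ (a (t + π))) := fun t => by rw [hT]; rfl
  have hTpi : ∀ t, t + π ∈ T ↔ t ∈ T := by
    intro t
    rw [hmemT, hmemT, h.per, dist_comm]
  have hTp : ∀ t ∈ T, t + 2 * π ∈ T := fun t ht => by
    rw [show t + 2 * π = t + π + π by ring, hTpi, hTpi]; exact ht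
  have hTp' : ∀ t ∈ T, t - 2 * π ∈ T := fun t ht => by
    rw [← hTpi, ← hTpi]; convert ht using 1; ring
  have hTmpi : ∀ t, t - π ∈ T ↔ t ∈ T := by
    intro t
    rw [← hTpi, sub_add_cancel]
  have hΦc : Continuous (fun t => Φ (a t)) := by
    rw [continuous_iff_continuousAt]
    intro t
    rw [ContinuousAt, tendsto_iff_dist_tendsto_zero]
    refine squeeze_zero (fun s => dist_nonneg)
      (fun s => hΦ _ (h.frontier_mem s) _ (h.frontier_mem t)) ?_
    rw [← tendsto_iff_dist_tendsto_zero]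
    exact h.cont.continuousAt
  have hTcl : IsClosed T := by
    rw [hT]
    exact isClosed_le continuous_const (hΦc.dist (hΦc.comp (continuous_add_const π)))
  have hTall : ∀ t, ∃ s ∈ T, a s = a t := by
    intro t
    obtain ⟨y, hy, hy'⟩ := hfar _ (h.frontier_mem t)
    obtain ⟨s, hs, hs'⟩ := h.of_dist (h.mem t) (hfK y hy)
      (hy'.trans (hΦ _ (h.frontier_mem t) _ hy))
    refine ⟨s, ?_, hs.symm⟩
    rw [hmemT, ← hs, ← hs']
    exact hy'
  have htT : t ∈ T := by
    by_contra htT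
    -- T is nonempty, and has points to the left and to the right of t
    obtain ⟨s0, hs0, -⟩ := hTall t
    have hkT : ∀ k : ℕ, s0 - k * π ∈ T ∧ s0 + k * π ∈ T := by
      intro k
      induction k with
      | zero => simpa using hs0
      | succ k ih =>
        constructor
        · rw [← hTpi]; convert ih.1 using 1; push_cast; ring
        · rw [← hTmpi]; convert ih.2 using 1; push_cast; ring
    have hL : (T ∩ Iic t).Nonempty := by
      obtain ⟨k, hk⟩ := exists_nat_ge ((s0 - t) / π)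
      rw [div_le_iff₀ Real.pi_pos] at hk
      exact ⟨_, (hkT k).1, by simp only [mem_Iic]; linarith⟩
    have hR : (T ∩ Ici t).Nonempty := by
      obtain ⟨k, hk⟩ := exists_nat_ge ((t - s0) / π)
      rw [div_le_iff₀ Real.pi_pos] at hk
      exact ⟨_, (hkT k).2, by simp only [mem_Ici]; linarith⟩
    have hLb : BddAbove (T ∩ Iic t) := ⟨t, fun x hx => hx.2⟩
    have hRb : BddBelow (T ∩ Ici t) := ⟨t, fun x hx => hx.2⟩
    have hLm := (hTcl.inter isClosed_Iic).csSup_mem hL hLb
    have hRm := (hTcl.inter isClosed_Ici).csInf_mem hR hRb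
    set p := sSup (T ∩ Iic t) with hp
    set q := sInf (T ∩ Ici t) with hq
    have hpt : p < t := lt_of_le_of_ne hLm.2 (fun e => htT (e ▸ hLm.1))
    have htq : t < q := lt_of_le_of_ne hRm.2 (fun e => htT (e ▸ hRm.1))
    have hgap : ∀ r ∈ Ioo p q, r ∉ T := by
      intro r hr hrT
      rcases le_total r t with h1 | h1
      · exact absurd (le_csSup hLb ⟨hrT, h1⟩) (not_le.mpr hr.1)
      · exact absurd (csInf_le hRb ⟨hrT, h1⟩) (not_le.mpr hr.2)
    have hgap' : ∀ r ∈ Ioo (p + π) (q + π), r ∉ T := by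
      intro r hr hrT
      rw [← hTmpi] at hrT
      exact hgap _ ⟨by linarith [hr.1], by linarith [hr.2]⟩ hrT
    obtain ⟨r, hr1, hr2, hr3⟩ : ∃ r, p < r ∧ r ≤ q ∧ r ≤ p + 1 :=
      ⟨min q (p + 1), lt_min (by linarith) (by linarith), min_le_left _ _, min_le_right _ _⟩
    have e1 : a r = a p := h.gap_const T hTp hTp' hTall (by linarith) hgap ⟨hr1.le, hr2⟩
    have e2 : a (r + π) = a (p + π) :=
      h.gap_const T hTp hTp' hTall (by linarith) hgap' ⟨by linarith, by linarith⟩
    have e3 : uv r = uv p := by rw [← h.anti, ← h.anti, e1, e2]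
    have e4 : (inner ℝ (uv r) (uv p) : ℝ) = 1 := by
      rw [e3, inner_uv, sub_self, cos_zero]
    rw [inner_uv] at e4
    have := Real.cos_lt_cos_of_nonneg_of_le_pi (le_refl 0)
      (by linarith [Real.pi_gt_three] : r - p ≤ π) (by linarith)
    rw [cos_zero] at this
    linarith
  rw [hmemT] at htT
  exact le_antisymm ((hΦ _ (h.frontier_mem t) _ (h.frontier_mem _)).trans_eq (hd1 t)) htT

/-- The quadrilateral identity. -/
theorem quad_identity {F : Type*} [NormedAddCommGroup F] [InnerProductSpace ℝ F]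
    (X X' Y Y' : F) (l n : ℝ) :
    ‖l • X + (1 - l) • X' - (1 - n) • Y - n • Y'‖ ^ 2 =
      -(l * (1 - l) * ‖X - X'‖ ^ 2 + (1 - n) * n * ‖Y - Y'‖ ^ 2 - l * (1 - n) * ‖X - Y‖ ^ 2
        - l * n * ‖X - Y'‖ ^ 2 - (1 - l) * (1 - n) * ‖X' - Y‖ ^ 2 - (1 - l) * n * ‖X' - Y'‖ ^ 2) := by
  simp only [← real_inner_self_eq_norm_sq, inner_sub_left, inner_sub_right, inner_add_left,
    inner_add_right, inner_smul_left, inner_smul_right, RCLike.conj_to_real]
  rw [real_inner_comm X X', real_inner_comm X Y, real_inner_comm X Y', real_inner_comm X' Y,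
    real_inner_comm X' Y', real_inner_comm Y Y']
  ring

theorem quad (h : SD K a) 
    (hΦ : ∀ x ∈ frontier K, ∀ y ∈ frontier K, dist (Φ x) (Φ y) ≤ dist x y)
    (hT : ∀ t, dist (Φ (a t)) (Φ (a (t + π))) = 1) (t f : ℝ) (hne : a (t + π) ≠ a (f + π)) :
    dist (Φ (a t)) (Φ (a f)) = dist (a t) (a f) := by
  have hd1 : ∀ t, dist (a t) (a (t + π)) = 1 := fun t => by
    rw [dist_eq_norm, h.anti, norm_uv]
  by_cases hs : sin (f - t) = 0
  · -- parallel directions
    have hcos : cos (f - t) = 1 ∨ cos (f - t) = -1 := by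
      have := Real.sin_sq_add_cos_sq (f - t)
      rw [hs] at this
      have : (cos (f - t) - 1) * (cos (f - t) + 1) = 0 := by nlinarith
      rcases mul_eq_zero.mp this with h1 | h1
      · left; linarith
      · right; linarith
    rcases hcos with h1 | h1
    · have : uv f = uv t :=
        eq_of_inner_eq_one _ _ (norm_uv t) (norm_uv f).le (by rw [inner_uv]; linarith)
      rw [h.eq_of_uv this, dist_self, dist_self]
    · have : uv f = uv (t + π) :=
        eq_of_inner_eq_one _ _ (norm_uv _) (norm_uv f).le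
          (by rw [uv_add_pi, inner_neg_right, inner_uv]; linarith)
      rw [h.eq_of_uv this, hT, hd1]
  -- coordinates
  obtain ⟨c, hc⟩ : ∃ c, c = cos (f - t) := ⟨_, rfl⟩
  have hc2 : c ^ 2 < 1 := by
    have := Real.sin_sq_add_cos_sq (f - t)
    rw [← hc] at this
    have : 0 < sin (f - t) ^ 2 := by positivity
    linarith
  have htf : (inner ℝ (uv t) (uv f) : ℝ) = c := by
    rw [inner_uv, hc, ← Real.cos_neg]; congr 1; ring
  have hft : (inner ℝ (uv f) (uv t) : ℝ) = c := by rw [inner_uv, hc]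
  have htt : (inner ℝ (uv t) (uv t) : ℝ) = 1 := by rw [inner_uv, sub_self, cos_zero]
  have hff : (inner ℝ (uv f) (uv f) : ℝ) = 1 := by rw [inner_uv, sub_self, cos_zero]
  obtain ⟨l, n, hln⟩ : ∃ l n : ℝ, a f - a (t + π) = l • uv t + n • uv f := by
    refine ⟨((a f - a (t + π)) 0 * sin f - (a f - a (t + π)) 1 * cos f) / sin (f - t),
      (cos t * (a f - a (t + π)) 1 - sin t * (a f - a (t + π)) 0) / sin (f - t), ?_⟩
    ext i
    have hs' := hs
    rw [Real.sin_sub] at hs'
    fin_cases i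
    · simp only [Fin.zero_eta, PiLp.add_apply, PiLp.smul_apply, uv_0, smul_eq_mul]
      rw [Real.sin_sub]
      field_simp
      ring
    · simp only [Fin.mk_one, PiLp.add_apply, PiLp.smul_apply, uv_1, smul_eq_mul]
      rw [Real.sin_sub]
      field_simp
      ring
  have hAA := h.anti t
  have hBB := h.anti f
  have hAB : a t - a f = (1 - l) • uv t - n • uv f := by
    have : a t - a f = (a t - a (t + π)) - (a f - a (t + π)) := by abel
    rw [this, hAA, hln, sub_smul, one_smul]; abel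
  have hA'B' : a (t + π) - a (f + π) = (1 - n) • uv f - l • uv t := by
    have : a (t + π) - a (f + π) = (a f - a (f + π)) - (a f - a (t + π)) := by abel
    rw [this, hBB, hln, sub_smul, one_smul]; abel
  have hAB' : a t - a (f + π) = (1 - l) • uv t + (1 - n) • uv f := by
    have : a t - a (f + π) = (a t - a (t + π)) + (a f - a (f + π)) - (a f - a (t + π)) := by abel
    rw [this, hAA, hBB, hln, sub_smul, sub_smul, one_smul, one_smul]; abel
  -- inequalities
  have i1 : 0 ≤ (1 - l) - n * c := by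
    have := h.strict t (h.mem f)
    rw [hAB, inner_sub_left, inner_smul_left, inner_smul_left, htt, hft] at this
    simp only [RCLike.conj_to_real, mul_one] at this
    nlinarith [sq_nonneg ‖a f - a t‖]
  have i2 : 0 ≤ (1 - l) + (1 - n) * c := by
    have := h.strict t (h.mem (f + π))
    rw [hAB', inner_add_left, inner_smul_left, inner_smul_left, htt, hft] at this
    simp only [RCLike.conj_to_real, mul_one] at this
    nlinarith [sq_nonneg ‖a (f + π) - a t‖]
  have i3 : ‖a f - a (t + π)‖ ^ 2 ≤ 2 * (l + n * c) := by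
    have := h.strict' t (h.mem f)
    conv_rhs at this => rw [hln, inner_add_left, inner_smul_left, inner_smul_left, htt, hft]
    simpa only [RCLike.conj_to_real, mul_one] using this
  have i4 : ‖a (f + π) - a (t + π)‖ ^ 2 ≤ 2 * (l - (1 - n) * c) := by
    have := h.strict' t (h.mem (f + π))
    conv_rhs at this => rw [← neg_sub, hA'B', inner_neg_left, inner_sub_left, inner_smul_left,
      inner_smul_left, htt, hft]
    simp only [RCLike.conj_to_real, mul_one] at this
    linarith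
  have i5 : 0 ≤ n - (1 - l) * c := by
    have := h.strict f (h.mem t)
    rw [← neg_sub (a t) (a f), inner_neg_left, hAB, inner_sub_left, inner_smul_left,
      inner_smul_left, hff, htf] at this
    simp only [RCLike.conj_to_real, mul_one] at this
    nlinarith [sq_nonneg ‖a t - a f‖]
  have i6 : 0 ≤ n + l * c := by
    have := h.strict f (h.mem (t + π))
    rw [hln, inner_add_left, inner_smul_left, inner_smul_left, hff, htf] at this
    simp only [RCLike.conj_to_real, mul_one] at this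
    nlinarith [sq_nonneg ‖a (t + π) - a f‖]
  have i7 : ‖a t - a (f + π)‖ ^ 2 ≤ 2 * ((1 - n) + (1 - l) * c) := by
    have := h.strict' f (h.mem t)
    conv_rhs at this => rw [hAB', inner_add_left, inner_smul_left, inner_smul_left, hff, htf]
    simp only [RCLike.conj_to_real, mul_one] at this
    linarith
  have i8 : ‖a (t + π) - a (f + π)‖ ^ 2 ≤ 2 * ((1 - n) - l * c) := by
    have := h.strict' f (h.mem (t + π))
    conv_rhs at this => rw [hA'B', inner_sub_left, inner_smul_left, inner_smul_left, hff, htf]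
    simpa only [RCLike.conj_to_real, mul_one] using this
  have hpos : 0 < ‖a (t + π) - a (f + π)‖ ^ 2 := by
    have := norm_pos_iff.mpr (sub_ne_zero.mpr hne)
    positivity
  have hpos' : 0 < ‖a (f + π) - a (t + π)‖ ^ 2 := by
    rw [norm_sub_rev]; exact hpos
  have hrange : 0 ≤ l ∧ 0 ≤ 1 - l ∧ 0 ≤ n ∧ 0 ≤ 1 - n := by
    have i3' : 0 ≤ l + n * c := by linarith [sq_nonneg ‖a f - a (t + π)‖]
    have i4' : 0 ≤ l - (1 - n) * c := by linarith
    have i7' : 0 ≤ (1 - n) + (1 - l) * c := by linarith [sq_nonneg ‖a t - a (f + π)‖]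
    have i8' : 0 ≤ (1 - n) - l * c := by linarith
    have hc3 : 0 < 1 - c ^ 2 := by linarith
    rcases le_total 0 c with h0 | h0
    · have j1 : 0 ≤ l * (1 - c ^ 2) := by linarith [mul_nonneg i8' h0]
      have hl : 0 ≤ l := nonneg_of_mul_nonneg_left j1 hc3
      have hn1 : 0 ≤ 1 - n := by linarith [mul_nonneg hl h0]
      have j2 : 0 ≤ (1 - l) * (1 - c ^ 2) := by linarith [mul_nonneg i5 h0]
      have hl1 : 0 ≤ 1 - l := nonneg_of_mul_nonneg_left j2 hc3
      have hn : 0 ≤ n := by linarith [mul_nonneg hl1 h0]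
      exact ⟨hl, hl1, hn, hn1⟩
    · have h0' := neg_nonneg.mpr h0
      have j1 : 0 ≤ (1 - l) * (1 - c ^ 2) := by linarith [mul_nonneg i7' h0']
      have hl1 : 0 ≤ 1 - l := nonneg_of_mul_nonneg_left j1 hc3
      have hn1 : 0 ≤ 1 - n := by linarith [mul_nonneg hl1 h0']
      have j2 : 0 ≤ l * (1 - c ^ 2) := by linarith [mul_nonneg i6 h0']
      have hl : 0 ≤ l := nonneg_of_mul_nonneg_left j2 hc3
      have hn : 0 ≤ n := by linarith [mul_nonneg hl h0']
      exact ⟨hl, hl1, hn, hn1⟩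
  obtain ⟨hl, hl1, hn, hn1⟩ := hrange
  -- the identity in the plane
  have hzero : l • a t + (1 - l) • a (t + π) - (1 - n) • a f - n • a (f + π) = 0 := by
    have e1 : l • a t + (1 - l) • a (t + π) = a (t + π) + l • uv t := by
      rw [← hAA]; module
    have e2 : (1 - n) • a f + n • a (f + π) = a f - n • uv f := by
      rw [← hBB]; module
    have e3 : l • a t + (1 - l) • a (t + π) - (1 - n) • a f - n • a (f + π) =
      (l • a t + (1 - l) • a (t + π)) - ((1 - n) • a f + n • a (f + π)) := by abel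
    rw [e3, e1, e2]
    have : a f = a (t + π) + (l • uv t + n • uv f) := by rw [← hln]; abel
    rw [this]; abel
  have q1 := quad_identity (a t) (a (t + π)) (a f) (a (f + π)) l n
  rw [hzero, norm_zero] at q1
  have q2 := quad_identity (Φ (a t)) (Φ (a (t + π))) (Φ (a f)) (Φ (a (f + π))) l n
  have q3 := sq_nonneg ‖l • Φ (a t) + (1 - l) • Φ (a (t + π)) - (1 - n) • Φ (a f) - n • Φ (a (f + π))‖
  rw [q2] at q3
  have hT1 := hT t
  have hT2 := hT f
  have hD1 := hd1 t
  have hD2 := hd1 f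
  rw [dist_eq_norm] at hT1 hT2 hD1 hD2
  rw [hT1, hT2] at q3
  rw [hD1, hD2] at q1
  have hsq : ∀ s r, ‖Φ (a s) - Φ (a r)‖ ^ 2 ≤ ‖a s - a r‖ ^ 2 := by
    intro s r
    have := hΦ _ (h.frontier_mem s) _ (h.frontier_mem r)
    rw [dist_eq_norm, dist_eq_norm] at this
    exact pow_le_pow_left₀ (norm_nonneg _) this 2
  have g1 := mul_le_mul_of_nonneg_left (hsq t (f + π)) (mul_nonneg hl hn)
  have g2 := mul_le_mul_of_nonneg_left (hsq (t + π) f) (mul_nonneg hl1 hn1)
  have g3 := mul_le_mul_of_nonneg_left (hsq (t + π) (f + π)) (mul_nonneg hl1 hn)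
  have g4 : l * (1 - n) * ‖a t - a f‖ ^ 2 ≤ l * (1 - n) * ‖Φ (a t) - Φ (a f)‖ ^ 2 := by linarith
  rcases hl.eq_or_lt with hl0 | hl0
  · -- l = 0
    rw [← hl0] at i3 i4 i8
    rcases le_total 0 c with h0 | h0
    · have := mul_nonneg hn1 h0
      linarith
    · -- n * c ≥ 0
      have h5 := mul_nonneg hn (neg_nonneg.mpr h0)
      have h6 : ‖a f - a (t + π)‖ ^ 2 = 0 := le_antisymm (by linarith) (sq_nonneg _)
      have h7 : a f = a (t + π) := sub_eq_zero.mp (norm_eq_zero.mp (pow_eq_zero_iff two_ne_zero |>.mp h6))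
      rw [h7, hT, hd1]
  rcases hn1.eq_or_lt with hn0 | hn0
  · rw [← hn0] at i7 i8
    rcases le_total 0 c with h0 | h0
    · have := mul_nonneg hl0.le h0
      linarith
    · have h5 := mul_nonneg hl1 (neg_nonneg.mpr h0)
      have h6 : ‖a t - a (f + π)‖ ^ 2 = 0 := le_antisymm (by linarith) (sq_nonneg _)
      have h7 : a t = a (f + π) := sub_eq_zero.mp (norm_eq_zero.mp (pow_eq_zero_iff two_ne_zero |>.mp h6))
      rw [h7, dist_comm, hT, dist_comm (a (f + π)), hd1]
  · have g5 : ‖a t - a f‖ ^ 2 ≤ ‖Φ (a t) - Φ (a f)‖ ^ 2 :=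
      le_of_mul_le_mul_left g4 (mul_pos hl0 hn0)
    have g6 := hsq t f
    rw [dist_eq_norm, dist_eq_norm]
    exact (pow_left_inj₀ (norm_nonneg _) (norm_nonneg _) two_ne_zero).mp (le_antisymm g6 g5)

theorem cramer (P P' w : EuclideanSpace ℝ (Fin 2)) (hD : P 0 * P' 1 - P 1 * P' 0 ≠ 0) :
    ∃ c1 c2 : ℝ, w = c1 • P + c2 • P' := by
  refine ⟨(w 0 * P' 1 - w 1 * P' 0) / (P 0 * P' 1 - P 1 * P' 0),
    (P 0 * w 1 - P 1 * w 0) / (P 0 * P' 1 - P 1 * P' 0), ?_⟩
  ext i
  fin_cases i
  · simp only [Fin.zero_eta, PiLp.add_apply, PiLp.smul_apply, smul_eq_mul]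
    rw [div_mul_eq_mul_div, div_mul_eq_mul_div, ← add_div, eq_div_iff hD]
    ring
  · simp only [Fin.mk_one, PiLp.add_apply, PiLp.smul_apply, smul_eq_mul]
    rw [div_mul_eq_mul_div, div_mul_eq_mul_div, ← add_div, eq_div_iff hD]
    ring

/-- equal distances give equal inner products -/
theorem inner_of_dist {F : Type*} [NormedAddCommGroup F] [InnerProductSpace ℝ F]
    {x y v : EuclideanSpace ℝ (Fin 2)} {X Y V : F} (h1 : dist X V = dist x v)
    (h2 : dist Y V = dist y v) (h3 : dist X Y = dist x y) :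
    (inner ℝ (X - V) (Y - V) : ℝ) = inner ℝ (x - v) (y - v) := by
  rw [dist_eq_norm, dist_eq_norm] at h1 h2 h3
  have e1 := @norm_sub_sq_real F _ _ (X - V) (Y - V)
  have e2 := @norm_sub_sq_real (EuclideanSpace ℝ (Fin 2)) _ _ (x - v) (y - v)
  rw [sub_sub_sub_cancel_right, h1, h2, h3] at e1
  rw [sub_sub_sub_cancel_right] at e2
  linarith

theorem gram' {z z' v A B : EuclideanSpace ℝ (Fin 2)}
    (h1 : dist (Φ A) (Φ v) = dist A v) (h2 : dist (Φ B) (Φ v) = dist B v)
    (h3 : dist (Φ z) (Φ v) = dist z v) (h4 : dist (Φ z') (Φ v) = dist z' v)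
    (h5 : dist (Φ A) (Φ z) = dist A z) (h6 : dist (Φ A) (Φ z') = dist A z')
    (h7 : dist (Φ B) (Φ z) = dist B z) (h8 : dist (Φ B) (Φ z') = dist B z')
    (h9 : dist (Φ z) (Φ z') = dist z z')
    (hD : (z - v) 0 * (z' - v) 1 - (z - v) 1 * (z' - v) 0 ≠ 0) :
    dist (Φ A) (Φ B) = dist A B := by
  obtain ⟨c1, c2, hc⟩ := cramer (z - v) (z' - v) (A - v) hD
  have AA := inner_of_dist h1 h1 (by rw [dist_self, dist_self] : dist (Φ A) (Φ A) = dist A A)
  have BB := inner_of_dist h2 h2 (by rw [dist_self, dist_self] : dist (Φ B) (Φ B) = dist B B)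
  have ZZ := inner_of_dist h3 h3 (by rw [dist_self, dist_self] : dist (Φ z) (Φ z) = dist z z)
  have ZZ' := inner_of_dist h4 h4 (by rw [dist_self, dist_self] : dist (Φ z') (Φ z') = dist z' z')
  have AZ := inner_of_dist h1 h3 h5
  have AZ' := inner_of_dist h1 h4 h6
  have BZ := inner_of_dist h2 h3 h7
  have BZ' := inner_of_dist h2 h4 h8
  have Z9 := inner_of_dist h3 h4 h9
  have hX : Φ A - Φ v = c1 • (Φ z - Φ v) + c2 • (Φ z' - Φ v) := by
    have e : ∀ {F : Type _} [NormedAddCommGroup F] [InnerProductSpace ℝ F] (X Z Z' : F),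
        (inner ℝ (X - (c1 • Z + c2 • Z')) (X - (c1 • Z + c2 • Z')) : ℝ) =
        inner ℝ X X + c1 ^ 2 * inner ℝ Z Z + c2 ^ 2 * inner ℝ Z' Z' - 2 * c1 * inner ℝ X Z
          - 2 * c2 * inner ℝ X Z' + 2 * c1 * c2 * inner ℝ Z Z' := by
      intro F _ _ X Z Z'
      simp only [inner_sub_left, inner_sub_right, inner_add_left,
        inner_add_right, inner_smul_left, inner_smul_right, RCLike.conj_to_real]
      rw [real_inner_comm X Z, real_inner_comm X Z', real_inner_comm Z Z']
      ring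
    have e1 : (inner ℝ ((A - v) - (c1 • (z - v) + c2 • (z' - v)))
        ((A - v) - (c1 • (z - v) + c2 • (z' - v))) : ℝ) = 0 := by
      rw [hc, sub_self, inner_zero_left]
    have e2 : (inner ℝ ((Φ A - Φ v) - (c1 • (Φ z - Φ v) + c2 • (Φ z' - Φ v)))
        ((Φ A - Φ v) - (c1 • (Φ z - Φ v) + c2 • (Φ z' - Φ v))) : ℝ) = 0 := by
      have e3 : (inner ℝ ((A - v) - (c1 • (z - v) + c2 • (z' - v)))
        ((A - v) - (c1 • (z - v) + c2 • (z' - v))) : ℝ) =
        inner ℝ (A - v) (A - v) + c1 ^ 2 * inner ℝ (z - v) (z - v) +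
          c2 ^ 2 * inner ℝ (z' - v) (z' - v) - 2 * c1 * inner ℝ (A - v) (z - v)
          - 2 * c2 * inner ℝ (A - v) (z' - v) + 2 * c1 * c2 * inner ℝ (z - v) (z' - v) := by
        simp only [inner_sub_left (𝕜 := ℝ) (A - v), inner_sub_right (𝕜 := ℝ) _ (A - v),
          inner_add_left,
          inner_add_right, inner_smul_left, inner_smul_right, RCLike.conj_to_real]
        rw [real_inner_comm (A - v) (z - v), real_inner_comm (A - v) (z' - v),
          real_inner_comm (z - v) (z' - v)]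
        ring
      rw [e, AA, ZZ, ZZ', AZ, AZ', Z9, ← e3, e1]
    exact sub_eq_zero.mp (inner_self_eq_zero.mp e2)
  have AB : (inner ℝ (Φ A - Φ v) (Φ B - Φ v) : ℝ) = inner ℝ (A - v) (B - v) := by
    rw [hX, hc, inner_add_left, inner_add_left, inner_smul_left, inner_smul_left, inner_smul_left,
      inner_smul_left, real_inner_comm (Φ B - Φ v) (Φ z - Φ v),
      real_inner_comm (Φ B - Φ v) (Φ z' - Φ v),
      real_inner_comm (B - v) (z - v), real_inner_comm (B - v) (z' - v), BZ, BZ']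
  have f1 := @norm_sub_sq_real E _ _ (Φ A - Φ v) (Φ B - Φ v)
  have f2 := @norm_sub_sq_real (EuclideanSpace ℝ (Fin 2)) _ _ (A - v) (B - v)
  rw [dist_eq_norm, dist_eq_norm] at h1 h2
  rw [sub_sub_sub_cancel_right, h1, h2, AB] at f1
  rw [sub_sub_sub_cancel_right] at f2
  rw [dist_eq_norm, dist_eq_norm]
  exact (pow_left_inj₀ (norm_nonneg _) (norm_nonneg _) two_ne_zero).mp (f1.trans f2.symm)

theorem all_pairs (h : SD K a) 
    (hΦ : ∀ x ∈ frontier K, ∀ y ∈ frontier K, dist (Φ x) (Φ y) ≤ dist x y)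
    (hT : ∀ t, dist (Φ (a t)) (Φ (a (t + π))) = 1) (t f : ℝ) :
    dist (Φ (a t)) (Φ (a f)) = dist (a t) (a f) := by
  by_cases hne : a (t + π) = a (f + π)
  swap
  · exact h.quad hΦ hT t f hne
  by_cases hAB : a t = a f
  · rw [hAB, dist_self, dist_self]
  have hd1 : ∀ t, dist (a t) (a (t + π)) = 1 := fun t => by
    rw [dist_eq_norm, h.anti, norm_uv]
  -- a direction n with a n ≠ v, a (n + π) ≠ v
  obtain ⟨n, hn1, hn2⟩ : ∃ n, a n ≠ a (t + π) ∧ a (n + π) ≠ a (t + π) := by
    by_contra hcon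
    push Not at hcon
    have hcl := isPreconnected_closed_iff.mp (isPreconnected_univ (α := ℝ))
      (a ⁻¹' {a (t + π)}) ((fun r => a (r + π)) ⁻¹' {a (t + π)})
      (isClosed_singleton.preimage h.cont)
      (isClosed_singleton.preimage (h.cont.comp (continuous_add_const π)))
      (fun r _ => by
        by_cases hr : a r = a (t + π)
        · exact Or.inl hr
        · exact Or.inr (hcon r hr))
      ⟨t + π, trivial, rfl⟩ ⟨t, trivial, rfl⟩
    obtain ⟨r, _, h1, h2⟩ := hcl
    exact h.anti' r (h2.trans h1.symm)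
  have hD : (a n - a (t + π)) 0 * (a (n + π) - a (t + π)) 1 -
      (a n - a (t + π)) 1 * (a (n + π) - a (t + π)) 0 ≠ 0 := by
    intro h0
    have hid : ∀ x y : EuclideanSpace ℝ (Fin 2),
        (inner ℝ (a n - a (t + π)) x : ℝ) * inner ℝ (a (n + π) - a (t + π)) y =
        inner ℝ (a n - a (t + π)) y * inner ℝ (a (n + π) - a (t + π)) x := by
      intro x y
      simp only [inner_E2]
      linear_combination (x 0 * y 1 - x 1 * y 0) * h0
    have s1 := h.strict n (h.mem (t + π))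
    have s2 := h.strict' n (h.mem (t + π))
    have s3 := h.strict (t + π) (h.mem n)
    have s4 := h.strict (t + π) (h.mem (n + π))
    have p1 : 0 < ‖a n - a (t + π)‖ ^ 2 := by
      have := norm_pos_iff.mpr (sub_ne_zero.mpr hn1); positivity
    have p2 : 0 < ‖a (n + π) - a (t + π)‖ ^ 2 := by
      have := norm_pos_iff.mpr (sub_ne_zero.mpr hn2); positivity
    rw [norm_sub_rev] at s1 s2
    have r1 : 0 < (inner ℝ (a n - a (t + π)) (uv n) : ℝ) := by linarith
    have r2 : (inner ℝ (a (n + π) - a (t + π)) (uv n) : ℝ) < 0 := by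
      rw [← neg_sub (a (n + π)), inner_neg_left] at s2; linarith
    have r3 : (inner ℝ (a n - a (t + π)) (uv (t + π)) : ℝ) < 0 := by
      rw [← neg_sub (a n), inner_neg_left] at s3; linarith
    have r4 : (inner ℝ (a (n + π) - a (t + π)) (uv (t + π)) : ℝ) < 0 := by
      rw [← neg_sub (a (n + π)), inner_neg_left] at s4; linarith
    have := hid (uv n) (uv (t + π))
    have g1 := mul_neg_of_pos_of_neg r1 r4
    have g2 := mul_pos_of_neg_of_neg r3 r2
    linarith
  -- distances from v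
  have hvany : ∀ r, dist (Φ (a r)) (Φ (a (t + π))) = dist (a r) (a (t + π)) := by
    intro r
    by_cases hr : a (r + π) = a t
    · rw [hne]
      apply h.quad hΦ hT
      rw [h.per, hr]
      exact hAB
    · apply h.quad hΦ hT
      rw [h.per]
      exact hr
  refine gram' (z := a n) (z' := a (n + π)) (v := a (t + π)) (hvany t) (hvany f) (hvany n)
    (hvany (n + π)) ?_ ?_ ?_ ?_ ?_ hD
  · exact h.quad hΦ hT _ _ hn2.symm
  · exact h.quad hΦ hT _ _ (by rw [h.per]; exact hn1.symm)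
  · exact h.quad hΦ hT _ _ (by rw [← hne]; exact hn2.symm)
  · exact h.quad hΦ hT _ _ (by rw [h.per, ← hne]; exact hn1.symm)
  · rw [hT, hd1]

end map

end SD

/-- a nonexpanding map on the boundary of a body of constant width one, such that every point
has an image at distance at least one, is an isometry -/
theorem rigid {E : Type*} [NormedAddCommGroup E] [InnerProductSpace ℝ E]
    (K : Set (EuclideanSpace ℝ (Fin 2))) (hK : IsCompact K) (hc : Convex ℝ K) (hne : K.Nonempty)
    (hw : ∀ t, supp K t + supp K (t + π) = 1)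
    (Φ : EuclideanSpace ℝ (Fin 2) → E)
    (hΦ : ∀ x ∈ frontier K, ∀ y ∈ frontier K, dist (Φ x) (Φ y) ≤ dist x y)
    (hfar : ∀ x ∈ frontier K, ∃ y ∈ frontier K, 1 ≤ dist (Φ x) (Φ y)) :
    ∀ x ∈ frontier K, ∀ y ∈ frontier K, dist (Φ x) (Φ y) = dist x y := by
  intro x hx y hy
  obtain ⟨a, h⟩ := exists_SD K hK hne hw
  obtain ⟨s, rfl⟩ := h.frontier_eq hK hc hx
  obtain ⟨t, rfl⟩ := h.frontier_eq hK hc hy
  exact h.all_pairs hΦ (h.T_all hK hΦ hfar) s t

end Pool.Agent.Helper679.Curve.J1135
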