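import Pool.Agent.Helper679.CurveBasic

set_option autoImplicit false

open Real Set

namespace Pool.Agent.Helper679.Curve.J1136



theorem uv_norm (t : ℝ) : ‖uv t‖ = 1 := by
  rw [EuclideanSpace.norm_eq, Fin.sum_univ_two]
  simp [uv]

theorem uv_add_pi (t : ℝ) : uv (t + π) = -uv t := by
  ext i
  fin_cases i <;> simp [uv]

theorem exists_uv (v : EuclideanSpace ℝ (Fin 2)) : ∃ t, v = ‖v‖ • uv t := by
  set z : ℂ := ⟨v 0, v 1⟩ with hz
  have hn : ‖v‖ = ‖z‖ := by
    rw [EuclideanSpace.norm_eq, Fin.sum_univ_two, Complex.norm_def, Complex.normSq_apply, hz]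
    simp [pow_two]
  refine ⟨Complex.arg z, ?_⟩
  rw [hn]
  ext i
  fin_cases i
  · have := Complex.norm_mul_cos_arg z
    simp only [uv, PiLp.smul_apply, smul_eq_mul]
    exact this.symm
  · have := Complex.norm_mul_sin_arg z
    simp only [uv, PiLp.smul_apply, smul_eq_mul]
    exact this.symm

theorem supp_bdd (K : Set (EuclideanSpace ℝ (Fin 2))) (hK : IsCompact K) (t : ℝ) :
    BddAbove ((fun k => inner ℝ k (uv t)) '' K) :=
  (hK.image (by fun_prop)).bddAbove

theorem le_supp (K : Set (EuclideanSpace ℝ (Fin 2))) (hK : IsCompact K) (t : ℝ)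
    {k : EuclideanSpace ℝ (Fin 2)} (hk : k ∈ K) : inner ℝ k (uv t) ≤ supp K t :=
  le_csSup (supp_bdd K hK t) ⟨k, hk, rfl⟩

theorem supp_att (K : Set (EuclideanSpace ℝ (Fin 2))) (hK : IsCompact K) (hne : K.Nonempty)
    (t : ℝ) : ∃ k ∈ K, inner ℝ k (uv t) = supp K t := by
  have h : (((fun k => inner ℝ k (uv t)) '' K)).Nonempty := hne.image _
  have hc : IsCompact ((fun k => inner ℝ k (uv t)) '' K) := hK.image (by fun_prop)
  obtain ⟨k, hk, hk2⟩ := hc.sSup_mem h
  exact ⟨k, hk, hk2⟩

theorem supp_eq (K : Set (EuclideanSpace ℝ (Fin 2))) (hK : IsCompact K) (t : ℝ)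
    {x : EuclideanSpace ℝ (Fin 2)} (hx : x ∈ K)
    (h : ∀ k ∈ K, inner ℝ k (uv t) ≤ inner ℝ x (uv t)) : supp K t = inner ℝ x (uv t) := by
  apply le_antisymm
  · apply csSup_le (Set.Nonempty.image _ ⟨x, hx⟩)
    rintro _ ⟨k, hk, rfl⟩
    exact h k hk
  · exact le_supp K hK t hx

/-- diameter of a body of constant width one -/
theorem cw_dist_le (K : Set (EuclideanSpace ℝ (Fin 2))) (hK : IsCompact K)
    (hw : ∀ t, supp K t + supp K (t + π) = 1) :
    ∀ x ∈ K, ∀ y ∈ K, dist x y ≤ 1 := by
  intro x hx y hy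
  obtain ⟨t, ht⟩ := exists_uv (x - y)
  have h1 : inner ℝ (x - y) (uv t) = ‖x - y‖ := by
    rw [ht, norm_smul, norm_norm, uv_norm, mul_one, real_inner_smul_left,
      real_inner_self_eq_norm_sq, uv_norm, one_pow, mul_one]
  have h2 := le_supp K hK t hx
  have h3 := le_supp K hK (t + π) hy
  rw [uv_add_pi, inner_neg_right] at h3
  rw [inner_sub_left] at h1
  rw [dist_eq_norm]
  linarith [hw t]

theorem cw_nonempty (K : Set (EuclideanSpace ℝ (Fin 2)))
    (hw : ∀ t, supp K t + supp K (t + π) = 1) : K.Nonempty := by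
  by_contra h
  rw [not_nonempty_iff_eq_empty] at h
  have := hw 0
  rw [h] at this
  simp [supp] at this

/-- the interior is not empty -/
theorem cw_interior (K : Set (EuclideanSpace ℝ (Fin 2))) (hK : IsCompact K)
    (hc : Convex ℝ K) (hw : ∀ t, supp K t + supp K (t + π) = 1) : (interior K).Nonempty := by
  obtain ⟨x, hx⟩ := cw_nonempty K hw
  rw [hc.interior_nonempty_iff_affineSpan_eq_top]
  by_contra hne
  have hdir : (affineSpan ℝ K).direction ≠ ⊤ := by
    intro h
    apply hne
    rw [AffineSubspace.direction_eq_top_iff_of_nonempty ⟨x, subset_affineSpan ℝ K hx⟩] at h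
    exact h
  have horth : ((affineSpan ℝ K).direction)ᗮ ≠ ⊥ := by
    intro h
    exact hdir ((Submodule.orthogonal_eq_bot_iff).1 h)
  obtain ⟨v, hv, hv0⟩ := Submodule.exists_mem_ne_zero_of_ne_bot horth
  obtain ⟨t, ht⟩ := exists_uv v
  have hvn : ‖v‖ ≠ 0 := norm_ne_zero_iff.2 hv0
  have hconst : ∀ k ∈ K, inner ℝ k (uv t) = inner ℝ x (uv t) := by
    intro k hk
    have h1 : k -ᵥ x ∈ (affineSpan ℝ K).direction :=
      AffineSubspace.vsub_mem_direction (subset_affineSpan ℝ K hk) (subset_affineSpan ℝ K hx)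
    have h2 := (Submodule.mem_orthogonal _ _).1 hv _ h1
    rw [vsub_eq_sub, ht, real_inner_smul_right] at h2
    have h3 := (mul_eq_zero.1 h2).resolve_left hvn
    rw [inner_sub_left] at h3
    linarith
  have h1 : supp K t = inner ℝ x (uv t) := supp_eq K hK t hx fun k hk => (hconst k hk).le
  have h2 : supp K (t + π) = inner ℝ x (uv (t + π)) := supp_eq K hK (t + π) hx fun k hk => by
    rw [uv_add_pi, inner_neg_right, inner_neg_right, hconst k hk]
  have h3 := hw t
  rw [h1, h2, uv_add_pi, inner_neg_right] at h3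
  norm_num at h3

/-- interior points have all distances less than one -/
theorem cw_frontier_of_dist (K : Set (EuclideanSpace ℝ (Fin 2))) (hK : IsCompact K)
    (hc : Convex ℝ K) (hw : ∀ t, supp K t + supp K (t + π) = 1)
    (x : EuclideanSpace ℝ (Fin 2)) (hx : x ∈ K) (y : EuclideanSpace ℝ (Fin 2)) (hy : y ∈ K)
    (h : 1 ≤ dist x y) : x ∈ frontier K := by
  rw [hK.isClosed.frontier_eq]
  refine ⟨hx, fun hxi => ?_⟩
  obtain ⟨ε, hε, hball⟩ := Metric.isOpen_iff.1 isOpen_interior x hxi
  have hn : 0 < ‖x - y‖ := by rw [← dist_eq_norm]; linarith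
  set c : ℝ := (ε / 2) / ‖x - y‖ with hcdef
  have hc0 : 0 < c := by positivity
  have hx' : x + c • (x - y) ∈ K := by
    apply interior_subset
    apply hball
    rw [Metric.mem_ball, dist_eq_norm, add_sub_cancel_left, norm_smul, Real.norm_of_nonneg hc0.le,
      hcdef, div_mul_cancel₀ _ hn.ne']
    linarith
  have h1 := cw_dist_le K hK hw _ hx' y hy
  have h2 : x + c • (x - y) - y = (1 + c) • (x - y) := by
    rw [add_smul, one_smul]
    abel
  rw [dist_eq_norm, h2, norm_smul, Real.norm_of_nonneg (by linarith), add_mul, one_mul, hcdef,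
    div_mul_cancel₀ _ hn.ne'] at h1
  rw [dist_eq_norm] at h
  linarith

/-- every boundary point is the end of a chord of length one -/
theorem cw_exists (K : Set (EuclideanSpace ℝ (Fin 2))) (hK : IsCompact K) (hc : Convex ℝ K)
    (hne : K.Nonempty) (hw : ∀ t, supp K t + supp K (t + π) = 1) :
    ∀ x ∈ frontier K, ∃ y ∈ frontier K, dist x y = 1 := by
  intro x hx
  rw [hK.isClosed.frontier_eq] at hx
  have hint := cw_interior K hK hc hw
  obtain ⟨f, hf⟩ := geometric_hahn_banach_open_point hc.interior isOpen_interior hx.2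
  have hfK : ∀ k ∈ K, f k ≤ f x := by
    intro k hk
    have h1 : k ∈ closure (interior K) := by
      rw [hc.closure_interior_eq_closure_of_nonempty_interior hint]
      exact subset_closure hk
    have hcl : IsClosed {z | f z ≤ f x} := isClosed_le f.continuous continuous_const
    have : closure (interior K) ⊆ {z | f z ≤ f x} :=
      closure_minimal (fun a ha => (hf a ha).le) hcl
    exact this h1
  obtain ⟨v, hv⟩ : ∃ v : EuclideanSpace ℝ (Fin 2), ∀ z, f z = inner ℝ z v := by
    refine ⟨(InnerProductSpace.toDual ℝ _).symm f, fun z => ?_⟩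
    rw [real_inner_comm, InnerProductSpace.toDual_symm_apply]
  have hv0 : v ≠ 0 := by
    rintro rfl
    obtain ⟨a, ha⟩ := hint
    have := hf a ha
    rw [hv, hv] at this
    simp at this
  obtain ⟨t, ht⟩ := exists_uv v
  have hvn : 0 < ‖v‖ := norm_pos_iff.2 hv0
  have hsx : supp K t = inner ℝ x (uv t) := by
    apply supp_eq K hK t hx.1
    intro k hk
    have h1 := hfK k hk
    rw [hv, hv, ht, real_inner_smul_right, real_inner_smul_right] at h1
    exact le_of_mul_le_mul_left h1 hvn
  obtain ⟨y, hy, hy2⟩ := supp_att K hK hne (t + π)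
  have h1 : inner ℝ (x - y) (uv t) = 1 := by
    rw [inner_sub_left]
    rw [uv_add_pi, inner_neg_right] at hy2
    have h2 := hw t
    linarith
  have h2 : 1 ≤ ‖x - y‖ := by
    have h3 := real_inner_le_norm (x - y) (uv t)
    rw [uv_norm, mul_one, h1] at h3
    exact h3
  have h3 := cw_dist_le K hK hw x hx.1 y hy
  rw [← dist_eq_norm] at h2
  refine ⟨y, ?_, le_antisymm h3 h2⟩
  exact cw_frontier_of_dist K hK hc hw y hy x hx.1 (by rw [dist_comm]; exact h2)

end Pool.Agent.Helper679.Curve.J1136
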