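import Pool.Agent.Helper679.CurveBasic

set_option autoImplicit false

namespace Pool.Agent.Helper679.Curve.J1137

/-- an isometry defined on a subset of the plane extends to an affine isometry -/
theorem extend_isometry {E : Type*} [NormedAddCommGroup E] [InnerProductSpace ℝ E]
    [FiniteDimensional ℝ E] (hd : 2 ≤ Module.finrank ℝ E)
    (S : Set (EuclideanSpace ℝ (Fin 2))) (Φ : EuclideanSpace ℝ (Fin 2) → E)
    (hΦ : ∀ x ∈ S, ∀ y ∈ S, dist (Φ x) (Φ y) = dist x y) :
    ∃ ι : EuclideanSpace ℝ (Fin 2) →ᵃⁱ[ℝ] E, ∀ x ∈ S, ι x = Φ x := by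
  classical
  -- a linear isometry of the plane into `E`
  obtain ⟨J⟩ : Nonempty (EuclideanSpace ℝ (Fin 2) →ₗᵢ[ℝ] E) := by
    have hv : Orthonormal ℝ (fun i : Fin 2 => stdOrthonormalBasis ℝ E (Fin.castLE hd i)) :=
      (stdOrthonormalBasis ℝ E).orthonormal.comp _ (Fin.castLE_injective hd)
    let b := (EuclideanSpace.basisFun (Fin 2) ℝ).toBasis
    have hb : Orthonormal ℝ b := by
      have := (EuclideanSpace.basisFun (Fin 2) ℝ).orthonormal
      rwa [← OrthonormalBasis.coe_toBasis] at this
    refine ⟨LinearMap.isometryOfOrthonormal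
      (b.constr ℝ (fun i : Fin 2 => stdOrthonormalBasis ℝ E (Fin.castLE hd i))) hb ?_⟩
    have : (⇑(b.constr ℝ (fun i : Fin 2 => stdOrthonormalBasis ℝ E (Fin.castLE hd i))) ∘ ⇑b)
        = fun i : Fin 2 => stdOrthonormalBasis ℝ E (Fin.castLE hd i) := by
      funext i
      simp [Module.Basis.constr_basis]
    rw [this]
    exact hv
  by_cases hS : S.Nonempty
  swap
  · refine ⟨J.toAffineIsometry, ?_⟩
    intro x hx
    exact absurd ⟨x, hx⟩ hS
  obtain ⟨x0, hx0⟩ := hS
  have gram : ∀ x ∈ S, ∀ y ∈ S, inner ℝ (Φ x - Φ x0) (Φ y - Φ x0) = inner ℝ (x - x0) (y - x0) := by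
    intro x hx y hy
    rw [real_inner_eq_norm_mul_self_add_norm_mul_self_sub_norm_sub_mul_self_div_two,
      real_inner_eq_norm_mul_self_add_norm_mul_self_sub_norm_sub_mul_self_div_two]
    have h1 := hΦ x hx x0 hx0
    have h2 := hΦ y hy x0 hx0
    have h3 := hΦ x hx y hy
    rw [dist_eq_norm, dist_eq_norm] at h1 h2 h3
    rw [sub_sub_sub_cancel_right, sub_sub_sub_cancel_right, h1, h2, h3]
  let f : (S →₀ ℝ) →ₗ[ℝ] E := Finsupp.lift E ℝ S (fun x => J ((x : EuclideanSpace ℝ (Fin 2)) - x0))
  let g : (S →₀ ℝ) →ₗ[ℝ] E := Finsupp.lift E ℝ S (fun x => Φ x - Φ x0)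
  have hf1 : ∀ (x : S) (r : ℝ), f (Finsupp.single x r) = r • J ((x : EuclideanSpace ℝ (Fin 2)) - x0) := by
    intro x r
    simp [f]
  have hg1 : ∀ (x : S) (r : ℝ), g (Finsupp.single x r) = r • (Φ x - Φ x0) := by
    intro x r
    simp [g]
  have hinner : ∀ c c' : S →₀ ℝ, inner ℝ (f c) (f c') = inner ℝ (g c) (g c') := by
    intro c c'
    induction c using Finsupp.induction_linear with
    | zero => simp
    | add c1 c2 h1 h2 => rw [map_add, map_add, inner_add_left, inner_add_left, h1, h2]
    | single x r =>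
      induction c' using Finsupp.induction_linear with
      | zero => simp
      | add c1 c2 h1 h2 => rw [map_add, map_add, inner_add_right, inner_add_right, h1, h2]
      | single y s =>
        rw [hf1, hf1, hg1, hg1, inner_smul_left, inner_smul_left, inner_smul_right,
          inner_smul_right, LinearIsometry.inner_map_map, gram x x.2 y y.2]
  have hnorm : ∀ c : S →₀ ℝ, ‖g c‖ = ‖f c‖ := by
    intro c
    rw [norm_eq_sqrt_real_inner, norm_eq_sqrt_real_inner, hinner]
  obtain ⟨r, hr⟩ := LinearMap.exists_rightInverse_of_surjective f.rangeRestrict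
    (LinearMap.range_rangeRestrict f)
  have hr' : ∀ v : LinearMap.range f, f (r v) = v := by
    intro v
    have := LinearMap.congr_fun hr v
    have h2 := congrArg Subtype.val this
    simpa using h2
  let L : LinearMap.range f →ₗᵢ[ℝ] E :=
    { toLinearMap := g ∘ₗ r
      norm_map' := by
        intro v
        rw [LinearMap.comp_apply, hnorm, hr' v]
        rfl }
  have hL : ∀ c : S →₀ ℝ, L.extend (f c) = g c := by
    intro c
    have h1 : L.extend (f c) = L ⟨f c, LinearMap.mem_range_self f c⟩ :=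
      LinearIsometry.extend_apply L ⟨f c, LinearMap.mem_range_self f c⟩
    rw [h1]
    change g (r ⟨f c, LinearMap.mem_range_self f c⟩) = g c
    rw [← sub_eq_zero, ← map_sub, ← norm_eq_zero, hnorm, map_sub, hr']
    simp
  refine ⟨{ toAffineMap := AffineMap.mk' (fun x => L.extend (J (x - x0)) + Φ x0)
              (L.extend.toLinearMap ∘ₗ J.toLinearMap) x0 (by
                intro p'
                simp)
            norm_map := by
                intro x
                simp }, ?_⟩
  intro x hx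
  change L.extend (J (x - x0)) + Φ x0 = Φ x
  have h1 : J (x - x0) = f (Finsupp.single ⟨x, hx⟩ 1) := by
    rw [hf1, one_smul]
  rw [h1, hL, hg1, one_smul]
  simp

end Pool.Agent.Helper679.Curve.J1137
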