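import Pool.Agent.Helper679.CurveBasic

set_option autoImplicit false

open Set

namespace Pool.Agent.Helper679.Curve.J1193

/-- inscribed polygons with small mesh -/
theorem inscribed {E : Type*} [NormedAddCommGroup E] (γ : ℝ → E) (hγ : ContinuousOn γ (Icc 0 1))
    (hcl : γ 0 = γ 1) (L : ℝ) (hL0 : 0 ≤ L) (hL : eVariationOn γ (Icc 0 1) ≤ ENNReal.ofReal L)
    (ε : ℝ) (hε : 0 < ε) :
    ∃ (n : ℕ) (p : Fin (n + 1) → E), (∀ i, p i ∈ γ '' Icc 0 1) ∧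
      (∑ i, dist (p i) (p (i + 1)) ≤ L) ∧ (∀ i, dist (p i) (p (i + 1)) ≤ ε) ∧
      ∀ x ∈ γ '' Icc 0 1, ∃ i, dist x (p i) ≤ ε := by
  have huc : UniformContinuousOn γ (Icc 0 1) :=
    isCompact_Icc.uniformContinuousOn_of_continuous hγ
  rw [Metric.uniformContinuousOn_iff] at huc
  obtain ⟨δ, hδ, hd⟩ := huc ε hε
  obtain ⟨n, hn⟩ := exists_nat_one_div_lt hδ
  have hn0 : (0:ℝ) < (n:ℝ) + 1 := by positivity
  let u : ℕ → ℝ := fun k => min ((k:ℝ) / ((n:ℝ) + 1)) 1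
  have hu_mono : Monotone u := by
    intro a b hab
    apply min_le_min_right
    apply div_le_div_of_nonneg_right _ hn0.le
    exact_mod_cast hab
  have hu_mem : ∀ k, u k ∈ Icc (0:ℝ) 1 := by
    intro k
    refine ⟨le_min (by positivity) zero_le_one, min_le_right _ _⟩
  have hu_val : ∀ k : ℕ, k ≤ n + 1 → u k = (k:ℝ) / ((n:ℝ) + 1) := by
    intro k hk
    apply min_eq_left
    rw [div_le_one hn0]
    exact_mod_cast hk
  have hu_step : ∀ k : ℕ, dist (u k) (u (k+1)) < δ := by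
    intro k
    have h1 : u (k+1) ≤ u k + 1 / ((n:ℝ)+1) := by
      have h2 : u (k+1) ≤ ((k:ℝ) / ((n:ℝ)+1)) + 1 / ((n:ℝ)+1) := by
        refine (min_le_left _ _).trans (le_of_eq ?_)
        push_cast
        rw [add_div]
      have h3 : u (k+1) ≤ 1 + 1 / ((n:ℝ)+1) := by
        refine (min_le_right _ _).trans ?_
        have : (0:ℝ) < 1 / ((n:ℝ)+1) := by positivity
        linarith
      have h4 : u k + 1 / ((n:ℝ)+1) =
          min (((k:ℝ) / ((n:ℝ)+1)) + 1 / ((n:ℝ)+1)) (1 + 1 / ((n:ℝ)+1)) := by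
        show min ((k:ℝ) / ((n:ℝ) + 1)) 1 + 1 / ((n:ℝ)+1) = _
        rw [min_add_add_right]
      rw [h4]
      exact le_min h2 h3
    have h5 : u k ≤ u (k+1) := hu_mono (Nat.le_succ k)
    rw [Real.dist_eq, abs_sub_comm, abs_of_nonneg (by linarith)]
    linarith
  have hlast : γ (u (n+1)) = γ (u 0) := by
    have h1 : u (n+1) = 1 := by
      rw [hu_val (n+1) le_rfl]
      push_cast
      exact div_self hn0.ne'
    have h2 : u 0 = 0 := by
      rw [hu_val 0 (Nat.zero_le _)]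
      simp
    rw [h1, h2, hcl]
  have hnext : ∀ i : Fin (n+1), γ (u ((i + 1 : Fin (n+1)) : ℕ)) = γ (u ((i : ℕ) + 1)) := by
    intro i
    rw [Fin.val_add_one]
    split_ifs with h
    · rw [h, Fin.val_last, hlast]
    · rfl
  have hsmall : ∀ k : ℕ, dist (γ (u k)) (γ (u (k+1))) < ε := fun k =>
    hd _ (hu_mem k) _ (hu_mem (k+1)) (hu_step k)
  refine ⟨n, fun i => γ (u i), fun i => ⟨u i, hu_mem i, rfl⟩, ?_, ?_, ?_⟩
  · have h1 : ∑ i : Fin (n+1), dist (γ (u (i:ℕ))) (γ (u ((i + 1 : Fin (n+1)) : ℕ))) =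
        ∑ k ∈ Finset.range (n+1), dist (γ (u (k+1))) (γ (u k)) := by
      rw [← Fin.sum_univ_eq_sum_range (fun k => dist (γ (u (k+1))) (γ (u k))) (n+1)]
      apply Finset.sum_congr rfl
      intro i _
      rw [hnext i, dist_comm]
    have h2 := eVariationOn.sum_le (f := γ) (s := Icc (0:ℝ) 1) (n := n+1) hu_mono hu_mem
    have h3 : ENNReal.ofReal (∑ k ∈ Finset.range (n+1), dist (γ (u (k+1))) (γ (u k))) ≤
        ENNReal.ofReal L := by
      rw [ENNReal.ofReal_sum_of_nonneg (fun _ _ => dist_nonneg)]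
      refine le_trans (le_of_eq ?_) (h2.trans hL)
      apply Finset.sum_congr rfl
      intro k _
      rw [edist_dist]
    show ∑ i : Fin (n+1), dist (γ (u (i:ℕ))) (γ (u ((i + 1 : Fin (n+1)) : ℕ))) ≤ L
    rw [h1]
    exact (ENNReal.ofReal_le_ofReal_iff hL0).mp h3
  · intro i
    show dist (γ (u (i:ℕ))) (γ (u ((i + 1 : Fin (n+1)) : ℕ))) ≤ ε
    rw [hnext i]
    exact (hsmall i).le
  · rintro x ⟨t, ht, rfl⟩
    by_cases h1 : t = 1
    · refine ⟨0, ?_⟩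
      have h2 : u ((0 : Fin (n+1)) : ℕ) = 0 := by
        rw [Fin.val_zero]
        rw [hu_val 0 (Nat.zero_le _)]
        simp
      show dist (γ t) (γ (u ((0 : Fin (n+1)) : ℕ))) ≤ ε
      rw [h2, h1, ← hcl, dist_self]
      exact hε.le
    · have ht1 : t < 1 := lt_of_le_of_ne ht.2 h1
      have h2 : ⌊t * ((n:ℝ)+1)⌋₊ < n + 1 := by
        rw [Nat.floor_lt (mul_nonneg ht.1 hn0.le)]
        push_cast
        calc t * ((n:ℝ)+1) < 1 * ((n:ℝ)+1) := by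
              exact mul_lt_mul_of_pos_right ht1 hn0
          _ = _ := one_mul _
      refine ⟨⟨⌊t * ((n:ℝ)+1)⌋₊, h2⟩, ?_⟩
      show dist (γ t) (γ (u ⌊t * ((n:ℝ)+1)⌋₊)) ≤ ε
      apply (hd _ ht _ (hu_mem _) _).le
      rw [hu_val _ h2.le, Real.dist_eq]
      have h3 : (⌊t * ((n:ℝ)+1)⌋₊ : ℝ) ≤ t * ((n:ℝ)+1) :=
        Nat.floor_le (mul_nonneg ht.1 hn0.le)
      have h4 : t * ((n:ℝ)+1) < (⌊t * ((n:ℝ)+1)⌋₊ : ℝ) + 1 := Nat.lt_floor_add_one _
      have h5 : (⌊t * ((n:ℝ)+1)⌋₊ : ℝ) / ((n:ℝ)+1) ≤ t := by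
        rw [div_le_iff₀ hn0]; exact h3
      have h6 : t - (⌊t * ((n:ℝ)+1)⌋₊ : ℝ) / ((n:ℝ)+1) < 1 / ((n:ℝ)+1) := by
        rw [sub_lt_iff_lt_add, ← add_div, lt_div_iff₀ hn0]
        linarith
      rw [abs_of_nonneg (by linarith)]
      linarith

end Pool.Agent.Helper679.Curve.J1193
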