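import Pool.Agent.Helper679.CurveBasic

set_option autoImplicit false

open MeasureTheory intervalIntegral Real Set

namespace Pool.Agent.Helper679.Curve.J1194




abbrev P2 := EuclideanSpace ℝ (Fin 2)

theorem dfst {α β : Type*} [PseudoMetricSpace α] [PseudoMetricSpace β] (a b : α × β) :
    dist a.1 b.1 ≤ dist a b := by
  rw [Prod.dist_eq]; exact le_max_left _ _

theorem dsnd {α β : Type*} [PseudoMetricSpace α] [PseudoMetricSpace β] (a b : α × β) :
    dist a.2 b.2 ≤ dist a b := by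
  rw [Prod.dist_eq]; exact le_max_right _ _

theorem norm_uv (t : ℝ) : ‖uv t‖ = 1 := by
  rw [EuclideanSpace.norm_eq]
  simp [uv, Fin.sum_univ_two, Real.cos_sq_add_sin_sq]

theorem continuous_uv : Continuous uv := by
  unfold uv
  apply (PiLp.continuous_toLp 2 _).comp
  apply continuous_pi
  intro i
  fin_cases i
  · exact Real.continuous_cos
  · exact Real.continuous_sin

theorem supp_bdd {K : Set P2} {B : ℝ} (hB : ∀ x ∈ K, ‖x‖ ≤ B) (t : ℝ) :
    BddAbove ((fun k => inner ℝ k (uv t)) '' K) := by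
  refine ⟨B, ?_⟩
  rintro _ ⟨x, hx, rfl⟩
  calc inner ℝ x (uv t) ≤ ‖x‖ * ‖uv t‖ := real_inner_le_norm _ _
    _ = ‖x‖ := by rw [norm_uv, mul_one]
    _ ≤ B := hB x hx

theorem supp_le {K K' : Set P2} {B : ℝ} (hB : ∀ x ∈ K', ‖x‖ ≤ B) (hne : K.Nonempty) {δ : ℝ}
    (h : ∀ x ∈ K, ∃ y ∈ K', dist x y ≤ δ) (t : ℝ) : supp K t ≤ supp K' t + δ := by
  apply csSup_le (hne.image _)
  rintro _ ⟨x, hx, rfl⟩
  obtain ⟨y, hy, hxy⟩ := h x hx
  have h1 : inner ℝ y (uv t) ≤ supp K' t := le_csSup (supp_bdd hB t) ⟨y, hy, rfl⟩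
  have h2 : inner ℝ (x - y) (uv t) ≤ δ := by
    calc inner ℝ (x - y) (uv t) ≤ ‖x - y‖ * ‖uv t‖ := real_inner_le_norm _ _
      _ = dist x y := by rw [norm_uv, mul_one, dist_eq_norm]
      _ ≤ δ := hxy
  have h3 : inner ℝ x (uv t) = inner ℝ y (uv t) + inner ℝ (x - y) (uv t) := by
    rw [inner_sub_left]; ring
  simp only
  linarith

theorem supp_lip {K : Set P2} {B : ℝ} (hB : ∀ x ∈ K, ‖x‖ ≤ B) (hne : K.Nonempty) (s t : ℝ) :
    supp K t ≤ supp K s + B * ‖uv t - uv s‖ := by
  apply csSup_le (hne.image _)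
  rintro _ ⟨x, hx, rfl⟩
  have h1 : inner ℝ x (uv s) ≤ supp K s := le_csSup (supp_bdd hB s) ⟨x, hx, rfl⟩
  have h2 : inner ℝ x (uv t - uv s) ≤ B * ‖uv t - uv s‖ := by
    calc inner ℝ x (uv t - uv s) ≤ ‖x‖ * ‖uv t - uv s‖ := real_inner_le_norm _ _
      _ ≤ B * ‖uv t - uv s‖ := mul_le_mul_of_nonneg_right (hB x hx) (norm_nonneg _)
  have h3 : inner ℝ x (uv t) = inner ℝ x (uv s) + inner ℝ x (uv t - uv s) := by
    rw [inner_sub_right]; ring
  simp only
  linarith

theorem supp_cont {K : Set P2} {B : ℝ} (hB : ∀ x ∈ K, ‖x‖ ≤ B) (hne : K.Nonempty) :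
    Continuous (supp K) := by
  rw [continuous_iff_continuousAt]
  intro s
  have h : ∀ t, |supp K t - supp K s| ≤ B * ‖uv t - uv s‖ := by
    intro t
    rw [abs_le]
    have h1 := supp_lip hB hne s t
    have h2 := supp_lip hB hne t s
    rw [norm_sub_rev] at h2
    constructor <;> linarith
  have hlim : Filter.Tendsto (fun t => B * ‖uv t - uv s‖) (nhds s) (nhds 0) := by
    have : Continuous (fun t => B * ‖uv t - uv s‖) :=
      continuous_const.mul (continuous_uv.sub continuous_const).norm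
    have := this.tendsto s
    simpa using this
  rw [ContinuousAt, tendsto_iff_dist_tendsto_zero]
  exact squeeze_zero (fun t => dist_nonneg) (fun t => by rw [Real.dist_eq]; exact h t) hlim

theorem hull_near {Q Q' : Set P2} {δ : ℝ} (h : ∀ q ∈ Q, ∃ q' ∈ Q', dist q q' < δ) :
    ∀ x ∈ convexHull ℝ Q, ∃ y ∈ convexHull ℝ Q', dist x y < δ := by
  intro x hx
  have hsub : convexHull ℝ Q ⊆ Metric.thickening δ (convexHull ℝ Q') := by
    apply convexHull_min _ ((convex_convexHull ℝ Q').thickening δ)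
    intro q hq
    obtain ⟨q', hq', hd⟩ := h q hq
    exact Metric.mem_thickening_iff.2 ⟨q', subset_convexHull ℝ _ hq', hd⟩
  exact Metric.mem_thickening_iff.1 (hsub hx)

theorem hull_bdd {Q : Set P2} {B : ℝ} (hB : ∀ x ∈ Q, ‖x‖ ≤ B) : ∀ x ∈ convexHull ℝ Q, ‖x‖ ≤ B := by
  intro x hx
  have hsub : convexHull ℝ Q ⊆ Metric.closedBall 0 B := by
    apply convexHull_min _ (convex_closedBall 0 B)
    intro q hq
    rw [mem_closedBall_zero_iff]
    exact hB q hq
  exact mem_closedBall_zero_iff.1 (hsub hx)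

theorem interior_closure_eq {K : Set P2} (hK : Convex ℝ K) : interior (closure K) = interior K := by
  by_cases h : (interior (closure K)).Nonempty
  · apply hK.interior_closure_eq_interior_of_nonempty_interior
    rw [hK.interior_nonempty_iff_affineSpan_eq_top]
    rw [hK.closure.interior_nonempty_iff_affineSpan_eq_top] at h
    rw [eq_top_iff, ← h, affineSpan_le]
    exact closure_minimal (subset_affineSpan ℝ K) (AffineSubspace.closed_of_finiteDimensional _)
  · rw [Set.not_nonempty_iff_eq_empty] at h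
    rw [h]
    symm
    rw [Set.eq_empty_iff_forall_notMem] at h ⊢
    intro x hx
    exact h x (interior_mono subset_closure hx)

theorem segment_frontier {K : Set P2} {w z : P2} (hw : w ∈ K) (hz : z ∉ K) :
    ∃ y ∈ segment ℝ w z, y ∈ frontier K := by
  by_contra hcon
  push Not at hcon
  have hsub : segment ℝ w z ⊆ interior K ∪ (closure K)ᶜ := by
    intro y hy
    have := hcon y hy
    rw [frontier, Set.mem_diff] at this
    by_cases h : y ∈ closure K
    · left
      by_contra h'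
      exact this ⟨h, h'⟩
    · exact Or.inr h
  have hwi : w ∈ interior K := by
    rcases hsub (left_mem_segment ℝ w z) with h | h
    · exact h
    · exact absurd (subset_closure hw) h
  have := IsPreconnected.subset_left_of_subset_union isOpen_interior isClosed_closure.isOpen_compl
    (by
      rw [Set.disjoint_left]
      intro x hx hx'
      exact hx' (subset_closure (interior_subset hx))) hsub
    ⟨w, left_mem_segment ℝ w z, hwi⟩ (convex_segment w z).isPreconnected
  exact hz (interior_subset (this (right_mem_segment ℝ w z)))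

/-- Hausdorff limit of finite relations -/
theorem limit_relation {E : Type*} [NormedAddCommGroup E] (C : Set E) (hC : IsCompact C)
    (hCne : C.Nonempty) (P B : ℝ)
    (h : ∀ ε : ℝ, 0 < ε → ∃ S : Set (EuclideanSpace ℝ (Fin 2) × E), S.Finite ∧ S.Nonempty ∧
      (∀ a ∈ S, ∀ b ∈ S, dist a.2 b.2 ≤ dist a.1 b.1) ∧ (∀ a ∈ S, a.2 ∈ C) ∧
      (∀ x ∈ C, ∃ a ∈ S, dist x a.2 ≤ ε) ∧ (∀ a ∈ S, ‖a.1‖ ≤ B) ∧
      (∀ y ∈ frontier (convexHull ℝ (Prod.fst '' S)), ∃ a ∈ S, dist y a.1 ≤ ε) ∧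
      ∫ t in (0:ℝ)..(2 * π), supp (convexHull ℝ (Prod.fst '' S)) t ≤ P) :
    ∃ S : Set (EuclideanSpace ℝ (Fin 2) × E), IsCompact S ∧ S.Nonempty ∧
      (∀ a ∈ S, ∀ b ∈ S, dist a.2 b.2 ≤ dist a.1 b.1) ∧ Prod.snd '' S = C ∧
      frontier (convexHull ℝ (Prod.fst '' S)) ⊆ Prod.fst '' S ∧
      ∫ t in (0:ℝ)..(2 * π), supp (convexHull ℝ (Prod.fst '' S)) t ≤ P := by
  classical
  have hpos : ∀ k : ℕ, (0 : ℝ) < 1 / ((k : ℝ) + 1) := fun k => by positivity
  choose! S hfin hne hlip hC2 hdense hB hfr hint using fun k : ℕ => h (1 / ((k : ℝ) + 1)) (hpos k)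
  let F : Filter ℕ := (Filter.hyperfilter ℕ : Filter ℕ)
  have hFtop : F ≤ Filter.atTop := by
    rw [← Nat.cofinite_eq_atTop]
    exact Filter.hyperfilter_le_cofinite
  have heps : ∀ δ : ℝ, 0 < δ → ∀ᶠ k : ℕ in F, 1 / ((k : ℝ) + 1) < δ := by
    intro δ hδ
    apply hFtop
    exact (tendsto_one_div_add_atTop_nhds_zero_nat (𝕜 := ℝ)).eventually_lt_const hδ
  -- the compact ambient set
  let X : Set (P2 × E) := Metric.closedBall 0 B ×ˢ C
  have hX : IsCompact X := (isCompact_closedBall 0 B).prod hC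
  have hSX : ∀ k, S k ⊆ X := fun k a ha =>
    ⟨mem_closedBall_zero_iff.2 (hB k a ha), hC2 k a ha⟩
  -- limits of sequences
  have hlimX : ∀ a : ℕ → P2 × E, (∀ k, a k ∈ X) → ∃ p ∈ X, Filter.Tendsto a F (nhds p) := by
    intro a ha
    obtain ⟨p, hp, hle⟩ := hX.ultrafilter_le_nhds ((Filter.hyperfilter ℕ).map a)
      (by
        rw [Filter.le_principal_iff]
        exact Filter.mem_map.2 (Filter.Eventually.of_forall ha))
    exact ⟨p, hp, hle⟩
  -- the limit set
  let T : Set (P2 × E) := {p | ∀ δ : ℝ, 0 < δ → ∀ᶠ k in F, ∃ a ∈ S k, dist p a < δ}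
  have hlimT : ∀ a : ℕ → P2 × E, (∀ k, a k ∈ S k) → ∃ p ∈ T, Filter.Tendsto a F (nhds p) := by
    intro a ha
    obtain ⟨p, hp, hlim⟩ := hlimX a (fun k => hSX k (ha k))
    refine ⟨p, ?_, hlim⟩
    intro δ hδ
    filter_upwards [Metric.tendsto_nhds.1 hlim δ hδ] with k hk
    exact ⟨a k, ha k, by rw [dist_comm]; exact hk⟩
  have hTX : T ⊆ X := by
    intro p hp
    rw [← hX.isClosed.closure_eq, Metric.mem_closure_iff]
    intro δ hδ
    obtain ⟨k, a, ha, hd⟩ := (hp δ hδ).exists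
    exact ⟨a, hSX k ha, hd⟩
  have hTcl : IsClosed T := by
    rw [← closure_subset_iff_isClosed]
    intro p hp δ hδ
    obtain ⟨q, hq, hd⟩ := Metric.mem_closure_iff.1 hp (δ / 2) (by linarith)
    filter_upwards [hq (δ / 2) (by linarith)] with k hk
    obtain ⟨a, ha, hd'⟩ := hk
    exact ⟨a, ha, by linarith [dist_triangle p q a]⟩
  have hT : IsCompact T := hX.of_isClosed_subset hTcl hTX
  have hTne : T.Nonempty := by
    choose a ha using hne
    obtain ⟨p, hp, _⟩ := hlimT a ha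
    exact ⟨p, hp⟩
  -- H1
  have H1 : ∀ δ : ℝ, 0 < δ → ∀ᶠ k in F, ∀ p ∈ T, ∃ a ∈ S k, dist p a < δ := by
    intro δ hδ
    obtain ⟨t, htT, htf, hcov⟩ := hT.finite_cover_balls (half_pos hδ)
    have hev : ∀ᶠ k in F, ∀ q ∈ t, ∃ a ∈ S k, dist q a < δ / 2 := by
      rw [Filter.eventually_all_finite htf]
      intro q hq
      exact htT hq (δ / 2) (by linarith)
    filter_upwards [hev] with k hk p hp
    obtain ⟨q, hq, hpq⟩ := Set.mem_iUnion₂.1 (hcov hp)
    obtain ⟨a, ha, hqa⟩ := hk q hq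
    refine ⟨a, ha, ?_⟩
    rw [Metric.mem_ball] at hpq
    linarith [dist_triangle p q a]
  -- H2
  have H2 : ∀ δ : ℝ, 0 < δ → ∀ᶠ k in F, ∀ a ∈ S k, ∃ p ∈ T, dist a p < δ := by
    intro δ hδ
    by_contra hcon
    have hcon' : ∀ᶠ k in F, ¬ ∀ a ∈ S k, ∃ p ∈ T, dist a p < δ :=
      Ultrafilter.eventually_not.2 hcon
    have hch : ∀ k, ∃ a ∈ S k, (¬ ∀ a ∈ S k, ∃ p ∈ T, dist a p < δ) → ∀ p ∈ T, δ ≤ dist a p := by
      intro k
      by_cases hk : ∀ a ∈ S k, ∃ p ∈ T, dist a p < δ
      · obtain ⟨a, ha⟩ := hne k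
        exact ⟨a, ha, fun h' => absurd hk h'⟩
      · have hk' := hk
        push Not at hk'
        obtain ⟨a, ha, ha'⟩ := hk'
        exact ⟨a, ha, fun _ => ha'⟩
    choose a ha ha' using hch
    obtain ⟨p, hp, hlim⟩ := hlimT a ha
    obtain ⟨k, hk1, hk2⟩ := (hcon'.and (Metric.tendsto_nhds.1 hlim δ hδ)).exists
    have := ha' k hk1 p hp
    linarith
  refine ⟨T, hT, hTne, ?_, ?_, ?_, ?_⟩
  · intro a ha b hb
    apply le_of_forall_pos_le_add
    intro ε hε
    obtain ⟨k, hk1, hk2⟩ := ((ha (ε / 4) (by linarith)).and (hb (ε / 4) (by linarith))).exists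
    obtain ⟨a', ha', hda⟩ := hk1
    obtain ⟨b', hb', hdb⟩ := hk2
    have e := hlip k a' ha' b' hb'
    have e1 : dist a.2 a'.2 < ε / 4 := (dsnd a a').trans_lt hda
    have e2 : dist b.2 b'.2 < ε / 4 := (dsnd b b').trans_lt hdb
    have e3 : dist a.1 a'.1 < ε / 4 := (dfst a a').trans_lt hda
    have e4 : dist b.1 b'.1 < ε / 4 := (dfst b b').trans_lt hdb
    have t1 := dist_triangle4 a.2 a'.2 b'.2 b.2
    have t2 := dist_triangle4 a'.1 a.1 b.1 b'.1
    rw [dist_comm b'.2 b.2] at t1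
    rw [dist_comm a'.1 a.1] at t2
    linarith
  · apply Set.Subset.antisymm
    · rintro _ ⟨p, hp, rfl⟩
      exact (hTX hp).2
    · intro x hx
      choose a ha had using fun k => hdense k x hx
      obtain ⟨p, hp, hlim⟩ := hlimT a ha
      refine ⟨p, hp, ?_⟩
      have hl2 : Filter.Tendsto (fun k => (a k).2) F (nhds p.2) :=
        (continuous_snd.tendsto p).comp hlim
      have hl3 : Filter.Tendsto (fun k => (a k).2) F (nhds x) := by
        rw [Metric.tendsto_nhds]
        intro ε hε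
        filter_upwards [heps ε hε] with k hk
        rw [dist_comm]
        exact (had k).trans_lt hk
      exact tendsto_nhds_unique hl2 hl3
  · intro y hy
    have hcl : IsClosed (Prod.fst '' T) := (hT.image continuous_fst).isClosed
    rw [← hcl.closure_eq, Metric.mem_closure_iff]
    intro η hη
    have hycl : y ∈ closure (convexHull ℝ (Prod.fst '' T)) := frontier_subset_closure hy
    have hyint : y ∉ interior (closure (convexHull ℝ (Prod.fst '' T))) := by
      rw [interior_closure_eq (convex_convexHull ℝ _)]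
      exact hy.2
    -- a point outside near y
    have hz : ∃ z, dist z y < η / 4 ∧ z ∉ closure (convexHull ℝ (Prod.fst '' T)) := by
      by_contra hcon
      push Not at hcon
      apply hyint
      rw [mem_interior_iff_mem_nhds, Metric.mem_nhds_iff]
      exact ⟨η / 4, by linarith, fun z hz => hcon z hz⟩
    obtain ⟨z, hzy, hz⟩ := hz
    rw [Metric.mem_closure_iff] at hz
    push Not at hz
    obtain ⟨ρ, hρ, hz⟩ := hz
    obtain ⟨y', hy', hyy'⟩ := Metric.mem_closure_iff.1 hycl (η / 8) (by linarith)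
    obtain ⟨k, ⟨hk1, hk2⟩, ⟨hk3, hk4⟩⟩ := (((H1 (η / 8) (by linarith)).and (H2 ρ hρ)).and
      ((H2 (η / 4) (by linarith)).and (heps (η / 4) (by linarith)))).exists
    have hzk : z ∉ convexHull ℝ (Prod.fst '' S k) := by
      intro hzk
      have : ∀ q ∈ Prod.fst '' S k, ∃ q' ∈ Prod.fst '' T, dist q q' < ρ := by
        rintro _ ⟨a, ha, rfl⟩
        obtain ⟨p, hp, hd⟩ := hk2 a ha
        exact ⟨p.1, ⟨p, hp, rfl⟩, (dfst a p).trans_lt hd⟩
      obtain ⟨x, hx, hd⟩ := hull_near this z hzk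
      linarith [hz x hx]
    have hwk : ∃ w ∈ convexHull ℝ (Prod.fst '' S k), dist y' w < η / 8 := by
      have : ∀ q ∈ Prod.fst '' T, ∃ q' ∈ Prod.fst '' S k, dist q q' < η / 8 := by
        rintro _ ⟨a, ha, rfl⟩
        obtain ⟨p, hp, hd⟩ := hk1 a ha
        exact ⟨p.1, ⟨p, hp, rfl⟩, (dfst a p).trans_lt hd⟩
      exact hull_near this y' hy'
    obtain ⟨w, hw, hyw⟩ := hwk
    obtain ⟨v, hv, hvf⟩ := segment_frontier hw hzk
    have hvy : dist v y < η / 4 := by
      have : segment ℝ w z ⊆ Metric.ball y (η / 4) := by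
        apply (convex_ball y (η / 4)).segment_subset
        · rw [Metric.mem_ball]
          have := dist_triangle w y' y
          rw [dist_comm w y', dist_comm y' y] at this
          linarith
        · exact hzy
      exact this hv
    obtain ⟨a, ha, had⟩ := hfr k v hvf
    obtain ⟨p, hp, hpd⟩ := hk3 a ha
    refine ⟨p.1, ⟨p, hp, rfl⟩, ?_⟩
    have e1 : dist a.1 p.1 < η / 4 := (dfst a p).trans_lt hpd
    have e2 := dist_triangle4 y v a.1 p.1
    rw [dist_comm y v] at e2
    linarith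
  · apply le_of_forall_pos_le_add
    intro ε hε
    have hpi := Real.pi_pos
    obtain ⟨k, hk⟩ := (H1 (ε / (2 * π)) (by positivity)).exists
    have hTB : ∀ x ∈ convexHull ℝ (Prod.fst '' T), ‖x‖ ≤ B := by
      apply hull_bdd
      rintro _ ⟨p, hp, rfl⟩
      exact mem_closedBall_zero_iff.1 (hTX hp).1
    have hSB : ∀ x ∈ convexHull ℝ (Prod.fst '' S k), ‖x‖ ≤ B := by
      apply hull_bdd
      rintro _ ⟨p, hp, rfl⟩
      exact hB k p hp
    have hTn : (convexHull ℝ (Prod.fst '' T)).Nonempty := (hTne.image _).convexHull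
    have hSn : (convexHull ℝ (Prod.fst '' S k)).Nonempty := ((hne k).image _).convexHull
    have hle : ∀ t, supp (convexHull ℝ (Prod.fst '' T)) t ≤
        supp (convexHull ℝ (Prod.fst '' S k)) t + ε / (2 * π) := by
      apply supp_le hSB hTn
      intro x hx
      have : ∀ q ∈ Prod.fst '' T, ∃ q' ∈ Prod.fst '' S k, dist q q' < ε / (2 * π) := by
        rintro _ ⟨a, ha, rfl⟩
        obtain ⟨p, hp, hd⟩ := hk a ha
        exact ⟨p.1, ⟨p, hp, rfl⟩, (dfst a p).trans_lt hd⟩
      obtain ⟨y, hy, hd⟩ := hull_near this x hx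
      exact ⟨y, hy, hd.le⟩
    have hcT := supp_cont hTB hTn
    have hcS := supp_cont hSB hSn
    calc ∫ t in (0:ℝ)..(2 * π), supp (convexHull ℝ (Prod.fst '' T)) t
        ≤ ∫ t in (0:ℝ)..(2 * π), (supp (convexHull ℝ (Prod.fst '' S k)) t + ε / (2 * π)) := by
          apply intervalIntegral.integral_mono_on (by positivity)
            (hcT.intervalIntegrable _ _) ((hcS.add continuous_const).intervalIntegrable _ _)
          intro t _
          exact hle t
      _ = (∫ t in (0:ℝ)..(2 * π), supp (convexHull ℝ (Prod.fst '' S k)) t) + ε := by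
          rw [intervalIntegral.integral_add (hcS.intervalIntegrable _ _)
            (continuous_const.intervalIntegrable _ _), intervalIntegral.integral_const]
          congr 1
          simp only [sub_zero, smul_eq_mul]
          field_simp
      _ ≤ P + ε := by linarith [hint k]

end Pool.Agent.Helper679.Curve.J1194
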