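import Pool.Agent.Helper679.CurveBasic

set_option autoImplicit false

open MeasureTheory intervalIntegral Real Set

namespace Pool.Agent.Helper679.Curve.J1189



theorem st_inner (k : EuclideanSpace ℝ (Fin 2)) (t : ℝ) :
    inner ℝ k (uv t) = k 0 * Real.cos t + k 1 * Real.sin t := by
  simp [uv, PiLp.inner_apply, Fin.sum_univ_two]
  ring

theorem st_cont : Continuous fun p : ℝ × EuclideanSpace ℝ (Fin 2) => inner ℝ p.2 (uv p.1) := by
  simp only [st_inner]
  fun_prop

theorem st_cont' (t : ℝ) : Continuous fun k : EuclideanSpace ℝ (Fin 2) => inner ℝ k (uv t) := by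
  simp only [st_inner]
  fun_prop

/-- continuity, periodicity and basic facts of the support function -/
theorem supp_continuous (K : Set (EuclideanSpace ℝ (Fin 2))) (hK : IsCompact K)
    (hne : K.Nonempty) : Continuous (supp K) := by
  have := IsCompact.continuous_sSup (f := fun (t : ℝ) (k : EuclideanSpace ℝ (Fin 2)) =>
    inner ℝ k (uv t)) hK st_cont
  exact this

theorem supp_periodic (K : Set (EuclideanSpace ℝ (Fin 2))) :
    Function.Periodic (supp K) (2 * π) := by
  intro t
  unfold supp
  have : uv (t + 2 * π) = uv t := by
    unfold uv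
    rw [Real.cos_add_two_pi, Real.sin_add_two_pi]
  rw [this]

theorem inner_le_supp (K : Set (EuclideanSpace ℝ (Fin 2))) (hK : IsCompact K)
    (k : EuclideanSpace ℝ (Fin 2)) (hk : k ∈ K) (t : ℝ) : inner ℝ k (uv t) ≤ supp K t := by
  unfold supp
  exact le_csSup (hK.image (st_cont' t)).bddAbove (mem_image_of_mem _ hk)

theorem exists_supp (K : Set (EuclideanSpace ℝ (Fin 2))) (hK : IsCompact K)
    (hne : K.Nonempty) (t : ℝ) : ∃ k ∈ K, inner ℝ k (uv t) = supp K t := by
  obtain ⟨k, hk, h⟩ := hK.exists_sSup_image_eq hne (st_cont' t).continuousOn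
  exact ⟨k, hk, h.symm⟩

/-- Steiner point: a set of perimeter at most `π` lies in an open unit disc -/
theorem steiner (K : Set (EuclideanSpace ℝ (Fin 2))) (hK : IsCompact K) (hne : K.Nonempty)
    (hP : ∫ t in (0:ℝ)..(2 * π), supp K t ≤ π) :
    ∃ (s : EuclideanSpace ℝ (Fin 2)) (R : ℝ), R < 1 ∧ ∀ k ∈ K, dist k s ≤ R := by
  have hpi := Real.pi_pos
  have hc := supp_continuous K hK hne
  set s : EuclideanSpace ℝ (Fin 2) := !₂[(1 / π) * ∫ t in (0:ℝ)..(2 * π), supp K t * Real.cos t,
    (1 / π) * ∫ t in (0:ℝ)..(2 * π), supp K t * Real.sin t] with hs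
  have key : ∀ k ∈ K, dist k s < 1 := by
    intro k hk
    set D : ℝ → ℝ := fun t => supp K t - (k 0 * Real.cos t + k 1 * Real.sin t) with hD
    have hDc : Continuous D := by
      rw [hD]; fun_prop
    have hD0 : ∀ t, 0 ≤ D t := by
      intro t
      have := inner_le_supp K hK k hk t
      rw [st_inner] at this
      rw [hD]
      dsimp only
      linarith
    have hDint : ∫ t in (0:ℝ)..(2 * π), D t ≤ π := by
      have : ∫ t in (0:ℝ)..(2 * π), D t = ∫ t in (0:ℝ)..(2 * π), supp K t := by
        rw [hD]
        rw [intervalIntegral.integral_sub (hc.intervalIntegrable _ _)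
          ((by fun_prop : Continuous fun t => k 0 * Real.cos t + k 1 * Real.sin t).intervalIntegrable
            _ _)]
        rw [intervalIntegral.integral_add
          ((by fun_prop : Continuous fun t => k 0 * Real.cos t).intervalIntegrable _ _)
          ((by fun_prop : Continuous fun t => k 1 * Real.sin t).intervalIntegrable _ _)]
        rw [intervalIntegral.integral_const_mul, intervalIntegral.integral_const_mul, integral_cos,
          integral_sin]
        simp
      rw [this]; exact hP
    set a : ℝ := ∫ t in (0:ℝ)..(2 * π), D t * Real.cos t with ha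
    set b : ℝ := ∫ t in (0:ℝ)..(2 * π), D t * Real.sin t with hb
    have ha' : a = π * (s 0 - k 0) := by
      have e1 : a = (∫ t in (0:ℝ)..(2 * π), supp K t * Real.cos t) -
          ∫ t in (0:ℝ)..(2 * π), (k 0 * Real.cos t ^ 2 + k 1 * (Real.sin t * Real.cos t)) := by
        rw [← intervalIntegral.integral_sub
          ((by fun_prop : Continuous fun t => supp K t * Real.cos t).intervalIntegrable _ _)
          ((by fun_prop : Continuous fun t => k 0 * Real.cos t ^ 2 +
            k 1 * (Real.sin t * Real.cos t)).intervalIntegrable _ _), ha]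
        congr 1
        funext t
        rw [hD]
        ring
      have e2 : ∫ t in (0:ℝ)..(2 * π), (k 0 * Real.cos t ^ 2 + k 1 * (Real.sin t * Real.cos t))
          = π * k 0 := by
        rw [intervalIntegral.integral_add
          ((by fun_prop : Continuous fun t => k 0 * Real.cos t ^ 2).intervalIntegrable _ _)
          ((by fun_prop : Continuous fun t => k 1 * (Real.sin t * Real.cos t)).intervalIntegrable
            _ _)]
        rw [intervalIntegral.integral_const_mul, intervalIntegral.integral_const_mul,
          integral_cos_sq, integral_sin_mul_cos₁]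
        simp
        ring
      have e3 : s 0 = (1 / π) * ∫ t in (0:ℝ)..(2 * π), supp K t * Real.cos t := by
        rw [hs]; simp
      rw [e1, e2, e3]
      field_simp
    have hb' : b = π * (s 1 - k 1) := by
      have e1 : b = (∫ t in (0:ℝ)..(2 * π), supp K t * Real.sin t) -
          ∫ t in (0:ℝ)..(2 * π), (k 0 * (Real.sin t * Real.cos t) + k 1 * Real.sin t ^ 2) := by
        rw [← intervalIntegral.integral_sub
          ((by fun_prop : Continuous fun t => supp K t * Real.sin t).intervalIntegrable _ _)
          ((by fun_prop : Continuous fun t => k 0 * (Real.sin t * Real.cos t) +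
            k 1 * Real.sin t ^ 2).intervalIntegrable _ _), hb]
        congr 1
        funext t
        rw [hD]
        ring
      have e2 : ∫ t in (0:ℝ)..(2 * π), (k 0 * (Real.sin t * Real.cos t) + k 1 * Real.sin t ^ 2)
          = π * k 1 := by
        rw [intervalIntegral.integral_add
          ((by fun_prop : Continuous fun t => k 0 * (Real.sin t * Real.cos t)).intervalIntegrable
            _ _)
          ((by fun_prop : Continuous fun t => k 1 * Real.sin t ^ 2).intervalIntegrable _ _)]
        rw [intervalIntegral.integral_const_mul, intervalIntegral.integral_const_mul,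
          integral_sin_sq, integral_sin_mul_cos₁]
        simp
        ring
      have e3 : s 1 = (1 / π) * ∫ t in (0:ℝ)..(2 * π), supp K t * Real.sin t := by
        rw [hs]; simp
      rw [e1, e2, e3]
      field_simp
    -- polar form
    set z : ℂ := ⟨a, b⟩ with hz
    set φ : ℝ := Complex.arg z with hφ
    have hza : a = ‖z‖ * Real.cos φ := (Complex.norm_mul_cos_arg z).symm
    have hzb : b = ‖z‖ * Real.sin φ := (Complex.norm_mul_sin_arg z).symm
    have hr : ∫ t in (0:ℝ)..(2 * π), D t * Real.cos (t - φ) = ‖z‖ := by
      have e1 : ∫ t in (0:ℝ)..(2 * π), D t * Real.cos (t - φ) =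
          Real.cos φ * a + Real.sin φ * b := by
        rw [ha, hb, ← intervalIntegral.integral_const_mul, ← intervalIntegral.integral_const_mul,
          ← intervalIntegral.integral_add
          ((by fun_prop : Continuous fun t => Real.cos φ * (D t * Real.cos t)).intervalIntegrable
            _ _)
          ((by fun_prop : Continuous fun t => Real.sin φ * (D t * Real.sin t)).intervalIntegrable
            _ _)]
        congr 1
        funext t
        rw [Real.cos_sub]
        ring
      rw [e1, hza, hzb]
      have := Real.sin_sq_add_cos_sq φ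
      linear_combination ‖z‖ * this
    have hlt : ‖z‖ < π := by
      by_contra hcon
      push Not at hcon
      have e1 : ∫ t in (0:ℝ)..(2 * π), D t * (1 - Real.cos (t - φ)) ≤ 0 := by
        have : ∫ t in (0:ℝ)..(2 * π), D t * (1 - Real.cos (t - φ)) =
            (∫ t in (0:ℝ)..(2 * π), D t) - ∫ t in (0:ℝ)..(2 * π), D t * Real.cos (t - φ) := by
          rw [← intervalIntegral.integral_sub (hDc.intervalIntegrable _ _)
            ((by fun_prop : Continuous fun t => D t * Real.cos (t - φ)).intervalIntegrable _ _)]
          congr 1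
          funext t
          ring
        rw [this, hr]
        linarith
      have e2 : ∀ t ∈ Icc (0:ℝ) (2 * π), D t * (1 - Real.cos (t - φ)) = 0 := by
        intro t ht
        by_contra hne0
        have hpos : 0 < D t * (1 - Real.cos (t - φ)) := by
          refine lt_of_le_of_ne ?_ (Ne.symm hne0)
          exact mul_nonneg (hD0 t) (by linarith [Real.cos_le_one (t - φ)])
        have := intervalIntegral.integral_pos (a := 0) (b := 2 * π)
          (f := fun t => D t * (1 - Real.cos (t - φ))) (by positivity)
          (by fun_prop) (fun x _ => mul_nonneg (hD0 x) (by linarith [Real.cos_le_one (x - φ)]))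
          ⟨t, ht, hpos⟩
        linarith
      have e3 : ∫ t in (0:ℝ)..(2 * π), D t * Real.cos (t - φ) = 0 := by
        have hcount : Set.Countable {t : ℝ | Real.cos (t - φ) = 1} := by
          refine (Set.countable_range (fun n : ℤ => (n : ℝ) * (2 * π) + φ)).mono ?_
          intro t ht
          obtain ⟨n, hn⟩ := (Real.cos_eq_one_iff _).mp ht
          exact ⟨n, by dsimp only; rw [hn]; ring⟩
        have hae : ∀ᵐ t ∂(volume : Measure ℝ), t ∉ {t : ℝ | Real.cos (t - φ) = 1} :=
          hcount.ae_notMem _
        have : ∫ t in (0:ℝ)..(2 * π), D t * Real.cos (t - φ) = ∫ t in (0:ℝ)..(2 * π), (0 : ℝ) := by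
          refine intervalIntegral.integral_congr_ae ?_
          filter_upwards [hae] with t ht htI
          rw [uIoc_of_le (by positivity)] at htI
          have h1 := e2 t ⟨htI.1.le, htI.2⟩
          rcases mul_eq_zero.mp h1 with h2 | h2
          · rw [h2, zero_mul]
          · exact absurd (by
              show Real.cos (t - φ) = 1
              linarith) ht
        rw [this]
        simp
      rw [hr] at e3
      linarith
    -- conclusion
    have hnz : ‖z‖ ^ 2 = a ^ 2 + b ^ 2 := by
      rw [← Complex.normSq_eq_norm_sq, Complex.normSq_mk]; ring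
    have hd : dist k s ^ 2 = (k 0 - s 0) ^ 2 + (k 1 - s 1) ^ 2 := by
      rw [EuclideanSpace.dist_eq, Real.sq_sqrt (by positivity), Fin.sum_univ_two, Real.dist_eq,
        Real.dist_eq, sq_abs, sq_abs]
    have h1 : (π * dist k s) ^ 2 = ‖z‖ ^ 2 := by
      rw [hnz, ha', hb', mul_pow, hd]
      ring
    have h2 : π * dist k s = ‖z‖ := by
      have h3 : 0 ≤ π * dist k s := by positivity
      rw [← abs_of_nonneg h3, ← abs_of_nonneg (norm_nonneg z)]
      exact (sq_eq_sq_iff_abs_eq_abs _ _).mp h1
    rw [← h2] at hlt
    by_contra hcon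
    push Not at hcon
    nlinarith
  obtain ⟨k0, hk0, hmax⟩ := hK.exists_isMaxOn hne
    (f := fun k => dist k s) (by fun_prop)
  exact ⟨s, dist k0 s, key k0 hk0, fun k hk => hmax hk⟩

end Pool.Agent.Helper679.Curve.J1189
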