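import Pool.Agent.Helper679.CurveBasic

set_option autoImplicit false

open MeasureTheory intervalIntegral Real Set

namespace Pool.Agent.Helper679.Curve.J1190



/-- the intersection of the unit discs centred in `K` lies in `K` -/
theorem dual_subset (K : Set (EuclideanSpace ℝ (Fin 2))) (hK : IsCompact K) (hc : Convex ℝ K)
    (hne : K.Nonempty) (hfar : ∀ y ∈ frontier K, ∃ k ∈ K, 1 ≤ dist y k)
    (s : EuclideanSpace ℝ (Fin 2)) (R : ℝ) (hR : R < 1) (hs : ∀ k ∈ K, dist k s ≤ R) :
    {z : EuclideanSpace ℝ (Fin 2) | ∀ k ∈ K, dist z k ≤ 1} ⊆ K := by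
  intro z hz
  by_contra hzK
  obtain ⟨z1, hz1K, hz1⟩ := exists_norm_eq_iInf_of_complete_convex hne hK.isComplete hc s
  rw [norm_eq_iInf_iff_real_inner_le_zero hc hz1K] at hz1
  have h1 : ∀ k ∈ K, dist z1 k ≤ R := by
    intro k hk
    have h2 := hz1 k hk
    have h3 : ‖s - k‖ ^ 2 = ‖s - z1‖ ^ 2 - 2 * inner ℝ (s - z1) (k - z1) + ‖k - z1‖ ^ 2 := by
      rw [← norm_sub_sq_real]
      congr 2
      abel
    have h4 : ‖k - z1‖ ^ 2 ≤ ‖s - k‖ ^ 2 := by
      rw [h3]; nlinarith [sq_nonneg ‖s - z1‖]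
    have h5 : ‖k - z1‖ ≤ ‖s - k‖ := by
      exact le_of_sq_le_sq h4 (norm_nonneg _) 
    have h6 := hs k hk
    rw [dist_eq_norm] at h6 ⊢
    rw [norm_sub_rev] at h6 ⊢
    linarith
  have hseg : IsPreconnected (segment ℝ z1 z) := (convex_segment z1 z).isPreconnected
  have hex : ∃ w ∈ segment ℝ z1 z, w ∈ frontier K := by
    by_contra hno
    push Not at hno
    have hint : ∀ w ∈ segment ℝ z1 z, w ∈ K → w ∈ interior K := by
      intro w hw hwK
      rw [mem_interior_iff_notMem_frontier hwK]
      exact hno w hw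
    obtain ⟨w, -, hw1, hw2⟩ := hseg (interior K) Kᶜ isOpen_interior hK.isClosed.isOpen_compl
      (fun w hw => by
        by_cases h : w ∈ K
        · exact Or.inl (hint w hw h)
        · exact Or.inr h)
      ⟨z1, left_mem_segment ℝ z1 z, hint _ (left_mem_segment ℝ z1 z) hz1K⟩
      ⟨z, right_mem_segment ℝ z1 z, hzK⟩
    exact hw2 (interior_subset hw1)
  obtain ⟨w, hw, hwf⟩ := hex
  obtain ⟨a, b, ha, hb, hab, rfl⟩ := hw
  have hwK := hK.isClosed.frontier_subset hwf
  have ha0 : 0 < a := by
    rcases ha.lt_or_eq with h | h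
    · exact h
    · exfalso
      apply hzK
      have hb1 : b = 1 := by linarith
      rw [← h, hb1] at hwK
      simpa using hwK
  obtain ⟨k, hk, hk1⟩ := hfar _ hwf
  have h7 := h1 k hk
  have h8 := hz k hk
  have h9 : dist (a • z1 + b • z) k ≤ a * dist z1 k + b * dist z k := by
    rw [dist_eq_norm, dist_eq_norm, dist_eq_norm]
    have : a • z1 + b • z - k = a • (z1 - k) + b • (z - k) := by
      have hk' : k = (a + b) • k := by rw [hab, one_smul]
      conv_lhs => rw [hk']
      module
    rw [this]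
    refine (norm_add_le _ _).trans ?_
    rw [norm_smul, norm_smul, Real.norm_of_nonneg ha, Real.norm_of_nonneg hb]
  have h10 : a * dist z1 k ≤ a * R := mul_le_mul_of_nonneg_left h7 ha
  have h11 : b * dist z k ≤ b * 1 := mul_le_mul_of_nonneg_left h8 hb
  nlinarith

/-- support points of the dual body -/
theorem exists_dd (K : Set (EuclideanSpace ℝ (Fin 2))) (hK : IsCompact K) (hne : K.Nonempty)
    (s : EuclideanSpace ℝ (Fin 2)) (hs : ∀ k ∈ K, dist k s ≤ 1) :
    ∃ dd : ℝ → EuclideanSpace ℝ (Fin 2), (∀ t, ∀ k ∈ K, dist (dd t) k ≤ 1) ∧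
      (∀ t, dd (t + 2 * π) = dd t) ∧
      ∀ t, ∀ z : EuclideanSpace ℝ (Fin 2), (∀ k ∈ K, dist z k ≤ 1) →
        ‖z - dd t‖ ^ 2 ≤ 2 * inner ℝ (z - dd t) (uv t) := by
  set D : Set (EuclideanSpace ℝ (Fin 2)) := {z | ∀ k ∈ K, dist z k ≤ 1} with hD
  obtain ⟨k0, hk0⟩ := hne
  have hDclosed : IsClosed D := by
    have : D = ⋂ k ∈ K, Metric.closedBall k 1 := by ext z; simp [hD]
    rw [this]
    exact isClosed_biInter fun k _ => Metric.isClosed_closedBall
  have hDc : IsCompact D := (isCompact_closedBall k0 1).of_isClosed_subset hDclosed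
    (fun z hz => by simpa using hz k0 hk0)
  have hDne : D.Nonempty := ⟨s, fun k hk => by rw [dist_comm]; exact hs k hk⟩
  have hmin : ∀ u : EuclideanSpace ℝ (Fin 2), ∃ d ∈ D, ∀ z ∈ D, inner ℝ d u ≤ inner ℝ z u := by
    intro u
    obtain ⟨d, hd, hdm⟩ := hDc.exists_isMinOn hDne (f := fun z => inner ℝ z u) (by fun_prop)
    exact ⟨d, hd, fun z hz => hdm hz⟩
  choose d hdD hdm using hmin
  refine ⟨fun t => d (uv t), fun t k hk => hdD _ k hk, fun t => ?_, fun t z hz => ?_⟩
  · simp [uv, Real.cos_add_two_pi, Real.sin_add_two_pi]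
  · have hu : ‖uv t‖ = 1 := by
      rw [EuclideanSpace.norm_eq]
      simp [uv, Fin.sum_univ_two]
    set u := uv t with hu_def
    set p := d u with hp
    have hpD : ∀ k ∈ K, dist p k ≤ 1 := hdD u
    have hpm := hdm u
    have huu : inner ℝ u u = (1 : ℝ) := by
      rw [real_inner_self_eq_norm_sq, hu]; norm_num
    have key : ∀ r : ℝ, 0 < r → r < 1 → (1 - r) * ‖z - p‖ ^ 2 ≤ 2 * inner ℝ (z - p) u := by
      intro r hr0 hr1
      set x : ℝ := r * (1 - r) * ‖z - p‖ ^ 2 with hx
      have hx0 : 0 ≤ x := by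
        rw [hx]
        have : 0 ≤ 1 - r := by linarith
        positivity
      have hy : (p + r • (z - p) - (x / 2) • u) ∈ D := by
        intro k hk
        have e1 : ‖p + r • (z - p) - k‖ ^ 2 =
            (1 - r) * ‖p - k‖ ^ 2 + r * ‖z - k‖ ^ 2 - x := by
          have a1 : p + r • (z - p) - k = (1 - r) • (p - k) + r • (z - k) := by module
          have a2 : z - p = (z - k) - (p - k) := by abel
          rw [hx, a1, a2, norm_add_sq_real, norm_sub_sq_real (z - k) (p - k), norm_smul, norm_smul,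
            inner_smul_left, inner_smul_right, Real.norm_of_nonneg hr0.le,
            Real.norm_of_nonneg (by linarith : (0:ℝ) ≤ 1 - r), real_inner_comm (p - k) (z - k)]
          simp only [conj_trivial]
          ring
        have b1 : ‖p - k‖ ≤ 1 := by have := hpD k hk; rwa [dist_eq_norm] at this
        have b2 : ‖z - k‖ ≤ 1 := by have := hz k hk; rwa [dist_eq_norm] at this
        have b3 : ‖p - k‖ ^ 2 ≤ 1 := by nlinarith [norm_nonneg (p - k)]
        have b4 : ‖z - k‖ ^ 2 ≤ 1 := by nlinarith [norm_nonneg (z - k)]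
        have e2 : ‖p + r • (z - p) - k‖ ^ 2 ≤ 1 - x := by
          rw [e1]
          nlinarith
        have hx1 : x ≤ 1 := by nlinarith [sq_nonneg ‖p + r • (z - p) - k‖]
        have e3 : ‖p + r • (z - p) - k‖ ≤ 1 - x / 2 := by
          apply le_of_sq_le_sq _ (by linarith)
          nlinarith [sq_nonneg x]
        rw [dist_eq_norm]
        have e4 : p + r • (z - p) - (x / 2) • u - k = (p + r • (z - p) - k) - (x / 2) • u := by
          abel
        rw [e4]
        refine (norm_sub_le _ _).trans ?_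
        rw [norm_smul, hu, Real.norm_of_nonneg (by linarith)]
        linarith
      have h1 := hpm _ hy
      rw [inner_sub_left, inner_add_left, inner_smul_left, inner_smul_left, huu] at h1
      simp only [conj_trivial] at h1
      have h2 : r * ((1 - r) * ‖z - p‖ ^ 2) ≤ r * (2 * inner ℝ (z - p) u) := by
        have : r * ((1 - r) * ‖z - p‖ ^ 2) = x := by rw [hx]; ring
        rw [this]
        linarith
      exact le_of_mul_le_mul_left h2 hr0
    by_contra hcon
    push Not at hcon
    set A := ‖z - p‖ ^ 2 with hA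
    set B : ℝ := 2 * inner ℝ (z - p) u with hB
    have hA0 : 0 ≤ A := by positivity
    have hB0 : 0 ≤ B := by
      have := key (1/2) (by norm_num) (by norm_num)
      linarith
    have hApos : 0 < A := lt_of_le_of_lt hB0 hcon
    have hr := key ((A - B) / (2 * A)) (div_pos (by linarith) (by linarith))
      (by rw [div_lt_one (by linarith)]; linarith)
    have : (1 - (A - B) / (2 * A)) * A = (A + B) / 2 := by
      field_simp
      ring
    rw [this] at hr
    linarith

end Pool.Agent.Helper679.Curve.J1190
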