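import Pool.Agent.Helper679.CurveBasic

set_option autoImplicit false

open MeasureTheory intervalIntegral Real Set

namespace Pool.Agent.Helper679.Curve.J1191



/-- real version of the density theorem -/
theorem exists_density_real (x y : ℝ → ℝ)
    (hpx : ∀ t, x (t + 2 * π) = x t) (hpy : ∀ t, y (t + 2 * π) = y t)
    (hdd : ∀ t f, (x f - x t) ^ 2 + (y f - y t) ^ 2 ≤
      2 * ((x f - x t) * Real.cos t + (y f - y t) * Real.sin t)) :
    ∃ τ : ℝ → ℝ, Measurable τ ∧ Function.Periodic τ (2 * π) ∧ (∀ t, 0 ≤ τ t) ∧ (∀ t, τ t ≤ 1) ∧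
      (∀ t, 2 + ((x t - x (t + π)) * Real.cos t + (y t - y (t + π)) * Real.sin t) =
        1 / 2 * ∫ s in (0:ℝ)..(2 * π), (1 - τ s) * |Real.sin (t - s)|) ∧
      ∀ a b : ℝ, (∀ s ∈ Icc a b, x s = x a ∧ y s = y a) → ∀ s ∈ Ioo a b, τ s = 0 := by
  classical
  -- symmetric inequality
  have hsym : ∀ t f, (x f - x t) ^ 2 + (y f - y t) ^ 2 ≤
      (x f - x t) * (Real.cos t - Real.cos f) + (y f - y t) * (Real.sin t - Real.sin f) := by
    intro t f
    have h1 := hdd t f
    have h2 := hdd f t
    nlinarith
  have hcs : ∀ t f : ℝ, (Real.cos t - Real.cos f) ^ 2 + (Real.sin t - Real.sin f) ^ 2 ≤ (t - f) ^ 2 := by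
    intro t f
    have h1 : (Real.cos t - Real.cos f) ^ 2 + (Real.sin t - Real.sin f) ^ 2 =
        2 - 2 * Real.cos (t - f) := by
      rw [Real.cos_sub]
      nlinarith [Real.sin_sq_add_cos_sq t, Real.sin_sq_add_cos_sq f]
    rw [h1]
    have := Real.one_sub_sq_div_two_le_cos (x := t - f)
    linarith
  have hlip2 : ∀ t f, (x f - x t) ^ 2 + (y f - y t) ^ 2 ≤ (t - f) ^ 2 := by
    intro t f
    have h1 := hsym t f
    have h2 := hcs t f
    nlinarith [sq_nonneg ((x f - x t) - (Real.cos t - Real.cos f)),
      sq_nonneg ((y f - y t) - (Real.sin t - Real.sin f))]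
  have hLx : LipschitzWith 1 x := by
    apply LipschitzWith.of_dist_le_mul
    intro s t
    rw [Real.dist_eq, Real.dist_eq, NNReal.coe_one, one_mul]
    exact sq_le_sq.mp (by nlinarith [hlip2 t s, sq_nonneg (y s - y t)])
  have hLy : LipschitzWith 1 y := by
    apply LipschitzWith.of_dist_le_mul
    intro s t
    rw [Real.dist_eq, Real.dist_eq, NNReal.coe_one, one_mul]
    exact sq_le_sq.mp (by nlinarith [hlip2 t s, sq_nonneg (x s - x t)])
  -- the density
  set S : Set ℝ := {t | DifferentiableAt ℝ x t} ∩ {t | DifferentiableAt ℝ y t} with hS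
  have hSm : MeasurableSet S :=
    (measurableSet_of_differentiableAt ℝ x).inter (measurableSet_of_differentiableAt ℝ y)
  set g : ℝ → ℝ := fun t => Real.sin t * deriv x t - Real.cos t * deriv y t with hg
  have hgm : Measurable g :=
    (Real.measurable_sin.mul (measurable_deriv x)).sub (Real.measurable_cos.mul (measurable_deriv y))
  set τ : ℝ → ℝ := S.indicator g with hτ
  -- facts at differentiability points
  have hkey : ∀ t ∈ S, deriv x t * Real.cos t + deriv y t * Real.sin t = 0 ∧
      (deriv x t) ^ 2 + (deriv y t) ^ 2 ≤ g t := by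
    rintro t ⟨htx, hty⟩
    have hdx : HasDerivAt x (deriv x t) t := htx.hasDerivAt
    have hdy : HasDerivAt y (deriv y t) t := hty.hasDerivAt
    constructor
    · have hφ : HasDerivAt (fun f => (x f - x t) * Real.cos t + (y f - y t) * Real.sin t)
          (deriv x t * Real.cos t + deriv y t * Real.sin t) t :=
        ((hdx.sub_const _).mul_const _).add ((hdy.sub_const _).mul_const _)
      have hmin : IsLocalMin (fun f => (x f - x t) * Real.cos t + (y f - y t) * Real.sin t) t := by
        apply Filter.Eventually.of_forall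
        intro f
        have := hdd t f
        simp only [sub_self, zero_mul, add_zero]
        nlinarith [sq_nonneg (x f - x t), sq_nonneg (y f - y t)]
      exact hmin.hasDerivAt_eq_zero hφ
    · have sx := hasDerivAt_iff_tendsto_slope.mp hdx
      have sy := hasDerivAt_iff_tendsto_slope.mp hdy
      have sc := hasDerivAt_iff_tendsto_slope.mp (Real.hasDerivAt_cos t)
      have ss := hasDerivAt_iff_tendsto_slope.mp (Real.hasDerivAt_sin t)
      have l1 := (sx.pow 2).add (sy.pow 2)
      have l2 := ((sx.mul sc.neg).add (sy.mul ss.neg))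
      have hle := le_of_tendsto_of_tendsto l1 l2 (by
        filter_upwards [self_mem_nhdsWithin] with f hf
        have hf' : f - t ≠ 0 := sub_ne_zero.mpr hf
        have hpos : 0 < (f - t) ^ 2 := by positivity
        simp only [slope_def_field]
        have := hsym t f
        have e1 : ((x f - x t) / (f - t)) ^ 2 + ((y f - y t) / (f - t)) ^ 2 =
            ((x f - x t) ^ 2 + (y f - y t) ^ 2) / (f - t) ^ 2 := by
          rw [div_pow, div_pow, add_div]
        have e2 : (x f - x t) / (f - t) * -((Real.cos f - Real.cos t) / (f - t)) +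
            (y f - y t) / (f - t) * -((Real.sin f - Real.sin t) / (f - t)) =
            ((x f - x t) * (Real.cos t - Real.cos f) + (y f - y t) * (Real.sin t - Real.sin f)) /
              (f - t) ^ 2 := by
          field_simp
          ring
        rw [e1, e2]
        gcongr)
      rw [hg]
      simp only
      nlinarith
  have hab : ∀ t ∈ S, deriv x t = g t * Real.sin t ∧ deriv y t = - (g t * Real.cos t) := by
    intro t ht
    have h1 := (hkey t ht).1
    have h2 := Real.sin_sq_add_cos_sq t
    constructor
    · have : g t * Real.sin t = deriv x t * (Real.sin t ^ 2) - deriv y t * Real.sin t * Real.cos t := by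
        rw [hg]; ring
      rw [this]
      have h3 : deriv y t * Real.sin t = - (deriv x t * Real.cos t) := by linarith
      rw [h3]
      have : deriv x t * Real.sin t ^ 2 - -(deriv x t * Real.cos t) * Real.cos t =
        deriv x t * (Real.sin t ^ 2 + Real.cos t ^ 2) := by ring
      rw [this, h2, mul_one]
    · have : g t * Real.cos t = deriv x t * Real.cos t * Real.sin t - deriv y t * (Real.cos t ^ 2) := by
        rw [hg]; ring
      rw [this]
      have h3 : deriv x t * Real.cos t = - (deriv y t * Real.sin t) := by linarith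
      rw [h3]
      have : -(-(deriv y t * Real.sin t) * Real.sin t - deriv y t * Real.cos t ^ 2) =
        deriv y t * (Real.sin t ^ 2 + Real.cos t ^ 2) := by ring
      rw [this, h2, mul_one]
  have hg0 : ∀ t ∈ S, 0 ≤ g t := fun t ht => by
    nlinarith [(hkey t ht).2, sq_nonneg (deriv x t), sq_nonneg (deriv y t)]
  have hg1 : ∀ t ∈ S, g t ≤ 1 := by
    intro t ht
    have h1 := (hkey t ht).2
    obtain ⟨h2, h3⟩ := hab t ht
    have h4 : (deriv x t) ^ 2 + (deriv y t) ^ 2 = g t ^ 2 * (Real.sin t ^ 2 + Real.cos t ^ 2) := by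
      rw [h2, h3]; ring
    rw [h4, Real.sin_sq_add_cos_sq, mul_one] at h1
    by_contra hcon
    nlinarith
  have hτ0 : ∀ t, 0 ≤ τ t := by
    intro t
    by_cases ht : t ∈ S
    · rw [hτ, indicator_of_mem ht]; exact hg0 t ht
    · rw [hτ, indicator_of_notMem ht]
  have hτ1 : ∀ t, τ t ≤ 1 := by
    intro t
    by_cases ht : t ∈ S
    · rw [hτ, indicator_of_mem ht]; exact hg1 t ht
    · rw [hτ, indicator_of_notMem ht]; norm_num
  have hτm : Measurable τ := hgm.indicator hSm
  -- periodicity
  have hxfun : (fun t => x (t + 2 * π)) = x := funext hpx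
  have hyfun : (fun t => y (t + 2 * π)) = y := funext hpy
  have hτp : Function.Periodic τ (2 * π) := by
    intro t
    have d1 : deriv x (t + 2 * π) = deriv x t := by
      conv_rhs => rw [← hxfun]
      rw [deriv_comp_add_const]
    have d2 : deriv y (t + 2 * π) = deriv y t := by
      conv_rhs => rw [← hyfun]
      rw [deriv_comp_add_const]
    have m1 : DifferentiableAt ℝ x (t + 2 * π) ↔ DifferentiableAt ℝ x t := by
      conv_rhs => rw [← hxfun]
      exact differentiableAt_comp_add_const.symm
    have m2 : DifferentiableAt ℝ y (t + 2 * π) ↔ DifferentiableAt ℝ y t := by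
      conv_rhs => rw [← hyfun]
      exact differentiableAt_comp_add_const.symm
    have m3 : (t + 2 * π ∈ S) ↔ t ∈ S := and_congr m1 m2
    have m4 : g (t + 2 * π) = g t := by
      rw [hg]
      simp only
      rw [d1, d2, Real.sin_add_two_pi, Real.cos_add_two_pi]
    by_cases ht : t ∈ S
    · rw [hτ, indicator_of_mem ht, indicator_of_mem (m3.mpr ht), m4]
    · rw [hτ, indicator_of_notMem ht, indicator_of_notMem (fun h => ht (m3.mp h))]
  -- the fundamental theorem of calculus
  have hae : ∀ᵐ s : ℝ, s ∈ S := by
    filter_upwards [hLx.ae_differentiableAt_real, hLy.ae_differentiableAt_real] with s h1 h2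
    exact ⟨h1, h2⟩
  have hftc : ∀ t a b : ℝ, ∫ s in a..b, τ s * Real.sin (s - t) =
      (x b - x a) * Real.cos t + (y b - y a) * Real.sin t := by
    intro t a b
    have ax := (hLx.lipschitzOnWith (s := uIcc a b)).absolutelyContinuousOnInterval.integral_deriv_eq_sub
    have ay := (hLy.lipschitzOnWith (s := uIcc a b)).absolutelyContinuousOnInterval.integral_deriv_eq_sub
    have ix := (hLx.lipschitzOnWith (s := uIcc a b)).absolutelyContinuousOnInterval.intervalIntegrable_deriv
    have iy := (hLy.lipschitzOnWith (s := uIcc a b)).absolutelyContinuousOnInterval.intervalIntegrable_deriv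
    rw [← ax, ← ay, ← intervalIntegral.integral_mul_const, ← intervalIntegral.integral_mul_const,
      ← intervalIntegral.integral_add (ix.mul_const _) (iy.mul_const _)]
    apply intervalIntegral.integral_congr_ae
    filter_upwards [hae] with s hs _
    rw [hτ, indicator_of_mem hs, (hab s hs).1, (hab s hs).2, Real.sin_sub]
    ring
  have hτi : ∀ a b : ℝ, IntervalIntegrable τ volume a b := by
    intro a b
    rw [intervalIntegrable_iff]
    refine Measure.integrableOn_of_bounded (M := 1) ?_ hτm.aestronglyMeasurable ?_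
    · rw [uIoc, Real.volume_Ioc]; exact ENNReal.ofReal_ne_top
    · apply Filter.Eventually.of_forall
      intro s
      rw [Real.norm_eq_abs, abs_of_nonneg (hτ0 s)]
      exact hτ1 s
  have hsplit : ∀ (w : ℝ → ℝ), Function.Periodic w (2 * π) →
      (∀ a b : ℝ, IntervalIntegrable w volume a b) → ∀ t : ℝ,
      ∫ s in (0:ℝ)..(2 * π), w s * |Real.sin (t - s)| =
        (∫ s in t..(t + π), w s * Real.sin (s - t)) -
          ∫ s in (t + π)..(t + 2 * π), w s * Real.sin (s - t) := by
    intro w hwp hwi t
    have hpi := Real.pi_pos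
    have hi : ∀ a b : ℝ, IntervalIntegrable (fun s => w s * |Real.sin (t - s)|) volume a b := by
      intro a b
      have h2 : Continuous (fun s => |Real.sin (t - s)|) := by fun_prop
      exact (hwi a b).mul_continuousOn h2.continuousOn
    have hp : Function.Periodic (fun s => w s * |Real.sin (t - s)|) (2 * π) := by
      intro s
      have e : t - (s + 2 * π) = t - s - 2 * π := by ring
      simp only
      rw [hwp s, e, Real.sin_sub_two_pi]
    have e0 : ∫ s in (0:ℝ)..(2 * π), w s * |Real.sin (t - s)| =
        ∫ s in t..(t + 2 * π), w s * |Real.sin (t - s)| := by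
      have := hp.intervalIntegral_add_eq 0 t
      rwa [zero_add] at this
    have e1 : ∫ s in t..(t + π), w s * |Real.sin (t - s)| =
        ∫ s in t..(t + π), w s * Real.sin (s - t) := by
      apply intervalIntegral.integral_congr
      intro s hs
      rw [uIcc_of_le (by linarith)] at hs
      have h1 : 0 ≤ Real.sin (s - t) :=
        Real.sin_nonneg_of_nonneg_of_le_pi (by linarith [hs.1]) (by linarith [hs.2])
      have h2 : |Real.sin (t - s)| = Real.sin (s - t) := by
        rw [← neg_sub s t, Real.sin_neg, abs_neg, abs_of_nonneg h1]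
      simp only
      rw [h2]
    have e2 : ∫ s in (t + π)..(t + 2 * π), w s * |Real.sin (t - s)| =
        - ∫ s in (t + π)..(t + 2 * π), w s * Real.sin (s - t) := by
      rw [← intervalIntegral.integral_neg]
      apply intervalIntegral.integral_congr
      intro s hs
      rw [uIcc_of_le (by linarith)] at hs
      have h1 : Real.sin (s - t) ≤ 0 := by
        have h3 : 0 ≤ Real.sin (s - t - π) :=
          Real.sin_nonneg_of_nonneg_of_le_pi (by linarith [hs.1]) (by linarith [hs.2])
        rw [Real.sin_sub_pi] at h3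
        linarith
      have h2 : |Real.sin (t - s)| = - Real.sin (s - t) := by
        rw [← neg_sub s t, Real.sin_neg, abs_neg, abs_of_nonpos h1]
      simp only
      rw [h2]
      ring
    rw [e0, ← intervalIntegral.integral_add_adjacent_intervals (hi t (t + π))
      (hi (t + π) (t + 2 * π)), e1, e2]
    ring
  refine ⟨τ, hτm, hτp, hτ0, hτ1, ?_, ?_⟩
  · intro t
    have e1 := hsplit τ hτp hτi t
    rw [hftc, hftc, hpx, hpy] at e1
    have e2 := hsplit (fun _ => 1) (fun _ => rfl) (fun a b => intervalIntegrable_const) t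
    have e3 : (∫ s in t..(t + π), (1:ℝ) * Real.sin (s - t)) = 2 := by
      simp only [one_mul]
      rw [intervalIntegral.integral_comp_sub_right (fun s => Real.sin s) t, integral_sin]
      norm_num
    have e4 : (∫ s in (t + π)..(t + 2 * π), (1:ℝ) * Real.sin (s - t)) = -2 := by
      simp only [one_mul]
      rw [intervalIntegral.integral_comp_sub_right (fun s => Real.sin s) t, integral_sin]
      norm_num
    rw [e3, e4] at e2
    have hi1 : IntervalIntegrable (fun s => (1:ℝ) * |Real.sin (t - s)|) volume 0 (2 * π) := by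
      apply Continuous.intervalIntegrable; fun_prop
    have hi2 : IntervalIntegrable (fun s => τ s * |Real.sin (t - s)|) volume 0 (2 * π) := by
      have h2 : Continuous (fun s => |Real.sin (t - s)|) := by fun_prop
      exact (hτi _ _).mul_continuousOn h2.continuousOn
    have e5 : ∫ s in (0:ℝ)..(2 * π), (1 - τ s) * |Real.sin (t - s)| =
        (∫ s in (0:ℝ)..(2 * π), (1:ℝ) * |Real.sin (t - s)|) -
          ∫ s in (0:ℝ)..(2 * π), τ s * |Real.sin (t - s)| := by
      rw [← intervalIntegral.integral_sub hi1 hi2]
      congr 1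
      funext s
      ring
    rw [e5, e1, e2]
    ring
  · intro a b hconst s hs
    by_cases hsS : s ∈ S
    · rw [hτ, indicator_of_mem hsS, hg]
      have hx0 : deriv x s = 0 := by
        have : x =ᶠ[nhds s] fun _ => x a := by
          filter_upwards [Icc_mem_nhds hs.1 hs.2] with r hr
          exact (hconst r hr).1
        rw [this.deriv_eq, deriv_const]
      have hy0 : deriv y s = 0 := by
        have : y =ᶠ[nhds s] fun _ => y a := by
          filter_upwards [Icc_mem_nhds hs.1 hs.2] with r hr
          exact (hconst r hr).2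
        rw [this.deriv_eq, deriv_const]
      simp only
      rw [hx0, hy0, mul_zero, mul_zero, sub_zero]
    · rw [hτ, indicator_of_notMem hsS]

/-- the density of curvature -/
theorem exists_density (dd : ℝ → EuclideanSpace ℝ (Fin 2))
    (hper : ∀ t, dd (t + 2 * π) = dd t)
    (hdd : ∀ t f, ‖dd f - dd t‖ ^ 2 ≤ 2 * inner ℝ (dd f - dd t) (uv t)) :
    ∃ τ : ℝ → ℝ, Measurable τ ∧ Function.Periodic τ (2 * π) ∧ (∀ t, 0 ≤ τ t) ∧ (∀ t, τ t ≤ 1) ∧
      (∀ t, 2 + inner ℝ (dd t - dd (t + π)) (uv t) =
        1 / 2 * ∫ s in (0:ℝ)..(2 * π), (1 - τ s) * |Real.sin (t - s)|) ∧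
      ∀ a b : ℝ, (∀ s ∈ Icc a b, dd s = dd a) → ∀ s ∈ Ioo a b, τ s = 0 := by
  have hin : ∀ (v : EuclideanSpace ℝ (Fin 2)) (t : ℝ),
      inner ℝ v (uv t) = v 0 * Real.cos t + v 1 * Real.sin t := by
    intro v t
    rw [PiLp.inner_apply, Fin.sum_univ_two]
    simp [uv, mul_comm]
  have hno : ∀ v : EuclideanSpace ℝ (Fin 2), ‖v‖ ^ 2 = v 0 ^ 2 + v 1 ^ 2 := by
    intro v
    rw [EuclideanSpace.norm_sq_eq, Fin.sum_univ_two, Real.norm_eq_abs, Real.norm_eq_abs, sq_abs,
      sq_abs]
  obtain ⟨τ, h1, h2, h3, h4, h5, h6⟩ := exists_density_real (fun t => dd t 0) (fun t => dd t 1)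
    (fun t => by simp only [hper]) (fun t => by simp only [hper])
    (fun t f => by
      have := hdd t f
      rw [hin, hno] at this
      simpa using this)
  refine ⟨τ, h1, h2, h3, h4, fun t => ?_, fun a b hab s hs => ?_⟩
  · rw [hin, ← h5 t]
    simp
  · exact h6 a b (fun r hr => by simp only [hab r hr, and_self]) s hs

end Pool.Agent.Helper679.Curve.J1191
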