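import Pool.Agent.Helper679.CurveBasic

set_option autoImplicit false

open MeasureTheory intervalIntegral Real Set

namespace Pool.Agent.Helper679.Curve.J1192



lemma uv_inner' (a b : ℝ) : inner ℝ (uv a) (uv b) = Real.cos (a - b) := by
  simp [uv, PiLp.inner_apply, Fin.sum_univ_two, Real.cos_sub]
  ring

lemma uv_norm' (a : ℝ) : ‖uv a‖ = 1 := by
  have h : ‖uv a‖ ^ 2 = 1 := by
    rw [← real_inner_self_eq_norm_sq, uv_inner']; simp
  have h0 := norm_nonneg (uv a)
  nlinarith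

lemma uv_cont' : Continuous uv := by
  unfold uv
  fun_prop

lemma inner_uv (z : EuclideanSpace ℝ (Fin 2)) (a : ℝ) :
    inner ℝ z (uv a) = z 0 * Real.cos a + z 1 * Real.sin a := by
  simp [uv, PiLp.inner_apply, Fin.sum_univ_two]
  ring

/-- a unit vector with nonnegative inner product with `uv (t + π / 2)` -/
lemma exists_angle (z : EuclideanSpace ℝ (Fin 2)) (hz : ‖z‖ = 1) (t : ℝ) :
    ∃ f, t - π < f ∧ f ≤ t + π ∧ z = uv f := by
  have h1 : z 0 ^ 2 + z 1 ^ 2 = 1 := by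
    have := EuclideanSpace.norm_sq_eq z
    rw [hz, Fin.sum_univ_two] at this
    simp only [Real.norm_eq_abs, sq_abs] at this
    linarith
  set c : ℂ := ⟨z 0, z 1⟩ with hc
  set c' : ℂ := c * Complex.exp (-(t : ℂ) * Complex.I) with hc'
  have hcn : ‖c‖ = 1 := by
    rw [← sq_eq_sq₀ (norm_nonneg _) zero_le_one, ← Complex.normSq_eq_norm_sq,
      Complex.normSq_apply]
    simp only [hc]
    nlinarith
  have hexp : ‖Complex.exp (-(t : ℂ) * Complex.I)‖ = 1 := by
    have := Complex.norm_exp_ofReal_mul_I (-t)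
    push_cast at this
    exact this
  have hcn' : ‖c'‖ = 1 := by rw [hc', norm_mul, hcn, hexp, one_mul]
  have h2 : c' = Complex.exp (Complex.arg c' * Complex.I) := by
    have := Complex.norm_mul_exp_arg_mul_I c'
    rw [hcn'] at this
    simpa using this.symm
  refine ⟨t + Complex.arg c', by linarith [Complex.neg_pi_lt_arg c'],
    by linarith [Complex.arg_le_pi c'], ?_⟩
  have h3 : c = Complex.exp (((t + Complex.arg c' : ℝ) : ℂ) * Complex.I) := by
    have : c = c' * Complex.exp ((t : ℂ) * Complex.I) := by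
      rw [hc', mul_assoc, ← Complex.exp_add]; simp
    rw [this]
    conv_lhs => rw [h2]
    rw [← Complex.exp_add]
    congr 1
    push_cast; ring
  have hre : z 0 = Real.cos (t + Complex.arg c') := by
    have := congrArg Complex.re h3
    rw [Complex.exp_ofReal_mul_I_re] at this
    exact this
  have him : z 1 = Real.sin (t + Complex.arg c') := by
    have := congrArg Complex.im h3
    rw [Complex.exp_ofReal_mul_I_im] at this
    exact this
  ext i
  fin_cases i
  · simpa [uv] using hre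
  · simpa [uv] using him

/-- elementary comparison facts -/
theorem supp_le (K : Set (EuclideanSpace ℝ (Fin 2))) (hK : IsCompact K) (hne : K.Nonempty)
    (dd : ℝ → EuclideanSpace ℝ (Fin 2)) (hd1 : ∀ t, ∀ k ∈ K, dist (dd t) k ≤ 1) (t : ℝ) :
    supp K t ≤ 1 + inner ℝ (dd t) (uv t) := by
  refine csSup_le (hne.image _) ?_
  rintro _ ⟨k, hk, rfl⟩
  have h1 : inner ℝ (k - dd t) (uv t) ≤ 1 := by
    have := real_inner_le_norm (k - dd t) (uv t)
    rw [uv_norm', mul_one] at this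
    have h2 := hd1 t k hk
    rw [dist_comm, dist_eq_norm] at h2
    linarith
  rw [inner_sub_left] at h1
  simp only
  linarith

lemma bddAbove_supp (K : Set (EuclideanSpace ℝ (Fin 2))) (hK : IsCompact K) (t : ℝ) :
    BddAbove ((fun k => inner ℝ k (uv t)) '' K) :=
  (hK.image (by fun_prop)).bddAbove

lemma le_supp_of_mem (K : Set (EuclideanSpace ℝ (Fin 2))) (hK : IsCompact K)
    {k : EuclideanSpace ℝ (Fin 2)} (hk : k ∈ K) (t : ℝ) : inner ℝ k (uv t) ≤ supp K t :=
  le_csSup (bddAbove_supp K hK t) ⟨k, hk, rfl⟩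

theorem le_supp (K : Set (EuclideanSpace ℝ (Fin 2))) (hK : IsCompact K)
    (dd : ℝ → EuclideanSpace ℝ (Fin 2)) (hd0 : ∀ t, dd t ∈ K) (t : ℝ) :
    - inner ℝ (dd (t + π)) (uv (t + π)) ≤ supp K t := by
  have h1 : - inner ℝ (dd (t + π)) (uv (t + π)) = inner ℝ (dd (t + π)) (uv t) := by
    rw [inner_uv, inner_uv, Real.cos_add_pi, Real.sin_add_pi]; ring
  rw [h1]
  exact le_supp_of_mem K hK (hd0 _) t

/-- contact points -/
lemma exists_contact (K : Set (EuclideanSpace ℝ (Fin 2))) (hK : IsCompact K) (hne : K.Nonempty)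
    (dd : ℝ → EuclideanSpace ℝ (Fin 2)) (hd1 : ∀ t, ∀ k ∈ K, dist (dd t) k ≤ 1)
    (v : ℝ) (hv : supp K v = 1 + inner ℝ (dd v) (uv v)) : dd v + uv v ∈ K := by
  obtain ⟨k, hk, hkv⟩ := (hK.image (f := fun k => inner ℝ k (uv v)) (by fun_prop)).sSup_mem
    (hne.image _)
  have h1 : inner ℝ k (uv v) = 1 + inner ℝ (dd v) (uv v) := by
    rw [← hv]; exact hkv
  have h2 : k = dd v + uv v := by
    have h3 : ‖k - dd v - uv v‖ ^ 2 ≤ 0 := by
      rw [norm_sub_sq_real, uv_norm', inner_sub_left, h1]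
      have h4 := hd1 v k hk
      rw [dist_comm, dist_eq_norm] at h4
      nlinarith [norm_nonneg (k - dd v)]
    have h5 : ‖k - dd v - uv v‖ = 0 := by
      have := norm_nonneg (k - dd v - uv v)
      nlinarith
    rw [norm_eq_zero] at h5
    rw [sub_sub] at h5
    exact sub_eq_zero.mp h5
  rw [← h2]; exact hk

theorem gap_le (K : Set (EuclideanSpace ℝ (Fin 2))) (hK : IsCompact K) (hne : K.Nonempty)
    (dd : ℝ → EuclideanSpace ℝ (Fin 2)) (hd1 : ∀ t, ∀ k ∈ K, dist (dd t) k ≤ 1)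
    (hd2 : ∀ t, ∀ z : EuclideanSpace ℝ (Fin 2), (∀ k ∈ K, dist z k ≤ 1) →
        ‖z - dd t‖ ^ 2 ≤ 2 * inner ℝ (z - dd t) (uv t))
    (v : ℝ) (hv : supp K v = 1 + inner ℝ (dd v) (uv v)) (t : ℝ) :
    1 + inner ℝ (dd t) (uv t) - supp K t ≤ 1 - Real.cos (t - v) := by
  have h1 := le_supp_of_mem K hK (exists_contact K hK hne dd hd1 v hv) t
  have h2 := hd2 t (dd v) (hd1 v)
  rw [inner_add_left, uv_inner', ← Real.cos_neg, neg_sub] at h1
  rw [inner_sub_left] at h2
  nlinarith [sq_nonneg ‖dd v - dd t‖]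

theorem dd_continuous (dd : ℝ → EuclideanSpace ℝ (Fin 2))
    (hdd : ∀ t f, ‖dd f - dd t‖ ^ 2 ≤ 2 * inner ℝ (dd f - dd t) (uv t)) : Continuous dd := by
  have h : ∀ t f, ‖dd f - dd t‖ ≤ ‖uv f - uv t‖ := by
    intro t f
    have h1 := hdd t f
    have h2 := hdd f t
    have h3 : ‖dd t - dd f‖ = ‖dd f - dd t‖ := norm_sub_rev _ _
    rw [h3] at h2
    have h4 : inner ℝ (dd t - dd f) (uv f) = - inner ℝ (dd f - dd t) (uv f) := by
      rw [← inner_neg_left, neg_sub]
    rw [h4] at h2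
    have h5 : inner ℝ (dd f - dd t) (uv t - uv f) ≤ ‖dd f - dd t‖ * ‖uv t - uv f‖ :=
      real_inner_le_norm _ _
    rw [inner_sub_right] at h5
    have h6 : ‖uv t - uv f‖ = ‖uv f - uv t‖ := norm_sub_rev _ _
    rw [h6] at h5
    by_cases h0 : ‖dd f - dd t‖ = 0
    · rw [h0]; exact norm_nonneg _
    · have hpos : 0 < ‖dd f - dd t‖ := lt_of_le_of_ne (norm_nonneg _) (Ne.symm h0)
      have h7 : ‖dd f - dd t‖ * ‖dd f - dd t‖ ≤ ‖dd f - dd t‖ * ‖uv f - uv t‖ := by nlinarith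
      exact le_of_mul_le_mul_left h7 hpos
  rw [continuous_iff_continuousAt]
  intro t
  rw [ContinuousAt, tendsto_iff_norm_sub_tendsto_zero]
  have h8 := (uv_cont'.tendsto t)
  rw [tendsto_iff_norm_sub_tendsto_zero] at h8
  exact squeeze_zero (fun f => norm_nonneg _) (fun f => h t f) h8

/-- one-sided contact -/
lemma one_side (K : Set (EuclideanSpace ℝ (Fin 2))) (hK : IsCompact K)
    (x : EuclideanSpace ℝ (Fin 2)) (hx : ∀ k ∈ K, dist x k ≤ 1) (u n : EuclideanSpace ℝ (Fin 2))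
    (hn : ‖n‖ = 1) (hun : inner ℝ n u = 0)
    (h2 : ∀ z : EuclideanSpace ℝ (Fin 2), (∀ k ∈ K, dist z k ≤ 1) →
        ‖z - x‖ ^ 2 ≤ 2 * inner ℝ (z - x) u) :
    ∃ k ∈ K, ‖k - x‖ = 1 ∧ 0 ≤ inner ℝ (k - x) n := by
  have h1 : ∀ m : ℕ, ∃ k ∈ K, 1 < ‖x - (1 / (m + 1 : ℝ)) • n - k‖ ^ 2 := by
    intro m
    by_contra hcon
    push Not at hcon
    set ε : ℝ := 1 / (m + 1 : ℝ) with hε
    have hεpos : 0 < ε := by positivity
    have h3 := h2 (x - ε • n) (fun k hk => by
      rw [dist_eq_norm]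
      have := hcon k hk
      nlinarith [norm_nonneg (x - ε • n - k)])
    have h4 : x - ε • n - x = -(ε • n) := by abel
    rw [h4, norm_neg, norm_smul, hn, inner_neg_left, real_inner_smul_left, hun,
      Real.norm_of_nonneg hεpos.le] at h3
    nlinarith
  choose k hk hk1 using h1
  obtain ⟨k0, hk0, φ, hφ, hlim⟩ := hK.tendsto_subseq hk
  have hε : Filter.Tendsto (fun m : ℕ => 1 / ((φ m : ℝ) + 1)) Filter.atTop (nhds 0) :=
    (tendsto_one_div_add_atTop_nhds_zero_nat (𝕜 := ℝ)).comp hφ.tendsto_atTop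
  have h5 : ∀ m, 1 < ‖x - k (φ m)‖ ^ 2 + 2 * (1 / ((φ m : ℝ) + 1)) * inner ℝ (k (φ m) - x) n +
      (1 / ((φ m : ℝ) + 1)) ^ 2 := by
    intro m
    have h6 := hk1 (φ m)
    have h7 : x - (1 / ((φ m : ℝ) + 1)) • n - k (φ m) =
        (x - k (φ m)) - (1 / ((φ m : ℝ) + 1)) • n := by abel
    have hpos : (0 : ℝ) ≤ 1 / ((φ m : ℝ) + 1) := by positivity
    rw [h7, norm_sub_sq_real, norm_smul, hn, real_inner_smul_right,
      Real.norm_of_nonneg hpos] at h6
    have h8 : inner ℝ (x - k (φ m)) n = - inner ℝ (k (φ m) - x) n := by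
      rw [← inner_neg_left, neg_sub]
    rw [h8] at h6
    nlinarith
  have hkx : Filter.Tendsto (fun m => ‖x - k (φ m)‖ ^ 2) Filter.atTop (nhds (‖x - k0‖ ^ 2)) :=
    ((tendsto_const_nhds.sub hlim).norm).pow 2
  have hin : Filter.Tendsto (fun m => inner ℝ (k (φ m) - x) n) Filter.atTop
      (nhds (inner ℝ (k0 - x) n)) := (hlim.sub tendsto_const_nhds).inner tendsto_const_nhds
  refine ⟨k0, hk0, ?_, ?_⟩
  · have h9 : Filter.Tendsto (fun m => ‖x - k (φ m)‖ ^ 2 +
        2 * (1 / ((φ m : ℝ) + 1)) * inner ℝ (k (φ m) - x) n + (1 / ((φ m : ℝ) + 1)) ^ 2)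
        Filter.atTop (nhds (‖x - k0‖ ^ 2 + 2 * 0 * inner ℝ (k0 - x) n + 0 ^ 2)) :=
      (hkx.add ((hε.const_mul 2).mul hin)).add (hε.pow 2)
    have h10 : 1 ≤ ‖x - k0‖ ^ 2 + 2 * 0 * inner ℝ (k0 - x) n + 0 ^ 2 :=
      ge_of_tendsto' h9 (fun m => (h5 m).le)
    have h11 := hx k0 hk0
    rw [dist_eq_norm] at h11
    rw [norm_sub_rev]
    have h12 : 1 ≤ ‖x - k0‖ ^ 2 := by simpa using h10
    nlinarith [norm_nonneg (x - k0)]
  · have h13 : ∀ m, -(1 / ((φ m : ℝ) + 1)) / 2 ≤ inner ℝ (k (φ m) - x) n := by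
      intro m
      have hpos : (0 : ℝ) < 1 / ((φ m : ℝ) + 1) := by positivity
      have h14 := h5 m
      have h15 := hx _ (hk (φ m))
      rw [dist_eq_norm] at h15
      have h16 : ‖x - k (φ m)‖ ^ 2 ≤ 1 := by nlinarith [norm_nonneg (x - k (φ m))]
      by_contra hcon
      push Not at hcon
      nlinarith
    have h17 : Filter.Tendsto (fun m : ℕ => -(1 / ((φ m : ℝ) + 1)) / 2) Filter.atTop
        (nhds (-0 / 2)) := (hε.neg).div_const 2
    have h18 := le_of_tendsto_of_tendsto' h17 hin h13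
    simpa using h18

/-- away from the contact directions the support point of the dual body is locally constant -/
theorem arc_lemma (K : Set (EuclideanSpace ℝ (Fin 2))) (hK : IsCompact K) (hne : K.Nonempty)
    (s : EuclideanSpace ℝ (Fin 2)) (R : ℝ) (hR : R < 1) (hs : ∀ k ∈ K, dist k s ≤ R)
    (dd : ℝ → EuclideanSpace ℝ (Fin 2)) (hd1 : ∀ t, ∀ k ∈ K, dist (dd t) k ≤ 1)
    (hd2 : ∀ t, ∀ z : EuclideanSpace ℝ (Fin 2), (∀ k ∈ K, dist z k ≤ 1) →
        ‖z - dd t‖ ^ 2 ≤ 2 * inner ℝ (z - dd t) (uv t))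
    (t : ℝ) (ht : supp K t ≠ 1 + inner ℝ (dd t) (uv t)) :
    ∃ a b : ℝ, a < t ∧ t < b ∧ b - a < π ∧ supp K a = 1 + inner ℝ (dd a) (uv a) ∧
      supp K b = 1 + inner ℝ (dd b) (uv b) ∧ ∀ r ∈ Icc a b, dd r = dd t := by
  set x := dd t with hx
  -- facts about contacts
  have hnc : x + uv t ∉ K := by
    intro h
    apply ht
    refine le_antisymm (supp_le K hK hne dd hd1 t) ?_
    have := le_supp_of_mem K hK h t
    rw [inner_add_left, uv_inner', sub_self, Real.cos_zero] at this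
    linarith
  have hsD : ∀ k ∈ K, dist s k ≤ 1 := fun k hk => by
    rw [dist_comm]; exact (hs k hk).trans hR.le
  have hst : 0 ≤ inner ℝ (s - x) (uv t) := by
    have := hd2 t s hsD
    nlinarith [sq_nonneg ‖s - dd t‖]
  have hw : ∀ f, x + uv f ∈ K → 0 < inner ℝ (s - x) (uv f) := by
    intro f hf
    have h1 := hs _ hf
    rw [dist_comm, dist_eq_norm] at h1
    have h2 : s - (x + uv f) = (s - x) - uv f := by abel
    have h0 : 0 ≤ R := by
      rw [h2] at h1; exact (norm_nonneg _).trans h1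
    rw [h2] at h1
    have h3 : ‖s - x - uv f‖ ^ 2 < 1 := by
      nlinarith [norm_nonneg (s - x - uv f)]
    rw [norm_sub_sq_real, uv_norm'] at h3
    nlinarith [sq_nonneg ‖s - x‖]
  have hz : ∀ f, x + uv f ∈ K → ∀ z, (∀ k ∈ K, dist z k ≤ 1) → 0 ≤ inner ℝ (z - x) (uv f) := by
    intro f hf z hzD
    have h1 := hzD _ hf
    rw [dist_eq_norm] at h1
    have h2 : z - (x + uv f) = (z - x) - uv f := by abel
    rw [h2] at h1
    have h3 : ‖z - x - uv f‖ ^ 2 ≤ 1 := by
      nlinarith [norm_nonneg (z - x - uv f)]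
    rw [norm_sub_sq_real, uv_norm'] at h3
    nlinarith [sq_nonneg ‖z - x‖]
  -- the two contacts
  obtain ⟨k1, hk1, hk1n, hk1p⟩ := one_side K hK x (hd1 t) (uv t) (uv (t + π / 2)) (uv_norm' _)
    (by rw [uv_inner']; simp) (hd2 t)
  obtain ⟨k2, hk2, hk2n, hk2p⟩ := one_side K hK x (hd1 t) (uv t) (uv (t - π / 2)) (uv_norm' _)
    (by rw [uv_inner']; simp) (hd2 t)
  obtain ⟨f1, hf1a, hf1b, hf1⟩ := exists_angle (k1 - x) hk1n t
  obtain ⟨f2, hf2a, hf2b, hf2⟩ := exists_angle (k2 - x) hk2n t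
  have hk1' : x + uv f1 ∈ K := by rw [← hf1]; simpa using hk1
  have hk2' : x + uv f2 ∈ K := by rw [← hf2]; simpa using hk2
  have hne_pi : ∀ f, x + uv f ∈ K → f ≠ t + π := by
    intro f hf h
    have h1 := hw f hf
    rw [h, inner_uv, Real.cos_add_pi, Real.sin_add_pi] at h1
    rw [inner_uv] at hst
    linarith
  have hne_t : ∀ f, x + uv f ∈ K → f ≠ t := by
    intro f hf h
    rw [h] at hf
    exact hnc hf
  have hf1c : f1 < t + π := lt_of_le_of_ne hf1b (hne_pi f1 hk1')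
  have hf2c : f2 < t + π := lt_of_le_of_ne hf2b (hne_pi f2 hk2')
  rw [hf1, uv_inner'] at hk1p
  rw [hf2, uv_inner'] at hk2p
  have hs1 : 0 ≤ Real.sin (f1 - t) := by
    have : f1 - (t + π / 2) = (f1 - t) - π / 2 := by ring
    rw [this, Real.cos_sub_pi_div_two] at hk1p
    exact hk1p
  have hs2 : 0 ≤ Real.sin (t - f2) := by
    have : f2 - (t - π / 2) = -((t - f2) - π / 2) := by ring
    rw [this, Real.cos_neg, Real.cos_sub_pi_div_two] at hk2p
    exact hk2p
  have hf1t : t < f1 := by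
    by_contra hcon
    push Not at hcon
    have hlt : f1 < t := lt_of_le_of_ne hcon (hne_t f1 hk1')
    have := Real.sin_neg_of_neg_of_neg_pi_lt (x := f1 - t) (by linarith) (by linarith)
    linarith
  have hf2t : f2 < t := by
    by_contra hcon
    push Not at hcon
    have hlt : t < f2 := lt_of_le_of_ne hcon (Ne.symm (hne_t f2 hk2'))
    have := Real.sin_neg_of_neg_of_neg_pi_lt (x := t - f2) (by linarith) (by linarith)
    linarith
  have hs1' : 0 < Real.sin (f1 - t) := Real.sin_pos_of_pos_of_lt_pi (by linarith) (by linarith)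
  have hs2' : 0 < Real.sin (t - f2) := Real.sin_pos_of_pos_of_lt_pi (by linarith) (by linarith)
  have hid : ∀ (z : EuclideanSpace ℝ (Fin 2)) (r : ℝ), Real.sin (f1 - f2) * inner ℝ z (uv r) =
      Real.sin (r - f2) * inner ℝ z (uv f1) + Real.sin (f1 - r) * inner ℝ z (uv f2) := by
    intro z r
    rw [inner_uv, inner_uv, inner_uv]
    simp only [Real.sin_sub]
    have e1 := Real.sin_sq_add_cos_sq f1
    have e2 := Real.sin_sq_add_cos_sq f2
    ring
  have hpos : 0 < Real.sin (f1 - f2) := by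
    have h1 := hid (s - x) t
    have h2 : 0 < Real.sin (t - f2) * inner ℝ (s - x) (uv f1) +
        Real.sin (f1 - t) * inner ℝ (s - x) (uv f2) :=
      add_pos (mul_pos hs2' (hw f1 hk1')) (mul_pos hs1' (hw f2 hk2'))
    rw [← h1] at h2
    by_contra hcon
    push Not at hcon
    nlinarith
  have hlt : f1 - f2 < π := by
    by_contra hcon
    push Not at hcon
    have h1 : 0 ≤ Real.sin (f1 - f2 - π) :=
      Real.sin_nonneg_of_nonneg_of_le_pi (by linarith) (by linarith)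
    rw [Real.sin_sub_pi] at h1
    linarith
  have hconst : ∀ r ∈ Icc f2 f1, dd r = x := by
    intro r hr
    have h1 : 0 ≤ inner ℝ (dd r - x) (uv r) := by
      have h2 := hid (dd r - x) r
      have h3 : 0 ≤ Real.sin (r - f2) :=
        Real.sin_nonneg_of_nonneg_of_le_pi (by linarith [hr.1]) (by linarith [hr.2])
      have h4 : 0 ≤ Real.sin (f1 - r) :=
        Real.sin_nonneg_of_nonneg_of_le_pi (by linarith [hr.2]) (by linarith [hr.1])
      have h5 := hz f1 hk1' (dd r) (hd1 r)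
      have h6 := hz f2 hk2' (dd r) (hd1 r)
      have h7 : 0 ≤ Real.sin (f1 - f2) * inner ℝ (dd r - x) (uv r) := by
        rw [h2]; positivity
      exact nonneg_of_mul_nonneg_right h7 hpos
    have h8 := hd2 r x (hd1 t)
    have h9 : inner ℝ (x - dd r) (uv r) = - inner ℝ (dd r - x) (uv r) := by
      rw [← inner_neg_left, neg_sub]
    rw [h9] at h8
    have h10 : ‖x - dd r‖ = 0 := by nlinarith [norm_nonneg (x - dd r), sq_nonneg ‖x - dd r‖]
    rw [norm_eq_zero, sub_eq_zero] at h10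
    exact h10.symm
  have hc1 : ∀ f, x + uv f ∈ K → dd f = x → supp K f = 1 + inner ℝ (dd f) (uv f) := by
    intro f hf hdf
    refine le_antisymm (supp_le K hK hne dd hd1 f) ?_
    have := le_supp_of_mem K hK hf f
    rw [inner_add_left, uv_inner', sub_self, Real.cos_zero] at this
    rw [hdf]; linarith
  exact ⟨f2, f1, hf2t, hf1t, hlt, hc1 f2 hk2' (hconst f2 ⟨le_refl _, by linarith⟩),
    hc1 f1 hk1' (hconst f1 ⟨by linarith, le_refl _⟩), hconst⟩

end Pool.Agent.Helper679.Curve.J1192
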