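import Pool.Agent.Helper679.CurveCore
import Pool.Agent.Helper679.CurveJ1189
import Pool.Agent.Helper679.CurveJ1190
import Pool.Agent.Helper679.CurveJ1191
import Pool.Agent.Helper679.CurveJ1192

set_option autoImplicit false

open MeasureTheory intervalIntegral Real Set

namespace Pool.Agent.Helper679.Curve




open J1189 (steiner supp_continuous supp_periodic)
open J1190 (dual_subset exists_dd)
open J1191 (exists_density)
open J1192 (arc_lemma supp_le le_supp gap_le dd_continuous)

theorem uv_add_pi (t : ℝ) : uv (t + π) = - uv t := by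
  unfold uv
  ext i
  fin_cases i <;> simp [Real.cos_add_pi, Real.sin_add_pi]

theorem uv_add_two_pi (t : ℝ) : uv (t + 2 * π) = uv t := by
  unfold uv
  ext i
  fin_cases i <;> simp

theorem continuous_uv : Continuous uv := by
  unfold uv
  fun_prop

/-- **the plane convex case** -/
theorem planar (K : Set (EuclideanSpace ℝ (Fin 2))) (hK : IsCompact K) (hc : Convex ℝ K)
    (hne : K.Nonempty) (hfar : ∀ y ∈ frontier K, ∃ k ∈ K, 1 ≤ dist y k)
    (hP : ∫ t in (0:ℝ)..(2 * π), supp K t ≤ π) :
    (∫ t in (0:ℝ)..(2 * π), supp K t = π) ∧ ∀ t, supp K t + supp K (t + π) = 1 := by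
  have hpi0 : (0:ℝ) < 2 * π := by positivity
  obtain ⟨s, R, hR, hs⟩ := steiner K hK hne hP
  have hDK := dual_subset K hK hc hne hfar s R hR hs
  obtain ⟨dd, hd1, hper, hd2⟩ := exists_dd K hK hne s (fun k hk => (hs k hk).trans hR.le)
  have hd0 : ∀ t, dd t ∈ K := fun t => hDK (hd1 t)
  have hdd : ∀ t f, ‖dd f - dd t‖ ^ 2 ≤ 2 * inner ℝ (dd f - dd t) (uv t) :=
    fun t f => hd2 t (dd f) (hd1 f)
  have hddc := dd_continuous dd hdd
  obtain ⟨τ, hτm, hτp, hτ0, hτ1, hτf, hτc⟩ := exists_density dd hper hdd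
  set H : ℝ → ℝ := fun t => 1 + inner ℝ (dd t) (uv t) with hH
  have hHc : Continuous H := continuous_const.add (hddc.inner continuous_uv)
  have hsc := supp_continuous K hK hne
  have hsp := supp_periodic K
  have hHp : Function.Periodic H (2 * π) := fun t => by
    simp only [hH]; rw [hper, uv_add_two_pi]
  set V : Set ℝ := {t | supp K t = H t} with hV
  have hVc : IsClosed V := isClosed_eq hsc hHc
  have hVp : ∀ t, t ∈ V ↔ t + 2 * π ∈ V := fun t => by
    simp only [hV, mem_ofPred_eq]; rw [hsp t, hHp t]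
  have harc : ∀ t, t ∉ V → ∃ a b : ℝ, a < t ∧ t < b ∧ b - a < π ∧ a ∈ V ∧ b ∈ V ∧
      ∀ r ∈ Icc a b, dd r = dd t := fun t ht => arc_lemma K hK hne s R hR hs dd hd1 hd2 t ht
  set ρ : ℝ → ℝ := fun t => 1 - τ t with hρ
  have hρm : Measurable ρ := hτm.const_sub 1
  have hρp : Function.Periodic ρ (2 * π) := fun t => by simp only [hρ]; rw [hτp t]
  have hρ0 : ∀ t, 0 ≤ ρ t := fun t => by simp only [hρ]; linarith [hτ1 t]
  have hρ1 : ∀ t, ρ t ≤ 1 := fun t => by simp only [hρ]; linarith [hτ0 t]
  have hρb : ∀ t, |ρ t| ≤ 1 := fun t => by rw [abs_of_nonneg (hρ0 t)]; exact hρ1 t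
  have hρA : ∀ t, t ∉ V → ρ t = 1 := fun t ht => by
    obtain ⟨a, b, h1, h2, -, -, -, h6⟩ := harc t ht
    have : τ t = 0 := hτc a b (fun s hs => by
      rw [h6 s hs, h6 a ⟨le_rfl, (h1.trans h2).le⟩]) t ⟨h1, h2⟩
    simp only [hρ, this, sub_zero]
  set g : ℝ → ℝ := fun t => H t + H (t + π) - 1 with hg
  set L : ℝ → ℝ := fun t => H t - supp K t with hL
  have hgc : Continuous g := (hHc.add (hHc.comp (continuous_add_const π))).sub continuous_const
  have hLc : Continuous L := hHc.sub hsc
  have hgf : ∀ t, g t = 1 / 4 * ∫ s in (0:ℝ)..(2 * π), (ρ s + ρ (s + π) - 1) * |Real.sin (t - s)| := by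
    intro t
    have e1 : g t = (1 / 2 * ∫ s in (0:ℝ)..(2 * π), ρ s * |Real.sin (t - s)|) - 1 := by
      rw [← hτf t]
      simp only [hg, hH]
      rw [uv_add_pi, inner_neg_right, inner_sub_left]
      ring
    have i1 : IntervalIntegrable (fun s => ρ s * |Real.sin (t - s)|) volume 0 (2 * π) :=
      ii_of_bdd (C := 1) (hρm.mul (by fun_prop)) (fun s => mul_abs_sin_bdd hρb t s) _ _
    have i2 : IntervalIntegrable (fun s => ρ (s + π) * |Real.sin (t - s)|) volume 0 (2 * π) :=
      ii_of_bdd (C := 1) ((hρm.comp (measurable_add_const π)).mul (by fun_prop))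
        (fun s => mul_abs_sin_bdd (f := fun s => ρ (s + π)) (fun s => hρb (s + π)) t s) _ _
    have i3 : IntervalIntegrable (fun s => |Real.sin (t - s)|) volume 0 (2 * π) :=
      Continuous.intervalIntegrable (by fun_prop) _ _
    have e2 : ∫ s in (0:ℝ)..(2 * π), ρ (s + π) * |Real.sin (t - s)| =
        ∫ s in (0:ℝ)..(2 * π), ρ s * |Real.sin (t - s)| := by
      have hp : Function.Periodic (fun s => ρ s * |Real.sin (t - s)|) (2 * π) := fun s => by
        show ρ (s + 2 * π) * |Real.sin (t - (s + 2 * π))| = _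
        rw [hρp s, show t - (s + 2 * π) = (t - s) - 2 * π by ring, Real.sin_sub_two_pi]
      rw [← shift_pi hp]
      congr 1
      ext s
      show ρ (s + π) * |Real.sin (t - s)| = ρ (s + π) * |Real.sin (t - (s + π))|
      rw [show t - (s + π) = (t - s) - π by ring, Real.sin_sub_pi, abs_neg]
    have e3 : ∫ s in (0:ℝ)..(2 * π), |Real.sin (t - s)| = 4 := by
      rw [← int_abs_sin t]
      congr 1
      ext s
      rw [← neg_sub, Real.sin_neg, abs_neg]
    have e4 : (fun s => (ρ s + ρ (s + π) - 1) * |Real.sin (t - s)|) =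
        fun s => (ρ s * |Real.sin (t - s)| + ρ (s + π) * |Real.sin (t - s)|) -
          |Real.sin (t - s)| := by
      ext s; ring
    rw [e1, e4, intervalIntegral.integral_sub (i1.add i2) i3, intervalIntegral.integral_add i1 i2,
      e2, e3]
    ring
  have hcore := core V hVc hVp (fun t ht => by
      obtain ⟨a, b, h1, h2, h3, h4, h5, -⟩ := harc t ht
      exact ⟨a, b, h4, h5, h1, h2, h3⟩) ρ hρm hρp hρ0 hρ1 hρA g L hgc hLc hgf
    (fun t => by
      simp only [hL, hH]
      linarith [supp_le K hK hne dd hd1 t])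
    (fun t => by
      simp only [hL, hH, hg]
      linarith [le_supp K hK dd hd0 t])
    (fun t v hv => by
      simp only [hL, hH]
      exact gap_le K hK hne dd hd1 hd2 v hv t)
  have hHi : ∀ a b, IntervalIntegrable H volume a b := fun a b => hHc.intervalIntegrable a b
  have hHi' : ∀ a b, IntervalIntegrable (fun t => H (t + π)) volume a b := fun a b =>
    (hHc.comp (continuous_add_const π)).intervalIntegrable a b
  have hsi : ∀ a b, IntervalIntegrable (supp K) volume a b := fun a b => hsc.intervalIntegrable a b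
  have hgI : ∫ t in (0:ℝ)..(2 * π), g t = 2 * (∫ t in (0:ℝ)..(2 * π), H t) - 2 * π := by
    simp only [hg]
    rw [intervalIntegral.integral_sub ((hHi _ _).add (hHi' _ _)) (by simp),
      intervalIntegral.integral_add (hHi _ _) (hHi' _ _), shift_pi hHp]
    simp
    ring
  have hLI : ∫ t in (0:ℝ)..(2 * π), L t =
      (∫ t in (0:ℝ)..(2 * π), H t) - ∫ t in (0:ℝ)..(2 * π), supp K t := by
    simp only [hL]
    rw [intervalIntegral.integral_sub (hHi _ _) (hsi _ _)]
  have hge : π ≤ ∫ t in (0:ℝ)..(2 * π), supp K t := by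
    have := hcore.1
    rw [hgI, hLI] at this
    linarith
  have heq : ∫ t in (0:ℝ)..(2 * π), supp K t = π := le_antisymm hP hge
  refine ⟨heq, ?_⟩
  have hg0I : ∫ t in (0:ℝ)..(2 * π), g t = 0 := hcore.2 (by rw [hgI, hLI, heq]; ring)
  have hL0 : ∀ t, 0 ≤ L t := fun t => by
    simp only [hL, hH]
    linarith [supp_le K hK hne dd hd1 t]
  have hLg : ∀ t, L t ≤ g t := fun t => by
    simp only [hL, hH, hg]
    linarith [le_supp K hK dd hd0 t]
  have hg0 : ∀ t, 0 ≤ g t := fun t => (hL0 t).trans (hLg t)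
  have hgp : Function.Periodic g (2 * π) := fun t => by
    simp only [hg]
    rw [hHp t, show t + 2 * π + π = (t + π) + 2 * π by ring, hHp (t + π)]
  -- g vanishes
  have hgz : ∀ t, g t = 0 := by
    have h1 : ∀ t ∈ Ioc (0:ℝ) (2 * π), g t = 0 := by
      by_contra hcon
      push Not at hcon
      obtain ⟨t, ht, htne⟩ := hcon
      have hpos : 0 < ∫ t in (0:ℝ)..(2 * π), g t :=
        intervalIntegral.integral_pos hpi0 hgc.continuousOn (fun x _ => hg0 x)
          ⟨t, ⟨ht.1.le, ht.2⟩, lt_of_le_of_ne (hg0 t) (Ne.symm htne)⟩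
      exact hpos.ne' hg0I
    intro t
    obtain ⟨y, hy, hyt⟩ := hgp.exists_mem_Ioc hpi0 t 0
    rw [hyt]
    exact h1 y (by simpa using hy)
  intro t
  have hLz : ∀ t, L t = 0 := fun t => le_antisymm ((hLg t).trans (hgz t).le) (hL0 t)
  have e1 : supp K t = H t := by have := hLz t; simp only [hL] at this; linarith
  have e2 : supp K (t + π) = H (t + π) := by have := hLz (t + π); simp only [hL] at this; linarith
  have e3 := hgz t
  simp only [hg] at e3
  rw [e1, e2]
  linarith

end Pool.Agent.Helper679.Curve
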