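import Pool.Agent.Helper679.CurveJ1131
import Pool.Agent.Helper679.CurveJ1132
import Pool.Agent.Helper679.CurveJ1133
import Pool.Agent.Helper679.CurveJ1134
import Pool.Agent.Helper679.CurveJ1135
import Pool.Agent.Helper679.CurveJ1136
import Pool.Agent.Helper679.CurveJ1137
import Pool.Agent.Helper679.CurveJ1193
import Pool.Agent.Helper679.CurveJ1194
import Pool.Agent.Helper679.CurvePlanar

set_option autoImplicit false

open MeasureTheory intervalIntegral Real Set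

namespace Pool.Agent.Helper679.Curve

open J1131 (exists_stretched)
open J1132 (planar_of_pocket)
open J1133 (frontier_near_vertex)
open J1134 (perimeter_le_length)
open J1135 (rigid)
open J1136 (cw_dist_le cw_exists cw_frontier_of_dist cw_interior)
open J1137 (extend_isometry)
open J1189 (inner_le_supp exists_supp)
open J1193 (inscribed)
open J1194 (limit_relation)


theorem pocket_sub {E : Type*} [NormedAddCommGroup E] [InnerProductSpace ℝ E] {n : ℕ}
    {q : Fin (n + 1) → E} (hq : Pocket q) (c : E) : Pocket (fun i => q i - c) := by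
  intro u t h a b hab ha hb
  have h1 : ∀ i, inner ℝ (q i) u ≤ t + inner ℝ c u := fun i => by
    have := h i
    rw [inner_sub_left] at this
    linarith
  have key := hq u (t + inner ℝ c u) h1 a b hab
    (by rw [inner_sub_left] at ha; linarith) (by rw [inner_sub_left] at hb; linarith)
  rcases key with key | key
  · left
    intro i h2 h3
    rw [inner_sub_left, key i h2 h3]; ring
  · right
    intro i h2
    rw [inner_sub_left, key i h2]; ring

theorem dist_le_sum {E : Type*} [PseudoMetricSpace E] {n : ℕ} (q : Fin (n + 1) → E)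
    (i : Fin (n + 1)) : dist (q 0) (q i) ≤ ∑ j, dist (q j) (q (j + 1)) := by
  have h := dist_le_range_sum_dist (fun k : ℕ => q (Fin.ofNat (n + 1) k)) i.val
  have e1 : Fin.ofNat (n + 1) i.val = i := by
    apply Fin.ext
    simp [Fin.ofNat, Nat.mod_eq_of_lt i.isLt]
  have e0 : Fin.ofNat (n + 1) 0 = (0 : Fin (n + 1)) := rfl
  simp only [e1, e0] at h
  refine h.trans ?_
  rw [← Fin.sum_univ_eq_sum_range
    (fun k => dist (q (Fin.ofNat (n + 1) k)) (q (Fin.ofNat (n + 1) (k + 1)))) i.val]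
  have hsub : ∀ k : Fin i.val, dist (q (Fin.ofNat (n + 1) k.val)) (q (Fin.ofNat (n + 1) (k.val + 1)))
      = dist (q (Fin.castLE i.isLt.le k)) (q (Fin.castLE i.isLt.le k + 1)) := by
    intro k
    have hk : k.val < n + 1 := lt_trans k.isLt i.isLt
    congr 2
    · apply Fin.ext
      simp [Fin.ofNat, Nat.mod_eq_of_lt hk]
    · apply Fin.ext
      simp [Fin.ofNat, Fin.val_add]
  simp only [hsub]
  have hinj : Function.Injective (fun k : Fin i.val => Fin.castLE i.isLt.le k) :=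
    Fin.castLE_injective _
  rw [← Finset.sum_image (f := fun j : Fin (n + 1) => dist (q j) (q (j + 1)))
    (fun a _ b _ hab => hinj hab)]
  exact Finset.sum_le_sum_of_subset_of_nonneg (Finset.subset_univ _) (fun _ _ _ => dist_nonneg)

/-- finite planar relations majorising the curve -/
theorem exists_relation {E : Type*} [NormedAddCommGroup E] [InnerProductSpace ℝ E]
    [FiniteDimensional ℝ E] (hd : 2 ≤ Module.finrank ℝ E) (γ : ℝ → E)
    (hγ : ContinuousOn γ (Icc 0 1)) (hcl : γ 0 = γ 1)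
    (hL : eVariationOn γ (Icc 0 1) ≤ ENNReal.ofReal π) (ε : ℝ) (hε : 0 < ε) :
    ∃ S : Set (EuclideanSpace ℝ (Fin 2) × E), S.Finite ∧ S.Nonempty ∧
      (∀ a ∈ S, ∀ b ∈ S, dist a.2 b.2 ≤ dist a.1 b.1) ∧ (∀ a ∈ S, a.2 ∈ γ '' Icc 0 1) ∧
      (∀ x ∈ γ '' Icc 0 1, ∃ a ∈ S, dist x a.2 ≤ ε) ∧ (∀ a ∈ S, ‖a.1‖ ≤ π) ∧
      (∀ y ∈ frontier (convexHull ℝ (Prod.fst '' S)), ∃ a ∈ S, dist y a.1 ≤ ε) ∧
      ∫ t in (0:ℝ)..(2 * π), supp (convexHull ℝ (Prod.fst '' S)) t ≤ π := by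
  obtain ⟨n, p, hpC, hsum, hmesh, hdense⟩ := inscribed γ hγ hcl π Real.pi_pos.le hL ε hε
  obtain ⟨q, hq1, hq2, hq3⟩ := exists_stretched p
  obtain ⟨r0, hr1, hr2⟩ := planar_of_pocket hd q hq3
  set r : Fin (n + 1) → EuclideanSpace ℝ (Fin 2) := fun i => r0 i - r0 0 with hr
  have hrd : ∀ i j, dist (r i) (r j) = dist (q i) (q j) := fun i j => by
    simp only [hr]; rw [dist_sub_right, hr1]
  have hrP : Pocket r := pocket_sub hr2 _
  have hedge : ∀ i, dist (r i) (r (i + 1)) ≤ dist (p i) (p (i + 1)) := fun i => by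
    rw [hrd]; exact hq1 i
  have hrs : ∑ i, dist (r i) (r (i + 1)) ≤ π :=
    (Finset.sum_le_sum (fun i _ => hedge i)).trans hsum
  have himg : Prod.fst '' (range (fun i => (r i, p i))) = range r := by
    rw [← range_comp]; rfl
  refine ⟨range (fun i => (r i, p i)), finite_range _, range_nonempty _, ?_, ?_, ?_, ?_, ?_, ?_⟩
  · rintro _ ⟨i, rfl⟩ _ ⟨j, rfl⟩
    show dist (p i) (p j) ≤ dist (r i) (r j)
    rw [hrd]; exact hq2 i j
  · rintro _ ⟨i, rfl⟩
    exact hpC i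
  · intro x hx
    obtain ⟨i, hi⟩ := hdense x hx
    exact ⟨_, ⟨i, rfl⟩, hi⟩
  · rintro _ ⟨i, rfl⟩
    show ‖r i‖ ≤ π
    have h1 := dist_le_sum r i
    have h2 : r 0 = 0 := by simp [hr]
    rw [h2, dist_zero_left] at h1
    exact h1.trans hrs
  · intro y hy
    rw [himg] at hy
    obtain ⟨i, hi⟩ := frontier_near_vertex r hrP ε (fun i => (hedge i).trans (hmesh i)) y hy
    exact ⟨_, ⟨i, rfl⟩, hi⟩
  · rw [himg]
    exact (perimeter_le_length r).trans hrs

/-- the equality case -/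
theorem structure_thm {E : Type*} [NormedAddCommGroup E] [InnerProductSpace ℝ E]
    [FiniteDimensional ℝ E] (hd : 2 ≤ Module.finrank ℝ E) (γ : ℝ → E)
    (hγ : ContinuousOn γ (Icc 0 1)) (hcl : γ 0 = γ 1)
    (hL : eVariationOn γ (Icc 0 1) ≤ ENNReal.ofReal π)
    (hfar : ∀ x ∈ γ '' Icc 0 1, ∃ y ∈ γ '' Icc 0 1, 1 ≤ dist x y) :
    ∃ (K : Set (EuclideanSpace ℝ (Fin 2))) (ι : EuclideanSpace ℝ (Fin 2) →ᵃⁱ[ℝ] E),
      IsCompact K ∧ Convex ℝ K ∧ (interior K).Nonempty ∧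
      (∀ t, supp K t + supp K (t + π) = 1) ∧ γ '' Icc 0 1 = ι '' frontier K := by
  set C := γ '' Icc (0:ℝ) 1 with hC
  have hCc : IsCompact C := isCompact_Icc.image_of_continuousOn hγ
  have hCne : C.Nonempty := ⟨γ 0, 0, by simp, rfl⟩
  obtain ⟨S, hSc, hSne, hS1, hS2, hS3, hS4⟩ := limit_relation C hCc hCne π π
    (fun ε hε => exists_relation hd γ hγ hcl hL ε hε)
  set Q := Prod.fst '' S with hQ
  set K := convexHull ℝ Q with hKdef
  have hQc : IsCompact Q := hSc.image continuous_fst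
  have hQne : Q.Nonempty := hSne.image _
  have hKc : IsCompact K := by
    apply Metric.isCompact_of_isClosed_isBounded
    · rw [← frontier_subset_iff_isClosed]
      exact hS3.trans (subset_convexHull ℝ Q)
    · exact isBounded_convexHull.2 hQc.isBounded
  have hKconv : Convex ℝ K := convex_convexHull ℝ Q
  have hKne : K.Nonempty := hQne.mono (subset_convexHull ℝ Q)
  have hQK : Q ⊆ K := subset_convexHull ℝ Q
  have hlift : ∀ x ∈ C, ∃ y, (y, x) ∈ S := by
    intro x hx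
    rw [← hS2] at hx
    obtain ⟨⟨y, x'⟩, h, rfl⟩ := hx
    exact ⟨y, h⟩
  have hSC : ∀ a ∈ S, a.2 ∈ C := fun a ha => by rw [← hS2]; exact ⟨a, ha, rfl⟩
  have hfarQ : ∀ a ∈ S, ∃ b ∈ S, 1 ≤ dist a.2 b.2 := by
    intro a ha
    obtain ⟨x', hx', h1⟩ := hfar a.2 (hSC a ha)
    obtain ⟨y', hy'⟩ := hlift x' hx'
    exact ⟨(y', x'), hy', h1⟩
  have hfarK : ∀ y ∈ frontier K, ∃ k ∈ K, 1 ≤ dist y k := by
    intro y hy
    obtain ⟨a, ha, rfl⟩ := hS3 hy
    obtain ⟨b, hb, h1⟩ := hfarQ a ha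
    exact ⟨b.1, hQK ⟨b, hb, rfl⟩, h1.trans (hS1 a ha b hb)⟩
  obtain ⟨-, hw⟩ := planar K hKc hKconv hKne hfarK hS4
  have hQfr : Q = frontier K := by
    apply subset_antisymm _ hS3
    rintro _ ⟨a, ha, rfl⟩
    obtain ⟨b, hb, h1⟩ := hfarQ a ha
    exact cw_frontier_of_dist K hKc hKconv hw a.1 (hQK ⟨a, ha, rfl⟩) b.1 (hQK ⟨b, hb, rfl⟩)
      (h1.trans (hS1 a ha b hb))
  classical
  set Φ : EuclideanSpace ℝ (Fin 2) → E := fun y => if h : ∃ x, (y, x) ∈ S then h.choose else 0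
    with hΦ
  have hΦS : ∀ y ∈ Q, (y, Φ y) ∈ S := by
    rintro y ⟨a, ha, rfl⟩
    have h : ∃ x, (a.1, x) ∈ S := ⟨a.2, ha⟩
    simp only [hΦ]
    rw [dif_pos h]
    exact h.choose_spec
  have hΦu : ∀ a ∈ S, Φ a.1 = a.2 := by
    intro a ha
    have h1 := hS1 (a.1, Φ a.1) (hΦS a.1 ⟨a, ha, rfl⟩) a ha
    simp only [dist_self] at h1
    exact dist_le_zero.1 h1
  have hΦ1 : ∀ x ∈ frontier K, ∀ y ∈ frontier K, dist (Φ x) (Φ y) ≤ dist x y := by
    intro x hx y hy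
    rw [← hQfr] at hx hy
    exact hS1 _ (hΦS x hx) _ (hΦS y hy)
  have hΦ2 : ∀ x ∈ frontier K, ∃ y ∈ frontier K, 1 ≤ dist (Φ x) (Φ y) := by
    intro x hx
    rw [← hQfr] at hx
    obtain ⟨b, hb, h1⟩ := hfarQ _ (hΦS x hx)
    refine ⟨b.1, ?_, ?_⟩
    · rw [← hQfr]; exact ⟨b, hb, rfl⟩
    · rw [hΦu b hb]; exact h1
  have hiso := rigid K hKc hKconv hKne hw Φ hΦ1 hΦ2
  obtain ⟨ι, hι⟩ := extend_isometry hd (frontier K) Φ hiso
  refine ⟨K, ι, hKc, hKconv, cw_interior K hKc hKconv hw, hw, ?_⟩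
  apply subset_antisymm
  · intro x hx
    obtain ⟨y, hy⟩ := hlift x hx
    have hyQ : y ∈ frontier K := by rw [← hQfr]; exact ⟨_, hy, rfl⟩
    refine ⟨y, hyQ, ?_⟩
    rw [hι y hyQ]
    exact hΦu _ hy
  · rintro _ ⟨y, hy, rfl⟩
    rw [hι y hy]
    rw [← hQfr] at hy
    exact hSC _ (hΦS y hy)

end Pool.Agent.Helper679.Curve
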