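import Pool.Agent.Helper679.CurveBasic

set_option autoImplicit false

open MeasureTheory intervalIntegral Real Set

namespace Pool.Agent.Helper679.Curve.J1128

lemma cv_ibp (p g g' : ℝ → ℝ) (a b : ℝ) (hp : IntervalIntegrable p volume a b)
    (hg : ∀ x, HasDerivAt g (g' x) x) (hg' : Continuous g') :
    ∫ x in a..b, p x * g x = (∫ x in a..b, p x) * g b - ∫ x in a..b, (∫ s in a..x, p s) * g' x := by
  have hgc : Continuous g := continuous_iff_continuousAt.mpr fun x => (hg x).continuousAt
  have hP := hp.absolutelyContinuousOnInterval_intervalIntegral (c := a) (by simp)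
  have hG : AbsolutelyContinuousOnInterval g a b := by
    apply ContDiffOn.absolutelyContinuousOnInterval
    apply ContDiff.contDiffOn
    rw [contDiff_one_iff_deriv]
    refine ⟨fun x => (hg x).differentiableAt, ?_⟩
    have : deriv g = g' := funext fun x => (hg x).deriv
    rw [this]
    exact hg'
  have h := AbsolutelyContinuousOnInterval.integral_deriv_mul_eq_sub hP hG
  have hd : deriv g = g' := funext fun x => (hg x).deriv
  have h2 : ∫ x in a..b, deriv (fun x => ∫ v in a..x, p v) x * g x + (∫ v in a..x, p v) * deriv g x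
      = ∫ x in a..b, p x * g x + (∫ v in a..x, p v) * g' x := by
    apply intervalIntegral.integral_congr_ae
    filter_upwards [hp.ae_hasDerivAt_integral] with x hx hxm
    rw [(hx (uIoc_subset_uIcc hxm) a (by simp)).deriv, hd]
  rw [h2] at h
  have hi1 : IntervalIntegrable (fun x => p x * g x) volume a b := hp.mul_continuousOn hgc.continuousOn
  have hi2 : IntervalIntegrable (fun x => (∫ v in a..x, p v) * g' x) volume a b :=
    (hP.continuousOn.mul hg'.continuousOn).intervalIntegrable
  rw [intervalIntegral.integral_add hi1 hi2] at h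
  simp only [intervalIntegral.integral_same, zero_mul, sub_zero] at h
  linarith

lemma cv_abs_sin_shift (u : ℝ) : |Real.sin (u - π)| = |Real.sin u| := by
  rw [Real.sin_sub_pi, abs_neg]

lemma cv_fold (h : ℝ → ℝ) (hi : ∀ a b, IntervalIntegrable h volume a b) :
    ∫ t in (0:ℝ)..(2 * π), h t = ∫ t in (0:ℝ)..π, (h t + h (t + π)) := by
  have h1 : ∫ t in (0:ℝ)..(2 * π), h t = (∫ t in (0:ℝ)..π, h t) + ∫ t in π..(2 * π), h t :=
    (intervalIntegral.integral_add_adjacent_intervals (hi _ _) (hi _ _)).symm
  have h2 : ∫ t in (0:ℝ)..π, h (t + π) = ∫ t in π..(2 * π), h t := by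
    rw [intervalIntegral.integral_comp_add_right (fun t => h t) π]
    congr 1 <;> ring
  have h3 : IntervalIntegrable (fun t => h (t + π)) volume 0 π := by
    have := (hi (0 + π) (π + π)).comp_add_right (c := π)
    simpa using this
  rw [h1, intervalIntegral.integral_add (hi _ _) h3, h2]

lemma cv_int_abs_sin (t : ℝ) (h0 : 0 ≤ t) (h1 : t ≤ π) :
    ∫ s in (0:ℝ)..π, |Real.sin (t - s)| = 2 := by
  have hc : Continuous fun s => |Real.sin (t - s)| := by fun_prop
  rw [← intervalIntegral.integral_add_adjacent_intervals (hc.intervalIntegrable 0 t)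
    (hc.intervalIntegrable t π)]
  have e1 : ∫ s in (0:ℝ)..t, |Real.sin (t - s)| = ∫ s in (0:ℝ)..t, Real.sin (t - s) := by
    apply intervalIntegral.integral_congr
    intro s hs
    rw [uIcc_of_le h0] at hs
    exact abs_of_nonneg (Real.sin_nonneg_of_nonneg_of_le_pi (by linarith [hs.2]) (by linarith [hs.1]))
  have e2 : ∫ s in t..π, |Real.sin (t - s)| = ∫ s in t..π, -Real.sin (t - s) := by
    apply intervalIntegral.integral_congr
    intro s hs
    rw [uIcc_of_le h1] at hs
    show |Real.sin (t - s)| = -Real.sin (t - s)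
    rw [abs_of_nonpos]
    have : Real.sin (t - s) = - Real.sin (s - t) := by rw [← Real.sin_neg]; congr 1; ring
    rw [this]
    have := Real.sin_nonneg_of_nonneg_of_le_pi (x := s - t) (by linarith [hs.1]) (by linarith [hs.2])
    linarith
  rw [e1, e2, intervalIntegral.integral_neg, intervalIntegral.integral_comp_sub_left (fun u => Real.sin u) t,
    intervalIntegral.integral_comp_sub_left (fun u => Real.sin u) t]
  simp only [sub_self, sub_zero, integral_sin, Real.cos_zero, Real.cos_sub_pi]
  ring

lemma cv_split (P : ℝ → ℝ) (hP : ∀ a b, IntervalIntegrable P volume a b) (t : ℝ) (h0 : 0 ≤ t) (h1 : t ≤ π) :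
    ∫ s in (0:ℝ)..π, P s * |Real.sin (t - s)| =
      2 * (∫ s in (0:ℝ)..t, P s * Real.sin (t - s)) - ∫ s in (0:ℝ)..π, P s * Real.sin (t - s) := by
  have hi : ∀ a b, IntervalIntegrable (fun s => P s * |Real.sin (t - s)|) volume a b := fun a b =>
    (hP a b).mul_continuousOn (by fun_prop)
  have hi' : ∀ a b, IntervalIntegrable (fun s => P s * Real.sin (t - s)) volume a b := fun a b =>
    (hP a b).mul_continuousOn (by fun_prop)
  rw [← intervalIntegral.integral_add_adjacent_intervals (hi 0 t) (hi t π),
    ← intervalIntegral.integral_add_adjacent_intervals (hi' 0 t) (hi' t π)]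
  have e1 : ∫ s in (0:ℝ)..t, P s * |Real.sin (t - s)| = ∫ s in (0:ℝ)..t, P s * Real.sin (t - s) := by
    apply intervalIntegral.integral_congr
    intro s hs
    rw [uIcc_of_le h0] at hs
    show P s * |Real.sin (t - s)| = P s * Real.sin (t - s)
    rw [abs_of_nonneg (Real.sin_nonneg_of_nonneg_of_le_pi (by linarith [hs.2]) (by linarith [hs.1]))]
  have e2 : ∫ s in t..π, P s * |Real.sin (t - s)| = - ∫ s in t..π, P s * Real.sin (t - s) := by
    rw [← intervalIntegral.integral_neg]
    apply intervalIntegral.integral_congr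
    intro s hs
    rw [uIcc_of_le h1] at hs
    show P s * |Real.sin (t - s)| = -(P s * Real.sin (t - s))
    rw [abs_of_nonpos]
    · ring
    have : Real.sin (t - s) = - Real.sin (s - t) := by rw [← Real.sin_neg]; congr 1; ring
    rw [this]
    have := Real.sin_nonneg_of_nonneg_of_le_pi (x := s - t) (by linarith [hs.1]) (by linarith [hs.2])
    linarith
  rw [e1, e2]
  ring

lemma cv_bdd_int (f : ℝ → ℝ) (hf : Measurable f) (C : ℝ) (hb : ∀ t, |f t| ≤ C) (a b : ℝ) :
    IntervalIntegrable f volume a b := by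
  apply (intervalIntegrable_const (c := C) (a := a) (b := b) (μ := volume)).mono_fun
    hf.aestronglyMeasurable
  filter_upwards with x
  rw [Real.norm_eq_abs, Real.norm_eq_abs]
  exact (hb x).trans (le_abs_self C)

/-- the core inequality on a period `π` -/
lemma cv_core (p : ℝ → ℝ) (hp : ∀ a b, IntervalIntegrable p volume a b) (h0 : ∫ t in (0:ℝ)..π, p t = 0) :
    ∫ t in (0:ℝ)..π, p t * (∫ s in (0:ℝ)..π, p s * |Real.sin (t - s)|) ≤ 0 := by
  have hpi := Real.pi_pos
  obtain ⟨P, hPdef⟩ : ∃ P : ℝ → ℝ, ∀ t, P t = ∫ s in (0:ℝ)..t, p s := ⟨_, fun _ => rfl⟩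
  have hPc : Continuous P := by
    have : P = fun t => ∫ s in (0:ℝ)..t, p s := funext hPdef
    rw [this]
    exact intervalIntegral.continuous_primitive hp 0
  have hPi : ∀ a b, IntervalIntegrable P volume a b := fun a b => hPc.intervalIntegrable a b
  have hPpi : P π = 0 := by rw [hPdef, h0]
  obtain ⟨Cf, hCf⟩ : ∃ Cf : ℝ → ℝ, ∀ t, Cf t = ∫ s in (0:ℝ)..t, P s * Real.cos s := ⟨_, fun _ => rfl⟩
  obtain ⟨Sf, hSf⟩ : ∃ Sf : ℝ → ℝ, ∀ t, Sf t = ∫ s in (0:ℝ)..t, P s * Real.sin s := ⟨_, fun _ => rfl⟩
  have hPcos : Continuous fun s => P s * Real.cos s := hPc.mul Real.continuous_cos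
  have hPsin : Continuous fun s => P s * Real.sin s := hPc.mul Real.continuous_sin
  have hCd : ∀ t, HasDerivAt Cf (P t * Real.cos t) t := by
    intro t
    have : Cf = fun t => ∫ s in (0:ℝ)..t, P s * Real.cos s := funext hCf
    rw [this]
    exact intervalIntegral.integral_hasDerivAt_right (hPcos.intervalIntegrable _ _)
      (hPcos.stronglyMeasurableAtFilter _ _) hPcos.continuousAt
  have hSd : ∀ t, HasDerivAt Sf (P t * Real.sin t) t := by
    intro t
    have : Sf = fun t => ∫ s in (0:ℝ)..t, P s * Real.sin s := funext hSf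
    rw [this]
    exact intervalIntegral.integral_hasDerivAt_right (hPsin.intervalIntegrable _ _)
      (hPsin.stronglyMeasurableAtFilter _ _) hPsin.continuousAt
  -- integrals against cos (t - s), sin (t - s)
  have hcosint : ∀ t b, ∫ s in (0:ℝ)..b, P s * Real.cos (t - s) =
      Real.cos t * Cf b + Real.sin t * Sf b := by
    intro t b
    rw [hCf, hSf, ← intervalIntegral.integral_const_mul, ← intervalIntegral.integral_const_mul,
      ← intervalIntegral.integral_add]
    · apply intervalIntegral.integral_congr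
      intro s _
      show P s * Real.cos (t - s) = Real.cos t * (P s * Real.cos s) + Real.sin t * (P s * Real.sin s)
      rw [Real.cos_sub]; ring
    · exact (hPcos.const_mul _).intervalIntegrable _ _
    · exact (hPsin.const_mul _).intervalIntegrable _ _
  have hsinint : ∀ t b, ∫ s in (0:ℝ)..b, P s * Real.sin (t - s) =
      Real.sin t * Cf b - Real.cos t * Sf b := by
    intro t b
    rw [hCf, hSf, ← intervalIntegral.integral_const_mul, ← intervalIntegral.integral_const_mul,
      ← intervalIntegral.integral_sub]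
    · apply intervalIntegral.integral_congr
      intro s _
      show P s * Real.sin (t - s) = Real.sin t * (P s * Real.cos s) - Real.cos t * (P s * Real.sin s)
      rw [Real.sin_sub]; ring
    · exact (hPcos.const_mul _).intervalIntegrable _ _
    · exact (hPsin.const_mul _).intervalIntegrable _ _
  -- J
  have hpsin : ∀ t b, ∫ s in (0:ℝ)..b, p s * Real.sin (t - s) =
      P b * Real.sin (t - b) + (Real.cos t * Cf b + Real.sin t * Sf b) := by
    intro t b
    have h := cv_ibp p (fun s => Real.sin (t - s)) (fun s => -Real.cos (t - s)) 0 b (hp 0 b)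
      (fun x => by
        have h1 : HasDerivAt (fun s => t - s) (-1) x := by
          simpa using (hasDerivAt_id x).const_sub t
        have h2 := (Real.hasDerivAt_sin (t - x)).comp x h1
        have h3 : Real.cos (t - x) * -1 = -Real.cos (t - x) := by ring
        rw [h3] at h2
        exact h2) (by fun_prop)
    rw [h, ← hPdef, ← hcosint]
    have : ∫ x in (0:ℝ)..b, (∫ s in (0:ℝ)..x, p s) * -Real.cos (t - x) =
        - ∫ s in (0:ℝ)..b, P s * Real.cos (t - s) := by
      rw [← intervalIntegral.integral_neg]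
      apply intervalIntegral.integral_congr
      intro s _
      show (∫ s in (0:ℝ)..s, p s) * -Real.cos (t - s) = -(P s * Real.cos (t - s))
      rw [← hPdef]; ring
    rw [this]
    ring
  obtain ⟨Jc, hJc⟩ : ∃ Jc : ℝ → ℝ, ∀ t, Jc t = Real.cos t * (2 * Cf t - Cf π) + Real.sin t * (2 * Sf t - Sf π) :=
    ⟨_, fun _ => rfl⟩
  obtain ⟨K, hK⟩ : ∃ K : ℝ → ℝ, ∀ t, K t = Real.sin t * (2 * Cf t - Cf π) - Real.cos t * (2 * Sf t - Sf π) :=
    ⟨_, fun _ => rfl⟩
  have hJ : ∀ t ∈ Icc (0:ℝ) π, ∫ s in (0:ℝ)..π, p s * |Real.sin (t - s)| = Jc t := by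
    intro t ht
    rw [cv_split p hp t ht.1 ht.2, hpsin, hpsin, hJc, hPpi]
    simp only [sub_self, Real.sin_zero, mul_zero, zero_add, zero_mul]
    ring
  have hKint : ∀ t ∈ Icc (0:ℝ) π, ∫ s in (0:ℝ)..π, P s * |Real.sin (t - s)| = K t := by
    intro t ht
    rw [cv_split P hPi t ht.1 ht.2, hsinint, hsinint, hK]
    ring
  have hJd : ∀ t, HasDerivAt Jc (2 * P t - K t) t := by
    intro t
    have e : Jc = fun t => Real.cos t * (2 * Cf t - Cf π) + Real.sin t * (2 * Sf t - Sf π) := funext hJc
    have h1 := ((Real.hasDerivAt_cos t).mul (((hCd t).const_mul 2).sub_const (Cf π))).add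
      ((Real.hasDerivAt_sin t).mul (((hSd t).const_mul 2).sub_const (Sf π)))
    have h2 : -Real.sin t * (2 * Cf t - Cf π) + Real.cos t * (2 * (P t * Real.cos t)) +
        (Real.cos t * (2 * Sf t - Sf π) + Real.sin t * (2 * (P t * Real.sin t))) = 2 * P t - K t := by
      rw [hK]
      have := Real.sin_sq_add_cos_sq t
      linear_combination (2 * P t) * this
    rw [← h2, e]
    exact h1
  have hCc : Continuous Cf := continuous_iff_continuousAt.mpr fun x => (hCd x).continuousAt
  have hSc : Continuous Sf := continuous_iff_continuousAt.mpr fun x => (hSd x).continuousAt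
  have hKc : Continuous K := by
    have : K = fun t => Real.sin t * (2 * Cf t - Cf π) - Real.cos t * (2 * Sf t - Sf π) := funext hK
    rw [this]
    fun_prop
  -- replace J by Jc
  have e1 : ∫ t in (0:ℝ)..π, p t * (∫ s in (0:ℝ)..π, p s * |Real.sin (t - s)|) =
      ∫ t in (0:ℝ)..π, p t * Jc t := by
    apply intervalIntegral.integral_congr
    intro t ht
    rw [uIcc_of_le hpi.le] at ht
    show p t * (∫ s in (0:ℝ)..π, p s * |Real.sin (t - s)|) = p t * Jc t
    rw [hJ t ht]
  have e2 := cv_ibp p Jc (fun t => 2 * P t - K t) 0 π (hp 0 π) hJd (by fun_prop)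
  rw [e1, e2, h0, zero_mul, zero_sub]
  have e3 : ∫ x in (0:ℝ)..π, (∫ s in (0:ℝ)..x, p s) * (2 * P x - K x) =
      2 * (∫ x in (0:ℝ)..π, P x ^ 2) - ∫ x in (0:ℝ)..π, P x * K x := by
    rw [← intervalIntegral.integral_const_mul, ← intervalIntegral.integral_sub]
    · apply intervalIntegral.integral_congr
      intro x _
      show (∫ s in (0:ℝ)..x, p s) * (2 * P x - K x) = 2 * P x ^ 2 - P x * K x
      rw [← hPdef]; ring
    · exact (by fun_prop : Continuous fun x => 2 * P x ^ 2).intervalIntegrable _ _
    · exact (hPc.mul hKc).intervalIntegrable _ _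
  rw [e3]
  -- bound on ∫ P K
  have hV : ∀ t ∈ Icc (0:ℝ) π, P t * K t ≤ P t ^ 2 + (1/2) * ∫ s in (0:ℝ)..π, P s ^ 2 * |Real.sin (t - s)| := by
    intro t ht
    rw [← hKint t ht]
    have i1 : ∫ s in (0:ℝ)..π, (P t ^ 2 / 2 * |Real.sin (t - s)| + (1/2) * (P s ^ 2 * |Real.sin (t - s)|)) =
        P t ^ 2 + (1/2) * ∫ s in (0:ℝ)..π, P s ^ 2 * |Real.sin (t - s)| := by
      rw [intervalIntegral.integral_add, intervalIntegral.integral_const_mul,
        intervalIntegral.integral_const_mul, cv_int_abs_sin t ht.1 ht.2]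
      · ring
      · exact (by fun_prop : Continuous fun s => P t ^ 2 / 2 * |Real.sin (t - s)|).intervalIntegrable _ _
      · exact (by fun_prop : Continuous fun s => (1/2) * (P s ^ 2 * |Real.sin (t - s)|)).intervalIntegrable _ _
    rw [← i1, ← intervalIntegral.integral_const_mul]
    apply intervalIntegral.integral_mono_on hpi.le
    · exact (by fun_prop : Continuous fun s => P t * (P s * |Real.sin (t - s)|)).intervalIntegrable _ _
    · exact (by fun_prop : Continuous fun s => P t ^ 2 / 2 * |Real.sin (t - s)| + (1/2) * (P s ^ 2 * |Real.sin (t - s)|)).intervalIntegrable _ _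
    · intro s _
      have h1 := abs_nonneg (Real.sin (t - s))
      have h2 : P t * P s ≤ P t ^ 2 / 2 + P s ^ 2 / 2 := by nlinarith [sq_nonneg (P t - P s)]
      nlinarith
  have hFub : ∫ t in (0:ℝ)..π, ∫ s in (0:ℝ)..π, P s ^ 2 * |Real.sin (t - s)| = 2 * ∫ x in (0:ℝ)..π, P x ^ 2 := by
    rw [MeasureTheory.intervalIntegral_intervalIntegral_swap]
    · rw [← intervalIntegral.integral_const_mul]
      apply intervalIntegral.integral_congr
      intro s hs
      rw [uIcc_of_le hpi.le] at hs
      show ∫ t in (0:ℝ)..π, P s ^ 2 * |Real.sin (t - s)| = 2 * P s ^ 2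
      rw [intervalIntegral.integral_const_mul]
      have : ∫ t in (0:ℝ)..π, |Real.sin (t - s)| = 2 := by
        rw [← cv_int_abs_sin s hs.1 hs.2]
        apply intervalIntegral.integral_congr
        intro t _
        show |Real.sin (t - s)| = |Real.sin (s - t)|
        rw [← abs_neg, ← Real.sin_neg]
        congr 2; ring
      rw [this]; ring
    · have hc : Continuous (Function.uncurry fun t s => P s ^ 2 * |Real.sin (t - s)|) := by
        unfold Function.uncurry
        fun_prop
      apply (hc.continuousOn.integrableOn_compact (isCompact_uIcc.prod isCompact_uIcc)).mono_set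
      exact Set.prod_mono uIoc_subset_uIcc uIoc_subset_uIcc
  have hfin : ∫ x in (0:ℝ)..π, P x * K x ≤ 2 * ∫ x in (0:ℝ)..π, P x ^ 2 := by
    have hVc : IntervalIntegrable (fun t => ∫ s in (0:ℝ)..π, P s ^ 2 * |Real.sin (t - s)|) volume 0 π := by
      apply Continuous.intervalIntegrable
      apply intervalIntegral.continuous_parametric_intervalIntegral_of_continuous'
      fun_prop
    calc ∫ x in (0:ℝ)..π, P x * K x
        ≤ ∫ t in (0:ℝ)..π, (P t ^ 2 + (1/2) * ∫ s in (0:ℝ)..π, P s ^ 2 * |Real.sin (t - s)|) := by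
          apply intervalIntegral.integral_mono_on hpi.le
          · exact (hPc.mul hKc).intervalIntegrable _ _
          · exact ((by fun_prop : Continuous fun x => P x ^ 2).intervalIntegrable _ _).add (hVc.const_mul _)
          · exact hV
      _ = 2 * ∫ x in (0:ℝ)..π, P x ^ 2 := by
          rw [intervalIntegral.integral_add, intervalIntegral.integral_const_mul, hFub]
          · ring
          · exact (by fun_prop : Continuous fun x => P x ^ 2).intervalIntegrable _ _
          · exact hVc.const_mul _
  linarith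

/-- conditional negativity of the kernel `|sin (t - s)|` -/
theorem kernel_nonpos (f : ℝ → ℝ) (hf : Measurable f) (hper : Function.Periodic f (2 * π))
    (C : ℝ) (hb : ∀ t, |f t| ≤ C) (h0 : ∫ t in (0:ℝ)..(2 * π), f t = 0) :
    ∫ t in (0:ℝ)..(2 * π), (∫ s in (0:ℝ)..(2 * π), f t * f s * |Real.sin (t - s)|) ≤ 0 := by
  have hpi := Real.pi_pos
  have hfi : ∀ a b, IntervalIntegrable f volume a b := cv_bdd_int f hf C hb
  obtain ⟨p, hp⟩ : ∃ p : ℝ → ℝ, ∀ t, p t = f t + f (t + π) := ⟨_, fun _ => rfl⟩
  have hpfun : p = fun t => f t + f (t + π) := funext hp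
  have hpm : Measurable p := by
    rw [hpfun]
    exact hf.add (hf.comp (measurable_id.add_const π))
  have hpb : ∀ t, |p t| ≤ C + C := by
    intro t
    rw [hp]
    exact (abs_add_le _ _).trans (add_le_add (hb _) (hb _))
  have hpi' : ∀ a b, IntervalIntegrable p volume a b := cv_bdd_int p hpm _ hpb
  have hp0 : ∫ t in (0:ℝ)..π, p t = 0 := by
    rw [hpfun, ← cv_fold f hfi, h0]
  -- inner integral
  obtain ⟨J, hJ⟩ : ∃ J : ℝ → ℝ, ∀ t, J t = ∫ s in (0:ℝ)..π, p s * |Real.sin (t - s)| := ⟨_, fun _ => rfl⟩
  have hin : ∀ t, ∫ s in (0:ℝ)..(2 * π), f t * f s * |Real.sin (t - s)| = f t * J t := by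
    intro t
    rw [cv_fold (fun s => f t * f s * |Real.sin (t - s)|)
      (fun a b => ((hfi a b).const_mul (f t)).mul_continuousOn (by fun_prop)), hJ,
      ← intervalIntegral.integral_const_mul]
    apply intervalIntegral.integral_congr
    intro s _
    show f t * f s * |Real.sin (t - s)| + f t * f (s + π) * |Real.sin (t - (s + π))| =
      f t * (p s * |Real.sin (t - s)|)
    have : t - (s + π) = (t - s) - π := by ring
    rw [this, cv_abs_sin_shift, hp]
    ring
  have hJper : ∀ t, J (t + π) = J t := by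
    intro t
    rw [hJ, hJ]
    apply intervalIntegral.integral_congr
    intro s _
    show p s * |Real.sin (t + π - s)| = p s * |Real.sin (t - s)|
    have : t + π - s = (t - s) + π := by ring
    rw [this, Real.sin_add_pi, abs_neg]
  have hJc : Continuous J := by
    have hJ2 : J = fun t => Real.sin t * Real.sin t * J t + Real.cos t * Real.cos t * J t := by
      funext t
      have := Real.sin_sq_add_cos_sq t
      linear_combination (-J t) * this
    -- continuity through dominated convergence
    have : J = fun t => ∫ s in (0:ℝ)..π, p s * |Real.sin (t - s)| := funext hJ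
    rw [this]
    apply intervalIntegral.continuous_of_dominated_interval (bound := fun _ => C + C)
    · intro t
      exact (hpm.mul (by fun_prop)).aestronglyMeasurable
    · intro t
      filter_upwards with s _
      rw [Real.norm_eq_abs, abs_mul, abs_abs]
      have h1 := hpb s
      have h2 := Real.abs_sin_le_one (t - s)
      have h3 := abs_nonneg (p s)
      have h4 := abs_nonneg (Real.sin (t - s))
      nlinarith
    · exact intervalIntegrable_const
    · filter_upwards with s _
      fun_prop
  have hfJ : ∀ a b, IntervalIntegrable (fun t => f t * J t) volume a b := fun a b =>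
    (hfi a b).mul_continuousOn hJc.continuousOn
  have e1 : ∫ t in (0:ℝ)..(2 * π), (∫ s in (0:ℝ)..(2 * π), f t * f s * |Real.sin (t - s)|) =
      ∫ t in (0:ℝ)..π, p t * J t := by
    have : (fun t => ∫ s in (0:ℝ)..(2 * π), f t * f s * |Real.sin (t - s)|) = fun t => f t * J t :=
      funext hin
    rw [this, cv_fold _ hfJ]
    apply intervalIntegral.integral_congr
    intro t _
    show f t * J t + f (t + π) * J (t + π) = p t * J t
    rw [hJper, hp]
    ring
  rw [e1]
  have := cv_core p hpi' hp0
  simpa only [hJ] using this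

lemma cv_h_int (y : ℝ) (hy0 : 0 ≤ y) (hy1 : y ≤ π / 2) :
    ∫ u in (0:ℝ)..(2 * π), max (Real.sin y - |Real.sin u|) 0 = 4 * (y * Real.sin y - (1 - Real.cos y)) := by
  have hpi := Real.pi_pos
  have hc : Continuous fun u => max (Real.sin y - |Real.sin u|) 0 := by fun_prop
  have hi : ∀ a b, IntervalIntegrable (fun u => max (Real.sin y - |Real.sin u|) 0) volume a b :=
    fun a b => hc.intervalIntegrable a b
  have e1 : ∫ u in (0:ℝ)..y, max (Real.sin y - |Real.sin u|) 0 = y * Real.sin y - (1 - Real.cos y) := by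
    have : ∫ u in (0:ℝ)..y, max (Real.sin y - |Real.sin u|) 0 = ∫ u in (0:ℝ)..y, (Real.sin y - Real.sin u) := by
      apply intervalIntegral.integral_congr
      intro u hu
      rw [uIcc_of_le hy0] at hu
      have h1 : 0 ≤ Real.sin u := Real.sin_nonneg_of_nonneg_of_le_pi hu.1 (by linarith [hu.2])
      have h2 : Real.sin u ≤ Real.sin y := Real.sin_le_sin_of_le_of_le_pi_div_two (by linarith [hu.1]) hy1 hu.2
      show max (Real.sin y - |Real.sin u|) 0 = Real.sin y - Real.sin u
      rw [abs_of_nonneg h1, max_eq_left (by linarith)]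
    rw [this, intervalIntegral.integral_sub (by simp) (Real.continuous_sin.intervalIntegrable _ _),
      intervalIntegral.integral_const, integral_sin]
    simp
  have e2 : ∫ u in y..(π / 2), max (Real.sin y - |Real.sin u|) 0 = 0 := by
    have : ∫ u in y..(π / 2), max (Real.sin y - |Real.sin u|) 0 = ∫ u in y..(π / 2), (0:ℝ) := by
      apply intervalIntegral.integral_congr
      intro u hu
      rw [uIcc_of_le hy1] at hu
      have h1 : 0 ≤ Real.sin u := Real.sin_nonneg_of_nonneg_of_le_pi (by linarith [hu.1]) (by linarith [hu.2])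
      have h2 : Real.sin y ≤ Real.sin u := Real.sin_le_sin_of_le_of_le_pi_div_two (by linarith) hu.2 hu.1
      show max (Real.sin y - |Real.sin u|) 0 = 0
      rw [abs_of_nonneg h1, max_eq_right (by linarith)]
    rw [this]
    simp
  have e3 : ∫ u in (π / 2)..π, max (Real.sin y - |Real.sin u|) 0 =
      ∫ u in (0:ℝ)..(π / 2), max (Real.sin y - |Real.sin u|) 0 := by
    have h1 := intervalIntegral.integral_comp_sub_left (a := π / 2) (b := π)
      (fun u => max (Real.sin y - |Real.sin u|) 0) π
    have h2 : π - π / 2 = π / 2 := by ring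
    rw [sub_self, h2] at h1
    rw [← h1]
    apply intervalIntegral.integral_congr
    intro u _
    show max (Real.sin y - |Real.sin u|) 0 = max (Real.sin y - |Real.sin (π - u)|) 0
    rw [Real.sin_pi_sub]
  have e4 : ∫ u in (0:ℝ)..(π / 2), max (Real.sin y - |Real.sin u|) 0 = y * Real.sin y - (1 - Real.cos y) := by
    rw [← intervalIntegral.integral_add_adjacent_intervals (hi 0 y) (hi y (π / 2)), e1, e2, add_zero]
  have e5 : ∫ u in (0:ℝ)..π, max (Real.sin y - |Real.sin u|) 0 = 2 * (y * Real.sin y - (1 - Real.cos y)) := by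
    rw [← intervalIntegral.integral_add_adjacent_intervals (hi 0 (π / 2)) (hi (π / 2) π), e3, e4]
    ring
  rw [cv_fold _ hi]
  have e6 : ∫ t in (0:ℝ)..π, (max (Real.sin y - |Real.sin t|) 0 + max (Real.sin y - |Real.sin (t + π)|) 0) =
      ∫ t in (0:ℝ)..π, 2 * max (Real.sin y - |Real.sin t|) 0 := by
    apply intervalIntegral.integral_congr
    intro t _
    show max (Real.sin y - |Real.sin t|) 0 + max (Real.sin y - |Real.sin (t + π)|) 0 = 2 * max (Real.sin y - |Real.sin t|) 0
    rw [Real.sin_add_pi, abs_neg]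
    ring
  rw [e6, intervalIntegral.integral_const_mul, e5]
  ring

/-- bathtub -/
theorem bathtub (χ : ℝ → ℝ) (hχ : Measurable χ) (h0 : ∀ s, 0 ≤ χ s) (h1 : ∀ s, χ s ≤ 1) (M : ℝ)
    (hM : ∫ s in (0:ℝ)..(2 * π), χ s = M) (t : ℝ) :
    4 * (1 - Real.cos (M / 4)) ≤ ∫ s in (0:ℝ)..(2 * π), χ s * |Real.sin (t - s)| := by
  have hpi := Real.pi_pos
  have hχi : ∀ a b, IntervalIntegrable χ volume a b := cv_bdd_int χ hχ 1 (by
    intro s
    rw [abs_of_nonneg (h0 s)]
    exact h1 s)
  have hM0 : 0 ≤ M := by
    rw [← hM]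
    exact intervalIntegral.integral_nonneg (by linarith) (fun s _ => h0 s)
  have hM1 : M ≤ 2 * π := by
    rw [← hM]
    calc ∫ s in (0:ℝ)..(2 * π), χ s ≤ ∫ s in (0:ℝ)..(2 * π), (1:ℝ) :=
          intervalIntegral.integral_mono_on (by linarith) (hχi _ _) intervalIntegrable_const
            (fun s _ => h1 s)
      _ = 2 * π := by simp
  obtain ⟨y, hy⟩ : ∃ y, y = M / 4 := ⟨_, rfl⟩
  rw [← hy]
  have hy0 : 0 ≤ y := by rw [hy]; linarith
  have hy1 : y ≤ π / 2 := by rw [hy]; linarith
  have hh : ∫ s in (0:ℝ)..(2 * π), max (Real.sin y - |Real.sin (t - s)|) 0 =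
      4 * (y * Real.sin y - (1 - Real.cos y)) := by
    have h2 := intervalIntegral.integral_comp_sub_left (a := 0) (b := 2 * π)
      (fun u => max (Real.sin y - |Real.sin u|) 0) t
    rw [h2, sub_zero]
    have hper : Function.Periodic (fun u => max (Real.sin y - |Real.sin u|) 0) (2 * π) := by
      intro u
      show max (Real.sin y - |Real.sin (u + 2 * π)|) 0 = max (Real.sin y - |Real.sin u|) 0
      rw [Real.sin_add_two_pi]
    have h3 := hper.intervalIntegral_add_eq (t - 2 * π) 0
    rw [zero_add, sub_add_cancel] at h3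
    rw [h3, cv_h_int y hy0 hy1]
  have hpt : ∀ s, χ s * Real.sin y - max (Real.sin y - |Real.sin (t - s)|) 0 ≤ χ s * |Real.sin (t - s)| := by
    intro s
    have a0 := h0 s
    have a1 := h1 s
    rcases le_total (Real.sin y) |Real.sin (t - s)| with h | h
    · rw [max_eq_right (by linarith)]
      nlinarith
    · rw [max_eq_left (by linarith)]
      nlinarith
  have hc : Continuous fun s => max (Real.sin y - |Real.sin (t - s)|) 0 := by fun_prop
  have hmono : ∫ s in (0:ℝ)..(2 * π), (χ s * Real.sin y - max (Real.sin y - |Real.sin (t - s)|) 0) ≤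
      ∫ s in (0:ℝ)..(2 * π), χ s * |Real.sin (t - s)| := by
    apply intervalIntegral.integral_mono_on (by linarith)
    · exact ((hχi _ _).mul_const _).sub (hc.intervalIntegrable _ _)
    · exact (hχi _ _).mul_continuousOn (by fun_prop)
    · intro s _
      exact hpt s
  rw [intervalIntegral.integral_sub ((hχi _ _).mul_const _) (hc.intervalIntegrable _ _),
    intervalIntegral.integral_mul_const, hM, hh] at hmono
  have : M = 4 * y := by rw [hy]; ring
  rw [this] at hmono
  linarith

end Pool.Agent.Helper679.Curve.J1128
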