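import Pool.Agent.Helper679.CurveBasic

set_option autoImplicit false

namespace Pool.Agent.Helper679.Curve.J1131


/-- reflection in the hyperplane `⟨x, u⟩ = t` -/
noncomputable def esRefl {E : Type*} [NormedAddCommGroup E] [InnerProductSpace ℝ E]
    (u : E) (t : ℝ) (x : E) : E := x + (2 * (t - inner ℝ x u) / ‖u‖ ^ 2) • u

theorem esRefl_fix {E : Type*} [NormedAddCommGroup E] [InnerProductSpace ℝ E]
    (u : E) (t : ℝ) (x : E) (h : inner ℝ x u = t) : esRefl u t x = x := by
  unfold esRefl
  rw [h]; simp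

theorem es_norm_sq {E : Type*} [NormedAddCommGroup E] [InnerProductSpace ℝ E]
    (z u : E) (c : ℝ) : ‖z + c • u‖ ^ 2 = ‖z‖ ^ 2 + 2 * c * inner ℝ z u + c ^ 2 * ‖u‖ ^ 2 := by
  rw [norm_add_sq_real, real_inner_smul_right, norm_smul, mul_pow, Real.norm_eq_abs, sq_abs]
  ring

theorem esRefl_dist {E : Type*} [NormedAddCommGroup E] [InnerProductSpace ℝ E]
    (u : E) (hu : u ≠ 0) (t : ℝ) (x y : E) :
    dist (esRefl u t x) (esRefl u t y) ^ 2 = dist x y ^ 2 := by
  have hu' : ‖u‖ ^ 2 ≠ 0 := by
    have := norm_pos_iff.mpr hu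
    positivity
  unfold esRefl
  rw [dist_eq_norm, dist_eq_norm]
  have h1 : x + (2 * (t - inner ℝ x u) / ‖u‖ ^ 2) • u - (y + (2 * (t - inner ℝ y u) / ‖u‖ ^ 2) • u) =
      (x - y) + (-(2 * inner ℝ (x - y) u / ‖u‖ ^ 2)) • u := by
    rw [inner_sub_left]
    module
  rw [h1, es_norm_sq]
  field_simp
  ring

theorem esRefl_dist_left {E : Type*} [NormedAddCommGroup E] [InnerProductSpace ℝ E]
    (u : E) (hu : u ≠ 0) (t : ℝ) (x y : E) :
    dist (esRefl u t x) y ^ 2 = dist x y ^ 2 +
      4 * ((t - inner ℝ x u) * (t - inner ℝ y u)) / ‖u‖ ^ 2 := by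
  have hu' : ‖u‖ ^ 2 ≠ 0 := by
    have := norm_pos_iff.mpr hu
    positivity
  unfold esRefl
  rw [dist_eq_norm, dist_eq_norm]
  have h1 : x + (2 * (t - inner ℝ x u) / ‖u‖ ^ 2) • u - y =
      (x - y) + (2 * (t - inner ℝ x u) / ‖u‖ ^ 2) • u := by abel
  rw [h1, es_norm_sq, inner_sub_left]
  field_simp
  ring

theorem exists_stretched {E : Type*} [NormedAddCommGroup E] [InnerProductSpace ℝ E]
    [FiniteDimensional ℝ E] {n : ℕ} (p : Fin (n + 1) → E) :
    ∃ q : Fin (n + 1) → E, (∀ i, dist (q i) (q (i + 1)) ≤ dist (p i) (p (i + 1))) ∧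
      (∀ i j, dist (p i) (p j) ≤ dist (q i) (q j)) ∧ Pocket q := by
  classical
  set X : Set (Fin (n + 1) → E) := {q | q 0 = p 0 ∧
    (∀ i, dist (q i) (q (i + 1)) ≤ dist (p i) (p (i + 1))) ∧
    (∀ i j, dist (p i) (p j) ≤ dist (q i) (q j))} with hX
  have hXne : X.Nonempty := ⟨p, rfl, fun i => le_rfl, fun i j => le_rfl⟩
  have hXc : IsCompact X := by
    have hcl : IsClosed X := by
      have e1 : IsClosed {q : Fin (n + 1) → E | q 0 = p 0} :=
        isClosed_eq (continuous_apply 0) continuous_const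
      have e2 : IsClosed {q : Fin (n + 1) → E |
          ∀ i, dist (q i) (q (i + 1)) ≤ dist (p i) (p (i + 1))} := by
        rw [Set.ofPred_forall]
        exact isClosed_iInter fun i => isClosed_le
          ((continuous_apply i).dist (continuous_apply (i + 1))) continuous_const
      have e3 : IsClosed {q : Fin (n + 1) → E | ∀ i j, dist (p i) (p j) ≤ dist (q i) (q j)} := by
        rw [Set.ofPred_forall]
        refine isClosed_iInter fun i => ?_
        rw [Set.ofPred_forall]
        exact isClosed_iInter fun j => isClosed_le continuous_const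
          ((continuous_apply i).dist (continuous_apply j))
      exact e1.inter (e2.inter e3)
    set D : ℝ := ∑ i, dist (p i) (p (i + 1)) with hD
    have hD0 : 0 ≤ D := Finset.sum_nonneg fun i _ => dist_nonneg
    have hbd : ∀ q ∈ X, ∀ (k : ℕ) (hk : k < n + 1), dist (q ⟨k, hk⟩) (p 0) ≤ k * D := by
      rintro q ⟨h0, h1, -⟩ k
      induction k with
      | zero =>
        intro hk
        have : (⟨0, hk⟩ : Fin (n + 1)) = 0 := rfl
        rw [this, h0]; simp
      | succ k ih =>
        intro hk
        have hk' : k < n + 1 := by omega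
        have h2 := ih hk'
        have h3 := h1 ⟨k, hk'⟩
        have h4 : (⟨k, hk'⟩ : Fin (n + 1)) + 1 = ⟨k + 1, hk⟩ := by
          apply Fin.ext
          rw [Fin.val_add_one_of_lt]
          rw [Fin.lt_def]; simp; omega
        rw [h4] at h3
        have h5 : dist (p ⟨k, hk'⟩) (p ⟨k + 1, hk⟩) ≤ D := by
          have := Finset.single_le_sum (f := fun i => dist (p i) (p (i + 1)))
            (fun i _ => dist_nonneg) (Finset.mem_univ (⟨k, hk'⟩ : Fin (n + 1)))
          simp only [h4] at this
          exact this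
        push_cast
        have h6 := dist_triangle_left (q ⟨k + 1, hk⟩) (p 0) (q ⟨k, hk'⟩)
        linarith
    have hsub : X ⊆ Metric.closedBall (fun _ => p 0) ((n + 1 : ℕ) * D) := by
      intro q hq
      rw [Metric.mem_closedBall, dist_pi_le_iff (by positivity)]
      intro i
      refine (hbd q hq i.1 i.2).trans ?_
      gcongr
      exact i.2.le
    exact Metric.isCompact_of_isClosed_isBounded hcl (Metric.isBounded_closedBall.subset hsub)
  have hFc : Continuous (fun q : Fin (n + 1) → E => ∑ i, ∑ j, dist (q i) (q j) ^ 2) :=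
    continuous_finsetSum _ fun i _ => continuous_finsetSum _ fun j _ =>
      ((continuous_apply i).dist (continuous_apply j)).pow 2
  obtain ⟨q, hq, hmax⟩ := hXc.exists_isMaxOn hXne hFc.continuousOn
  obtain ⟨hq0, hq1, hq2⟩ := hq
  refine ⟨q, hq1, hq2, ?_⟩
  intro u t ht a b hab hqa hqb
  by_cases hu : u = 0
  · left
    intro i _ _
    rw [hu, inner_zero_right] at hqa ⊢
    exact hqa
  have hu2 : 0 < ‖u‖ ^ 2 := by
    have := norm_pos_iff.mpr hu
    positivity
  set q' : Fin (n + 1) → E := fun i => if a < i ∧ i < b then esRefl u t (q i) else q i with hq'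
  have hfor : ∀ i j, dist (q' i) (q' j) ^ 2 = dist (q i) (q j) ^ 2 +
      (if (a < i ∧ i < b) ∧ ¬ (a < j ∧ j < b) ∨ ¬ (a < i ∧ i < b) ∧ (a < j ∧ j < b) then
        4 * ((t - inner ℝ (q i) u) * (t - inner ℝ (q j) u)) / ‖u‖ ^ 2 else 0) := by
    intro i j
    simp only [hq']
    by_cases hi : a < i ∧ i < b
    · by_cases hj : a < j ∧ j < b
      · rw [if_pos hi, if_pos hj, esRefl_dist u hu, if_neg (by tauto), add_zero]
      · rw [if_pos hi, if_neg hj, esRefl_dist_left u hu, if_pos (by tauto)]
    · by_cases hj : a < j ∧ j < b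
      · rw [if_neg hi, if_pos hj, dist_comm, esRefl_dist_left u hu, if_pos (by tauto),
          dist_comm, mul_comm (t - inner ℝ (q j) u)]
      · rw [if_neg hi, if_neg hj, if_neg (by tauto), add_zero]
  have hterm : ∀ i j, 0 ≤ (if (a < i ∧ i < b) ∧ ¬ (a < j ∧ j < b) ∨
      ¬ (a < i ∧ i < b) ∧ (a < j ∧ j < b) then
        4 * ((t - inner ℝ (q i) u) * (t - inner ℝ (q j) u)) / ‖u‖ ^ 2 else 0) := by
    intro i j
    split_ifs
    · have h1 : 0 ≤ t - inner ℝ (q i) u := by linarith [ht i]
      have h2 : 0 ≤ t - inner ℝ (q j) u := by linarith [ht j]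
      positivity
    · exact le_rfl
  have hge : ∀ i j, dist (q i) (q j) ≤ dist (q' i) (q' j) := by
    intro i j
    apply le_of_sq_le_sq _ dist_nonneg
    rw [hfor]
    linarith [hterm i j]
  have hedge : ∀ i, dist (q' i) (q' (i + 1)) = dist (q i) (q (i + 1)) := by
    intro i
    have hsq : dist (q' i) (q' (i + 1)) ^ 2 = dist (q i) (q (i + 1)) ^ 2 := by
      rw [hfor]
      split_ifs with hcase
      · have hz : (t - inner ℝ (q i) u) * (t - inner ℝ (q (i + 1)) u) = 0 := by
          by_cases hlast : i = Fin.last n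
          · exfalso
            subst hlast
            rw [Fin.last_add_one] at hcase
            rcases hcase with h | h
            · have := h.1.2
              exact absurd this (not_lt.mpr (Fin.le_last b))
            · exact absurd h.2.1 (not_lt.mpr (Fin.zero_le a))
          · have hval : (i + 1).val = i.val + 1 :=
              Fin.val_add_one_of_lt (Fin.lt_last_iff_ne_last.mpr hlast)
            rcases hcase with h | h
            · have hb : i + 1 = b := by
                apply Fin.ext
                have h1 := h.1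
                have h2 := h.2
                simp only [Fin.lt_def] at h1 h2
                rw [hval] at h2 ⊢
                omega
              rw [hb, hqb]; ring
            · have ha : i = a := by
                apply Fin.ext
                have h1 := h.1
                have h2 := h.2
                simp only [Fin.lt_def] at h1 h2
                rw [hval] at h2
                omega
              rw [ha, hqa]; ring
        rw [hz]; simp
      · rw [add_zero]
    exact (sq_eq_sq₀ dist_nonneg dist_nonneg).mp hsq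
  have hq'X : q' ∈ X := by
    refine ⟨?_, fun i => ?_, fun i j => (hq2 i j).trans (hge i j)⟩
    · simp only [hq']
      rw [if_neg (by
        rintro ⟨h, -⟩
        exact absurd h (not_lt.mpr (Fin.zero_le a)))]
      exact hq0
    · rw [hedge]; exact hq1 i
  have hle : ∑ i, ∑ j, dist (q' i) (q' j) ^ 2 ≤ ∑ i, ∑ j, dist (q i) (q j) ^ 2 := hmax hq'X
  have hzero : ∀ i j, (a < i ∧ i < b) → ¬ (a < j ∧ j < b) →
      (t - inner ℝ (q i) u) * (t - inner ℝ (q j) u) = 0 := by
    intro i j hi hj
    have hsum : ∑ i, ∑ j, (if (a < i ∧ i < b) ∧ ¬ (a < j ∧ j < b) ∨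
      ¬ (a < i ∧ i < b) ∧ (a < j ∧ j < b) then
        4 * ((t - inner ℝ (q i) u) * (t - inner ℝ (q j) u)) / ‖u‖ ^ 2 else 0) ≤ 0 := by
      simp only [hfor, Finset.sum_add_distrib] at hle
      linarith
    have h1 : (if (a < i ∧ i < b) ∧ ¬ (a < j ∧ j < b) ∨
      ¬ (a < i ∧ i < b) ∧ (a < j ∧ j < b) then
        4 * ((t - inner ℝ (q i) u) * (t - inner ℝ (q j) u)) / ‖u‖ ^ 2 else 0) ≤ 0 := by
      refine le_trans ?_ hsum
      refine le_trans ?_ (Finset.single_le_sum
        (f := fun i => ∑ j, (if (a < i ∧ i < b) ∧ ¬ (a < j ∧ j < b) ∨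
          ¬ (a < i ∧ i < b) ∧ (a < j ∧ j < b) then
          4 * ((t - inner ℝ (q i) u) * (t - inner ℝ (q j) u)) / ‖u‖ ^ 2 else 0))
        (fun i _ => Finset.sum_nonneg fun j _ => hterm i j) (Finset.mem_univ i))
      exact Finset.single_le_sum
        (f := fun j => (if (a < i ∧ i < b) ∧ ¬ (a < j ∧ j < b) ∨
          ¬ (a < i ∧ i < b) ∧ (a < j ∧ j < b) then
          4 * ((t - inner ℝ (q i) u) * (t - inner ℝ (q j) u)) / ‖u‖ ^ 2 else 0))
        (fun j _ => hterm i j) (Finset.mem_univ j)
    rw [if_pos (Or.inl ⟨hi, hj⟩)] at h1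
    have h2 : 0 ≤ t - inner ℝ (q i) u := by linarith [ht i]
    have h3 : 0 ≤ t - inner ℝ (q j) u := by linarith [ht j]
    have h4 : 4 * ((t - inner ℝ (q i) u) * (t - inner ℝ (q j) u)) ≤ 0 := by
      by_contra hc
      push Not at hc
      exact absurd h1 (not_le.mpr (div_pos hc hu2))
    nlinarith [mul_nonneg h2 h3]
  by_cases hall : ∀ i, a < i → i < b → inner ℝ (q i) u = t
  · exact Or.inl hall
  · right
    push Not at hall
    obtain ⟨i0, h1, h2, h3⟩ := hall
    intro j hj
    have h4 := hzero i0 j ⟨h1, h2⟩ (by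
      rintro ⟨h5, h6⟩
      rcases hj with h | h
      · exact absurd h5 (not_lt.mpr h.le)
      · exact absurd h6 (not_lt.mpr h.le))
    rcases mul_eq_zero.mp h4 with h5 | h5
    · exact absurd (by linarith) h3
    · linarith

end Pool.Agent.Helper679.Curve.J1131
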