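import Pool.Agent.Helper679.NGDefs

set_option autoImplicit false

namespace Pool.Agent.Helper679.NG

variable {V : Type} [Fintype V] [DecidableEq V]

/-- `u` equals or is adjacent to `v`. -/
def Dom (G : SimpleGraph V) (u v : V) : Prop := u = v ∨ G.Adj u v

omit [Fintype V] [DecidableEq V] in
theorem Dom.symm {G : SimpleGraph V} {u v : V} (h : Dom G u v) : Dom G v u := by
  rcases h with h | h
  · exact Or.inl h.symm
  · exact Or.inr h.symm

omit [Fintype V] [DecidableEq V] in
theorem dom_or_compl (G : SimpleGraph V) (u v : V) : Dom G u v ∨ Dom Gᶜ u v := by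
  by_cases h : u = v
  · exact Or.inl (Or.inl h)
  · by_cases h' : G.Adj u v
    · exact Or.inl (Or.inr h')
    · exact Or.inr (Or.inr ((SimpleGraph.compl_adj _ _ _).2 ⟨h, h'⟩))

omit [Fintype V] [DecidableEq V] in
theorem not_dom_compl {G : SimpleGraph V} {u v : V} (h : ¬ Dom Gᶜ u v) : G.Adj u v := by
  rcases dom_or_compl G u v with h' | h'
  · rcases h' with h' | h'
    · exact absurd (Or.inl h') h
    · exact h'
  · exact absurd h' h

omit [Fintype V] [DecidableEq V] in
theorem dominating_iff {G : SimpleGraph V} {X : Finset V} :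
    Dominating G X ↔ ∀ v, ∃ x ∈ X, Dom G x v := by
  constructor
  · intro h v
    by_cases hv : v ∈ X
    · exact ⟨v, hv, Or.inl rfl⟩
    · obtain ⟨x, hx, hxv⟩ := h v hv
      exact ⟨x, hx, Or.inr hxv.symm⟩
  · intro h v hv
    obtain ⟨x, hx, hxv⟩ := h v
    rcases hxv with hxv | hxv
    · exact absurd (hxv ▸ hx) hv
    · exact ⟨x, hx, hxv.symm⟩

omit [Fintype V] in
theorem KMinimal.mono {G : SimpleGraph V} {k l : ℕ} {X : Finset V} (h : KMinimal G k X)
    (hl : l ≤ k) : KMinimal G l X :=
  ⟨h.1, fun U R hU h1 h2 h3 => h.2 U R hU h1 (h2.trans hl) h3⟩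

theorem dominating_univ (G : SimpleGraph V) : Dominating G Finset.univ :=
  fun v hv => absurd (Finset.mem_univ v) hv

theorem exists_kMinimal (G : SimpleGraph V) (k : ℕ) : ∃ X, KMinimal G k X := by
  classical
  obtain ⟨X, hX, hmin⟩ := Finset.exists_min_image
    ((Finset.univ : Finset (Finset V)).filter (fun X => Dominating G X)) Finset.card
    ⟨Finset.univ, by simpa using dominating_univ G⟩
  have hX' : Dominating G X := by simpa using hX
  refine ⟨X, hX', ?_⟩
  intro U R hU h1 h2 h3 hdom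
  have := hmin ((X \ U) ∪ R) (by simpa using hdom)
  have h4 : ((X \ U) ∪ R).card ≤ (X \ U).card + R.card := Finset.card_union_le _ _
  have h5 : (X \ U).card = X.card - U.card := Finset.card_sdiff_of_subset hU
  have h6 := Finset.card_le_card hU
  omega

theorem gam_bdd (k : ℕ) (G : SimpleGraph V) :
    BddAbove {c | ∃ X : Finset V, KMinimal G k X ∧ X.card = c} :=
  ⟨Fintype.card V, by
    rintro c ⟨X, _, rfl⟩
    exact Finset.card_le_univ X⟩

theorem le_gam {k : ℕ} {G : SimpleGraph V} {X : Finset V} (h : KMinimal G k X) :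
    X.card ≤ Gam k G :=
  le_csSup (gam_bdd k G) ⟨X, h, rfl⟩

theorem exists_gam (k : ℕ) (G : SimpleGraph V) : ∃ X, KMinimal G k X ∧ X.card = Gam k G := by
  have hne : {c | ∃ X : Finset V, KMinimal G k X ∧ X.card = c}.Nonempty := by
    obtain ⟨X, hX⟩ := exists_kMinimal G k
    exact ⟨_, X, hX, rfl⟩
  exact Nat.sSup_mem hne (gam_bdd k G)

theorem g_bdd (n k : ℕ) : BddAbove {c | ∃ G : SimpleGraph (Fin n), c = Gam k G * Gam k Gᶜ} :=
  ⟨n * n, by
    rintro c ⟨G, rfl⟩
    obtain ⟨X, _, hX⟩ := exists_gam k G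
    obtain ⟨Y, _, hY⟩ := exists_gam k Gᶜ
    rw [← hX, ← hY]
    have h1 := Finset.card_le_univ X
    have h2 := Finset.card_le_univ Y
    simp only [Fintype.card_fin] at h1 h2
    exact Nat.mul_le_mul h1 h2⟩

theorem le_g {n k : ℕ} {G : SimpleGraph (Fin n)} {X Y : Finset (Fin n)} (hX : KMinimal G k X)
    (hY : KMinimal Gᶜ k Y) : X.card * Y.card ≤ g n k :=
  (Nat.mul_le_mul (le_gam hX) (le_gam hY)).trans (le_csSup (g_bdd n k) ⟨G, rfl⟩)

theorem exists_g (n k : ℕ) : ∃ (G : SimpleGraph (Fin n)) (X Y : Finset (Fin n)),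
    KMinimal G k X ∧ KMinimal Gᶜ k Y ∧ g n k = X.card * Y.card := by
  have hne : {c | ∃ G : SimpleGraph (Fin n), c = Gam k G * Gam k Gᶜ}.Nonempty := ⟨_, ⊥, rfl⟩
  obtain ⟨G, hG⟩ := Nat.sSup_mem hne (g_bdd n k)
  obtain ⟨X, hX, hXc⟩ := exists_gam k G
  obtain ⟨Y, hY, hYc⟩ := exists_gam k Gᶜ
  exact ⟨G, X, Y, hX, hY, by rw [hXc, hYc]; exact hG⟩

/-- The empty graph gives `n ≤ g(n,k)`. -/
theorem n_le_g (n k : ℕ) (hn : 1 ≤ n) : n ≤ g n k := by
  have hX : KMinimal (⊥ : SimpleGraph (Fin n)) k Finset.univ := by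
    refine ⟨dominating_univ _, ?_⟩
    intro U R hU h1 h2 h3 hdom
    have h4 : ((Finset.univ \ U) ∪ R) = Finset.univ := by
      rw [Finset.eq_univ_iff_forall]
      intro v
      by_contra hv
      obtain ⟨x, _, hx⟩ := hdom v hv
      simp at hx
    have h5 : ((Finset.univ \ U) ∪ R).card ≤ (Finset.univ \ U).card + R.card :=
      Finset.card_union_le _ _
    have h6 : (Finset.univ \ U).card = (Finset.univ : Finset (Fin n)).card - U.card :=
      Finset.card_sdiff_of_subset hU
    have h7 := Finset.card_le_card hU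
    rw [h4] at h5
    omega
  have hY : KMinimal (⊥ : SimpleGraph (Fin n))ᶜ k {⟨0, hn⟩} := by
    refine ⟨?_, ?_⟩
    · intro v hv
      refine ⟨_, Finset.mem_singleton_self _, ?_⟩
      rw [SimpleGraph.compl_adj]
      exact ⟨fun h => hv (by rw [h]; exact Finset.mem_singleton_self _), by simp⟩
    · intro U R hU h1 h2 h3 hdom
      have h4 := Finset.card_le_card hU
      rw [Finset.card_singleton] at h4
      have h5 : U = {⟨0, hn⟩} := by
        apply Finset.eq_of_subset_of_card_le hU
        rw [Finset.card_singleton]; exact h1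
      have h6 : R = ∅ := by
        rw [← Finset.card_eq_zero]; omega
      rw [h5, h6] at hdom
      obtain ⟨x, hx, _⟩ := hdom ⟨0, hn⟩ (by simp)
      simp at hx
  have := le_g hX hY
  simpa using this

/-- Few uncovered vertices force a small `k`-minimal set. -/
theorem card_le_uncovered {G : SimpleGraph V} {k : ℕ} {X : Finset V} (hX : KMinimal G k X)
    (R Z : Finset V) (hR : R.card + 1 ≤ k) (hZ : ∀ v, v ∉ Z → ∃ r ∈ R, Dom G r v) :
    X.card ≤ R.card + Z.card := by
  classical
  by_contra hcon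
  push Not at hcon
  have hdom := dominating_iff.1 hX.1
  choose a ha1 ha2 using hdom
  set S : Finset V := Z.image a with hS
  have hScard : S.card ≤ Z.card := Finset.card_image_le
  have h1 : R.card + 1 ≤ (X \ S).card := by
    have := Finset.le_card_sdiff S X
    omega
  obtain ⟨U, hU1, hU2⟩ := Finset.exists_subset_card_eq h1
  refine hX.2 U R (hU1.trans Finset.sdiff_subset) (by omega) (by omega) (by omega) ?_
  rw [dominating_iff]
  intro v
  by_cases hv : v ∈ Z
  · refine ⟨a v, ?_, ha2 v⟩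
    rw [Finset.mem_union, Finset.mem_sdiff]
    left
    refine ⟨ha1 v, fun h => ?_⟩
    have := hU1 h
    rw [Finset.mem_sdiff] at this
    exact this.2 (Finset.mem_image_of_mem a hv)
  · obtain ⟨r, hr, hrv⟩ := hZ v hv
    exact ⟨r, Finset.mem_union_right _ hr, hrv⟩

/-- A dominating set with fewer than `k` elements is at least as large as any `k`-minimal set. -/
theorem card_le_of_dominating {G : SimpleGraph V} {k : ℕ} {X D : Finset V} (hX : KMinimal G k X)
    (hD : Dominating G D) (hk : D.card + 1 ≤ k) : X.card ≤ D.card := by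
  have := card_le_uncovered hX D ∅ hk (fun v _ => dominating_iff.1 hD v)
  simpa using this

end Pool.Agent.Helper679.NG
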