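import Pool.Agent.Helper679.NG1

set_option autoImplicit false
set_option linter.unusedSectionVars false

namespace Pool.Agent.Helper679.NG

variable {V : Type} [Fintype V] [DecidableEq V]

/-- Bollobás-Cockayne-Mynhardt: a `2`-minimal set `X` of `G` and a dominating set `D` of the
complement with `|D| |X| ≤ n`. -/
theorem exists_small_compl_dominating {G : SimpleGraph V} {X : Finset V} (hX : KMinimal G 2 X)
    (hne : X.Nonempty) : ∃ D, Dominating Gᶜ D ∧ D.card * X.card ≤ Fintype.card V := by
  classical
  set A : Finset (V → V) := Finset.univ.filter (fun a =>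
    (∀ v, a v ∈ X ∧ Dom G (a v) v) ∧ ∀ x ∈ X, a x = x) with hA
  have hAne : A.Nonempty := by
    have hdom := dominating_iff.1 hX.1
    choose a ha1 ha2 using hdom
    refine ⟨fun v => if v ∈ X then v else a v, ?_⟩
    rw [hA, Finset.mem_filter]
    refine ⟨Finset.mem_univ _, ?_, ?_⟩
    · intro v
      by_cases hv : v ∈ X
      · simp only [hv, if_true]
        exact ⟨trivial, Or.inl rfl⟩
      · simp only [hv, if_false]
        exact ⟨ha1 v, ha2 v⟩
    · intro x hx
      simp [hx]
  set F : (V → V) → Finset V := fun a => Finset.univ.filter (fun v =>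
    ∀ w, a w = a v → Dom G v w) with hF
  obtain ⟨a, haA, hmax⟩ := Finset.exists_max_image A (fun a => (F a).card) hAne
  have haA' : (∀ v, a v ∈ X ∧ Dom G (a v) v) ∧ ∀ x ∈ X, a x = x := by
    rw [hA, Finset.mem_filter] at haA; exact haA.2
  obtain ⟨ha1, ha2⟩ := haA'
  -- every block dominates the complement
  have hblock : ∀ j ∈ X, Dominating Gᶜ (Finset.univ.filter (fun v => a v = j)) := by
    intro j hj
    rw [dominating_iff]
    by_contra hcon
    push Not at hcon
    obtain ⟨x, hx⟩ := hcon
    have hx' : ∀ w, a w = j → G.Adj w x := by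
      intro w hw
      exact not_dom_compl (hx w (by simp [hw]))
    have hxj : a x ≠ j := by
      intro h
      exact (hx' x h).ne rfl
    by_cases hux : ∀ w, a w = a x → Dom G x w
    · -- contradiction with 2-minimality
      refine hX.2 {a x, j} {x} ?_ ?_ ?_ ?_ ?_
      · intro y hy
        rw [Finset.mem_insert, Finset.mem_singleton] at hy
        rcases hy with rfl | rfl
        · exact (ha1 x).1
        · exact hj
      · rw [Finset.card_pair hxj]; norm_num
      · rw [Finset.card_pair hxj]
      · rw [Finset.card_pair hxj, Finset.card_singleton]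
      · rw [dominating_iff]
        intro w
        by_cases hw1 : a w = a x
        · exact ⟨x, Finset.mem_union_right _ (Finset.mem_singleton_self x), hux w hw1⟩
        by_cases hw2 : a w = j
        · exact ⟨x, Finset.mem_union_right _ (Finset.mem_singleton_self x),
            Or.inr (hx' w hw2).symm⟩
        · refine ⟨a w, Finset.mem_union_left _ ?_, (ha1 w).2⟩
          rw [Finset.mem_sdiff]
          refine ⟨(ha1 w).1, ?_⟩
          rw [Finset.mem_insert, Finset.mem_singleton]
          push Not
          exact ⟨hw1, hw2⟩
    · -- contradiction with maximality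
      have hxX : x ∉ X := by
        intro hxX
        apply hux
        intro w hw
        have h1 := ha2 x hxX
        have h2 := (ha1 w).2
        rw [hw, h1] at h2
        exact h2
      set a' : V → V := Function.update a x j with ha'
      have ha'A : a' ∈ A := by
        rw [hA, Finset.mem_filter]
        refine ⟨Finset.mem_univ _, ?_, ?_⟩
        · intro v
          by_cases hv : v = x
          · rw [hv, ha', Function.update_self]
            exact ⟨hj, Or.inr (hx' j (ha2 j hj))⟩
          · rw [ha', Function.update_of_ne hv]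
            exact ha1 v
        · intro y hy
          have hyx : y ≠ x := fun h => hxX (h ▸ hy)
          rw [ha', Function.update_of_ne hyx]
          exact ha2 y hy
      have hlt : (F a).card < (F a').card := by
        apply Finset.card_lt_card
        rw [Finset.ssubset_iff_of_subset]
        · refine ⟨x, ?_, ?_⟩
          · rw [hF]
            simp only [Finset.mem_filter, Finset.mem_univ, true_and]
            intro w hw
            rw [ha', Function.update_self] at hw
            by_cases hwx : w = x
            · exact Or.inl hwx.symm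
            · rw [Function.update_of_ne hwx] at hw
              exact Or.inr (hx' w hw).symm
          · rw [hF]
            simp only [Finset.mem_filter, Finset.mem_univ, true_and]
            exact hux
        · intro v hv
          rw [hF] at hv ⊢
          simp only [Finset.mem_filter, Finset.mem_univ, true_and] at hv ⊢
          intro w hw
          by_cases hvx : v = x
          · exact absurd (hvx ▸ hv) hux
          rw [ha', Function.update_of_ne hvx] at hw
          by_cases hwx : w = x
          · rw [hwx, Function.update_self] at hw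
            rw [hwx]
            exact Or.inr (hx' v hw.symm)
          · rw [Function.update_of_ne hwx] at hw
            exact hv w hw
      exact absurd (hmax a' ha'A) (not_le.2 hlt)
  -- choose the smallest block
  obtain ⟨j, hj, hjmin⟩ := Finset.exists_min_image X
    (fun j => (Finset.univ.filter (fun v => a v = j)).card) hne
  refine ⟨Finset.univ.filter (fun v => a v = j), hblock j hj, ?_⟩
  have hsum : ∑ i ∈ X, (Finset.univ.filter (fun v => a v = i)).card = Fintype.card V := by
    rw [← Finset.card_univ (α := V)]
    exact (Finset.card_eq_sum_card_fiberwise (f := a) (s := Finset.univ) (t := X)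
      (fun v _ => (ha1 v).1)).symm
  rw [← hsum, mul_comm, ← smul_eq_mul]
  exact Finset.card_nsmul_le_sum X _ _ hjmin

/-- Two-sided halving. -/
theorem halving (G : SimpleGraph V) (t : ℕ) (lam : ℝ) (h0 : 0 < lam) (h1 : lam < 1) :
    (∃ R Z : Finset V, R.card ≤ t ∧ (∀ v, v ∉ Z → ∃ r ∈ R, Dom G r v) ∧
      (Z.card : ℝ) ≤ lam ^ t * Fintype.card V) ∨
    (∃ R Z : Finset V, R.card ≤ t ∧ (∀ v, v ∉ Z → ∃ r ∈ R, Dom Gᶜ r v) ∧
      (Z.card : ℝ) ≤ (1 - lam) ^ t * Fintype.card V) := by
  classical
  rcases isEmpty_or_nonempty V with hV | hV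
  · left
    exact ⟨∅, ∅, by simp, fun v => (IsEmpty.false v).elim, by simp⟩
  set D : Prop := (∃ R Z : Finset V, R.card ≤ t ∧ (∀ v, v ∉ Z → ∃ r ∈ R, Dom G r v) ∧
      (Z.card : ℝ) ≤ lam ^ t * Fintype.card V) ∨
    (∃ R Z : Finset V, R.card ≤ t ∧ (∀ v, v ∉ Z → ∃ r ∈ R, Dom Gᶜ r v) ∧
      (Z.card : ℝ) ≤ (1 - lam) ^ t * Fintype.card V) with hD
  have key : ∀ N : ℕ, D ∨ ∃ i j : ℕ, i + j = N ∧ i ≤ t ∧ j ≤ t ∧
      (∃ R Z : Finset V, R.card ≤ i ∧ (∀ v, v ∉ Z → ∃ r ∈ R, Dom G r v) ∧
        (Z.card : ℝ) ≤ lam ^ i * Fintype.card V) ∧
      (∃ R Z : Finset V, R.card ≤ j ∧ (∀ v, v ∉ Z → ∃ r ∈ R, Dom Gᶜ r v) ∧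
        (Z.card : ℝ) ≤ (1 - lam) ^ j * Fintype.card V) := by
    intro N
    induction N with
    | zero =>
      right
      refine ⟨0, 0, rfl, Nat.zero_le _, Nat.zero_le _, ⟨∅, Finset.univ, by simp, ?_, ?_⟩,
        ⟨∅, Finset.univ, by simp, ?_, ?_⟩⟩
      · intro v hv; exact absurd (Finset.mem_univ v) hv
      · simp
      · intro v hv; exact absurd (Finset.mem_univ v) hv
      · simp
    | succ N ih =>
      rcases ih with ih | ⟨i, j, hij, hi, hj, ⟨R, Z, hR, hRZ, hZ⟩, ⟨S, W, hS, hSW, hW⟩⟩
      · exact Or.inl ih
      rcases eq_or_lt_of_le hi with hi | hi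
      · left; left
        exact ⟨R, Z, by omega, hRZ, by rw [← hi]; exact hZ⟩
      rcases eq_or_lt_of_le hj with hj | hj
      · left; right
        exact ⟨S, W, by omega, hSW, by rw [← hj]; exact hW⟩
      right
      -- the step
      have hstep : (∃ q, (1 - lam) * Z.card ≤ ((Z.filter (fun p => Dom G q p)).card : ℝ)) ∨
          (∃ p, lam * W.card ≤ ((W.filter (fun q => Dom Gᶜ p q)).card : ℝ)) := by
        by_cases hZe : Z = ∅
        · left
          obtain ⟨v⟩ := hV
          exact ⟨v, by simp [hZe]⟩
        by_cases hWe : W = ∅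
        · right
          obtain ⟨v, _⟩ := Finset.nonempty_iff_ne_empty.2 hZe
          exact ⟨v, by simp [hWe]⟩
        by_contra hcon
        push Not at hcon
        obtain ⟨hc1, hc2⟩ := hcon
        have hsum : (Z.card * W.card : ℝ) ≤
            ∑ q ∈ W, ((Z.filter (fun p => Dom G q p)).card : ℝ) +
            ∑ p ∈ Z, ((W.filter (fun q => Dom Gᶜ p q)).card : ℝ) := by
          have e1 : ∑ q ∈ W, ((Z.filter (fun p => Dom G q p)).card : ℝ) =
              ∑ p ∈ Z, ∑ q ∈ W, (if Dom G q p then (1 : ℝ) else 0) := by
            rw [Finset.sum_comm]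
            apply Finset.sum_congr rfl
            intro q _
            rw [Finset.card_filter]
            push_cast
            rfl
          have e2 : ∑ p ∈ Z, ((W.filter (fun q => Dom Gᶜ p q)).card : ℝ) =
              ∑ p ∈ Z, ∑ q ∈ W, (if Dom Gᶜ p q then (1 : ℝ) else 0) := by
            apply Finset.sum_congr rfl
            intro q _
            rw [Finset.card_filter]
            push_cast
            rfl
          rw [e1, e2, ← Finset.sum_add_distrib]
          have e3 : (Z.card * W.card : ℝ) = ∑ p ∈ Z, ∑ q ∈ W, (1 : ℝ) := by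
            simp
          rw [e3]
          apply Finset.sum_le_sum
          intro p _
          rw [← Finset.sum_add_distrib]
          apply Finset.sum_le_sum
          intro q _
          rcases dom_or_compl G p q with h | h
          · rw [if_pos h.symm]
            split_ifs <;> norm_num
          · rw [if_pos h]
            split_ifs <;> norm_num
        have hZpos : 0 < (Z.card : ℝ) := by
          exact_mod_cast Finset.card_pos.2 (Finset.nonempty_iff_ne_empty.2 hZe)
        have hWpos : 0 < (W.card : ℝ) := by
          exact_mod_cast Finset.card_pos.2 (Finset.nonempty_iff_ne_empty.2 hWe)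
        have b1 : ∑ q ∈ W, ((Z.filter (fun p => Dom G q p)).card : ℝ) <
            ∑ q ∈ W, (1 - lam) * Z.card :=
          Finset.sum_lt_sum_of_nonempty (Finset.nonempty_iff_ne_empty.2 hWe)
            (fun q _ => hc1 q)
        have b2 : ∑ p ∈ Z, ((W.filter (fun q => Dom Gᶜ p q)).card : ℝ) <
            ∑ p ∈ Z, lam * W.card :=
          Finset.sum_lt_sum_of_nonempty (Finset.nonempty_iff_ne_empty.2 hZe)
            (fun q _ => hc2 q)
        rw [Finset.sum_const, nsmul_eq_mul] at b1 b2
        nlinarith
      rcases hstep with ⟨q, hq⟩ | ⟨p, hp⟩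
      · refine ⟨i + 1, j, by omega, hi, hj.le, ⟨insert q R, Z.filter (fun p => ¬ Dom G q p), ?_,
          ?_, ?_⟩, ⟨S, W, hS, hSW, hW⟩⟩
        · exact (Finset.card_insert_le _ _).trans (by omega)
        · intro v hv
          by_cases hvZ : v ∈ Z
          · rw [Finset.mem_filter] at hv
            push Not at hv
            exact ⟨q, Finset.mem_insert_self _ _, hv hvZ⟩
          · obtain ⟨r, hr, hrv⟩ := hRZ v hvZ
            exact ⟨r, Finset.mem_insert_of_mem hr, hrv⟩
        · have h2 := Finset.card_filter_add_card_filter_not (s := Z) (fun p => Dom G q p)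
          have h3 : ((Z.filter (fun p => Dom G q p)).card : ℝ) +
              ((Z.filter (fun p => ¬ Dom G q p)).card : ℝ) = Z.card := by
            exact_mod_cast h2
          have h4 : ((Z.filter (fun p => ¬ Dom G q p)).card : ℝ) ≤ lam * Z.card := by linarith
          calc ((Z.filter (fun p => ¬ Dom G q p)).card : ℝ) ≤ lam * Z.card := h4
            _ ≤ lam * (lam ^ i * Fintype.card V) := by
              apply mul_le_mul_of_nonneg_left hZ h0.le
            _ = lam ^ (i + 1) * Fintype.card V := by ring
      · refine ⟨i, j + 1, by omega, hi.le, hj, ⟨R, Z, hR, hRZ, hZ⟩,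
          ⟨insert p S, W.filter (fun q => ¬ Dom Gᶜ p q), ?_, ?_, ?_⟩⟩
        · exact (Finset.card_insert_le _ _).trans (by omega)
        · intro v hv
          by_cases hvZ : v ∈ W
          · rw [Finset.mem_filter] at hv
            push Not at hv
            exact ⟨p, Finset.mem_insert_self _ _, hv hvZ⟩
          · obtain ⟨r, hr, hrv⟩ := hSW v hvZ
            exact ⟨r, Finset.mem_insert_of_mem hr, hrv⟩
        · have h2 := Finset.card_filter_add_card_filter_not (s := W) (fun q => Dom Gᶜ p q)
          have h3 : ((W.filter (fun q => Dom Gᶜ p q)).card : ℝ) +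
              ((W.filter (fun q => ¬ Dom Gᶜ p q)).card : ℝ) = W.card := by
            exact_mod_cast h2
          have h4 : ((W.filter (fun q => ¬ Dom Gᶜ p q)).card : ℝ) ≤ (1 - lam) * W.card := by
            linarith
          calc ((W.filter (fun q => ¬ Dom Gᶜ p q)).card : ℝ) ≤ (1 - lam) * W.card := h4
            _ ≤ (1 - lam) * ((1 - lam) ^ j * Fintype.card V) := by
              apply mul_le_mul_of_nonneg_left hW (by linarith)
            _ = (1 - lam) ^ (j + 1) * Fintype.card V := by ring
  rcases key (t + t) with h | ⟨i, j, hij, hi, hj, h1', h2'⟩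
  · exact h
  · have : i = t := by omega
    subst this
    left
    exact h1'

end Pool.Agent.Helper679.NG
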