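import Pool.Agent.Helper679.NG2

set_option autoImplicit false
set_option linter.unusedSectionVars false

namespace Pool.Agent.Helper679.NG

variable {V : Type} [Fintype V] [DecidableEq V]

theorem two_sided {G : SimpleGraph V} {t : ℕ} {X Y : Finset V} (hX : KMinimal G (t + 1) X)
    (hY : KMinimal Gᶜ (t + 1) Y) (lam : ℝ) (h0 : 0 < lam) (h1 : lam < 1) :
    (X.card : ℝ) - t ≤ lam ^ t * Fintype.card V ∨
    (Y.card : ℝ) - t ≤ (1 - lam) ^ t * Fintype.card V := by
  rcases halving G t lam h0 h1 with ⟨R, Z, hR, hZ, hc⟩ | ⟨R, Z, hR, hZ, hc⟩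
  · left
    have := card_le_uncovered hX R Z (by omega) hZ
    have h2 : X.card ≤ t + Z.card := by omega
    have h3 : (X.card : ℝ) ≤ t + Z.card := by exact_mod_cast h2
    linarith
  · right
    have := card_le_uncovered hY R Z (by omega) hZ
    have h2 : Y.card ≤ t + Z.card := by omega
    have h3 : (Y.card : ℝ) ≤ t + Z.card := by exact_mod_cast h2
    linarith

theorem key_bound {G : SimpleGraph V} {k : ℕ} (hk : 2 ≤ k) {X Y : Finset V}
    (hX : KMinimal G k X) (hY : KMinimal Gᶜ k Y) (hlt : Fintype.card V < X.card * Y.card) :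
    k ≤ X.card ∧ k ≤ Y.card ∧ k * X.card ≤ Fintype.card V ∧ k * Y.card ≤ Fintype.card V := by
  have hXne : X.Nonempty := by
    rw [Finset.nonempty_iff_ne_empty]
    rintro rfl
    simp at hlt
  have hYne : Y.Nonempty := by
    rw [Finset.nonempty_iff_ne_empty]
    rintro rfl
    simp at hlt
  obtain ⟨D, hD, hDc⟩ := exists_small_compl_dominating (hX.mono hk) hXne
  obtain ⟨E, hE, hEc⟩ := exists_small_compl_dominating (hY.mono hk) hYne
  rw [compl_compl] at hE
  have hEk : k ≤ E.card := by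
    by_contra hcon
    push Not at hcon
    have h1 := card_le_of_dominating hX hE (by omega)
    have h2 : X.card * Y.card ≤ E.card * Y.card := Nat.mul_le_mul_right _ h1
    omega
  have hDk : k ≤ D.card := by
    by_contra hcon
    push Not at hcon
    have h1 := card_le_of_dominating hY hD (by omega)
    have h2 : X.card * Y.card ≤ D.card * X.card := by
      rw [mul_comm]; exact Nat.mul_le_mul_right _ h1
    omega
  refine ⟨?_, ?_, (Nat.mul_le_mul_right _ hDk).trans hDc, (Nat.mul_le_mul_right _ hEk).trans hEc⟩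
  · by_contra hcon
    push Not at hcon
    have h2 : X.card * Y.card ≤ E.card * Y.card := Nat.mul_le_mul_right _ (by omega)
    omega
  · by_contra hcon
    push Not at hcon
    have h2 : X.card * Y.card ≤ D.card * X.card := by
      rw [mul_comm]; exact Nat.mul_le_mul_right _ (by omega)
    omega

theorem root_bound {a b n : ℝ} {t : ℕ} (ht : 1 ≤ t) (ha : 0 < a) (hb : 0 < b) (hn : 0 < n)
    (han : a ≤ n) (hbn : b ≤ n)
    (h : ∀ lam : ℝ, 0 < lam → lam < 1 → a ≤ lam ^ t * n ∨ b ≤ (1 - lam) ^ t * n) :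
    a * b ≤ n ^ 2 / 4 ^ t := by
  by_contra hcon
  push Not at hcon
  have ht0 : t ≠ 0 := by omega
  set α : ℝ := (a / n) ^ ((t : ℝ)⁻¹) with hα
  set β : ℝ := (b / n) ^ ((t : ℝ)⁻¹) with hβ
  have hαt : α ^ t = a / n := Real.rpow_inv_natCast_pow (by positivity) ht0
  have hβt : β ^ t = b / n := Real.rpow_inv_natCast_pow (by positivity) ht0
  have hα0 : 0 < α := by rw [hα]; positivity
  have hβ0 : 0 < β := by rw [hβ]; positivity
  have hα1 : α ≤ 1 := by
    by_contra hc
    push Not at hc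
    have : 1 < α ^ t := one_lt_pow₀ hc ht0
    rw [hαt, lt_div_iff₀ hn] at this
    linarith
  have hβ1 : β ≤ 1 := by
    by_contra hc
    push Not at hc
    have : 1 < β ^ t := one_lt_pow₀ hc ht0
    rw [hβt, lt_div_iff₀ hn] at this
    linarith
  have hαβ : 1 / 4 < α * β := by
    by_contra hc
    push Not at hc
    have h1 : (α * β) ^ t ≤ (1 / 4) ^ t := pow_le_pow_left₀ (by positivity) hc t
    rw [mul_pow, hαt, hβt] at h1
    have h2 : a / n * (b / n) = a * b / n ^ 2 := by field_simp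
    rw [h2, div_le_iff₀ (by positivity)] at h1
    have h3 : ((1 : ℝ) / 4) ^ t * n ^ 2 = n ^ 2 / 4 ^ t := by
      rw [div_pow, one_pow]; ring
    rw [h3] at h1
    linarith
  have hsum : 1 < α + β := by
    by_contra hc
    push Not at hc
    nlinarith [sq_nonneg (α - β)]
  have hlam0 : 0 < (α + (1 - β)) / 2 := by linarith
  have hlam1 : (α + (1 - β)) / 2 < 1 := by linarith
  rcases h _ hlam0 hlam1 with h' | h'
  · have h1 : ((α + (1 - β)) / 2) ^ t < α ^ t :=
      pow_lt_pow_left₀ (by linarith) hlam0.le ht0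
    rw [hαt, lt_div_iff₀ hn] at h1
    linarith
  · have h1 : (1 - (α + (1 - β)) / 2) ^ t < β ^ t :=
      pow_lt_pow_left₀ (by linarith) (by linarith) ht0
    rw [hβt, lt_div_iff₀ hn] at h1
    linarith

theorem product_bound {G : SimpleGraph V} {t : ℕ} (ht : 1 ≤ t) {X Y : Finset V}
    (hX : KMinimal G (t + 1) X) (hY : KMinimal Gᶜ (t + 1) Y)
    (hlt : Fintype.card V < X.card * Y.card) :
    ((X.card : ℝ) - t) * ((Y.card : ℝ) - t) ≤ (Fintype.card V : ℝ) ^ 2 / 4 ^ t := by
  obtain ⟨h1, h2, h3, h4⟩ := key_bound (by omega) hX hY hlt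
  have hn : 0 < Fintype.card V := by
    have := Finset.card_le_univ X
    omega
  have hn' : (0 : ℝ) < Fintype.card V := by exact_mod_cast hn
  have hXn : (X.card : ℝ) ≤ Fintype.card V := by exact_mod_cast Finset.card_le_univ X
  have hYn : (Y.card : ℝ) ≤ Fintype.card V := by exact_mod_cast Finset.card_le_univ Y
  have hX1 : (t : ℝ) + 1 ≤ X.card := by exact_mod_cast h1
  have hY1 : (t : ℝ) + 1 ≤ Y.card := by exact_mod_cast h2
  have ht' : (0 : ℝ) ≤ t := Nat.cast_nonneg t
  exact root_bound ht (by linarith) (by linarith) hn' (by linarith) (by linarith)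
    (fun lam hl0 hl1 => two_sided hX hY lam hl0 hl1)

theorem upper {G : SimpleGraph V} {t : ℕ} (ht : 1 ≤ t) {X Y : Finset V}
    (hX : KMinimal G (t + 1) X) (hY : KMinimal Gᶜ (t + 1) Y) :
    ((X.card * Y.card : ℕ) : ℝ) ≤ (Fintype.card V : ℝ) ^ 2 / 4 ^ t + 2 * Fintype.card V := by
  by_cases hlt : Fintype.card V < X.card * Y.card
  · obtain ⟨h1, h2, h3, h4⟩ := key_bound (by omega) hX hY hlt
    have hp := product_bound ht hX hY hlt
    have h3' : ((t : ℝ) + 1) * X.card ≤ Fintype.card V := by exact_mod_cast h3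
    have h4' : ((t : ℝ) + 1) * Y.card ≤ Fintype.card V := by exact_mod_cast h4
    push_cast
    have hX0 : (0 : ℝ) ≤ X.card := Nat.cast_nonneg _
    have hY0 : (0 : ℝ) ≤ Y.card := Nat.cast_nonneg _
    nlinarith [sq_nonneg (t : ℝ)]
  · push Not at hlt
    have h1 : ((X.card * Y.card : ℕ) : ℝ) ≤ Fintype.card V := by exact_mod_cast hlt
    have h2 : (0 : ℝ) ≤ (Fintype.card V : ℝ) ^ 2 / 4 ^ t := by positivity
    have h3 : (0 : ℝ) ≤ Fintype.card V := Nat.cast_nonneg _
    linarith

theorem small_n {G : SimpleGraph V} {t : ℕ} (ht : 1 ≤ t) {X Y : Finset V}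
    (hX : KMinimal G (t + 1) X) (hY : KMinimal Gᶜ (t + 1) Y) (hn : Fintype.card V < 2 ^ t) :
    X.card * Y.card ≤ Fintype.card V := by
  by_contra hlt
  push Not at hlt
  obtain ⟨h1, h2, h3, h4⟩ := key_bound (by omega) hX hY hlt
  have hX1 : (t : ℝ) + 1 ≤ X.card := by exact_mod_cast h1
  have hY1 : (t : ℝ) + 1 ≤ Y.card := by exact_mod_cast h2
  have hn' : (Fintype.card V : ℝ) < 2 ^ t := by exact_mod_cast hn
  have h5 : ((1 : ℝ) / 2) ^ t * Fintype.card V < 1 := by
    rw [div_pow, one_pow, div_mul_eq_mul_div, one_mul, div_lt_one (by positivity)]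
    exact hn'
  rcases two_sided hX hY (1 / 2) (by norm_num) (by norm_num) with h | h
  · linarith
  · norm_num at h h5
    linarith

theorem small_sq {G : SimpleGraph V} {k : ℕ} (hk : 2 ≤ k) {X Y : Finset V}
    (hX : KMinimal G k X) (hY : KMinimal Gᶜ k Y) (hn : Fintype.card V ≤ k ^ 2) :
    X.card * Y.card ≤ Fintype.card V := by
  by_contra hlt
  push Not at hlt
  obtain ⟨h1, h2, h3, h4⟩ := key_bound hk hX hY hlt
  have h5 : (k * X.card) * (k * Y.card) ≤ Fintype.card V * Fintype.card V :=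
    Nat.mul_le_mul h3 h4
  have h6 : Fintype.card V * Fintype.card V ≤ k ^ 2 * Fintype.card V := Nat.mul_le_mul_right _ hn
  have h7 : (k * X.card) * (k * Y.card) = k ^ 2 * (X.card * Y.card) := by ring
  have h8 : k ^ 2 * (X.card * Y.card) ≤ k ^ 2 * Fintype.card V := by
    rw [← h7]; exact h5.trans h6
  have h9 := Nat.le_of_mul_le_mul_left h8 (by positivity)
  omega

theorem three_quarters (t : ℕ) (ht : 18 ≤ t) : ((3 : ℝ) / 4) ^ t * (8 * t) ≤ 1 := by
  induction t, ht using Nat.le_induction with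
  | base => norm_num
  | succ t ht ih =>
    have ht' : (18 : ℝ) ≤ t := by exact_mod_cast ht
    have h1 : (0 : ℝ) ≤ (3 / 4) ^ t := by positivity
    push_cast
    rw [pow_succ]
    nlinarith

theorem four_sq (t : ℕ) (ht : 18 ≤ t) : 4 * t ^ 2 < 2 ^ t := by
  induction t, ht using Nat.le_induction with
  | base => norm_num
  | succ t ht ih =>
    have h2 : 2 ^ (t + 1) = 2 * 2 ^ t := by ring
    rw [h2]
    nlinarith

theorem small_n' {G : SimpleGraph V} {t : ℕ} (ht : 18 ≤ t) {X Y : Finset V}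
    (hX : KMinimal G (t + 1) X) (hY : KMinimal Gᶜ (t + 1) Y)
    (hn : 2 * Fintype.card V ≤ 4 ^ t) :
    X.card * Y.card ≤ Fintype.card V := by
  by_contra hlt
  push Not at hlt
  by_cases hsm : Fintype.card V < 2 ^ t
  · exact absurd (small_n (by omega) hX hY hsm) (not_le.2 hlt)
  push Not at hsm
  have h8 := four_sq t ht
  have h8' : (4 : ℝ) * t ^ 2 < Fintype.card V := by exact_mod_cast lt_of_lt_of_le h8 hsm
  obtain ⟨h1, h2, h3, h4⟩ := key_bound (by omega) hX hY hlt
  have hp := product_bound (by omega) hX hY hlt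
  have hX1 : (t : ℝ) + 1 ≤ X.card := by exact_mod_cast h1
  have hY1 : (t : ℝ) + 1 ≤ Y.card := by exact_mod_cast h2
  have hn' : (2 : ℝ) * Fintype.card V ≤ 4 ^ t := by exact_mod_cast hn
  have hlt' : (Fintype.card V : ℝ) < X.card * Y.card := by exact_mod_cast hlt
  set n : ℝ := ((Fintype.card V : ℕ) : ℝ) with hnn
  have ht' : (18 : ℝ) ≤ t := by exact_mod_cast ht
  have hn0 : 0 < n := by nlinarith
  have h5 : n ^ 2 / 4 ^ t ≤ n / 2 := by
    rw [div_le_div_iff₀ (by positivity) (by norm_num)]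
    nlinarith
  have h34 := three_quarters t ht
  have h14 : ((1 : ℝ) / 4) ^ t * n < 1 := by
    rw [div_pow, one_pow, div_mul_eq_mul_div, one_mul, div_lt_one (by positivity)]
    linarith
  have h34' : ((3 : ℝ) / 4) ^ t * n * (8 * t) ≤ n := by nlinarith
  have hX2 : t * ((X.card : ℝ) - t) ≤ n / 8 := by
    rcases two_sided hX hY (3 / 4) (by norm_num) (by norm_num) with h | h
    · rw [← hnn] at h
      nlinarith
    · rw [← hnn] at h
      have e : (1 : ℝ) - 3 / 4 = 1 / 4 := by norm_num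
      rw [e] at h
      linarith
  have hY2 : t * ((Y.card : ℝ) - t) ≤ n / 8 := by
    rcases two_sided hX hY (1 / 4) (by norm_num) (by norm_num) with h | h
    · rw [← hnn] at h
      linarith
    · rw [← hnn] at h
      have e : (1 : ℝ) - 1 / 4 = 3 / 4 := by norm_num
      rw [e] at h
      nlinarith
  nlinarith

end Pool.Agent.Helper679.NG
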