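import Pool.Agent.Helper679.NG3

set_option autoImplicit false
set_option linter.unusedSectionVars false

namespace Pool.Agent.Helper679.NG

variable {V : Type} [Fintype V] [DecidableEq V]

/-- One side of the construction. -/
theorem lowerX {m s t : ℕ} (G : SimpleGraph V) (side : V → Bool) (b0 : Bool) (blk : V → Fin m)
    (typ : V → Fin s) (M : Fin s → Fin s → Bool)
    (h1 : ∀ u v, u ≠ v → side u = b0 → side v = b0 → (G.Adj u v ↔ blk u = blk v))
    (h2 : ∀ u v, side u = b0 → side v ≠ b0 → (G.Adj u v ↔ M (typ u) (typ v) = true))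
    (hs : ∀ i r, ∃ v, side v = b0 ∧ blk v = i ∧ typ v = r)
    (hM0 : ∀ C : Finset (Fin s), C.card ≤ t → ∃ r, ∀ c ∈ C, M r c = false)
    (hM1 : ∀ c, ∃ r, M r c = true) (hms : s ≤ m) (hs0 : 0 < s) :
    ∃ X : Finset V, KMinimal G (t + 1) X ∧ X.card = m := by
  classical
  choose e he1 he2 he3 using hs
  -- a surjection from blocks onto types
  obtain ⟨τ, hτ⟩ : ∃ τ : Fin m → Fin s, Function.Surjective τ := by
    have hem : Nonempty (Fin s ↪ Fin m) := ⟨Fin.castLEEmb hms⟩
    obtain ⟨f⟩ := hem
    have : Nonempty (Fin s) := ⟨⟨0, hs0⟩⟩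
    exact ⟨Function.invFun f, Function.invFun_surjective f.injective⟩
  set x : Fin m → V := fun i => e i (τ i) with hx
  have hxinj : Function.Injective x := by
    intro i j hij
    have := congrArg blk hij
    rw [hx] at this
    simp only [he2] at this
    exact this
  set X : Finset V := Finset.univ.image x with hX
  have hmemX : ∀ v, v ∈ X ↔ ∃ i, x i = v := by
    intro v; rw [hX]; simp
  refine ⟨X, ⟨?_, ?_⟩, ?_⟩
  · -- domination
    intro v hv
    by_cases hvs : side v = b0
    · refine ⟨x (blk v), (hmemX _).2 ⟨_, rfl⟩, ?_⟩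
      rw [h1 v (x (blk v)) ?_ hvs (he1 _ _)]
      · rw [hx]; simp only [he2]
      · intro h
        exact hv ((hmemX _).2 ⟨_, h.symm⟩)
    · obtain ⟨r, hr⟩ := hM1 (typ v)
      obtain ⟨i, hi⟩ := hτ r
      refine ⟨x i, (hmemX _).2 ⟨_, rfl⟩, ?_⟩
      have : G.Adj (x i) v := by
        rw [h2 (x i) v (he1 _ _) hvs]
        rw [hx]; simp only [he3, hi, hr]
      exact this.symm
  · -- k-minimality
    intro U R hU hU1 hUk hRU hdom
    have hblkU : (U.image blk).card = U.card := by
      apply Finset.card_image_of_injOn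
      intro u hu v hv huv
      obtain ⟨i, rfl⟩ := (hmemX _).1 (hU hu)
      obtain ⟨j, rfl⟩ := (hmemX _).1 (hU hv)
      rw [hx] at huv
      simp only [he2] at huv
      rw [huv]
    have hlt : ((R.filter (fun v => side v = b0)).image blk).card < (U.image blk).card := by
      rw [hblkU]
      have a1 : ((R.filter (fun v => side v = b0)).image blk).card ≤
        (R.filter (fun v => side v = b0)).card := Finset.card_image_le
      have a2 := Finset.card_filter_le R (fun v => side v = b0)
      omega
    obtain ⟨i, hiU, hiR⟩ := Finset.exists_mem_notMem_of_card_lt_card hlt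
    have hxiU : x i ∈ U := by
      rw [Finset.mem_image] at hiU
      obtain ⟨u, hu, hui⟩ := hiU
      obtain ⟨j, rfl⟩ := (hmemX _).1 (hU hu)
      rw [hx] at hui
      simp only [he2] at hui
      rw [← hui]
      exact hu
    obtain ⟨r, hr⟩ := hM0 ((R.filter (fun v => side v ≠ b0)).image typ) (by
      have a1 : ((R.filter (fun v => side v ≠ b0)).image typ).card ≤
        (R.filter (fun v => side v ≠ b0)).card := Finset.card_image_le
      have a2 := Finset.card_filter_le R (fun v => side v ≠ b0)
      omega)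
    have hXU : ∀ j, x j ∈ X \ U → j ≠ i := by
      rintro j hj rfl
      exact (Finset.mem_sdiff.1 hj).2 hxiU
    have hRi : ∀ v ∈ R, side v = b0 → blk v ≠ i := by
      intro v hv hvs hvi
      apply hiR
      rw [Finset.mem_image]
      exact ⟨v, Finset.mem_filter.2 ⟨hv, hvs⟩, hvi⟩
    have hRt : ∀ v ∈ R, side v ≠ b0 → M r (typ v) = false := by
      intro v hv hvs
      apply hr
      exact Finset.mem_image_of_mem typ (Finset.mem_filter.2 ⟨hv, hvs⟩)
    have hv0 : e i r ∉ (X \ U) ∪ R := by
      intro hmem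
      rcases Finset.mem_union.1 hmem with h | h
      · obtain ⟨j, hj⟩ := (hmemX _).1 (Finset.mem_sdiff.1 h).1
        have hji : j = i := by
          have := congrArg blk hj
          rw [hx] at this
          simp only [he2] at this
          exact this
        exact hXU j (by rw [hj]; exact h) hji
      · exact hRi _ h (he1 _ _) (he2 _ _)
    obtain ⟨w, hw, hadj⟩ := hdom (e i r) hv0
    rcases Finset.mem_union.1 hw with h | h
    · obtain ⟨j, rfl⟩ := (hmemX _).1 (Finset.mem_sdiff.1 h).1
      rw [h1 _ _ hadj.ne (he1 _ _) (he1 _ _)] at hadj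
      rw [hx] at hadj
      simp only [he2] at hadj
      exact hXU j h hadj.symm
    · by_cases hws : side w = b0
      · rw [h1 _ _ hadj.ne (he1 _ _) hws, he2] at hadj
        exact hRi _ h hws hadj.symm
      · rw [h2 _ _ (he1 _ _) hws, he3, hRt _ h hws] at hadj
        simp at hadj
  · rw [hX, Finset.card_image_of_injective _ hxinj, Finset.card_univ, Fintype.card_fin]

/-- Any at most `t` columns (rows) have a common `b`-row (`b`-column). -/
def Good {s : ℕ} (t : ℕ) (M : Fin s → Fin s → Bool) : Prop :=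
  (∀ b : Bool, ∀ C : Finset (Fin s), C.card ≤ t → ∃ r, ∀ c ∈ C, M r c = b) ∧
  (∀ b : Bool, ∀ R : Finset (Fin s), R.card ≤ t → ∃ c, ∀ r ∈ R, M r c = b)

theorem lower {n m s t : ℕ} (ht : 1 ≤ t) (hs0 : 0 < s) (hms : s ≤ m) (hn : 2 * (m * s) ≤ n)
    (M : Fin s → Fin s → Bool) (hM : Good t M) : m * m ≤ g n (t + 1) := by
  classical
  obtain ⟨ℓ, hℓ⟩ : ∃ ℓ : Fin n → Bool × Fin m × Fin s, Function.Surjective ℓ := by
    have hcard : Fintype.card (Bool × Fin m × Fin s) ≤ Fintype.card (Fin n) := by
      simp only [Fintype.card_prod, Fintype.card_bool, Fintype.card_fin]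
      exact hn
    obtain ⟨f⟩ := Function.Embedding.nonempty_of_card_le hcard
    have : Nonempty (Bool × Fin m × Fin s) := ⟨(true, ⟨0, by omega⟩, ⟨0, hs0⟩)⟩
    exact ⟨Function.invFun f, Function.invFun_surjective f.injective⟩
  set side : Fin n → Bool := fun v => (ℓ v).1 with hside
  set blk : Fin n → Fin m := fun v => (ℓ v).2.1 with hblk
  set typ : Fin n → Fin s := fun v => (ℓ v).2.2 with htyp
  have hall : ∀ b i r, ∃ v, side v = b ∧ blk v = i ∧ typ v = r := by
    intro b i r
    obtain ⟨v, hv⟩ := hℓ (b, i, r)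
    exact ⟨v, by rw [hside]; simp [hv], by rw [hblk]; simp [hv], by rw [htyp]; simp [hv]⟩
  let G : SimpleGraph (Fin n) :=
    { Adj := fun u v => u ≠ v ∧
        ((side u = false ∧ side v = false ∧ blk u = blk v) ∨
         (side u = true ∧ side v = true ∧ blk u ≠ blk v) ∨
         (side u = false ∧ side v = true ∧ M (typ u) (typ v) = true) ∨
         (side u = true ∧ side v = false ∧ M (typ v) (typ u) = true))
      symm := ⟨by
        rintro u v ⟨h, h'⟩
        refine ⟨h.symm, ?_⟩
        rcases h' with ⟨a, b, c⟩ | ⟨a, b, c⟩ | ⟨a, b, c⟩ | ⟨a, b, c⟩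
        · exact Or.inl ⟨b, a, c.symm⟩
        · exact Or.inr (Or.inl ⟨b, a, c.symm⟩)
        · exact Or.inr (Or.inr (Or.inr ⟨b, a, c⟩))
        · exact Or.inr (Or.inr (Or.inl ⟨b, a, c⟩))⟩
      loopless := ⟨fun u h => h.1 rfl⟩ }
  have hG : ∀ u v, G.Adj u v ↔ u ≠ v ∧
        ((side u = false ∧ side v = false ∧ blk u = blk v) ∨
         (side u = true ∧ side v = true ∧ blk u ≠ blk v) ∨
         (side u = false ∧ side v = true ∧ M (typ u) (typ v) = true) ∨
         (side u = true ∧ side v = false ∧ M (typ v) (typ u) = true)) := fun u v => Iff.rfl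
  obtain ⟨X, hX, hXc⟩ := lowerX (m := m) (s := s) (t := t) G side false blk typ M
    (by
      intro u v huv hu hv
      rw [hG]
      simp [hu, hv, huv])
    (by
      intro u v hu hv
      rw [hG]
      have hv' : side v = true := by simpa using hv
      have huv : u ≠ v := by rintro rfl; rw [hu] at hv'; simp at hv'
      simp [hu, hv', huv])
    (hall false) (hM.1 false)
    (by
      intro c
      obtain ⟨r, hr⟩ := hM.1 true {c} (by simpa using ht)
      exact ⟨r, hr c (Finset.mem_singleton_self c)⟩) hms hs0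
  obtain ⟨Y, hY, hYc⟩ := lowerX (m := m) (s := s) (t := t) Gᶜ side true blk typ
    (fun c r => !(M r c))
    (by
      intro u v huv hu hv
      rw [SimpleGraph.compl_adj, hG]
      simp [hu, hv, huv])
    (by
      intro u v hu hv
      rw [SimpleGraph.compl_adj, hG]
      have hv' : side v = false := by simpa using hv
      have huv : u ≠ v := by rintro rfl; rw [hu] at hv'; simp at hv'
      simp [hu, hv', huv])
    (hall true)
    (by
      intro C hC
      obtain ⟨c, hc⟩ := hM.2 true C hC
      exact ⟨c, fun r hr => by simp [hc r hr]⟩)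
    (by
      intro r
      obtain ⟨c, hc⟩ := hM.2 false {r} (by simpa using ht)
      exact ⟨c, by simp [hc r (Finset.mem_singleton_self r)]⟩) hms hs0
  have := le_g hX hY
  rw [hXc, hYc] at this
  exact this

/-- The diagonal `2 × 2` matrix. -/
theorem good_two : Good (s := 2) 1 (fun r c => decide (r = c)) := by
  constructor
  · intro b C hC
    have : ∀ C : Finset (Fin 2), C.card ≤ 1 → ∀ b : Bool,
        ∃ r, ∀ c ∈ C, (decide (r = c) : Bool) = b := by decide
    exact this C hC b
  · intro b C hC
    have : ∀ C : Finset (Fin 2), C.card ≤ 1 → ∀ b : Bool,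
        ∃ r, ∀ c ∈ C, (decide (c = r) : Bool) = b := by decide
    exact this C hC b

end Pool.Agent.Helper679.NG
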