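import Pool.Agent.Helper679.NG4

set_option autoImplicit false
set_option linter.unusedSectionVars false

namespace Pool.Agent.Helper679.NG

theorem card_rows (s : ℕ) (b : Bool) (C : Finset (Fin s)) :
    (Finset.univ.filter (fun w : Fin s → Bool => ∀ c ∈ C, w c = b)).card = 2 ^ (s - C.card) := by
  classical
  have h1 : (Finset.univ.filter (fun w : Fin s → Bool => ∀ c ∈ C, w c = b)) =
      Fintype.piFinset (fun c => if c ∈ C then ({b} : Finset Bool) else Finset.univ) := by
    ext w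
    simp only [Finset.mem_filter, Finset.mem_univ, true_and, Fintype.mem_piFinset]
    constructor
    · intro h c
      split_ifs with hc
      · rw [Finset.mem_singleton]; exact h c hc
      · exact Finset.mem_univ _
    · intro h c hc
      have := h c
      rw [if_pos hc, Finset.mem_singleton] at this
      exact this
  rw [h1, Fintype.card_piFinset]
  have h2 : ∀ c : Fin s, (if c ∈ C then ({b} : Finset Bool) else Finset.univ).card =
      if c ∈ C then 1 else 2 := by
    intro c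
    split_ifs <;> simp
  simp_rw [h2]
  rw [Finset.prod_ite, Finset.prod_const, Finset.prod_const, one_pow, one_mul]
  congr 1
  have h3 : (Finset.univ.filter (fun c => c ∉ C)) = Cᶜ := by
    ext c; simp
  rw [h3, Finset.card_compl, Fintype.card_fin]

theorem card_bad_rows (s : ℕ) (b : Bool) (C : Finset (Fin s)) :
    (Finset.univ.filter (fun w : Fin s → Bool => ∃ c ∈ C, w c ≠ b)).card =
      2 ^ s - 2 ^ (s - C.card) := by
  classical
  have h1 := Finset.card_filter_add_card_filter_not (s := (Finset.univ : Finset (Fin s → Bool)))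
    (fun w => ∀ c ∈ C, w c = b)
  rw [card_rows, Finset.card_univ, Fintype.card_fun, Fintype.card_bool, Fintype.card_fin] at h1
  have h2 : (Finset.univ.filter (fun w : Fin s → Bool => ∃ c ∈ C, w c ≠ b)) =
      (Finset.univ.filter (fun w : Fin s → Bool => ¬ ∀ c ∈ C, w c = b)) := by
    ext w
    simp
  rw [h2]
  omega

theorem card_bad (s : ℕ) (b : Bool) (C : Finset (Fin s)) :
    (Finset.univ.filter (fun M : Fin s → Fin s → Bool => ∀ r, ∃ c ∈ C, M r c ≠ b)).card =
      (2 ^ s - 2 ^ (s - C.card)) ^ s := by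
  classical
  have h1 : (Finset.univ.filter (fun M : Fin s → Fin s → Bool => ∀ r, ∃ c ∈ C, M r c ≠ b)) =
      Fintype.piFinset (fun _ : Fin s =>
        (Finset.univ.filter (fun w : Fin s → Bool => ∃ c ∈ C, w c ≠ b))) := by
    ext M
    simp [Fintype.mem_piFinset]
  rw [h1, Fintype.card_piFinset, Finset.prod_const, card_bad_rows, Finset.card_univ,
    Fintype.card_fin]

theorem card_bad' (s : ℕ) (b : Bool) (C : Finset (Fin s)) :
    (Finset.univ.filter (fun M : Fin s → Fin s → Bool => ∀ c, ∃ r ∈ C, M r c ≠ b)).card ≤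
      (2 ^ s - 2 ^ (s - C.card)) ^ s := by
  classical
  rw [← card_bad s b C]
  apply Finset.card_le_card_of_injOn (fun M r c => M c r)
  · intro M hM
    simpa using hM
  · intro M _ N _ h
    funext r c
    exact congrFun (congrFun h c) r

theorem exists_good {s t : ℕ} (hts : t ≤ s)
    (h : 4 * s.choose t * (2 ^ s - 2 ^ (s - t)) ^ s < 2 ^ (s * s)) :
    ∃ M : Fin s → Fin s → Bool, Good t M := by
  classical
  set P : Finset (Bool × Finset (Fin s)) :=
    (Finset.univ : Finset Bool) ×ˢ (Finset.powersetCard t (Finset.univ : Finset (Fin s))) with hP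
  have hPc : P.card = 2 * s.choose t := by
    rw [hP, Finset.card_product, Finset.card_powersetCard]
    simp
  set B1 : Finset (Fin s → Fin s → Bool) := P.biUnion (fun p =>
    Finset.univ.filter (fun M : Fin s → Fin s → Bool => ∀ r, ∃ c ∈ p.2, M r c ≠ p.1)) with hB1
  set B2 : Finset (Fin s → Fin s → Bool) := P.biUnion (fun p =>
    Finset.univ.filter (fun M : Fin s → Fin s → Bool => ∀ c, ∃ r ∈ p.2, M r c ≠ p.1)) with hB2
  have hb1 : B1.card ≤ P.card * (2 ^ s - 2 ^ (s - t)) ^ s := by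
    apply Finset.card_biUnion_le_card_mul
    intro p hp
    rw [hP, Finset.mem_product, Finset.mem_powersetCard] at hp
    rw [card_bad, hp.2.2]
  have hb2 : B2.card ≤ P.card * (2 ^ s - 2 ^ (s - t)) ^ s := by
    apply Finset.card_biUnion_le_card_mul
    intro p hp
    rw [hP, Finset.mem_product, Finset.mem_powersetCard] at hp
    refine (card_bad' _ _ _).trans ?_
    rw [hp.2.2]
  have hlt : (B1 ∪ B2).card < (Finset.univ : Finset (Fin s → Fin s → Bool)).card := by
    calc (B1 ∪ B2).card ≤ B1.card + B2.card := Finset.card_union_le _ _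
      _ ≤ P.card * (2 ^ s - 2 ^ (s - t)) ^ s + P.card * (2 ^ s - 2 ^ (s - t)) ^ s :=
        Nat.add_le_add hb1 hb2
      _ = 4 * s.choose t * (2 ^ s - 2 ^ (s - t)) ^ s := by rw [hPc]; ring
      _ < 2 ^ (s * s) := h
      _ = _ := by
        rw [Finset.card_univ, Fintype.card_fun, Fintype.card_fun, Fintype.card_bool,
          Fintype.card_fin, pow_mul]
  obtain ⟨M, _, hM⟩ := Finset.exists_mem_notMem_of_card_lt_card hlt
  refine ⟨M, ?_, ?_⟩
  · intro b C hC
    obtain ⟨D, hCD, _, hD⟩ := Finset.exists_subsuperset_card_eq (Finset.subset_univ C) hC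
      (by rw [Finset.card_univ, Fintype.card_fin]; exact hts)
    by_contra hcon
    push Not at hcon
    apply hM
    rw [Finset.mem_union]
    left
    rw [hB1, Finset.mem_biUnion]
    refine ⟨(b, D), ?_, ?_⟩
    · rw [hP, Finset.mem_product, Finset.mem_powersetCard]
      exact ⟨Finset.mem_univ _, Finset.subset_univ _, hD⟩
    · rw [Finset.mem_filter]
      refine ⟨Finset.mem_univ _, fun r => ?_⟩
      obtain ⟨c, hc, hc'⟩ := hcon r
      exact ⟨c, hCD hc, hc'⟩
  · intro b C hC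
    obtain ⟨D, hCD, _, hD⟩ := Finset.exists_subsuperset_card_eq (Finset.subset_univ C) hC
      (by rw [Finset.card_univ, Fintype.card_fin]; exact hts)
    by_contra hcon
    push Not at hcon
    apply hM
    rw [Finset.mem_union]
    right
    rw [hB2, Finset.mem_biUnion]
    refine ⟨(b, D), ?_, ?_⟩
    · rw [hP, Finset.mem_product, Finset.mem_powersetCard]
      exact ⟨Finset.mem_univ _, Finset.subset_univ _, hD⟩
    · rw [Finset.mem_filter]
      refine ⟨Finset.mem_univ _, fun r => ?_⟩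
      obtain ⟨c, hc, hc'⟩ := hcon r
      exact ⟨c, hCD hc, hc'⟩

theorem bernoulli_nat (a N : ℕ) : a ^ (N + 1) + (N + 1) * a ^ N ≤ (a + 1) ^ (N + 1) := by
  induction N with
  | zero => simp
  | succ N ih =>
    calc a ^ (N + 1 + 1) + (N + 1 + 1) * a ^ (N + 1)
        ≤ (a + 1) * (a ^ (N + 1) + (N + 1) * a ^ N) := by
          have : (a + 1) * (a ^ (N + 1) + (N + 1) * a ^ N) =
            a ^ (N + 1 + 1) + (N + 1 + 1) * a ^ (N + 1) + (N + 1) * a ^ N := by ring
          rw [this]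
          exact Nat.le_add_right _ _
      _ ≤ (a + 1) * (a + 1) ^ (N + 1) := Nat.mul_le_mul_left _ ih
      _ = (a + 1) ^ (N + 1 + 1) := by ring

/-- `2 (N-1)^N ≤ N^N`. -/
theorem two_mul_pred_pow (N : ℕ) (hN : 1 ≤ N) : 2 * (N - 1) ^ N ≤ N ^ N := by
  obtain ⟨m, rfl⟩ : ∃ m, N = m + 1 := ⟨N - 1, by omega⟩
  rw [Nat.add_sub_cancel]
  have h3 : m ^ (m + 1) + (m + 1) * m ^ m ≤ (m + 1) ^ (m + 1) := bernoulli_nat m m
  have h4 : m ^ (m + 1) ≤ (m + 1) * m ^ m := by
    rw [pow_succ, mul_comm]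
    exact Nat.mul_le_mul_right _ (by omega)
  omega

theorem good_ineq (t q : ℕ) (ht : 1 ≤ t) (hq : 1 ≤ q)
    (h : 4 * (q * 2 ^ t) ^ t < 2 ^ q) :
    4 * (q * 2 ^ t).choose t * (2 ^ (q * 2 ^ t) - 2 ^ (q * 2 ^ t - t)) ^ (q * 2 ^ t) <
      2 ^ ((q * 2 ^ t) * (q * 2 ^ t)) := by
  set N : ℕ := 2 ^ t with hN
  set s : ℕ := q * N with hs
  have hNt : t < N := Nat.lt_two_pow_self
  have hN2 : 2 ≤ N := by omega
  have hts : t ≤ s := by
    rw [hs]
    nlinarith
  have e1 : 2 ^ s - 2 ^ (s - t) = 2 ^ (s - t) * (N - 1) := by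
    rw [Nat.mul_sub, mul_one, hN, ← pow_add, Nat.sub_add_cancel hts]
  have e2 : 2 ^ q * (N - 1) ^ s ≤ N ^ s := by
    have := Nat.pow_le_pow_left (two_mul_pred_pow N (by omega)) q
    rw [mul_pow, ← pow_mul, ← pow_mul] at this
    rw [hs, mul_comm q N]
    exact this
  have e3 : s.choose t ≤ s ^ t := Nat.choose_le_pow s t
  have e4 : 0 < (N - 1) ^ s := by
    apply Nat.pow_pos
    omega
  have e5 : N ^ s * 2 ^ ((s - t) * s) = 2 ^ (s * s) := by
    rw [hN, ← pow_mul, ← pow_add]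
    congr 1
    rw [← Nat.add_mul, Nat.add_sub_cancel' hts]
  rw [e1, mul_pow, ← pow_mul, ← e5]
  calc 4 * s.choose t * (2 ^ ((s - t) * s) * (N - 1) ^ s)
      = (4 * s.choose t * (N - 1) ^ s) * 2 ^ ((s - t) * s) := by ring
    _ ≤ (4 * s ^ t * (N - 1) ^ s) * 2 ^ ((s - t) * s) := by gcongr
    _ < (2 ^ q * (N - 1) ^ s) * 2 ^ ((s - t) * s) := by gcongr
    _ ≤ N ^ s * 2 ^ ((s - t) * s) := by gcongr

theorem exists_good_k (t : ℕ) (ht : 1 ≤ t) :
    ∃ M : Fin (3 * (t + 1) ^ 2 * 2 ^ t) → Fin (3 * (t + 1) ^ 2 * 2 ^ t) → Bool, Good t M := by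
  have hk : t + 1 ≤ 2 ^ t := Nat.lt_two_pow_self
  apply exists_good
  · have h1 : 1 ≤ 2 ^ t := Nat.one_le_two_pow
    have h2 : t ≤ 3 * (t + 1) ^ 2 := by nlinarith
    nlinarith
  · apply good_ineq t _ ht
    · nlinarith
    · have h1 : 3 * (t + 1) ^ 2 ≤ 2 ^ (2 * t + 2) := by
        have : (t + 1) ^ 2 ≤ (2 ^ t) ^ 2 := Nat.pow_le_pow_left hk 2
        calc 3 * (t + 1) ^ 2 ≤ 4 * (2 ^ t) ^ 2 := by omega
          _ = 2 ^ (2 * t + 2) := by rw [← pow_mul, pow_add, mul_comm t 2]; ring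
      calc 4 * (3 * (t + 1) ^ 2 * 2 ^ t) ^ t ≤ 4 * (2 ^ (2 * t + 2) * 2 ^ t) ^ t := by gcongr
        _ = 2 ^ (2 + (3 * t + 2) * t) := by
          rw [← pow_add, ← pow_mul, pow_add 2 2]
          congr 2
          ring
        _ < 2 ^ (3 * (t + 1) ^ 2) := by
          apply Nat.pow_lt_pow_right (by norm_num)
          nlinarith

/-- The general lower bound. -/
theorem lower_of_good {n s t : ℕ} (ht : 1 ≤ t) (hs0 : 0 < s) (M : Fin s → Fin s → Bool)
    (hM : Good t M) (hn : 1 ≤ n) : (n / (2 * s)) ^ 2 ≤ g n (t + 1) := by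
  set m : ℕ := n / (2 * s) with hm
  have hmn : m * (2 * s) ≤ n := Nat.div_mul_le_self n (2 * s)
  by_cases hms : s ≤ m
  · rw [sq]
    exact lower ht hs0 hms (by nlinarith) M hM
  · push Not at hms
    refine le_trans ?_ (n_le_g n (t + 1) hn)
    nlinarith

end Pool.Agent.Helper679.NG
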