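import Pool.Agent.Helper679.NG5

set_option autoImplicit false
set_option linter.unusedSectionVars false

namespace Pool.Agent.Helper679.NG

open scoped Classical

variable {V : Type} [Fintype V] [DecidableEq V]

/-- The closed private neighbourhood of `x` with respect to `X`. -/
noncomputable def pn (G : SimpleGraph V) (X : Finset V) (x : V) : Finset V :=
  Finset.univ.filter (fun v => Dom G x v ∧ ∀ x' ∈ X, Dom G x' v → x' = x)

theorem mem_pn {G : SimpleGraph V} {X : Finset V} {x v : V} :
    v ∈ pn G X x ↔ Dom G x v ∧ ∀ x' ∈ X, Dom G x' v → x' = x := by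
  simp [pn]

/-- The elements of `X` whose private neighbourhood is dominated by `v`. -/
noncomputable def T (G : SimpleGraph V) (X : Finset V) (v : V) : Finset V :=
  X.filter (fun x => ∀ p ∈ pn G X x, Dom G v p)

theorem mem_T {G : SimpleGraph V} {X : Finset V} {x v : V} :
    x ∈ T G X v ↔ x ∈ X ∧ ∀ p ∈ pn G X x, Dom G v p := by
  simp [T]

theorem pn_disj {G : SimpleGraph V} {X : Finset V} {x y v : V} (hy : y ∈ X)
    (h1 : v ∈ pn G X x) (h2 : v ∈ pn G X y) : x = y := by
  rw [mem_pn] at h1 h2
  exact (h1.2 y hy h2.1).symm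

theorem T_offDiag {G : SimpleGraph V} {X : Finset V} (hX : KMinimal G 2 X) (v : V) :
    (T G X v).card * (T G X v).card - (T G X v).card ≤ 2 * Fintype.card V := by
  have hw : ∀ p : V × V, p ∈ (T G X v).offDiag → ∃ w, Dom G p.1 w ∧ Dom G p.2 w ∧
      ∀ y ∈ X, Dom G y w → y = p.1 ∨ y = p.2 := by
    rintro ⟨x, x'⟩ hp
    rw [Finset.mem_offDiag] at hp
    obtain ⟨h1, h2, h3⟩ := hp
    simp only at h1 h2 h3
    have h1' := mem_T.1 h1
    have h2' := mem_T.1 h2
    have hnd := hX.2 {x, x'} {v} (by
      intro y hy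
      rw [Finset.mem_insert, Finset.mem_singleton] at hy
      rcases hy with rfl | rfl
      · exact h1'.1
      · exact h2'.1) (by rw [Finset.card_pair h3]; norm_num) (by rw [Finset.card_pair h3])
      (by rw [Finset.card_pair h3, Finset.card_singleton])
    rw [dominating_iff] at hnd
    push Not at hnd
    obtain ⟨w, hw⟩ := hnd
    have hwv : ¬ Dom G v w := hw v (Finset.mem_union_right _ (Finset.mem_singleton_self v))
    have hwX : ∀ y ∈ X, Dom G y w → y = x ∨ y = x' := by
      intro y hy hyw
      by_contra hcon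
      push Not at hcon
      refine hw y (Finset.mem_union_left _ ?_) hyw
      rw [Finset.mem_sdiff, Finset.mem_insert, Finset.mem_singleton]
      push Not
      exact ⟨hy, hcon⟩
    obtain ⟨y, hy, hyw⟩ := dominating_iff.1 hX.1 w
    have hx : Dom G x w := by
      by_contra hcon
      have hyx' : y = x' := by
        rcases hwX y hy hyw with h | h
        · exact absurd (h ▸ hyw) hcon
        · exact h
      apply hwv
      apply h2'.2
      rw [mem_pn]
      refine ⟨hyx' ▸ hyw, ?_⟩
      intro z hz hzw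
      rcases hwX z hz hzw with h | h
      · exact absurd (h ▸ hzw) hcon
      · exact h
    have hx' : Dom G x' w := by
      by_contra hcon
      have hyx' : y = x := by
        rcases hwX y hy hyw with h | h
        · exact h
        · exact absurd (h ▸ hyw) hcon
      apply hwv
      apply h1'.2
      rw [mem_pn]
      refine ⟨hyx' ▸ hyw, ?_⟩
      intro z hz hzw
      rcases hwX z hz hzw with h | h
      · exact h
      · exact absurd (h ▸ hzw) hcon
    exact ⟨w, hx, hx', hwX⟩
  have hne : Nonempty V := ⟨v⟩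
  choose! f hf1 hf2 hf3 using hw
  have hfib : ∀ w ∈ (T G X v).offDiag.image f,
      ((T G X v).offDiag.filter (fun p => f p = w)).card ≤ 2 := by
    intro w hw
    rw [Finset.mem_image] at hw
    obtain ⟨⟨x, x'⟩, hp, hpw⟩ := hw
    have hsub : (T G X v).offDiag.filter (fun p => f p = w) ⊆ {(x, x'), (x', x)} := by
      rintro ⟨y, y'⟩ hq
      rw [Finset.mem_filter] at hq
      obtain ⟨hq1, hq2⟩ := hq
      have g1 := hf1 _ hq1
      have g2 := hf2 _ hq1
      rw [hq2] at g1 g2
      have g3 := hf3 _ hp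
      rw [hpw] at g3
      rw [Finset.mem_offDiag] at hq1
      obtain ⟨q1, q2, q3⟩ := hq1
      have k1 := g3 _ (mem_T.1 q1).1 g1
      have k2 := g3 _ (mem_T.1 q2).1 g2
      simp only at k1 k2 q3
      rw [Finset.mem_insert, Finset.mem_singleton, Prod.mk.injEq, Prod.mk.injEq]
      rcases k1 with k1 | k1 <;> rcases k2 with k2 | k2
      · exact absurd (k1.trans k2.symm) q3
      · exact Or.inl ⟨k1, k2⟩
      · exact Or.inr ⟨k1, k2⟩
      · exact absurd (k1.trans k2.symm) q3
    exact (Finset.card_le_card hsub).trans Finset.card_le_two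
  have hc := Finset.card_le_mul_card_image (T G X v).offDiag 2 hfib
  rw [Finset.offDiag_card] at hc
  have hc2 : ((T G X v).offDiag.image f).card ≤ Fintype.card V := Finset.card_le_univ _
  omega

/-- The bound for `T`. -/
noncomputable def tau (n : ℕ) : ℕ := Nat.sqrt (2 * n) + 1

theorem T_card {G : SimpleGraph V} {X : Finset V} (hX : KMinimal G 2 X) (v : V) :
    (T G X v).card ≤ tau (Fintype.card V) := by
  by_contra hcon
  push Not at hcon
  have h := T_offDiag hX v
  unfold tau at hcon
  set a := (T G X v).card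
  set b := Nat.sqrt (2 * Fintype.card V) with hb
  have h1 : 2 * Fintype.card V < (b + 1) * (b + 1) := Nat.lt_succ_sqrt _
  obtain ⟨c, hc⟩ : ∃ c, a = c + (b + 2) := ⟨a - (b + 2), by omega⟩
  have h2 : a * a - a = a * (a - 1) := by rw [Nat.mul_sub, mul_one]
  rw [h2, hc] at h
  have h3 : (c + (b + 2)) * (c + (b + 2) - 1) ≥ (b + 1) * (b + 1) := by
    apply Nat.mul_le_mul <;> omega
  omega

theorem sum_two_le {A : Finset V} (f : V → ℕ) :
    2 * A.card ≤ ∑ a ∈ A, f a + 2 * (A.filter (fun a => f a ≤ 1)).card := by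
  have h : ∀ B : Finset V, 2 * B.card ≤ ∑ a ∈ B, f a + 2 * (B.filter (fun a => f a ≤ 1)).card := by
    intro B
    rw [Finset.card_filter, Finset.mul_sum, ← Finset.sum_add_distrib, mul_comm, ← smul_eq_mul]
    apply Finset.card_nsmul_le_sum
    intro a _
    split_ifs with ha
    · omega
    · omega
  exact h A

/-- Claim 1: few `y` have a private neighbourhood with at most one element outside `X`. -/
theorem claim1 [Nonempty V] {G H : SimpleGraph V} {X Y : Finset V} (τ : ℕ)
    (hcov : ∀ u v, Dom G u v ∨ Dom H u v)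
    (hTX : ∀ v, (T G X v).card ≤ τ) (hTY : ∀ v, (T H Y v).card ≤ τ) :
    (Y.filter (fun y => (pn H Y y \ X).card ≤ 1)).card * (X.card - τ) ≤
      Fintype.card V * (τ + 1) := by
  set Yc := Y.filter (fun y => (pn H Y y \ X).card ≤ 1) with hYc
  set P : Finset V := X.biUnion (pn G X) with hP
  let bad : V → V → Prop := fun y p => ∀ q ∈ pn H Y y \ X, Dom H p q
  have hdc := Finset.sum_card_bipartiteAbove_eq_sum_card_bipartiteBelow (s := Yc) (t := P) bad
  have hup : ∑ p ∈ P, (Finset.bipartiteBelow bad Yc p).card ≤ P.card * (τ + 1) := by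
    rw [← smul_eq_mul]
    apply Finset.sum_le_card_nsmul
    intro p hp
    rw [hP, Finset.mem_biUnion] at hp
    obtain ⟨x, hx, hpx⟩ := hp
    have hsub : Finset.bipartiteBelow bad Yc p ⊆
        T H Y p ∪ Y.filter (fun y => x ∈ pn H Y y) := by
      intro y hy
      rw [Finset.mem_bipartiteBelow] at hy
      obtain ⟨hy1, hy2⟩ := hy
      rw [hYc, Finset.mem_filter] at hy1
      rw [Finset.mem_union, Finset.mem_filter]
      by_cases hxy : x ∈ pn H Y y
      · exact Or.inr ⟨hy1.1, hxy⟩
      · left
        rw [mem_T]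
        refine ⟨hy1.1, ?_⟩
        intro q hq
        by_cases hqX : q ∈ X
        · rcases hcov p q with h | h
          · exfalso
            have := (mem_pn.1 hpx).2 q hqX h.symm
            rw [this] at hq
            exact hxy hq
          · exact h
        · exact hy2 q (Finset.mem_sdiff.2 ⟨hq, hqX⟩)
    refine (Finset.card_le_card hsub).trans ((Finset.card_union_le _ _).trans ?_)
    refine Nat.add_le_add (hTY p) ?_
    rw [Finset.card_le_one]
    intro a ha b hb
    rw [Finset.mem_filter] at ha hb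
    exact pn_disj hb.1 ha.2 hb.2
  have hlow : Yc.card * (X.card - τ) ≤ ∑ y ∈ Yc, (Finset.bipartiteAbove bad P y).card := by
    rw [← smul_eq_mul]
    apply Finset.card_nsmul_le_sum
    intro y hy
    rw [hYc, Finset.mem_filter, Finset.card_le_one_iff_subset_singleton] at hy
    obtain ⟨hy1, v, hv⟩ := hy
    have h1 : X.card - τ ≤ (X \ T G X v).card := by
      have h2 := Finset.le_card_sdiff (T G X v) X
      have h3 := hTX v
      omega
    refine h1.trans ?_
    have h4 : ∀ x ∈ X \ T G X v, ∃ p ∈ pn G X x, ¬ Dom G v p := by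
      intro x hx
      rw [Finset.mem_sdiff, mem_T] at hx
      by_contra hcon
      push Not at hcon
      exact hx.2 ⟨hx.1, hcon⟩
    choose! f hf1 hf2 using h4
    apply Finset.card_le_card_of_injOn f
    · intro x hx
      rw [Finset.mem_coe] at hx
      rw [Finset.mem_coe, Finset.mem_bipartiteAbove]
      refine ⟨?_, ?_⟩
      · rw [hP, Finset.mem_biUnion]
        exact ⟨x, (Finset.mem_sdiff.1 hx).1, hf1 x hx⟩
      · intro q hq
        have := hv hq
        rw [Finset.mem_singleton] at this
        rw [this]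
        rcases hcov (f x) v with h | h
        · exact absurd h.symm (hf2 x hx)
        · exact h
    · intro x hx x' hx' hxx'
      rw [Finset.mem_coe] at hx hx'
      have a1 := hf1 x hx
      have a2 := hf1 x' hx'
      rw [hxx'] at a1
      exact pn_disj (Finset.mem_sdiff.1 hx').1 a1 a2
  calc Yc.card * (X.card - τ) ≤ _ := hlow
    _ = _ := hdc
    _ ≤ P.card * (τ + 1) := hup
    _ ≤ Fintype.card V * (τ + 1) := Nat.mul_le_mul_right _ (Finset.card_le_univ _)

theorem sum_pn_le (G : SimpleGraph V) (X : Finset V) :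
    ∑ x ∈ X, (pn G X x).card ≤ Fintype.card V := by
  rw [← Finset.card_biUnion]
  · exact Finset.card_le_univ _
  · intro x hx y hy hxy
    rw [Function.onFun, Finset.disjoint_left]
    intro v h1 h2
    exact hxy (pn_disj hy h1 h2)

/-- Claim 2, one half. -/
theorem claim2a {G H : SimpleGraph V} {X Y : Finset V} (τ : ℕ)
    (hcov : ∀ u v, Dom G u v ∨ Dom H u v) (hTX : ∀ v, (T G X v).card ≤ τ) :
    ∑ x ∈ X.filter (fun x => (insert x (pn G X x) \ (Y.biUnion (pn H Y) \ X)).card ≤ 1),
      (Y.filter (fun y => Dom G y x)).card ≤ Y.card * τ + Fintype.card V := by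
  set Xb := X.filter (fun x => (insert x (pn G X x) \ (Y.biUnion (pn H Y) \ X)).card ≤ 1) with hXb
  have hy0 : ∀ p ∈ Y.biUnion (pn H Y), ∃ y ∈ Y, p ∈ pn H Y y := by
    intro p hp
    rw [Finset.mem_biUnion] at hp
    exact hp
  choose! y0 hy01 hy02 using hy0
  have hterm : ∀ x ∈ Xb, (Y.filter (fun y => Dom G y x)).card ≤
      (Y.filter (fun y => x ∈ T G X y)).card + (pn G X x).card := by
    intro x hx
    rw [hXb, Finset.mem_filter, Finset.card_le_one] at hx
    obtain ⟨hxX, hx1⟩ := hx
    have hsub : Y.filter (fun y => Dom G y x) ⊆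
        Y.filter (fun y => x ∈ T G X y) ∪ (pn G X x).image y0 := by
      intro y hy
      rw [Finset.mem_filter] at hy
      obtain ⟨hyY, hyx⟩ := hy
      rw [Finset.mem_union, Finset.mem_filter, Finset.mem_image]
      by_cases hxT : x ∈ T G X y
      · exact Or.inl ⟨hyY, hxT⟩
      right
      rw [mem_T] at hxT
      push Not at hxT
      obtain ⟨p, hp, hyp⟩ := hxT hxX
      have hpx : p ≠ x := by
        rintro rfl
        exact hyp hyx
      have hpQ : p ∈ Y.biUnion (pn H Y) := by
        by_contra hcon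
        apply hpx
        apply hx1
        · rw [Finset.mem_sdiff]
          exact ⟨Finset.mem_insert_of_mem hp, fun h => hcon (Finset.mem_sdiff.1 h).1⟩
        · rw [Finset.mem_sdiff]
          exact ⟨Finset.mem_insert_self _ _, fun h => (Finset.mem_sdiff.1 h).2 hxX⟩
      refine ⟨p, hp, ?_⟩
      have h1 := (mem_pn.1 (hy02 p hpQ)).2 y hyY
      rcases hcov y p with h | h
      · exact absurd h hyp
      · exact (h1 h).symm
    exact (Finset.card_le_card hsub).trans ((Finset.card_union_le _ _).trans
      (Nat.add_le_add_left Finset.card_image_le _))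
  have hsubX : Xb ⊆ X := Finset.filter_subset _ _
  calc ∑ x ∈ Xb, (Y.filter (fun y => Dom G y x)).card
      ≤ ∑ x ∈ Xb, ((Y.filter (fun y => x ∈ T G X y)).card + (pn G X x).card) :=
        Finset.sum_le_sum hterm
    _ = ∑ x ∈ Xb, (Y.filter (fun y => x ∈ T G X y)).card + ∑ x ∈ Xb, (pn G X x).card :=
        Finset.sum_add_distrib
    _ ≤ ∑ x ∈ X, (Y.filter (fun y => x ∈ T G X y)).card + ∑ x ∈ X, (pn G X x).card := by
        refine Nat.add_le_add ?_ ?_
        · exact Finset.sum_le_sum_of_subset hsubX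
        · exact Finset.sum_le_sum_of_subset hsubX
    _ ≤ Y.card * τ + Fintype.card V := by
        refine Nat.add_le_add ?_ (sum_pn_le G X)
        have hdc := Finset.sum_card_bipartiteAbove_eq_sum_card_bipartiteBelow (s := X) (t := Y)
          (fun x y => x ∈ T G X y)
        have e : ∑ x ∈ X, (Y.filter (fun y => x ∈ T G X y)).card =
            ∑ x ∈ X, (Finset.bipartiteAbove (fun x y => x ∈ T G X y) Y x).card := rfl
        rw [e, hdc, ← smul_eq_mul]
        apply Finset.sum_le_card_nsmul
        intro y _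
        refine (Finset.card_le_card ?_).trans (hTX y)
        intro x hx
        rw [Finset.mem_bipartiteBelow] at hx
        exact hx.2

/-- Claim 2. -/
theorem claim2 {G H : SimpleGraph V} {X Y : Finset V} (τ : ℕ)
    (hcov : ∀ u v, Dom G u v ∨ Dom H u v)
    (hTX : ∀ v, (T G X v).card ≤ τ) (hTY : ∀ v, (T H Y v).card ≤ τ) :
    (X.filter (fun x => (insert x (pn G X x) \ (Y.biUnion (pn H Y) \ X)).card ≤ 1)).card *
    (Y.filter (fun y => (insert y (pn H Y y) \ (X.biUnion (pn G X) \ Y)).card ≤ 1)).card ≤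
      (X.card + Y.card) * τ + 2 * Fintype.card V := by
  have h1 := claim2a (Y := Y) (H := H) τ hcov hTX
  have h2 := claim2a (Y := X) (H := G) τ (fun u v => (hcov u v).symm) hTY
  set Xb := X.filter (fun x => (insert x (pn G X x) \ (Y.biUnion (pn H Y) \ X)).card ≤ 1)
  set Yb := Y.filter (fun y => (insert y (pn H Y y) \ (X.biUnion (pn G X) \ Y)).card ≤ 1)
  have hYb : Yb ⊆ Y := Finset.filter_subset _ _
  have hXb : Xb ⊆ X := Finset.filter_subset _ _
  have h3 : Xb.card * Yb.card ≤ ∑ x ∈ Xb, (Yb.filter (fun y => Dom G y x)).card +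
      ∑ y ∈ Yb, (Xb.filter (fun x => Dom H x y)).card := by
    have e1 : ∑ y ∈ Yb, (Xb.filter (fun x => Dom H x y)).card =
        ∑ x ∈ Xb, (Yb.filter (fun y => Dom H x y)).card :=
      (Finset.sum_card_bipartiteAbove_eq_sum_card_bipartiteBelow (s := Xb) (t := Yb)
        (fun x y => Dom H x y)).symm
    rw [e1, ← Finset.sum_add_distrib, ← smul_eq_mul]
    apply Finset.card_nsmul_le_sum
    intro x _
    have : Yb ⊆ Yb.filter (fun y => Dom G y x) ∪ Yb.filter (fun y => Dom H x y) := by
      intro y hy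
      rcases hcov x y with h | h
      · exact Finset.mem_union_left _ (Finset.mem_filter.2 ⟨hy, h.symm⟩)
      · exact Finset.mem_union_right _ (Finset.mem_filter.2 ⟨hy, h⟩)
    exact (Finset.card_le_card this).trans (Finset.card_union_le _ _)
  have h4 : ∑ x ∈ Xb, (Yb.filter (fun y => Dom G y x)).card ≤
      ∑ x ∈ Xb, (Y.filter (fun y => Dom G y x)).card :=
    Finset.sum_le_sum (fun x _ => Finset.card_le_card (Finset.filter_subset_filter _ hYb))
  have h5 : ∑ y ∈ Yb, (Xb.filter (fun x => Dom H x y)).card ≤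
      ∑ y ∈ Yb, (X.filter (fun x => Dom H x y)).card :=
    Finset.sum_le_sum (fun x _ => Finset.card_le_card (Finset.filter_subset_filter _ hXb))
  calc Xb.card * Yb.card ≤ _ := h3
    _ ≤ (Y.card * τ + Fintype.card V) + (X.card * τ + Fintype.card V) :=
      Nat.add_le_add (h4.trans h1) (h5.trans h2)
    _ = _ := by ring

/-- The counting inequality. -/
theorem count_ineq {G H : SimpleGraph V} {X Y : Finset V} :
    2 * X.card + 2 * Y.card ≤ Fintype.card V +
      2 * (Y.filter (fun y => (pn H Y y \ X).card ≤ 1)).card +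
      2 * (X.filter (fun x =>
        (insert x (pn G X x) \ (Y.biUnion (pn H Y) \ X)).card ≤ 1)).card := by
  have h1 := sum_two_le (A := Y) (fun y => (pn H Y y \ X).card)
  have h2 := sum_two_le (A := X) (fun x => (insert x (pn G X x) \ (Y.biUnion (pn H Y) \ X)).card)
  have d1 : ∑ y ∈ Y, (pn H Y y \ X).card = (Y.biUnion (fun y => pn H Y y \ X)).card := by
    rw [Finset.card_biUnion]
    intro x hx y hy hxy
    rw [Function.onFun, Finset.disjoint_left]
    intro v h1 h2
    exact hxy (pn_disj hy (Finset.mem_sdiff.1 h1).1 (Finset.mem_sdiff.1 h2).1)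
  have d2 : ∑ x ∈ X, (insert x (pn G X x) \ (Y.biUnion (pn H Y) \ X)).card =
      (X.biUnion (fun x => insert x (pn G X x) \ (Y.biUnion (pn H Y) \ X))).card := by
    rw [Finset.card_biUnion]
    intro x hx y hy hxy
    rw [Function.onFun, Finset.disjoint_left]
    intro v h1 h2
    have h1' := (Finset.mem_sdiff.1 h1).1
    have h2' := (Finset.mem_sdiff.1 h2).1
    rw [Finset.mem_insert] at h1' h2'
    rcases h1' with h1' | h1' <;> rcases h2' with h2' | h2'
    · exact hxy (h1'.symm.trans h2')
    · rw [h1'] at h2'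
      exact hxy ((mem_pn.1 h2').2 x hx (Or.inl rfl))
    · rw [h2'] at h1'
      exact hxy ((mem_pn.1 h1').2 y hy (Or.inl rfl)).symm
    · exact hxy (pn_disj hy h1' h2')
  have d3 : (Y.biUnion (fun y => pn H Y y \ X)).card +
      (X.biUnion (fun x => insert x (pn G X x) \ (Y.biUnion (pn H Y) \ X))).card ≤
      Fintype.card V := by
    rw [← Finset.card_union_of_disjoint]
    · exact Finset.card_le_univ _
    · rw [Finset.disjoint_left]
      intro v h1 h2
      rw [Finset.mem_biUnion] at h1 h2
      obtain ⟨y, hy, hvy⟩ := h1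
      obtain ⟨x, hx, hvx⟩ := h2
      rw [Finset.mem_sdiff] at hvy hvx
      apply hvx.2
      rw [Finset.mem_sdiff, Finset.mem_biUnion]
      exact ⟨⟨y, hy, hvy.1⟩, hvy.2⟩
  rw [d1] at h1
  rw [d2] at h2
  omega

end Pool.Agent.Helper679.NG
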