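import Pool.Agent.Helper679.NG6

set_option autoImplicit false
set_option linter.unusedSectionVars false

namespace Pool.Agent.Helper679.NG

variable {V : Type} [Fintype V] [DecidableEq V]

theorem numeric_half {w a b yc xb t : ℝ} (hw : 1 ≤ w) (ha : 5 * w ^ 3 ≤ a)
    (hyc : 0 ≤ yc) (ht : t ≤ 5 / 2 * w ^ 2)
    (h1 : yc * (a - t) ≤ w ^ 4 * (t + 1)) (h3 : xb * xb ≤ 7 * w ^ 6)
    (h4 : 2 * a + 2 * b ≤ w ^ 4 + 2 * yc + 2 * xb) (hab : 0 ≤ a + b) :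
    a * b ≤ w ^ 8 / 16 + 6 * w ^ 7 := by
  have hw0 : 0 < w := by linarith
  have hw2 : 1 ≤ w ^ 2 := one_le_pow₀ hw
  have hw23 : w ^ 2 ≤ w ^ 3 := pow_le_pow_right₀ hw (by norm_num)
  have hw67 : w ^ 6 ≤ w ^ 7 := pow_le_pow_right₀ hw (by norm_num)
  have hw30 : 0 < w ^ 3 := by positivity
  have hyc' : yc ≤ 7 / 5 * w ^ 3 := by
    have e1 : 5 / 2 * w ^ 3 ≤ a - t := by linarith
    have e2 : yc * (5 / 2 * w ^ 3) ≤ yc * (a - t) := mul_le_mul_of_nonneg_left e1 hyc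
    have e3 : w ^ 4 * (t + 1) ≤ w ^ 4 * (7 / 2 * w ^ 2) := by
      apply mul_le_mul_of_nonneg_left _ (by positivity)
      linarith
    have e4 : yc * (5 / 2 * w ^ 3) ≤ (7 / 5 * w ^ 3) * (5 / 2 * w ^ 3) := by
      calc yc * (5 / 2 * w ^ 3) ≤ w ^ 4 * (7 / 2 * w ^ 2) := by linarith
        _ = (7 / 5 * w ^ 3) * (5 / 2 * w ^ 3) := by ring
    exact le_of_mul_le_mul_right e4 (by positivity)
  have hxb' : xb ≤ 53 / 20 * w ^ 3 := by
    have e1 : xb ^ 2 ≤ (53 / 20 * w ^ 3) ^ 2 := by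
      have : (53 / 20 * w ^ 3) ^ 2 = (2809 / 400) * w ^ 6 := by ring
      rw [this]
      have : 0 < w ^ 6 := by positivity
      nlinarith
    exact le_of_sq_le_sq e1 (by positivity)
  have hs : a + b ≤ w ^ 4 / 2 + 81 / 20 * w ^ 3 := by linarith
  have h5 : a * b ≤ ((a + b) ^ 2) / 4 := by nlinarith [sq_nonneg (a - b)]
  have h6 : (a + b) ^ 2 ≤ (w ^ 4 / 2 + 81 / 20 * w ^ 3) ^ 2 := pow_le_pow_left₀ hab hs 2
  have h7 : (w ^ 4 / 2 + 81 / 20 * w ^ 3) ^ 2 = w ^ 8 / 4 + 81 / 20 * w ^ 7 +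
      6561 / 400 * w ^ 6 := by ring
  have h8 : 0 < w ^ 7 := by positivity
  linarith

theorem numeric {n a b yc xc xb yb : ℕ} (hn : 1 ≤ n) (ha : a ≤ n) (hb : b ≤ n)
    (h1 : yc * (a - tau n) ≤ n * (tau n + 1)) (h2 : xc * (b - tau n) ≤ n * (tau n + 1))
    (h3 : xb * yb ≤ (a + b) * tau n + 2 * n)
    (h4 : 2 * a + 2 * b ≤ n + 2 * yc + 2 * xb) (h5 : 2 * b + 2 * a ≤ n + 2 * xc + 2 * yb) :
    ((a * b : ℕ) : ℝ) ≤ (n : ℝ) ^ 2 / 16 + 6 * (n : ℝ) ^ (7 / 4 : ℝ) := by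
  set w : ℝ := (n : ℝ) ^ (1 / 4 : ℝ) with hw
  have hn' : (1 : ℝ) ≤ n := by exact_mod_cast hn
  have hn0 : (0 : ℝ) ≤ n := by linarith
  have hw4 : w ^ 4 = n := by
    rw [hw, ← Real.rpow_natCast, ← Real.rpow_mul hn0]
    norm_num
  have hw7 : (n : ℝ) ^ (7 / 4 : ℝ) = w ^ 7 := by
    rw [hw, ← Real.rpow_natCast, ← Real.rpow_mul hn0]
    norm_num
  have hw1 : 1 ≤ w := Real.one_le_rpow hn' (by norm_num)
  have hw8 : (n : ℝ) ^ 2 = w ^ 8 := by rw [← hw4]; ring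
  have hw2 : 1 ≤ w ^ 2 := one_le_pow₀ hw1
  have hw46 : w ^ 4 ≤ w ^ 6 := pow_le_pow_right₀ hw1 (by norm_num)
  rw [hw7, hw8]
  have hwp3 : 0 < w ^ 3 := by positivity
  have hwp7 : 0 < w ^ 7 := by positivity
  have hwp8 : 0 < w ^ 8 := by positivity
  have hτ : (tau n : ℝ) ≤ 5 / 2 * w ^ 2 := by
    unfold tau
    push_cast
    have e1 : Nat.sqrt (2 * n) * Nat.sqrt (2 * n) ≤ 2 * n := Nat.sqrt_le _
    have e2 : (Nat.sqrt (2 * n) : ℝ) ^ 2 ≤ (3 / 2 * w ^ 2) ^ 2 := by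
      have e3 : (Nat.sqrt (2 * n) : ℝ) * Nat.sqrt (2 * n) ≤ 2 * n := by exact_mod_cast e1
      rw [← hw4] at e3
      have e4 : (3 / 2 * w ^ 2) ^ 2 = 9 / 4 * w ^ 4 := by ring
      rw [e4, sq]
      have : 0 < w ^ 4 := by positivity
      linarith
    have e5 : (Nat.sqrt (2 * n) : ℝ) ≤ 3 / 2 * w ^ 2 := le_of_sq_le_sq e2 (by positivity)
    linarith
  have ha' : (a : ℝ) ≤ w ^ 4 := by rw [hw4]; exact_mod_cast ha
  have hb' : (b : ℝ) ≤ w ^ 4 := by rw [hw4]; exact_mod_cast hb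
  have ha0 : (0 : ℝ) ≤ a := Nat.cast_nonneg _
  have hb0 : (0 : ℝ) ≤ b := Nat.cast_nonneg _
  have hτ0 : (0 : ℝ) ≤ tau n := Nat.cast_nonneg _
  push_cast
  by_cases hca : (a : ℝ) < 5 * w ^ 3
  · have : (a : ℝ) * b ≤ (5 * w ^ 3) * w ^ 4 := mul_le_mul hca.le hb' hb0 (by positivity)
    have e : (5 * w ^ 3) * w ^ 4 = 5 * w ^ 7 := by ring
    linarith
  by_cases hcb : (b : ℝ) < 5 * w ^ 3
  · have : (a : ℝ) * b ≤ w ^ 4 * (5 * w ^ 3) := mul_le_mul ha' hcb.le hb0 (by positivity)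
    have e : w ^ 4 * (5 * w ^ 3) = 5 * w ^ 7 := by ring
    linarith
  push Not at hca hcb
  have h1' : (yc : ℝ) * (a - tau n) ≤ w ^ 4 * (tau n + 1) := by
    have e1 : ((yc * (a - tau n) : ℕ) : ℝ) ≤ ((n * (tau n + 1) : ℕ) : ℝ) := by exact_mod_cast h1
    push_cast at e1
    have e2 : (a : ℝ) - tau n ≤ ((a - tau n : ℕ) : ℝ) := by
      rw [sub_le_iff_le_add]
      have : a ≤ (a - tau n) + tau n := by omega
      exact_mod_cast this
    rw [hw4]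
    exact (mul_le_mul_of_nonneg_left e2 (Nat.cast_nonneg _)).trans e1
  have h2' : (xc : ℝ) * (b - tau n) ≤ w ^ 4 * (tau n + 1) := by
    have e1 : ((xc * (b - tau n) : ℕ) : ℝ) ≤ ((n * (tau n + 1) : ℕ) : ℝ) := by exact_mod_cast h2
    push_cast at e1
    have e2 : (b : ℝ) - tau n ≤ ((b - tau n : ℕ) : ℝ) := by
      rw [sub_le_iff_le_add]
      have : b ≤ (b - tau n) + tau n := by omega
      exact_mod_cast this
    rw [hw4]
    exact (mul_le_mul_of_nonneg_left e2 (Nat.cast_nonneg _)).trans e1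
  have h3' : (xb : ℝ) * yb ≤ 7 * w ^ 6 := by
    have e1 : (xb : ℝ) * yb ≤ (a + b) * tau n + 2 * n := by exact_mod_cast h3
    have e2 : ((a : ℝ) + b) * tau n ≤ (2 * w ^ 4) * (5 / 2 * w ^ 2) := by
      apply mul_le_mul (by linarith) hτ hτ0 (by positivity)
    have e3 : (2 * w ^ 4) * (5 / 2 * w ^ 2) = 5 * w ^ 6 := by ring
    rw [← hw4] at e1
    linarith
  have h4' : 2 * (a : ℝ) + 2 * b ≤ w ^ 4 + 2 * yc + 2 * xb := by rw [hw4]; exact_mod_cast h4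
  have h5' : 2 * (b : ℝ) + 2 * a ≤ w ^ 4 + 2 * xc + 2 * yb := by rw [hw4]; exact_mod_cast h5
  rcases le_total (xb : ℝ) yb with h | h
  · have h6 : (xb : ℝ) * xb ≤ 7 * w ^ 6 :=
      (mul_le_mul_of_nonneg_left h (Nat.cast_nonneg _)).trans h3'
    exact numeric_half hw1 hca (Nat.cast_nonneg _) hτ h1' h6 h4' (by linarith)
  · have h6 : (yb : ℝ) * yb ≤ 7 * w ^ 6 :=
      (mul_le_mul_of_nonneg_right h (Nat.cast_nonneg _)).trans h3'
    have := numeric_half hw1 hcb (Nat.cast_nonneg _) hτ h2' h6 h5' (by linarith)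
    linarith [mul_comm (a : ℝ) b]

theorem upper_two {G : SimpleGraph V} {X Y : Finset V} (hX : KMinimal G 2 X)
    (hY : KMinimal Gᶜ 2 Y) : ((X.card * Y.card : ℕ) : ℝ) ≤
      (Fintype.card V : ℝ) ^ 2 / 16 + 6 * (Fintype.card V : ℝ) ^ (7 / 4 : ℝ) := by
  classical
  rcases isEmpty_or_nonempty V with hV | hV
  · have : X.card = 0 := by
      rw [Finset.card_eq_zero]
      exact Finset.eq_empty_of_isEmpty X
    rw [this]
    simp only [zero_mul, Nat.cast_zero]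
    positivity
  have hn : 1 ≤ Fintype.card V := Fintype.card_pos
  have hcov := dom_or_compl G
  have hTX := T_card hX
  have hTY := T_card hY
  have c1 := claim1 (X := X) (Y := Y) _ hcov hTX hTY
  have c2 := claim1 (X := Y) (Y := X) _ (fun u v => (hcov u v).symm) hTY hTX
  have c3 := claim2 (X := X) (Y := Y) _ hcov hTX hTY
  have c4 := count_ineq (G := G) (H := Gᶜ) (X := X) (Y := Y)
  have c5 := count_ineq (G := Gᶜ) (H := G) (X := Y) (Y := X)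
  exact numeric hn (Finset.card_le_univ X) (Finset.card_le_univ Y) c1 c2 c3 c4 c5

end Pool.Agent.Helper679.NG
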