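import Mathlib

set_option autoImplicit false

/-!
`k`-minimal dominating sets, the `k`-minimal domination number `Γ_k(G)` and the Nordhaus-Gaddum
maximum `g(n,k)`.
-/

namespace Pool.Agent.Helper679.NG

variable {V : Type} [Fintype V] [DecidableEq V]

/-- `X` is a dominating set of `G`: every vertex outside `X` has a neighbour in `X`. -/
def Dominating (G : SimpleGraph V) (X : Finset V) : Prop :=
  ∀ v, v ∉ X → ∃ x ∈ X, G.Adj v x

/-- `X` is a `k`-minimal dominating set of `G`: it is dominating and, for every `1 ≤ ℓ ≤ k`, every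
`ℓ`-element `U ⊆ X` and every `(ℓ-1)`-element set `R` of vertices, `(X \ U) ∪ R` is not
dominating. -/
def KMinimal (G : SimpleGraph V) (k : ℕ) (X : Finset V) : Prop :=
  Dominating G X ∧ ∀ U R : Finset V, U ⊆ X → 1 ≤ U.card → U.card ≤ k → R.card + 1 = U.card →
    ¬ Dominating G ((X \ U) ∪ R)

/-- `Γ_k(G)`: the largest size of a `k`-minimal dominating set of `G`. -/
noncomputable def Gam (k : ℕ) (G : SimpleGraph V) : ℕ :=
  sSup {c | ∃ X : Finset V, KMinimal G k X ∧ X.card = c}

/-- `g(n,k)`: the maximum of `Γ_k(G) Γ_k(Ḡ)` over the graphs `G` on `n` vertices. -/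
noncomputable def g (n k : ℕ) : ℕ :=
  sSup {c | ∃ G : SimpleGraph (Fin n), c = Gam k G * Gam k Gᶜ}

end Pool.Agent.Helper679.NG
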