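import Mathlib
import Pool.Agent.Helper679.RMDefs

set_option autoImplicit false
set_option linter.unusedSectionVars false

namespace Pool.Agent.Helper679.RandomMaker

open scoped ENNReal
open Filter Topology

/-! ### The weight of a target set -/

section Game

variable {α : Type*} [DecidableEq α]

/-- recursion weight: probability-like bound, list of unclaimed elements in priority order -/
noncomputable def W (Q : Finset α) : List α → ℕ → ℝ
  | [], _ => 1
  | x :: t, c => if x ∈ Q then ((c : ℝ) / ((c : ℝ) + t.length)) * W Q t (c - 1) else W Q t (c + 1)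

lemma W_nonneg (Q : Finset α) (l : List α) (c : ℕ) : 0 ≤ W Q l c := by
  induction l generalizing c with
  | nil => simp [W]
  | cons x t ih =>
    rw [W]
    split_ifs
    · exact mul_nonneg (by positivity) (ih _)
    · exact ih _

/-- main inequality -/
lemma W_ineq (Q : Finset α) (l : List α) (hl : l.Nodup) (c : ℕ) (hc : 1 ≤ c) :
    ((c : ℝ) - 1) * W Q l (c - 2) + (l.map fun f => W Q (l.erase f) (c - 1)).sum ≤
      ((c : ℝ) - 1 + l.length) * W Q l c := by
  induction l generalizing c with
  | nil => simp [W]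
  | cons x t ih =>
    have hx : x ∉ t := (List.nodup_cons.1 hl).1
    have ht : t.Nodup := (List.nodup_cons.1 hl).2
    have hmap : (t.map fun f => W Q ((x :: t).erase f) (c - 1)) =
        t.map fun f => W Q (x :: t.erase f) (c - 1) := by
      apply List.map_congr_left
      intro f hf
      have : x ≠ f := fun h => hx (h ▸ hf)
      rw [List.erase_cons_tail (by simpa using this)]
    rw [List.map_cons, List.sum_cons, hmap, List.erase_cons_head]
    have hlen : ∀ f ∈ t, ((t.erase f).length : ℝ) = t.length - 1 := by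
      intro f hf
      rw [List.length_erase_of_mem hf]
      have : 1 ≤ t.length := List.length_pos_of_mem hf
      push_cast [Nat.cast_sub this]; ring
    by_cases hQ : x ∈ Q
    · -- x ∈ Q
      have h1 : (t.map fun f => W Q (x :: t.erase f) (c - 1)).sum =
          (((c - 1 : ℕ) : ℝ) / (((c - 1 : ℕ) : ℝ) + (t.length - 1))) *
            (t.map fun f => W Q (t.erase f) (c - 2)).sum := by
        rw [← List.sum_map_mul_left]
        congr 1
        apply List.map_congr_left
        intro f hf
        rw [W, if_pos hQ, hlen f hf]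
        rfl
      rw [h1]
      have hc' : ((c - 1 : ℕ) : ℝ) = (c : ℝ) - 1 := by push_cast [Nat.cast_sub hc]; ring
      rw [hc']
      have hW : W Q (x :: t) c = ((c : ℝ) / ((c : ℝ) + t.length)) * W Q t (c - 1) := by
        rw [W, if_pos hQ]
      have hpos : (0 : ℝ) < (c : ℝ) + t.length := by
        have : (1 : ℝ) ≤ c := by exact_mod_cast hc
        positivity
      have hRHS : ((c : ℝ) - 1 + ((x :: t).length : ℝ)) * W Q (x :: t) c = c * W Q t (c - 1) := by
        rw [hW, List.length_cons]
        push_cast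
        have : (c : ℝ) - 1 + (t.length + 1) = c + t.length := by ring
        rw [this, ← mul_assoc, mul_div_cancel₀ _ hpos.ne']
      rw [hRHS]
      rcases Nat.lt_or_ge c 2 with h2 | h2
      · have : c = 1 := by omega
        subst this
        simp
      · have ih' := ih ht (c - 1) (by omega)
        have e1 : c - 1 - 2 = c - 3 := by omega
        have e2 : c - 1 - 1 = c - 2 := by omega
        rw [e1, e2, hc'] at ih'
        have hW2 : W Q (x :: t) (c - 2) = (((c : ℝ) - 2) / ((c : ℝ) - 2 + t.length)) * W Q t (c - 3) := by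
          rw [W, if_pos hQ]
          have : ((c - 2 : ℕ) : ℝ) = (c : ℝ) - 2 := by push_cast [Nat.cast_sub h2]; ring
          rw [this]
          congr 1
        rw [hW2]
        have hA : (0 : ℝ) ≤ (c : ℝ) - 2 := by
          have : (2 : ℝ) ≤ c := by exact_mod_cast h2
          linarith
        have hK : (c : ℝ) - 1 + ((t.length : ℝ) - 1) = c - 2 + t.length := by ring
        rw [hK]
        set K : ℝ := (c : ℝ) - 2 + t.length with hKdef
        have hK0 : 0 ≤ K := by positivity
        set S := (t.map fun f => W Q (t.erase f) (c - 2)).sum with hS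
        have hWn := W_nonneg Q t (c - 1)
        have e3 : (c : ℝ) - 1 - 1 = c - 2 := by ring
        rw [e3] at ih'
        have hcalc : ((c : ℝ) - 1) * ((((c : ℝ) - 2) / K) * W Q t (c - 3)) +
            (W Q t (c - 1) + (((c : ℝ) - 1) / K) * S) =
            W Q t (c - 1) + (((c : ℝ) - 1) / K) * (((c : ℝ) - 2) * W Q t (c - 3) + S) := by ring
        rw [hcalc]
        have h3 : (((c : ℝ) - 1) / K) * (((c : ℝ) - 2) * W Q t (c - 3) + S) ≤
            (((c : ℝ) - 1) / K) * (K * W Q t (c - 1)) := by
          apply mul_le_mul_of_nonneg_left ih'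
          apply div_nonneg _ hK0
          linarith
        have h4 : (((c : ℝ) - 1) / K) * (K * W Q t (c - 1)) ≤ ((c : ℝ) - 1) * W Q t (c - 1) := by
          rcases hK0.eq_or_lt with h0 | h0
          · rw [← h0]; simp
            exact mul_nonneg (by linarith) hWn
          · rw [← mul_assoc, div_mul_cancel₀ _ h0.ne']
        linarith
    · -- x ∉ Q
      have h1 : (t.map fun f => W Q (x :: t.erase f) (c - 1)).sum =
            (t.map fun f => W Q (t.erase f) c).sum := by
        congr 1
        apply List.map_congr_left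
        intro f hf
        rw [W, if_neg hQ, Nat.sub_add_cancel hc]
      rw [h1]
      have ih' := ih ht (c + 1) (by omega)
      have e1 : c + 1 - 2 = c - 1 := by omega
      have e2 : c + 1 - 1 = c := by omega
      rw [e1, e2] at ih'
      have hW : W Q (x :: t) c = W Q t (c + 1) := by rw [W, if_neg hQ]
      rw [hW, List.length_cons]
      push_cast at ih' ⊢
      have hW2 : ((c : ℝ) - 1) * W Q (x :: t) (c - 2) = ((c : ℝ) - 1) * W Q t (c - 1) := by
        rcases Nat.lt_or_ge c 2 with h2 | h2
        · have : c = 1 := by omega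
          subst this; simp
        · rw [W, if_neg hQ]
          congr 2
          omega
      rw [hW2]
      have e4 : (c : ℝ) - 1 + (t.length + 1) = c + 1 - 1 + t.length := by ring
      rw [e4]
      refine le_trans (le_of_eq ?_) ih'
      ring

lemma W_nil (Q : Finset α) (c : ℕ) : W Q [] c = 1 := rfl

lemma W_cons (Q : Finset α) (x : α) (t : List α) (c : ℕ) : W Q (x :: t) c =
    if x ∈ Q then ((c : ℝ) / ((c : ℝ) + t.length)) * W Q t (c - 1) else W Q t (c + 1) := rfl

lemma play_succ (σ : List α → α) (n : ℕ) (h : List α) (M U : Finset α) (hU : U.Nonempty)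
    (S : Set (Finset α)) :
    (play σ (n + 1) h M U).toOuterMeasure S =
      ∑ e ∈ U, (U.card : ℝ≥0∞)⁻¹ *
        (play σ n (σ (e :: h) :: e :: h) (insert e M)
          ((U.erase e).erase (σ (e :: h)))).toOuterMeasure S := by
  rw [play, dif_pos hU, PMF.toOuterMeasure_bind_apply]
  rw [tsum_eq_sum (s := U)]
  · apply Finset.sum_congr rfl
    intro e he
    rw [PMF.uniformOfFinset_apply, if_pos he]
  · intro e he
    rw [PMF.uniformOfFinset_apply, if_neg he, zero_mul]

lemma play_empty (σ : List α → α) (n : ℕ) (h : List α) (M : Finset α) :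
    play σ n h M ∅ = PMF.pure M := by
  cases n with
  | zero => rfl
  | succ n => rw [play, dif_neg (by simp)]

lemma toOuterMeasure_le_one (p : PMF (Finset α)) (S : Set (Finset α)) :
    p.toOuterMeasure S ≤ 1 := by
  rw [PMF.toOuterMeasure_apply, ← p.tsum_coe]
  exact ENNReal.tsum_le_tsum fun x => Set.indicator_le_self' (fun _ _ => zero_le) x

lemma play_zero (σ : List α → α) (Q : Finset α) (b : α) (hb : b ∈ Q) (n : ℕ) :
    ∀ (h : List α) (M U : Finset α), b ∉ M → b ∉ U →
      (play σ n h M U).toOuterMeasure {S | Q ⊆ S} = 0 := by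
  induction n with
  | zero =>
    intro h M U hM hU
    rw [play, PMF.toOuterMeasure_pure_apply, if_neg]
    exact fun hh => hM (hh hb)
  | succ n ih =>
    intro h M U hM hU
    by_cases hne : U.Nonempty
    · rw [play_succ σ n h M U hne]
      apply Finset.sum_eq_zero
      intro e he
      rw [ih, mul_zero]
      · rw [Finset.mem_insert, not_or]
        exact ⟨fun h => hU (h ▸ he), hM⟩
      · intro hh
        exact hU (Finset.mem_of_mem_erase (Finset.mem_of_mem_erase hh))
    · rw [play, dif_neg hne, PMF.toOuterMeasure_pure_apply, if_neg]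
      exact fun hh => hM (hh hb)

/-- Breaker's strategy: claim the first unclaimed element of a fixed list -/
def prio (l : List α) (d : α) (h : List α) : α := ((l.filter (· ∉ h)).head?).getD d

lemma filter_cons_eq (l : List α) (hl : l.Nodup) (e : α) (h : List α) :
    l.filter (· ∉ e :: h) = (l.filter (· ∉ h)).erase e := by
  rw [List.Nodup.erase_eq_filter (hl.filter _), List.filter_filter]
  apply List.filter_congr
  intro x _
  simp only [List.mem_cons, not_or]
  by_cases hxe : x = e <;> by_cases hxh : x ∈ h <;> simp [hxe, hxh]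

theorem play_le (l : List α) (hl : l.Nodup) (d : α) (Q : Finset α) (n : ℕ) :
    ∀ (h : List α) (M U : Finset α), (∀ x ∈ M, x ∈ h) → U = (l.filter (· ∉ h)).toFinset →
      U.card ≤ n → (play (prio l d) n h M U).toOuterMeasure {S | Q ⊆ S} ≤
        ENNReal.ofReal (W Q (l.filter (· ∉ h)) 1) := by
  induction n with
  | zero =>
    intro h M U hM hU hn
    have h0 : U = ∅ := Finset.card_eq_zero.1 (Nat.le_zero.1 hn)
    have h1 : l.filter (· ∉ h) = [] := by
      rw [h0] at hU
      exact List.toFinset_eq_empty_iff _ |>.1 hU.symm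
    rw [h1, W_nil, ENNReal.ofReal_one]
    exact toOuterMeasure_le_one _ _
  | succ n ih =>
    intro h M U hM hU hn
    by_cases hne : U.Nonempty
    swap
    · have h0 : U = ∅ := Finset.not_nonempty_iff_eq_empty.1 hne
      have h1 : l.filter (· ∉ h) = [] := by
        rw [h0] at hU
        exact List.toFinset_eq_empty_iff _ |>.1 hU.symm
      rw [h1, W_nil, ENNReal.ofReal_one]
      exact toOuterMeasure_le_one _ _
    rw [play_succ _ n h M U hne]
    set lh := l.filter (· ∉ h) with hlh
    have hlhn : lh.Nodup := hl.filter _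
    have key : ∀ e ∈ U, (play (prio l d) n (prio l d (e :: h) :: e :: h) (insert e M)
          ((U.erase e).erase (prio l d (e :: h)))).toOuterMeasure {S | Q ⊆ S} ≤
        ENNReal.ofReal (W Q (lh.erase e) 0) := by
      intro e he
      have he' : e ∈ lh := by rw [hU] at he; exact List.mem_toFinset.1 he
      have hf1 : l.filter (· ∉ e :: h) = lh.erase e := filter_cons_eq l hl e h
      have hUe : U.erase e = (lh.erase e).toFinset := by
        ext x
        rw [Finset.mem_erase, hU, List.mem_toFinset, List.mem_toFinset, hlhn.mem_erase_iff]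
      rcases hcase : lh.erase e with _ | ⟨b, t⟩
      · rw [W_nil, ENNReal.ofReal_one]
        exact toOuterMeasure_le_one _ _
      · have hσ : prio l d (e :: h) = b := by
          rw [prio, hf1, hcase]; rfl
        rw [hσ]
        have hbt : (b :: t).Nodup := hcase ▸ hlhn.erase e
        have hbl : b ∈ lh.erase e := by rw [hcase]; exact List.mem_cons_self
        have hbe : b ≠ e := (hlhn.mem_erase_iff.1 hbl).1
        have hblh : b ∈ lh := (hlhn.mem_erase_iff.1 hbl).2
        have hbh : b ∉ h := by
          have := (List.mem_filter.1 hblh).2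
          simpa using this
        rw [W_cons]
        by_cases hbQ : b ∈ Q
        · rw [if_pos hbQ]
          rw [play_zero _ Q b hbQ]
          · exact zero_le
          · rw [Finset.mem_insert, not_or]
            exact ⟨hbe, fun hh => hbh (hM b hh)⟩
          · simp
        · rw [if_neg hbQ]
          have hf2 : l.filter (· ∉ b :: e :: h) = t := by
            rw [filter_cons_eq l hl b (e :: h), hf1, hcase, List.erase_cons_head]
          have := ih (b :: e :: h) (insert e M) ((U.erase e).erase b) ?_ ?_ ?_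
          · rw [hf2] at this
            exact this
          · intro x hx
            rcases Finset.mem_insert.1 hx with hx | hx
            · simp [hx]
            · have := hM x hx
              simp [this]
          · rw [hf2, hUe, hcase]
            ext x
            rw [Finset.mem_erase, List.mem_toFinset, List.mem_toFinset, List.mem_cons]
            constructor
            · rintro ⟨h1, h2 | h2⟩
              · exact absurd h2 h1
              · exact h2
            · intro hx
              exact ⟨fun hh => (List.nodup_cons.1 hbt).1 (hh ▸ hx), Or.inr hx⟩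
          · have h1 : (U.erase e).card + 1 = U.card := Finset.card_erase_add_one he
            have h2 : ((U.erase e).erase b).card ≤ (U.erase e).card := Finset.card_erase_le
            omega
    have hcard : U.card = lh.length := by rw [hU, List.toFinset_card_of_nodup hlhn]
    have hineq := W_ineq Q lh hlhn 1 le_rfl
    simp only [Nat.cast_one, sub_self, zero_mul, zero_add, Nat.sub_self] at hineq
    rw [← List.sum_toFinset _ hlhn, ← hU] at hineq
    have hcpos : (0 : ℝ) < lh.length := by
      rw [← hcard]; exact_mod_cast hne.card_pos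
    calc ∑ e ∈ U, (U.card : ℝ≥0∞)⁻¹ *
        (play (prio l d) n (prio l d (e :: h) :: e :: h) (insert e M)
          ((U.erase e).erase (prio l d (e :: h)))).toOuterMeasure {S | Q ⊆ S}
        ≤ ∑ e ∈ U, (U.card : ℝ≥0∞)⁻¹ * ENNReal.ofReal (W Q (lh.erase e) 0) := by
          apply Finset.sum_le_sum
          intro e he
          gcongr
          exact key e he
      _ = ENNReal.ofReal ((lh.length : ℝ)⁻¹ * ∑ e ∈ U, W Q (lh.erase e) 0) := by
          rw [← Finset.mul_sum, ENNReal.ofReal_mul (by positivity), ENNReal.ofReal_sum_of_nonneg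
            (fun e _ => W_nonneg _ _ _), ENNReal.ofReal_inv_of_pos hcpos, hcard,
            ENNReal.ofReal_natCast]
      _ ≤ ENNReal.ofReal (W Q lh 1) := by
          apply ENNReal.ofReal_le_ofReal
          rw [inv_mul_le_iff₀ hcpos]
          exact hineq

/-- plain product bound -/
noncomputable def D (Q : Finset α) (K : ℝ) : List α → ℕ → ℝ
  | [], _ => 1
  | x :: t, a => if x ∈ Q then ((a : ℝ) / K) * D Q K t (a + 1) else D Q K t (a + 1)

lemma D_nonneg (Q : Finset α) (K : ℝ) (hK : 0 ≤ K) (l : List α) (a : ℕ) : 0 ≤ D Q K l a := by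
  induction l generalizing a with
  | nil => simp [D]
  | cons x t ih =>
    rw [D]
    split_ifs
    · exact mul_nonneg (by positivity) (ih _)
    · exact ih _

lemma W_le_D (Q : Finset α) (l : List α) (c a : ℕ) (hca : c ≤ a) (ha : 1 ≤ a) :
    W Q l c ≤ D Q ((a : ℝ) - 1 + l.length) l a := by
  induction l generalizing c a with
  | nil => simp [W, D]
  | cons x t ih =>
    rw [W, D]
    have e : (a : ℝ) - 1 + ((x :: t).length : ℝ) = ((a + 1 : ℕ) : ℝ) - 1 + t.length := by
      rw [List.length_cons]; push_cast; ring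
    rw [e]
    have ha0 : (1 : ℝ) ≤ a := by exact_mod_cast ha
    split_ifs
    · apply mul_le_mul _ (ih (c - 1) (a + 1) (by omega) (by omega)) (W_nonneg _ _ _)
      · apply div_nonneg (by positivity)
        push_cast
        have : (0 : ℝ) ≤ t.length := by positivity
        linarith
      · have h1 : (c : ℝ) ≤ a := by exact_mod_cast hca
        have e2 : ((a + 1 : ℕ) : ℝ) - 1 + t.length = a + t.length := by push_cast; ring
        rw [e2]
        have ht : (0 : ℝ) ≤ t.length := by positivity
        rcases (by positivity : (0 : ℝ) ≤ (c : ℝ) + t.length).eq_or_lt with h0 | h0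
        · rw [← h0, div_zero]; positivity
        · rw [div_le_div_iff₀ h0 (by linarith)]
          nlinarith
    · exact ih (c + 1) (a + 1) (by omega) (by omega)

end Game


/-- circular distance on `{0, ..., N-1}` -/
def cd (N : ℕ) (x y : ℕ) : ℕ := min ((x - y) + (y - x)) (N - ((x - y) + (y - x)))

lemma cd_comm (N x y : ℕ) : cd N x y = cd N y x := by
  unfold cd; rw [add_comm]

lemma cd_pos {N x y : ℕ} (hx : x < N) (hy : y < N) (hxy : x ≠ y) : 1 ≤ cd N x y := by
  unfold cd; omega

lemma cd_le {N x y : ℕ} (hx : x < N) (hy : y < N) : cd N x y ≤ N / 2 := by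
  unfold cd; omega

/-- overlap count -/
def ov (N k x y : ℕ) : ℕ :=
  ((Finset.range k ×ˢ Finset.range k).filter fun p =>
    (((x : ℕ) : ZMod N) - (p.1 : ℕ) = ((y : ℕ) : ZMod N) - (p.2 : ℕ))).card

lemma zmod_eq_iff (N : ℕ) (x y u v : ℕ) : ((x : ZMod N) - (u : ℕ) = ((y : ℕ) : ZMod N) - (v : ℕ)) ↔
    (N : ℤ) ∣ ((y : ℤ) - v) - (x - u) := by
  have := ZMod.intCast_eq_intCast_iff_dvd_sub ((x : ℤ) - u) ((y : ℤ) - v) N
  push_cast at this
  exact this

lemma ov_lt {N k x y : ℕ} (hx : x < N) (hy : y < N) (hxy : x < y) (hk : 2 * k ≤ N) :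
    ov N k x y ≤ k - cd N x y := by
  unfold ov
  have key : ∀ u v : ℕ, u < k → v < k → ((x : ZMod N) - (u : ℕ) = ((y : ℕ) : ZMod N) - (v : ℕ)) →
      (v = u + (y - x)) ∨ (u = v + (N - (y - x))) := by
    intro u v hu hv h
    rw [zmod_eq_iff] at h
    obtain ⟨c, hc⟩ := h
    have hN : (0 : ℤ) < N := by omega
    have hc1 : c < 2 := by
      by_contra hcon
      push Not at hcon
      have : (N : ℤ) * 2 ≤ N * c := by nlinarith
      omega
    have hc0 : -1 < c := by
      by_contra hcon
      push Not at hcon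
      have : (N : ℤ) * c ≤ N * (-1) := by nlinarith
      omega
    have : c = 0 ∨ c = 1 := by omega
    rcases this with rfl | rfl
    · left; omega
    · right; omega
  by_cases hD : y - x < k
  · have hcd : cd N x y = y - x := by unfold cd; omega
    rw [hcd]
    have hsub : ((Finset.range k ×ˢ Finset.range k).filter fun p =>
        (((x : ℕ) : ZMod N) - (p.1 : ℕ) = ((y : ℕ) : ZMod N) - (p.2 : ℕ))) ⊆
        (Finset.range (k - (y - x))).image fun u => (u, u + (y - x)) := by
      intro p hp
      rw [Finset.mem_filter, Finset.mem_product, Finset.mem_range, Finset.mem_range] at hp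
      obtain ⟨⟨h1, h2⟩, h3⟩ := hp
      rcases key p.1 p.2 h1 h2 h3 with h | h
      · rw [Finset.mem_image]
        refine ⟨p.1, Finset.mem_range.2 (by omega), ?_⟩
        ext <;> simp [h]
      · omega
    calc _ ≤ _ := Finset.card_le_card hsub
      _ ≤ _ := Finset.card_image_le
      _ = _ := Finset.card_range _
  · have hsub : ((Finset.range k ×ˢ Finset.range k).filter fun p =>
        (((x : ℕ) : ZMod N) - (p.1 : ℕ) = ((y : ℕ) : ZMod N) - (p.2 : ℕ))) ⊆
        (Finset.range (k - (N - (y - x)))).image fun v => (v + (N - (y - x)), v) := by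
      intro p hp
      rw [Finset.mem_filter, Finset.mem_product, Finset.mem_range, Finset.mem_range] at hp
      obtain ⟨⟨h1, h2⟩, h3⟩ := hp
      rcases key p.1 p.2 h1 h2 h3 with h | h
      · omega
      · rw [Finset.mem_image]
        refine ⟨p.2, Finset.mem_range.2 (by omega), ?_⟩
        ext <;> simp [h]
    calc _ ≤ _ := Finset.card_le_card hsub
      _ ≤ _ := Finset.card_image_le
      _ = k - (N - (y - x)) := Finset.card_range _
      _ ≤ _ := by unfold cd; omega

lemma ov_comm (N k x y : ℕ) : ov N k x y = ov N k y x := by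
  unfold ov
  apply Finset.card_bij (fun p _ => (p.2, p.1))
  · intro p hp
    rw [Finset.mem_filter, Finset.mem_product] at hp ⊢
    exact ⟨⟨hp.1.2, hp.1.1⟩, hp.2.symm⟩
  · intro p _ p' _ h
    simp only [Prod.mk.injEq] at h
    ext
    · exact h.2
    · exact h.1
  · intro p hp
    refine ⟨(p.2, p.1), ?_, rfl⟩
    rw [Finset.mem_filter, Finset.mem_product] at hp ⊢
    exact ⟨⟨hp.1.2, hp.1.1⟩, hp.2.symm⟩

lemma ov_le {N k x y : ℕ} (hx : x < N) (hy : y < N) (hxy : x ≠ y) (hk : 2 * k ≤ N) :
    ov N k x y ≤ k - cd N x y := by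
  rcases Nat.lt_or_gt_of_ne hxy with h | h
  · exact ov_lt hx hy h hk
  · rw [ov_comm, cd_comm]
    exact ov_lt hy hx h hk

lemma ov_self {N k x : ℕ} (hN : 0 < N) (hk : 2 * k ≤ N) : ov N k x x ≤ k := by
  unfold ov
  have hsub : ((Finset.range k ×ˢ Finset.range k).filter fun p =>
      (((x : ℕ) : ZMod N) - (p.1 : ℕ) = ((x : ℕ) : ZMod N) - (p.2 : ℕ))) ⊆
      (Finset.range k).image fun u => (u, u) := by
    intro p hp
    rw [Finset.mem_filter, Finset.mem_product, Finset.mem_range, Finset.mem_range] at hp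
    obtain ⟨⟨h1, h2⟩, h3⟩ := hp
    rw [zmod_eq_iff] at h3
    obtain ⟨c, hc⟩ := h3
    have hN : (0 : ℤ) < N := by omega
    have hc1 : c < 1 := by
      by_contra hcon
      push Not at hcon
      have : (N : ℤ) * 1 ≤ N * c := by nlinarith
      omega
    have hc0 : -1 < c := by
      by_contra hcon
      push Not at hcon
      have : (N : ℤ) * c ≤ N * (-1) := by nlinarith
      omega
    have : c = 0 := by omega
    subst this
    rw [Finset.mem_image]
    refine ⟨p.1, Finset.mem_range.2 h1, ?_⟩
    ext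
    · rfl
    · simp; omega
  calc _ ≤ _ := Finset.card_le_card hsub
    _ ≤ _ := Finset.card_image_le
    _ = k := Finset.card_range _

/-- Cauchy-Schwarz on windows -/
lemma window (N : ℕ) (hN : 0 < N) (S : Finset (Fin N)) (k : ℕ) :
    ((S.card : ℝ) * k) ^ 2 ≤ N * ∑ x ∈ S, ∑ y ∈ S, (ov N k x y : ℝ) := by
  have : NeZero N := ⟨hN.ne'⟩
  set g : Fin N × ℕ → ZMod N := fun p => ((p.1 : ℕ) : ZMod N) - (p.2 : ℕ) with hg
  set P := S ×ˢ Finset.range k with hP
  have h1 : ((P.card : ℕ) : ℝ) = ∑ a : ZMod N, ((P.filter fun p => g p = a).card : ℝ) := by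
    rw [Finset.card_eq_sum_card_fiberwise (f := g) (t := Finset.univ) (fun _ _ => Finset.mem_coe.2 (Finset.mem_univ _))]
    push_cast; rfl
  have h2 : ∑ a : ZMod N, ((P.filter fun p => g p = a).card : ℝ) ^ 2 =
      ∑ x ∈ S, ∑ y ∈ S, (ov N k x y : ℝ) := by
    have e1 : ∀ a : ZMod N, ((P.filter fun p => g p = a).card : ℝ) ^ 2 =
        ∑ p ∈ P, ∑ p' ∈ P, if g p = a ∧ g p' = a then (1 : ℝ) else 0 := by
      intro a
      rw [sq, Finset.card_filter]
      push_cast
      rw [Finset.sum_mul_sum]
      apply Finset.sum_congr rfl; intro p _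
      apply Finset.sum_congr rfl; intro p' _
      by_cases h : g p = a <;> by_cases h' : g p' = a <;> simp [h, h']
    simp_rw [e1]
    rw [Finset.sum_comm]
    have e2 : ∀ p ∈ P, (∑ a : ZMod N, ∑ p' ∈ P, if g p = a ∧ g p' = a then (1 : ℝ) else 0) =
        ∑ p' ∈ P, if g p = g p' then (1 : ℝ) else 0 := by
      intro p _
      rw [Finset.sum_comm]
      apply Finset.sum_congr rfl; intro p' _
      rw [Finset.sum_eq_single (g p)]
      · by_cases h : g p = g p'
        · rw [if_pos ⟨rfl, h.symm⟩, if_pos h]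
        · rw [if_neg (fun hh => h hh.2.symm), if_neg h]
      · intro b _ hb
        rw [if_neg (fun hh => hb hh.1.symm)]
      · intro h; exact absurd (Finset.mem_univ _) h
    rw [Finset.sum_congr rfl e2, hP, Finset.sum_product]
    apply Finset.sum_congr rfl; intro x _
    have e3 : ∀ u ∈ Finset.range k, (∑ p' ∈ S ×ˢ Finset.range k,
        if g (x, u) = g p' then (1 : ℝ) else 0) = ∑ y ∈ S, ∑ v ∈ Finset.range k,
        if g (x, u) = g (y, v) then (1 : ℝ) else 0 := by
      intro u _
      rw [Finset.sum_product]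
    rw [Finset.sum_congr rfl e3, Finset.sum_comm]
    apply Finset.sum_congr rfl; intro y _
    rw [ov, Finset.card_filter, Finset.sum_product]
    push_cast
    rfl
  have h3 := sq_sum_le_card_mul_sum_sq (s := (Finset.univ : Finset (ZMod N)))
    (f := fun a => ((P.filter fun p => g p = a).card : ℝ))
  rw [← h1, h2, Finset.card_univ, ZMod.card, hP, Finset.card_product, Finset.card_range] at h3
  push_cast at h3
  exact h3

/-- sum over ordered pairs of distinct points -/
lemma offdiag_window (N : ℕ) (hN : 0 < N) (S : Finset (Fin N)) (k : ℕ) (hk : 2 * k ≤ N) :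
    ((S.card : ℝ) * k) ^ 2 / N - S.card * k ≤ ∑ p ∈ S.offDiag, ((k - cd N p.1 p.2 : ℕ) : ℝ) := by
  have h := window N hN S k
  have hN' : (0 : ℝ) < N := by exact_mod_cast hN
  have h1 : ∑ x ∈ S, ∑ y ∈ S, (ov N k x y : ℝ) = ∑ p ∈ S ×ˢ S, (ov N k p.1 p.2 : ℝ) := by
    rw [Finset.sum_product]
  have h2 : ∑ p ∈ S ×ˢ S, (ov N k p.1 p.2 : ℝ) =
      ∑ p ∈ S.diag, (ov N k p.1 p.2 : ℝ) + ∑ p ∈ S.offDiag, (ov N k p.1 p.2 : ℝ) := by
    rw [← Finset.diag_union_offDiag, Finset.sum_union (Finset.disjoint_diag_offDiag _)]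
  have h3 : ∑ p ∈ S.diag, (ov N k p.1 p.2 : ℝ) ≤ S.card * k := by
    have : ∀ p ∈ S.diag, (ov N k p.1 p.2 : ℝ) ≤ k := by
      intro p hp
      rw [Finset.mem_diag] at hp
      rw [← hp.2]
      exact_mod_cast ov_self hN hk
    calc _ ≤ ∑ p ∈ S.diag, (k : ℝ) := Finset.sum_le_sum this
      _ = _ := by rw [Finset.sum_const, Finset.diag_card, nsmul_eq_mul]
  have h4 : ∑ p ∈ S.offDiag, (ov N k p.1 p.2 : ℝ) ≤
      ∑ p ∈ S.offDiag, ((k - cd N p.1 p.2 : ℕ) : ℝ) := by
    apply Finset.sum_le_sum
    intro p hp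
    rw [Finset.mem_offDiag] at hp
    exact_mod_cast ov_le p.1.2 p.2.2 (fun hh => hp.2.2 (Fin.ext hh)) hk
  rw [h1, h2] at h
  have h5 : ((S.card : ℝ) * k) ^ 2 / N ≤
      ∑ p ∈ S.diag, (ov N k p.1 p.2 : ℝ) + ∑ p ∈ S.offDiag, (ov N k p.1 p.2 : ℝ) := by
    rw [div_le_iff₀ hN']; linarith
  linarith

/-- the kernel -/
noncomputable def G (M d : ℕ) : ℝ :=
  (∑ k ∈ Finset.range M, ((k - d : ℕ) : ℝ) / (k * (k + 1))) + ((M - d : ℕ) : ℝ) / M

lemma G_le_log (d : ℕ) (hd : 1 ≤ d) (M : ℕ) (hM : d ≤ M) : G M d ≤ Real.log (M / d) := by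
  induction M, hM using Nat.le_induction with
  | base =>
    have : (d : ℝ) ≠ 0 := by positivity
    unfold G
    rw [div_self this, Real.log_one, Finset.sum_eq_zero]
    · simp
    · intro k hk
      rw [Finset.mem_range] at hk
      rw [Nat.sub_eq_zero_of_le hk.le]; simp
  | succ M hM ih =>
    have hd0 : (0 : ℝ) < d := by positivity
    have hM0 : (0 : ℝ) < M := lt_of_lt_of_le hd0 (by exact_mod_cast hM)
    have h1 : G (M + 1) d = G M d + 1 / (M + 1) := by
      unfold G
      rw [Finset.sum_range_succ]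
      have e1 : ((M - d : ℕ) : ℝ) = M - d := by push_cast [Nat.cast_sub hM]; ring
      have e2 : ((M + 1 - d : ℕ) : ℝ) = M + 1 - d := by
        rw [Nat.cast_sub (by omega)]; push_cast; ring
      rw [e1, e2]
      push_cast
      field_simp
      ring
    rw [h1]
    have h2 : Real.log (((M + 1 : ℕ) : ℝ) / d) = Real.log (M / d) + Real.log ((M + 1) / M) := by
      rw [← Real.log_mul (by positivity) (by positivity)]
      congr 1
      push_cast
      field_simp
    rw [h2]
    have h3 : (1 : ℝ) / (M + 1) ≤ Real.log ((M + 1) / M) := by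
      have := Real.one_sub_inv_le_log_of_pos (x := ((M : ℝ) + 1) / M) (by positivity)
      refine le_trans (le_of_eq ?_) this
      field_simp
      ring
    linarith

lemma energy (N : ℕ) (hN : 2 ≤ N) (S : Finset (Fin N)) (K : ℕ) (hK : 1 ≤ K) (hKM : K ≤ N / 2) :
    (((N / 2 : ℕ) : ℝ) - K) * ((S.card : ℝ) ^ 2 / N - ((S.card : ℝ) ^ 2 / N + S.card) / (K + 1)) +
      ((S.card : ℝ) ^ 2 * (N / 2 : ℕ) / N - S.card) ≤
      ∑ p ∈ S.offDiag, Real.log (((N / 2 : ℕ) : ℝ) / cd N p.1 p.2) := by
  set M := N / 2 with hM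
  have hM1 : 1 ≤ M := by omega
  have hM0 : (0 : ℝ) < M := by positivity
  have hN0 : (0 : ℝ) < N := by positivity
  set q : ℝ := (S.card : ℝ) with hq
  have hq0 : 0 ≤ q := by positivity
  have h1 : ∑ p ∈ S.offDiag, G M (cd N p.1 p.2) ≤
      ∑ p ∈ S.offDiag, Real.log ((M : ℝ) / cd N p.1 p.2) := by
    apply Finset.sum_le_sum
    intro p hp
    rw [Finset.mem_offDiag] at hp
    exact G_le_log _ (cd_pos p.1.2 p.2.2 (fun hh => hp.2.2 (Fin.ext hh))) M
      (cd_le p.1.2 p.2.2)
  refine le_trans ?_ h1
  have h2 : ∑ p ∈ S.offDiag, G M (cd N p.1 p.2) =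
      (∑ k ∈ Finset.range M, (∑ p ∈ S.offDiag, ((k - cd N p.1 p.2 : ℕ) : ℝ)) / (k * (k + 1))) +
      (∑ p ∈ S.offDiag, ((M - cd N p.1 p.2 : ℕ) : ℝ)) / M := by
    unfold G
    rw [Finset.sum_add_distrib, Finset.sum_comm, Finset.sum_div]
    congr 1
    apply Finset.sum_congr rfl
    intro k _
    rw [Finset.sum_div]
  rw [h2]
  have h3 : q ^ 2 * M / N - q ≤ (∑ p ∈ S.offDiag, ((M - cd N p.1 p.2 : ℕ) : ℝ)) / M := by
    rw [le_div_iff₀ hM0]
    have := offdiag_window N (by omega) S M (by omega)
    refine le_trans (le_of_eq ?_) this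
    rw [← hq]
    field_simp
  have h4 : (M - K : ℝ) * (q ^ 2 / N - (q ^ 2 / N + q) / (K + 1)) ≤
      ∑ k ∈ Finset.range M, (∑ p ∈ S.offDiag, ((k - cd N p.1 p.2 : ℕ) : ℝ)) / (k * (k + 1)) := by
    have h5 : ∑ k ∈ Finset.Ico K M, (q ^ 2 / N - (q ^ 2 / N + q) / (K + 1)) ≤
        ∑ k ∈ Finset.Ico K M, (∑ p ∈ S.offDiag, ((k - cd N p.1 p.2 : ℕ) : ℝ)) / (k * (k + 1)) := by
      apply Finset.sum_le_sum
      intro k hk
      rw [Finset.mem_Ico] at hk
      have hk0 : (1 : ℝ) ≤ k := by exact_mod_cast le_trans hK hk.1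
      have hkK : (K : ℝ) ≤ k := by exact_mod_cast hk.1
      have hw := offdiag_window N (by omega) S k (by omega)
      rw [le_div_iff₀ (by positivity)]
      refine le_trans ?_ hw
      rw [← hq]
      have e1 : (q * k) ^ 2 / N - q * k = (q ^ 2 / N - (q ^ 2 / N + q) / (k + 1)) * (k * (k + 1)) := by
        field_simp
        ring
      rw [e1]
      apply mul_le_mul_of_nonneg_right _ (by positivity)
      have : (q ^ 2 / N + q) / (k + 1) ≤ (q ^ 2 / N + q) / (K + 1) := by
        apply div_le_div_of_nonneg_left (by positivity) (by positivity)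
        linarith
      linarith
    rw [Finset.sum_const, Nat.card_Ico, nsmul_eq_mul, Nat.cast_sub hKM] at h5
    refine le_trans h5 ?_
    apply Finset.sum_le_sum_of_subset_of_nonneg
    · intro k hk
      rw [Finset.mem_Ico] at hk
      exact Finset.mem_range.2 hk.2
    · intro k _ _
      apply div_nonneg _ (by positivity)
      exact Finset.sum_nonneg fun p _ => by positivity
  linarith


section Order

variable {α : Type*} [DecidableEq α]

lemma D_le_prod (Q : Finset α) (K : ℝ) (hK : 0 < K) (r : α → ℝ) (l : List α) (hl : l.Nodup)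
    (a : ℕ) (hr : ∀ (i : ℕ) (h : i < l.length), ((a + i : ℕ) : ℝ) ≤ r (l[i])) :
    D Q K l a ≤ ∏ x ∈ Q.filter (· ∈ l), r x / K := by
  induction l generalizing a with
  | nil => simp [D]
  | cons x t ih =>
    have hx : x ∉ t := (List.nodup_cons.1 hl).1
    have ht : t.Nodup := (List.nodup_cons.1 hl).2
    have ih' := ih ht (a + 1) (by
      intro i hi
      have := hr (i + 1) (by simpa using hi)
      simp only [List.getElem_cons_succ] at this
      refine le_trans (le_of_eq ?_) this
      push_cast; ring)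
    have h0 : (a : ℝ) ≤ r x := by
      have := hr 0 (by simp)
      simpa using this
    rw [D]
    by_cases hQ : x ∈ Q
    · rw [if_pos hQ]
      have he : Q.filter (· ∈ x :: t) = insert x (Q.filter (· ∈ t)) := by
        ext y
        simp only [Finset.mem_filter, List.mem_cons, Finset.mem_insert]
        constructor
        · rintro ⟨h1, h2 | h2⟩
          · exact Or.inl h2
          · exact Or.inr ⟨h1, h2⟩
        · rintro (h1 | h1)
          · exact ⟨h1 ▸ hQ, Or.inl h1⟩
          · exact ⟨h1.1, Or.inr h1.2⟩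
      rw [he, Finset.prod_insert (by simp [hx])]
      apply mul_le_mul _ ih' (D_nonneg _ _ hK.le _ _)
      · exact div_nonneg (le_trans (by positivity) h0) hK.le
      · exact div_le_div_of_nonneg_right h0 hK.le
    · rw [if_neg hQ]
      have he : Q.filter (· ∈ x :: t) = Q.filter (· ∈ t) := by
        ext y
        simp only [Finset.mem_filter, List.mem_cons]
        constructor
        · rintro ⟨h1, h2 | h2⟩
          · exact absurd (h2 ▸ h1) hQ
          · exact ⟨h1, h2⟩
        · rintro h1
          exact ⟨h1.1, Or.inr h1.2⟩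
      rw [he]
      exact ih'

lemma index_le (f : α → ℕ) (l : List α) (hl : l.Nodup) (hs : l.Pairwise fun a b => f a ≤ f b)
    (i : ℕ) (hi : i < l.length) : i + 1 ≤ (l.toFinset.filter fun y => f y ≤ f l[i]).card := by
  have h1 : (l.take (i + 1)).Nodup := hl.sublist (List.take_sublist _ _)
  have h2 : (l.take (i + 1)).toFinset.card = i + 1 := by
    rw [List.toFinset_card_of_nodup h1, List.length_take]
    omega
  rw [← h2]
  apply Finset.card_le_card
  intro y hy
  rw [List.mem_toFinset] at hy
  rw [Finset.mem_filter, List.mem_toFinset]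
  refine ⟨List.mem_of_mem_take hy, ?_⟩
  obtain ⟨j, hj, rfl⟩ := List.mem_iff_getElem.1 hy
  rw [List.length_take] at hj
  rw [List.getElem_take]
  rcases Nat.lt_or_ge j i with h | h
  · exact List.pairwise_iff_getElem.1 hs j i (by omega) hi h
  · have : j = i := by omega
    subst this
    exact le_rfl

end Order

section Clique

/-- circular distance of the two ends of an edge -/
def ecd (N : ℕ) : Sym2 (Fin N) → ℕ :=
  Sym2.lift ⟨fun x y => cd N x y, fun x y => cd_comm N x y⟩

lemma ecd_mk (N : ℕ) (x y : Fin N) : ecd N s(x, y) = cd N x y := rfl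

lemma mem_board {N : ℕ} (x y : Fin N) : s(x, y) ∈ board N ↔ x ≠ y := by
  rw [board, SimpleGraph.mem_edgeFinset, SimpleGraph.mem_edgeSet, SimpleGraph.top_adj]

lemma card_board (N : ℕ) : ((board N).card : ℝ) = N * (N - 1) / 2 := by
  rw [board, SimpleGraph.card_edgeFinset_top_eq_card_choose_two, Fintype.card_fin, Nat.cast_choose_two]

lemma rank_le (N k : ℕ) : ((board N).filter fun e => ecd N e ≤ k).card ≤ N * k := by
  have hsub : (board N).filter (fun e => ecd N e ≤ k) ⊆
      ((Finset.univ : Finset (Fin N)) ×ˢ Finset.range k).image fun p =>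
        s(p.1, (⟨(p.1 + (p.2 + 1)) % N, Nat.mod_lt _ (lt_of_le_of_lt (Nat.zero_le _) p.1.2)⟩ : Fin N)) := by
    intro e
    induction e using Sym2.inductionOn with
    | hf x y =>
      intro he
      rw [Finset.mem_filter, mem_board, ecd_mk] at he
      obtain ⟨hne, hk⟩ := he
      have hne' : (x : ℕ) ≠ y := fun h => hne (Fin.ext h)
      have hx := x.2
      have hy := y.2
      have main : ∀ x y : Fin N, (x : ℕ) < y → cd N x y ≤ k → s(x, y) ∈
        ((Finset.univ : Finset (Fin N)) ×ˢ Finset.range k).image fun p =>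
        s(p.1, (⟨(p.1 + (p.2 + 1)) % N, Nat.mod_lt _ (lt_of_le_of_lt (Nat.zero_le _) p.1.2)⟩ : Fin N)) := by
        intro x y hxy hk
        have hx := x.2
        have hy := y.2
        rw [Finset.mem_image]
        by_cases h : (y : ℕ) - x ≤ k
        · refine ⟨(x, (y : ℕ) - x - 1), ?_, ?_⟩
          · simp only [Finset.mem_product, Finset.mem_univ, Finset.mem_range, true_and]; omega
          · simp only
            congr 1
            ext
            simp only
            rw [show (x : ℕ) + ((y : ℕ) - x - 1 + 1) = y by omega, Nat.mod_eq_of_lt hy]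
        · have h' : N - ((y : ℕ) - x) ≤ k := by unfold cd at hk; omega
          refine ⟨(y, N - ((y : ℕ) - x) - 1), ?_, ?_⟩
          · simp only [Finset.mem_product, Finset.mem_univ, Finset.mem_range, true_and]; omega
          · simp only
            rw [Sym2.eq_swap]
            congr 1
            ext
            simp only
            rw [show (y : ℕ) + (N - ((y : ℕ) - x) - 1 + 1) = x + N by omega, Nat.add_mod_right,
              Nat.mod_eq_of_lt hx]
      rcases Nat.lt_or_gt_of_ne hne' with h | h
      · exact main x y h hk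
      · rw [Sym2.eq_swap]
        exact main y x h (by rw [cd_comm]; exact hk)
  calc _ ≤ _ := Finset.card_le_card hsub
    _ ≤ _ := Finset.card_image_le
    _ = N * k := by rw [Finset.card_product, Finset.card_univ, Fintype.card_fin, Finset.card_range]

/-- priority list -/
noncomputable def plist (N : ℕ) : List (Sym2 (Fin N)) :=
  (board N).toList.insertionSort fun a b => ecd N a ≤ ecd N b

lemma plist_nodup (N : ℕ) : (plist N).Nodup :=
  (List.perm_insertionSort _ _).nodup_iff.2 (Finset.nodup_toList _)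

lemma plist_toFinset (N : ℕ) : (plist N).toFinset = board N := by
  ext x
  rw [List.mem_toFinset, plist, List.mem_insertionSort, Finset.mem_toList]

lemma mem_plist {N : ℕ} {x : Sym2 (Fin N)} : x ∈ plist N ↔ x ∈ board N := by
  rw [← plist_toFinset, List.mem_toFinset]

lemma plist_length (N : ℕ) : (plist N).length = (board N).card := by
  rw [← plist_toFinset, List.toFinset_card_of_nodup (plist_nodup N)]

lemma plist_pairwise (N : ℕ) : (plist N).Pairwise fun a b => ecd N a ≤ ecd N b := by
  have : Std.Total fun a b : Sym2 (Fin N) => ecd N a ≤ ecd N b := ⟨fun a b => le_total _ _⟩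
  have : IsTrans _ fun a b : Sym2 (Fin N) => ecd N a ≤ ecd N b := ⟨fun a b c => le_trans⟩
  exact List.pairwise_insertionSort _ _

/-- the edges inside `S` -/
def inner {N : ℕ} (S : Finset (Fin N)) : Finset (Sym2 (Fin N)) := S.sym2.filter fun e => ¬ e.IsDiag

lemma inner_subset {N : ℕ} (S : Finset (Fin N)) : inner S ⊆ board N := by
  intro e he
  rw [inner, Finset.mem_filter] at he
  rw [board, SimpleGraph.mem_edgeFinset, SimpleGraph.edgeSet_top]
  exact he.2

lemma W_inner_le (N : ℕ) (hN : 2 ≤ N) (S : Finset (Fin N)) :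
    W (inner S) (plist N) 1 ≤ ∏ e ∈ inner S, ((N : ℝ) * ecd N e) / (N * (N - 1) / 2) := by
  have h1 := W_le_D (inner S) (plist N) 1 1 le_rfl le_rfl
  have hlen : ((1 : ℕ) : ℝ) - 1 + (plist N).length = N * (N - 1) / 2 := by
    rw [plist_length, card_board]; push_cast; ring
  rw [hlen] at h1
  refine le_trans h1 ?_
  have hN' : (2 : ℝ) ≤ N := by exact_mod_cast hN
  have hpos : (0 : ℝ) < N * (N - 1) / 2 := by
    have : (0 : ℝ) < N - 1 := by linarith
    positivity
  have h2 := D_le_prod (inner S) (N * (N - 1) / 2) hpos (fun e => (N : ℝ) * ecd N e) (plist N)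
    (plist_nodup N) 1 (by
      intro i hi
      have := index_le (ecd N) (plist N) (plist_nodup N) (plist_pairwise N) i hi
      rw [plist_toFinset] at this
      have h3 := le_trans this (rank_le N (ecd N (plist N)[i]))
      have : ((1 + i : ℕ) : ℝ) ≤ ((N * ecd N (plist N)[i] : ℕ) : ℝ) := by
        exact_mod_cast (by omega : 1 + i ≤ N * ecd N (plist N)[i])
      simpa using this)
  refine le_trans h2 (le_of_eq ?_)
  have : (inner S).filter (· ∈ plist N) = inner S := by
    apply Finset.filter_true_of_mem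
    intro x hx
    exact mem_plist.2 (inner_subset S hx)
  rw [this]

lemma sum_inner {N : ℕ} (S : Finset (Fin N)) (f : Sym2 (Fin N) → ℝ) :
    ∑ p ∈ S.offDiag, f s(p.1, p.2) = 2 * ∑ e ∈ inner S, f e := by
  rw [inner, Finset.sum_sym2_filter_not_isDiag]
  have h1 : S.offDiag = S.offDiag.filter (fun p => p.1 < p.2) ∪
      S.offDiag.filter (fun p => p.2 < p.1) := by
    ext p
    simp only [Finset.mem_union, Finset.mem_filter, Finset.mem_offDiag]
    constructor
    · intro h
      rcases lt_or_gt_of_ne h.2.2 with h' | h'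
      · exact Or.inl ⟨h, h'⟩
      · exact Or.inr ⟨h, h'⟩
    · rintro (h | h)
      · exact h.1
      · exact h.1
  have h2 : ∑ p ∈ S.offDiag.filter (fun p => p.2 < p.1), f s(p.1, p.2) =
      ∑ p ∈ S.offDiag.filter (fun p => p.1 < p.2), f s(p.1, p.2) := by
    apply Finset.sum_bij (fun p _ => (p.2, p.1))
    · intro p hp
      simp only [Finset.mem_filter, Finset.mem_offDiag] at hp ⊢
      exact ⟨⟨hp.1.2.1, hp.1.1, hp.1.2.2.symm⟩, hp.2⟩
    · intro p _ p' _ h
      simp only [Prod.mk.injEq] at h
      exact Prod.ext h.2 h.1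
    · intro p hp
      simp only [Finset.mem_filter, Finset.mem_offDiag] at hp
      refine ⟨(p.2, p.1), ?_, rfl⟩
      simp only [Finset.mem_filter, Finset.mem_offDiag]
      exact ⟨⟨hp.1.2.1, hp.1.1, hp.1.2.2.symm⟩, hp.2⟩
    · intro p _
      rw [Sym2.eq_swap]
  conv_lhs => rw [h1]
  rw [Finset.sum_union, h2]
  · ring
  · rw [Finset.disjoint_left]
    intro p hp hp'
    rw [Finset.mem_filter] at hp hp'
    exact lt_asymm hp.2 hp'.2

lemma card_inner {N : ℕ} (S : Finset (Fin N)) :
    ((inner S).card : ℝ) * 2 = S.card * S.card - S.card := by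
  have h := sum_inner S fun _ => (1 : ℝ)
  rw [Finset.sum_const, Finset.sum_const, nsmul_eq_mul, nsmul_eq_mul, mul_one, mul_one,
    Finset.offDiag_card] at h
  rw [mul_comm, ← h, Nat.cast_sub (by nlinarith [Nat.zero_le S.card]), Nat.cast_mul]

lemma prod_inner_le (N : ℕ) (hN : 2 ≤ N) (S : Finset (Fin N)) (δ : ℝ) (hδ : 0 < δ) (hδ1 : δ ≤ 1 / 2)
    (hδN : 1 ≤ δ * N) :
    ∏ e ∈ inner S, ((N : ℝ) * ecd N e) / (N * (N - 1) / 2) ≤
      Real.exp (-(1 - δ) / 2 * (S.card : ℝ) ^ 2 + (3 / 2 + 1 / (2 * δ)) * S.card) := by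
  set M := N / 2 with hM
  set q : ℝ := (S.card : ℝ) with hq
  have hq0 : 0 ≤ q := by positivity
  have hN' : (2 : ℝ) ≤ N := by exact_mod_cast hN
  have hM1 : 1 ≤ M := by omega
  have hM0 : (0 : ℝ) < M := by positivity
  have hM2 : ((N : ℝ) - 1) / 2 ≤ M := by
    have : N ≤ 2 * M + 1 := by omega
    have : (N : ℝ) ≤ 2 * M + 1 := by exact_mod_cast this
    linarith
  have hM3 : (M : ℝ) ≤ N / 2 := by
    have : 2 * M ≤ N := by omega
    have : 2 * (M : ℝ) ≤ N := by exact_mod_cast this
    linarith
  have hqN : q ≤ N := by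
    rw [hq]
    have := Finset.card_le_univ S
    rw [Fintype.card_fin] at this
    exact_mod_cast this
  -- the energy bound
  set K := ⌊δ * N⌋₊ with hK
  have hK1 : 1 ≤ K := Nat.le_floor (by exact_mod_cast hδN)
  have hKle : (K : ℝ) ≤ δ * N := Nat.floor_le (by positivity)
  have hKlt : δ * N < K + 1 := Nat.lt_floor_add_one _
  have hKM : K ≤ M := by
    have h1 : (K : ℝ) ≤ N / 2 := by nlinarith
    have h2 : 2 * K ≤ N := by
      have : (2 * K : ℝ) ≤ N := by linarith
      exact_mod_cast this
    omega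
  have hE := energy N hN S K hK1 hKM
  rw [← hM, ← hq] at hE
  have hE2 : (1 - δ) * q ^ 2 - 2 * q - q / δ ≤
      ((M : ℝ) - K) * (q ^ 2 / N - (q ^ 2 / N + q) / (K + 1)) + (q ^ 2 * M / N - q) := by
    have hNpos : (0 : ℝ) < N := by linarith
    have hqq : q ^ 2 / N ≤ q := by
      rw [div_le_iff₀ hNpos]; nlinarith
    have hqq0 : 0 ≤ q ^ 2 / N := by positivity
    have e1 : ((M : ℝ) - K) * (q ^ 2 / N - (q ^ 2 / N + q) / (K + 1)) + (q ^ 2 * M / N - q) =
        (q ^ 2 / N) * (2 * M - K) - (M - K) * ((q ^ 2 / N + q) / (K + 1)) - q := by ring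
    rw [e1]
    have h1 : (1 - δ) * q ^ 2 - q ≤ (q ^ 2 / N) * (2 * M - K) := by
      have h2 : (q ^ 2 / N) * (N - 1 - δ * N) ≤ (q ^ 2 / N) * (2 * M - K) := by
        apply mul_le_mul_of_nonneg_left _ hqq0
        linarith
      have h3 : (q ^ 2 / N) * (N - 1 - δ * N) = (1 - δ) * q ^ 2 - q ^ 2 / N := by
        field_simp
        ring
      linarith
    have h4 : (M - K) * ((q ^ 2 / N + q) / (K + 1)) ≤ q / δ := by
      have h5 : (M - K : ℝ) * ((q ^ 2 / N + q) / (K + 1)) ≤ (N / 2) * ((2 * q) / (δ * N)) := by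
        apply mul_le_mul
        · have : (0 : ℝ) ≤ K := by positivity
          linarith
        · apply div_le_div₀ (by positivity) (by linarith) (by positivity) hKlt.le
        · positivity
        · positivity
      refine le_trans h5 (le_of_eq ?_)
      field_simp
    linarith
  -- logarithms
  have hS := sum_inner S fun e => Real.log ((M : ℝ) / ecd N e)
  simp only [ecd_mk] at hS
  have hlow : ((1 - δ) * q ^ 2 - 2 * q - q / δ) / 2 ≤ ∑ e ∈ inner S, Real.log ((M : ℝ) / ecd N e) := by
    linarith
  have hterm : ∀ e ∈ inner S, ((N : ℝ) * ecd N e) / (N * (N - 1) / 2) ≤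
      Real.exp (-Real.log ((M : ℝ) / ecd N e) + 1 / (N - 1)) := by
    intro e he
    have hb : e ∈ board N := inner_subset S he
    have hpos : 1 ≤ ecd N e ∧ ecd N e ≤ M := by
      induction e using Sym2.inductionOn with
      | hf x y =>
        rw [mem_board] at hb
        rw [ecd_mk]
        exact ⟨cd_pos x.2 y.2 (fun h => hb (Fin.ext h)), cd_le x.2 y.2⟩
    have hd0 : (0 : ℝ) < ecd N e := by exact_mod_cast hpos.1
    rw [Real.exp_add, Real.exp_neg, Real.exp_log (by positivity)]
    have hN1 : (0 : ℝ) < N - 1 := by linarith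
    have h1 : 1 + 1 / ((N : ℝ) - 1) ≤ Real.exp (1 / (N - 1)) := by
      have := Real.add_one_le_exp (1 / ((N : ℝ) - 1))
      linarith
    calc ((N : ℝ) * ecd N e) / (N * (N - 1) / 2) = (ecd N e : ℝ) / M * (2 * M / (N - 1)) := by
          field_simp
      _ ≤ (ecd N e : ℝ) / M * (1 + 1 / (N - 1)) := by
          apply mul_le_mul_of_nonneg_left _ (by positivity)
          rw [div_le_iff₀ hN1]
          have : (1 + 1 / ((N : ℝ) - 1)) * (N - 1) = N := by field_simp; ring
          rw [this]
          linarith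
      _ ≤ ((M : ℝ) / ecd N e)⁻¹ * Real.exp (1 / (N - 1)) := by
          rw [inv_div]
          exact mul_le_mul_of_nonneg_left h1 (by positivity)
  calc ∏ e ∈ inner S, ((N : ℝ) * ecd N e) / (N * (N - 1) / 2)
      ≤ ∏ e ∈ inner S, Real.exp (-Real.log ((M : ℝ) / ecd N e) + 1 / (N - 1)) := by
        apply Finset.prod_le_prod
        · intro e _
          have : (0 : ℝ) ≤ (N : ℝ) - 1 := by linarith
          positivity
        · exact hterm
    _ = Real.exp (-(∑ e ∈ inner S, Real.log ((M : ℝ) / ecd N e)) + (inner S).card * (1 / (N - 1))) := by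
        rw [← Real.exp_sum, Finset.sum_add_distrib, Finset.sum_neg_distrib, Finset.sum_const,
          nsmul_eq_mul]
    _ ≤ _ := by
        apply Real.exp_le_exp.2
        have hcard : ((inner S).card : ℝ) * (1 / (N - 1)) ≤ q / 2 := by
          have h1 := card_inner S
          rw [← hq] at h1
          have hN1 : (0 : ℝ) < N - 1 := by linarith
          rw [mul_one_div, div_le_iff₀ hN1]
          nlinarith
        have e2 : q / δ / 2 = 1 / (2 * δ) * q := by field_simp
        linarith

end Clique

section Final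

lemma prio_legal (N : ℕ) (d : Sym2 (Fin N)) : Legal N (prio (plist N) d) := by
  intro h hh
  obtain ⟨e, he, heh⟩ := hh
  have hne : (plist N).filter (· ∉ h) ≠ [] := by
    intro h0
    have : e ∈ (plist N).filter (· ∉ h) := by
      rw [List.mem_filter]
      exact ⟨mem_plist.2 he, by simpa using heh⟩
    rw [h0] at this
    simp at this
  rcases hcase : (plist N).filter (· ∉ h) with _ | ⟨b, t⟩
  · exact absurd hcase hne
  · have hσ : prio (plist N) d h = b := by
      rw [prio, hcase]; rfl
    have hb : b ∈ (plist N).filter (· ∉ h) := by rw [hcase]; exact List.mem_cons_self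
    rw [List.mem_filter] at hb
    rw [hσ]
    exact ⟨mem_plist.1 hb.1, by simpa using hb.2⟩

lemma clique_subset (N q : ℕ) :
    {M : Finset (Sym2 (Fin N)) | ¬ (SimpleGraph.fromEdgeSet (M : Set (Sym2 (Fin N)))).CliqueFree q} ⊆
      ⋃ S ∈ Finset.powersetCard q (Finset.univ : Finset (Fin N)),
        {M : Finset (Sym2 (Fin N)) | inner S ⊆ M} := by
  intro M hM
  rw [Set.mem_ofPred_eq, SimpleGraph.CliqueFree] at hM
  push Not at hM
  obtain ⟨S, hS⟩ := hM
  rw [SimpleGraph.isNClique_iff] at hS
  simp only [Set.mem_iUnion, Finset.mem_powersetCard, Set.mem_ofPred_eq]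
  refine ⟨S, ⟨Finset.subset_univ _, hS.2⟩, ?_⟩
  intro e he
  induction e using Sym2.inductionOn with
  | hf x y =>
    rw [inner, Finset.mem_filter, Finset.mk_mem_sym2_iff, Sym2.mk_isDiag_iff] at he
    have := hS.1 (Finset.mem_coe.2 he.1.1) (Finset.mem_coe.2 he.1.2) he.2
    rw [SimpleGraph.fromEdgeSet_adj] at this
    exact_mod_cast this.1

lemma p_le (N : ℕ) (hN : 2 ≤ N) (q : ℕ) (δ : ℝ) (hδ : 0 < δ) (hδ1 : δ ≤ 1 / 2)
    (hδN : 1 ≤ δ * N) :
    p N q ≤ ENNReal.ofReal (Real.exp (q * Real.log N - (1 - δ) / 2 * (q : ℝ) ^ 2 +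
      (3 / 2 + 1 / (2 * δ)) * q)) := by
  have hN0 : (0 : ℝ) < N := by positivity
  let d : Sym2 (Fin N) := s(⟨0, by omega⟩, ⟨1, by omega⟩)
  have h1 : p N q ≤ cliqueProb N q (prio (plist N) d) :=
    iInf_le (fun σ : {σ : List (Sym2 (Fin N)) → Sym2 (Fin N) // Legal N σ} => cliqueProb N q σ)
      ⟨_, prio_legal N d⟩
  refine le_trans h1 ?_
  rw [cliqueProb]
  have h2 : ∀ S ∈ Finset.powersetCard q (Finset.univ : Finset (Fin N)),
      (play (prio (plist N) d) (board N).card [] ∅ (board N)).toOuterMeasure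
        {M : Finset (Sym2 (Fin N)) | inner S ⊆ M} ≤
      ENNReal.ofReal (Real.exp (-(1 - δ) / 2 * (q : ℝ) ^ 2 + (3 / 2 + 1 / (2 * δ)) * q)) := by
    intro S hS
    rw [Finset.mem_powersetCard] at hS
    have hfil : (plist N).filter (· ∉ ([] : List (Sym2 (Fin N)))) = plist N := by
      rw [List.filter_eq_self]
      intro a _
      simp
    have h3 := play_le (plist N) (plist_nodup N) d (inner S) (board N).card [] ∅ (board N)
      (by simp) (by rw [hfil, plist_toFinset]) le_rfl
    rw [hfil] at h3
    refine le_trans h3 (ENNReal.ofReal_le_ofReal ?_)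
    have h4 := le_trans (W_inner_le N hN S) (prod_inner_le N hN S δ hδ hδ1 hδN)
    rw [hS.2] at h4
    exact h4
  calc _ ≤ (play (prio (plist N) d) (board N).card [] ∅ (board N)).toOuterMeasure
        (⋃ S ∈ Finset.powersetCard q (Finset.univ : Finset (Fin N)),
          {M : Finset (Sym2 (Fin N)) | inner S ⊆ M}) :=
        MeasureTheory.OuterMeasure.mono _ (clique_subset N q)
    _ ≤ ∑ S ∈ Finset.powersetCard q (Finset.univ : Finset (Fin N)),
        (play (prio (plist N) d) (board N).card [] ∅ (board N)).toOuterMeasure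
          {M : Finset (Sym2 (Fin N)) | inner S ⊆ M} :=
        MeasureTheory.measure_biUnion_finset_le _ _
    _ ≤ ∑ S ∈ Finset.powersetCard q (Finset.univ : Finset (Fin N)),
        ENNReal.ofReal (Real.exp (-(1 - δ) / 2 * (q : ℝ) ^ 2 + (3 / 2 + 1 / (2 * δ)) * q)) :=
        Finset.sum_le_sum h2
    _ = ENNReal.ofReal ((N.choose q : ℝ) *
          Real.exp (-(1 - δ) / 2 * (q : ℝ) ^ 2 + (3 / 2 + 1 / (2 * δ)) * q)) := by
        rw [Finset.sum_const, Finset.card_powersetCard, Finset.card_univ, Fintype.card_fin,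
          nsmul_eq_mul, ENNReal.ofReal_mul (by positivity), ENNReal.ofReal_natCast]
    _ ≤ _ := by
        apply ENNReal.ofReal_le_ofReal
        have h5 : (N.choose q : ℝ) ≤ Real.exp (q * Real.log N) := by
          rw [Real.exp_nat_mul, Real.exp_log hN0]
          exact_mod_cast Nat.choose_le_pow N q
        calc _ ≤ Real.exp (q * Real.log N) *
              Real.exp (-(1 - δ) / 2 * (q : ℝ) ^ 2 + (3 / 2 + 1 / (2 * δ)) * q) :=
              mul_le_mul_of_nonneg_right h5 (by positivity)
          _ = _ := by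
              rw [← Real.exp_add]
              congr 1
              ring

lemma p_le_tail (ε : ℝ) (hε : 0 < ε) : ∃ C : ℝ, ∀ᶠ N : ℕ in atTop, ∀ q : ℕ,
    (2 + ε) * Real.log N ≤ q → p N q ≤ ENNReal.ofReal (Real.exp (C - ε / 4 * Real.log N)) := by
  set δ : ℝ := ε / (4 + 2 * ε) with hδdef
  have hδ : 0 < δ := by positivity
  have hδ1 : δ ≤ 1 / 2 := by
    rw [hδdef, div_le_div_iff₀ (by positivity) (by norm_num)]
    linarith
  set C : ℝ := 3 / 2 + 1 / (2 * δ) with hC
  have hlog : Tendsto (fun N : ℕ => Real.log (N : ℝ)) atTop atTop :=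
    Real.tendsto_log_atTop.comp tendsto_natCast_atTop_atTop
  have hlin : Tendsto (fun N : ℕ => δ * (N : ℝ)) atTop atTop :=
    tendsto_natCast_atTop_atTop.const_mul_atTop hδ
  refine ⟨C, ?_⟩
  filter_upwards [eventually_ge_atTop 2, hlin.eventually_ge_atTop 1,
    hlog.eventually_ge_atTop (4 * C / ε), hlog.eventually_ge_atTop 1] with N hN2 hN1 hNC hlog1 q hq
  refine le_trans (p_le N hN2 q δ hδ hδ1 hN1) (ENNReal.ofReal_le_ofReal (Real.exp_le_exp.2 ?_))
  rw [← hC]
  set L := Real.log (N : ℝ) with hL
  have hL0 : 0 < L := by linarith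
  have hq1 : (1 : ℝ) ≤ q := by
    have : 2 * 1 ≤ (2 + ε) * L := by nlinarith
    linarith
  have h1 : (1 - δ) * (2 + ε) = 2 + ε / 2 := by
    rw [hδdef]; field_simp; ring
  have h2 : (2 + ε / 2) * L * q ≤ (1 - δ) * (q : ℝ) ^ 2 := by
    rw [← h1]
    have : 0 ≤ 1 - δ := by linarith
    nlinarith [mul_le_mul_of_nonneg_left hq (mul_nonneg this (by linarith : (0 : ℝ) ≤ q))]
  have h3 : C ≤ ε / 4 * L := by
    rw [div_le_iff₀ hε] at hNC
    linarith
  nlinarith

/-! ### Sanity checks of the model -/

lemma play_support (N : ℕ) (σ : List (Sym2 (Fin N)) → Sym2 (Fin N)) (hσ : Legal N σ) (n : ℕ) :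
    ∀ (h : List (Sym2 (Fin N))) (M U : Finset (Sym2 (Fin N))),
      (∀ x, x ∈ U ↔ x ∈ board N ∧ x ∉ h) → Disjoint M U → U.card ≤ 2 * n →
      ∀ R ∈ (play σ n h M U).support, R ⊆ M ∪ U ∧ R.card = M.card + (U.card + 1) / 2 := by
  induction n with
  | zero =>
    intro h M U hU hd hn R hR
    rw [play, PMF.support_pure, Set.mem_singleton_iff] at hR
    have : U.card = 0 := by omega
    subst hR
    exact ⟨Finset.subset_union_left, by omega⟩
  | succ n ih =>
    intro h M U hU hd hn R hR
    by_cases hne : U.Nonempty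
    swap
    · rw [play, dif_neg hne, PMF.support_pure, Set.mem_singleton_iff] at hR
      have : U.card = 0 := by rw [Finset.card_eq_zero]; exact Finset.not_nonempty_iff_eq_empty.1 hne
      subst hR
      exact ⟨Finset.subset_union_left, by omega⟩
    rw [play, dif_pos hne, PMF.mem_support_bind_iff] at hR
    obtain ⟨e, he, hR⟩ := hR
    rw [PMF.mem_support_uniformOfFinset_iff] at he
    have hU1 : (U.erase e).card + 1 = U.card := Finset.card_erase_add_one he
    have hU2 : ∀ x, x ∈ U.erase e ↔ x ∈ board N ∧ x ∉ e :: h := by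
      intro x
      rw [Finset.mem_erase, hU, List.mem_cons, not_or]
      tauto
    have heM : e ∉ M := fun hh => (Finset.disjoint_left.1 hd hh) he
    have hMc : (insert e M).card = M.card + 1 := Finset.card_insert_of_notMem heM
    have hcard2 : ((U.erase e).erase (σ (e :: h))).card = (U.erase e).card - 1 := by
      by_cases hne2 : (U.erase e).Nonempty
      · obtain ⟨y, hy⟩ := hne2
        have h1 := hσ (e :: h) ⟨y, ((hU2 y).1 hy).1, ((hU2 y).1 hy).2⟩
        exact Finset.card_erase_of_mem ((hU2 _).2 h1)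
      · have h0 : U.erase e = ∅ := Finset.not_nonempty_iff_eq_empty.1 hne2
        rw [h0]; simp
    have := ih (σ (e :: h) :: e :: h) (insert e M) ((U.erase e).erase (σ (e :: h))) ?_ ?_ ?_ R hR
    · refine ⟨?_, by omega⟩
      intro x hx
      have h1 := this.1 hx
      rw [Finset.mem_union, Finset.mem_insert] at h1
      rw [Finset.mem_union]
      rcases h1 with (h1 | h1) | h1
      · exact Or.inr (h1 ▸ he)
      · exact Or.inl h1
      · exact Or.inr (Finset.mem_of_mem_erase (Finset.mem_of_mem_erase h1))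
    · intro x
      simp only [Finset.mem_erase, hU2, List.mem_cons, not_or]
      tauto
    · rw [Finset.disjoint_insert_left]
      constructor
      · intro hh
        exact (Finset.mem_erase.1 (Finset.mem_of_mem_erase hh)).1 rfl
      · exact hd.mono_right ((Finset.erase_subset _ _).trans (Finset.erase_subset _ _))
    · omega

/-- Against a legal strategy, Maker's final graph consists of exactly half of the edges of `K_N`
(rounded up). -/
theorem maker_gets_half (N : ℕ) (σ : List (Sym2 (Fin N)) → Sym2 (Fin N)) (hσ : Legal N σ)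
    (R : Finset (Sym2 (Fin N))) (hR : R ∈ (play σ (board N).card [] ∅ (board N)).support) :
    R ⊆ board N ∧ R.card = ((board N).card + 1) / 2 := by
  have := play_support N σ hσ (board N).card [] ∅ (board N) (by simp) (by simp) (by omega) R hR
  simpa using this

/-- There is a legal strategy as soon as there is an edge, and then `p_N(q)` is at most one. -/
theorem p_le_one (N q : ℕ) (hN : 2 ≤ N) : p N q ≤ 1 := by
  have h1 : p N q ≤ cliqueProb N q (prio (plist N) s(⟨0, by omega⟩, ⟨1, by omega⟩)) :=
    iInf_le (fun σ : {σ : List (Sym2 (Fin N)) → Sym2 (Fin N) // Legal N σ} => cliqueProb N q σ)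
      ⟨_, prio_legal N _⟩
  exact le_trans h1 (toOuterMeasure_le_one _ _)

end Final

end Pool.Agent.Helper679.RandomMaker
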